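import Pool.Agent.H91.NVA.Rel
import Pool.Agent.H25.AFK.Push

/-!
# The natural box in natural coordinates

`NatP`: the pointwise data at a base point. `nbx_nat`: the natural box of the chain is in a natural
unit box, up to `2 ^ (k + 2)`. `nat_nbx`: a natural box is in a multiple of the natural box of the
chain. `nat_bd`: bounds of a polynomial of the first three places go to the natural coordinates.
-/

set_option autoImplicit false

namespace Pool.NV24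

open Finset Real MvPolynomial
open Pool.Agent.H49.Ent Pool.Agent.H32.Dense Pool.STK Pool.KA Pool.KSAT Pool.K2S Pool.PB Pool.S6C
open Pool.GEN Pool.CHT Pool.ISO Pool.D2R
open Pool.NVA91 (nco_pt dvp)
open Pool.AFK25 (psh eval_psh deg_psh)

variable {m : ℕ}

/-- **The data at a base point** `a`: the labels `G` of a ball of the window `w`, the affine labels
`U`, `V` of the places `1`, `2`. -/
structure NatP (c : ℕ → Fin m) (D w g1 g2 k : ℕ) (g : ℕ → ℕ)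
    (G : ℕ → MvPolynomial (Option (Fin m)) ℝ) (U V : MvPolynomial (Option (Fin m)) ℝ)
    (a : Option (Fin m) → ℝ) : Prop where
  inj : Set.InjOn c (Set.Iio 3)
  D1 : 1 ≤ D
  deg : ∀ l, (G l).totalDegree ≤ D
  dep : ∀ l, DepC c l (G l)
  dU : U.totalDegree ≤ 1
  dV : V.totalDegree ≤ 1
  eU : DepC c 1 U
  eV : DepC c 2 V
  pU : |a (some (c 1)) - eval a U| ≤ 1 / 2 ^ g1
  pV : |a (some (c 2)) - eval a V| ≤ 1 / 2 ^ g2
  g0 : ∀ b : Option (Fin m) → ℝ, |b none - a none| ≤ 1 / 2 ^ w →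
    |a (some (c 0)) - eval b (G 0)| ≤ 2 ^ k / 2 ^ w
  nU : ∀ b, NBx c G g w (a none) 1 b → |eval b U - eval b (G 1)| ≤ 2 ^ k / 2 ^ g1
  nV : ∀ b, NBx c G g w (a none) 2 b → |eval b V - eval b (G 2)| ≤ 2 ^ k / 2 ^ g2
  s0 : w ≤ g 0 + k
  s0' : g 0 ≤ w + k
  s1 : g 1 ≤ g1 + k
  s1' : g1 ≤ g 1 + k
  s2 : g 2 ≤ g2 + k
  s2' : g2 ≤ g 2 + k

variable {c : ℕ → Fin m} {D w g1 g2 k : ℕ} {g : ℕ → ℕ}
  {G : ℕ → MvPolynomial (Option (Fin m)) ℝ} {U V : MvPolynomial (Option (Fin m)) ℝ}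
  {a : Option (Fin m) → ℝ}

theorem rat_le {x y k : ℕ} (h : x ≤ y + k) : (2 : ℝ) ^ x / 2 ^ y ≤ 2 ^ k := by
  rw [div_le_iff₀ (by positivity), ← pow_add]
  exact pow_le_pow_right₀ (by norm_num) (by omega)

/-- The last two natural coordinates of the base point. -/
theorem NatP.base (N : NatP c D w g1 g2 k g G U V a) (τ : ℝ) (j : Fin 2) :
    |nco c w g1 g2 τ U V a (vt j)| ≤ 1 := by
  fin_cases j
  · show |2 ^ g1 * (a (some (c 1)) - eval a U)| ≤ 1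
    rw [abs_mul, abs_of_pos (show (0 : ℝ) < 2 ^ g1 by positivity)]
    calc (2 : ℝ) ^ g1 * |a (some (c 1)) - eval a U| ≤ 2 ^ g1 * (1 / 2 ^ g1) :=
          mul_le_mul_of_nonneg_left N.pU (by positivity)
      _ = 1 := by field_simp
  · show |2 ^ g2 * (a (some (c 2)) - eval a V)| ≤ 1
    rw [abs_mul, abs_of_pos (show (0 : ℝ) < 2 ^ g2 by positivity)]
    calc (2 : ℝ) ^ g2 * |a (some (c 2)) - eval a V| ≤ 2 ^ g2 * (1 / 2 ^ g2) :=
          mul_le_mul_of_nonneg_left N.pV (by positivity)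
      _ = 1 := by field_simp

/-- **The natural box of the chain** in natural coordinates. -/
theorem NatP.nbx_nat (N : NatP c D w g1 g2 k g G U V a) (τ : ℝ) {b : Option (Fin m) → ℝ}
    (hb : NBx c G g w (a none) 3 b) :
    ∀ o, |nco c w g1 g2 τ U V b o - nco c w g1 g2 τ U V a o| ≤ 2 ^ (k + 2) := by
  have hk1 : (1 : ℝ) ≤ 2 ^ k := one_le_pow₀ (by norm_num)
  have hk4 : (2 : ℝ) ^ (k + 2) = 4 * 2 ^ k := by
    rw [pow_add]
    ring
  have s0 := rat_le N.s0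
  have s1 := rat_le N.s1'
  have s2 := rat_le N.s2'
  have hb0 : |b none - a none| ≤ 1 / 2 ^ w := hb.1
  refine cases4 ?_ ?_ fun j => ?_
  · show |2 ^ w * b none - τ - (2 ^ w * a none - τ)| ≤ _
    have e1 : 2 ^ w * b none - τ - (2 ^ w * a none - τ) = 2 ^ w * (b none - a none) := by ring
    rw [e1, abs_mul, abs_of_pos (show (0 : ℝ) < 2 ^ w by positivity), hk4]
    have e2 : (2 : ℝ) ^ w * |b none - a none| ≤ 2 ^ w * (1 / 2 ^ w) :=
      mul_le_mul_of_nonneg_left hb0 (by positivity)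
    have e3 : (2 : ℝ) ^ w * (1 / 2 ^ w) = 1 := by field_simp
    linarith
  · have a2 := hb.2 0 (by norm_num)
    have a3 := N.g0 b hb0
    show |2 ^ w * b (some (c 0)) - 2 ^ w * a (some (c 0))| ≤ _
    have a5 : |b (some (c 0)) - a (some (c 0))| ≤ 1 / 2 ^ g 0 + 2 ^ k / 2 ^ w := by
      calc |b (some (c 0)) - a (some (c 0))| =
            |(b (some (c 0)) - eval b (G 0)) - (a (some (c 0)) - eval b (G 0))| := by
            congr 1
            ring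
        _ ≤ _ := abs_sub _ _
        _ ≤ _ := add_le_add a2 a3
    rw [← mul_sub, abs_mul, abs_of_pos (show (0 : ℝ) < 2 ^ w by positivity)]
    refine (mul_le_mul_of_nonneg_left a5 (by positivity)).trans ?_
    have e4 : (2 : ℝ) ^ w * (1 / 2 ^ g 0 + 2 ^ k / 2 ^ w) = 2 ^ w / 2 ^ g 0 + 2 ^ k := by
      field_simp
    rw [e4, hk4]
    linarith
  · have key : ∀ (gg l : ℕ) (W : MvPolynomial (Option (Fin m)) ℝ),
        |b (some (c l)) - eval b (G l)| ≤ 1 / 2 ^ g l →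
        |eval b W - eval b (G l)| ≤ 2 ^ k / 2 ^ gg →
        (2 : ℝ) ^ gg / 2 ^ g l ≤ 2 ^ k →
        |2 ^ gg * (b (some (c l)) - eval b W)| ≤ 2 ^ k + 2 ^ k := by
      intro gg l W q1 q2 q3
      rw [abs_mul, abs_of_pos (show (0 : ℝ) < 2 ^ gg by positivity)]
      have q4 : |b (some (c l)) - eval b W| ≤ 1 / 2 ^ g l + 2 ^ k / 2 ^ gg := by
        calc |b (some (c l)) - eval b W| =
              |(b (some (c l)) - eval b (G l)) - (eval b W - eval b (G l))| := by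
              congr 1
              ring
          _ ≤ _ := abs_sub _ _
          _ ≤ _ := add_le_add q1 q2
      refine (mul_le_mul_of_nonneg_left q4 (by positivity)).trans ?_
      have e4 : (2 : ℝ) ^ gg * (1 / 2 ^ g l + 2 ^ k / 2 ^ gg) = 2 ^ gg / 2 ^ g l + 2 ^ k := by
        field_simp
      rw [e4]
      linarith
    have a1 := N.base τ j
    have a2 : |nco c w g1 g2 τ U V b (vt j)| ≤ 2 ^ k + 2 ^ k := by
      fin_cases j
      · exact key g1 1 _ (hb.2 1 (by norm_num)) (N.nU b (hb.mono le_rfl (by omega))) s1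
      · exact key g2 2 _ (hb.2 2 (by norm_num)) (N.nV b (hb.mono le_rfl (by omega))) s2
    rw [hk4]
    rw [abs_le] at a1 a2 ⊢
    constructor <;> linarith [a1.1, a1.2, a2.1, a2.2]

/-- **A natural box** in the old coordinates: a point with given natural coordinates is in a multiple
of the natural box of the chain. -/
theorem nat_nbx (D : ℕ) : ∃ C : ℕ, ∀ {m : ℕ} {c : ℕ → Fin m} {w g1 g2 k : ℕ} {g : ℕ → ℕ}
    {G : ℕ → MvPolynomial (Option (Fin m)) ℝ} {U V : MvPolynomial (Option (Fin m)) ℝ}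
    {a : Option (Fin m) → ℝ}, NatP c D w g1 g2 k g G U V a → ∀ (τ : ℝ) (ξ : V4),
    |ξ none - nco c w g1 g2 τ U V a none| ≤ 1 →
    (∀ o, |ξ o - nco c w g1 g2 τ U V a o| ≤ 2) →
    ∃ b : Option (Fin m) → ℝ, nco c w g1 g2 τ U V b = ξ ∧ |b none - a none| ≤ 1 / 2 ^ w ∧
      ∀ l < 3, |b (some (c l)) - eval b (G l)| ≤ 2 ^ (C * (k + 1)) / 2 ^ g l := by
  obtain ⟨c₀, D₁, hD₁, hdil⟩ := nbx_dil 4 (fun _ => D)
  refine ⟨c₀ + D₁ * (c₀ + 2 * D₁ + 2) + 2, ?_⟩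
  intro m c w g1 g2 k g G U V a N τ ξ hξ0 hξ
  have hk1 : (1 : ℝ) ≤ 2 ^ k := one_le_pow₀ (by norm_num)
  have hk4 : (2 : ℝ) ^ (k + 2) = 4 * 2 ^ k := by
    rw [pow_add]
    ring
  have r0 : (1 : ℝ) / 2 ^ w ≤ 2 ^ k / 2 ^ g 0 := dvp N.s0'
  have r1 : (1 : ℝ) / 2 ^ g1 ≤ 2 ^ k / 2 ^ g 1 := dvp N.s1
  have r2 : (1 : ℝ) / 2 ^ g2 ≤ 2 ^ k / 2 ^ g 2 := dvp N.s2
  obtain ⟨b, b0, b1, b2, b3, b4⟩ := nco_pt N.inj w g1 g2 τ N.eU N.eV ξ
  have hbt : |b none - a none| ≤ 1 / 2 ^ w := by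
    have a2 : nco c w g1 g2 τ U V a none = 2 ^ w * a none - τ := rfl
    rw [a2] at hξ0
    rw [b1]
    have e1 : (ξ none + τ) / 2 ^ w - a none = (ξ none - (2 ^ w * a none - τ)) / 2 ^ w := by
      field_simp
      ring
    rw [e1, abs_div, abs_of_pos (show (0 : ℝ) < 2 ^ w by positivity)]
    exact div_le_div_of_nonneg_right hξ0 (by positivity)
  have hq0 : |b (some (c 0)) - eval b (G 0)| ≤ 2 ^ (2 * k + 2) / 2 ^ g 0 := by
    have a1 := hξ (some 0)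
    have a2 : nco c w g1 g2 τ U V a (some 0) = 2 ^ w * a (some (c 0)) := rfl
    rw [a2] at a1
    have a3 := N.g0 b hbt
    have a4 : |b (some (c 0)) - a (some (c 0))| ≤ 2 * (1 / 2 ^ w) := by
      have e1 : b (some (c 0)) - a (some (c 0)) = (ξ (some 0) - 2 ^ w * a (some (c 0))) / 2 ^ w := by
        rw [b2]
        field_simp
      rw [e1, abs_div, abs_of_pos (show (0 : ℝ) < 2 ^ w by positivity), mul_one_div]
      exact div_le_div_of_nonneg_right a1 (by positivity)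
    have e2 : (2 : ℝ) ^ k / 2 ^ w = 2 ^ k * (1 / 2 ^ w) := by ring
    have e3 : (2 : ℝ) ^ (2 * k + 2) / 2 ^ g 0 = 4 * 2 ^ k * (2 ^ k / 2 ^ g 0) := by
      rw [show 2 * k + 2 = k + (k + 2) by ring, pow_add, hk4]
      ring
    have hw0 : (0 : ℝ) < 1 / 2 ^ w := by positivity
    calc |b (some (c 0)) - eval b (G 0)| =
          |(b (some (c 0)) - a (some (c 0))) + (a (some (c 0)) - eval b (G 0))| := by
          congr 1
          ring
      _ ≤ _ := abs_add_le _ _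
      _ ≤ 2 * (1 / 2 ^ w) + 2 ^ k / 2 ^ w := add_le_add a4 a3
      _ ≤ 4 * 2 ^ k * (1 / 2 ^ w) := by
          rw [e2]
          nlinarith
      _ ≤ 4 * 2 ^ k * (2 ^ k / 2 ^ g 0) := mul_le_mul_of_nonneg_left r0 (by positivity)
      _ = _ := e3.symm
  obtain ⟨n₀, hn₀⟩ : ∃ n₀, n₀ = 2 * k + 2 := ⟨_, rfl⟩
  rw [← hn₀] at hq0
  obtain ⟨n₁, hn₁⟩ : ∃ n₁, n₁ = c₀ + n₀ * D₁ + n₀ := ⟨_, rfl⟩
  obtain ⟨n₂, hn₂⟩ : ∃ n₂, n₂ = c₀ + n₁ * D₁ + n₀ := ⟨_, rfl⟩
  have h01 : n₀ ≤ n₁ := by omega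
  have h12 : n₁ ≤ n₂ := by
    have : n₁ ≤ n₁ * D₁ := Nat.le_mul_of_pos_right _ hD₁
    omega
  have hup : ∀ {n n' a : ℕ} {x : ℝ}, n ≤ n' → |x| ≤ 2 ^ n / 2 ^ a → |x| ≤ 2 ^ n' / 2 ^ a :=
    fun {n n' a x} hn hx => hx.trans (div_le_div_of_nonneg_right
      (pow_le_pow_right₀ (by norm_num) hn) (by positivity))
  have key : ∀ (gg l n n' : ℕ) (W : MvPolynomial (Option (Fin m)) ℝ) (x : ℝ),
      b (some (c l)) = x / 2 ^ gg + eval b W → |x| ≤ 3 →
      |eval b (W - G l)| ≤ 2 ^ n * (2 ^ k / 2 ^ gg) → (1 : ℝ) / 2 ^ gg ≤ 2 ^ k / 2 ^ g l →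
      n' = n + (2 * k + 2) →
      |b (some (c l)) - eval b (G l)| ≤ 2 ^ n' / 2 ^ g l := by
    intro gg l n n' W x q1 q2 q3 q4 q5
    have hn1 : (1 : ℝ) ≤ 2 ^ n := one_le_pow₀ (by norm_num)
    have hg0 : (0 : ℝ) < 1 / 2 ^ gg := by positivity
    rw [map_sub] at q3
    have e1 : b (some (c l)) - eval b (G l) = x / 2 ^ gg + (eval b W - eval b (G l)) := by
      rw [q1]
      ring
    have e2 : |x / 2 ^ gg| ≤ 3 * (1 / 2 ^ gg) := by
      rw [abs_div, abs_of_pos (show (0 : ℝ) < 2 ^ gg by positivity), mul_one_div]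
      exact div_le_div_of_nonneg_right q2 (by positivity)
    have e3 : (2 : ℝ) ^ n * (2 ^ k / 2 ^ gg) = 2 ^ n * 2 ^ k * (1 / 2 ^ gg) := by ring
    have e4 : (1 : ℝ) ≤ 2 ^ n * 2 ^ k := by nlinarith
    have e5 : (2 : ℝ) ^ n' / 2 ^ g l = 4 * (2 ^ n * 2 ^ k) * (2 ^ k / 2 ^ g l) := by
      rw [q5, show n + (2 * k + 2) = n + k + (k + 2) by ring, pow_add, pow_add, hk4]
      ring
    rw [e1]
    calc |x / 2 ^ gg + (eval b W - eval b (G l))| ≤
          3 * (1 / 2 ^ gg) + 2 ^ n * 2 ^ k * (1 / 2 ^ gg) := by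
          refine (abs_add_le _ _).trans (add_le_add e2 ?_)
          rw [← e3]
          exact q3
      _ ≤ 4 * (2 ^ n * 2 ^ k) * (1 / 2 ^ gg) := by nlinarith
      _ ≤ 4 * (2 ^ n * 2 ^ k) * (2 ^ k / 2 ^ g l) := mul_le_mul_of_nonneg_left q4 (by positivity)
      _ = _ := e5.symm
  have hx3 : ∀ j, |ξ (vt j)| ≤ 3 := by
    intro j
    have a1 := hξ (vt j)
    have a2 := N.base τ j
    rw [abs_le] at a1 a2 ⊢
    constructor <;> linarith [a1.1, a1.2, a2.1, a2.2]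
  have hq1 : |b (some (c 1)) - eval b (G 1)| ≤ 2 ^ n₁ / 2 ^ g 1 := by
    refine key g1 1 (c₀ + n₀ * D₁) n₁ _ _ b3 (hx3 0) ?_ r1 (by omega)
    refine hdil n₀ (by norm_num) (N.inj.mono (Set.Iio_subset_Iio (by omega))) N.deg
      N.dep (i := 1) (Q := U - G 1)
      (fun x x' q1 q2 => by
        rw [map_sub, map_sub, N.eU x x' q1 q2, N.dep 1 x x' q1 q2])
      ((totalDegree_sub _ _).trans (max_le (N.dU.trans N.D1) (N.deg 1))) (by positivity)
      (fun x hx => by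
        rw [map_sub]
        exact N.nU x hx) b hbt fun l hl => ?_
    have : l = 0 := by omega
    rw [this]
    exact hq0
  have hq2 : |b (some (c 2)) - eval b (G 2)| ≤ 2 ^ n₂ / 2 ^ g 2 := by
    refine key g2 2 (c₀ + n₁ * D₁) n₂ _ _ b4 (hx3 1) ?_ r2 (by omega)
    refine hdil n₁ (by norm_num) (N.inj.mono (Set.Iio_subset_Iio (by omega))) N.deg
      N.dep (i := 2) (Q := V - G 2)
      (fun x x' q1 q2 => by
        rw [map_sub, map_sub, N.eV x x' q1 q2, N.dep 2 x x' q1 q2])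
      ((totalDegree_sub _ _).trans (max_le (N.dV.trans N.D1) (N.deg 2))) (by positivity)
      (fun x hx => by
        rw [map_sub]
        exact N.nV x hx) b hbt fun l hl => ?_
    have : l = 0 ∨ l = 1 := by omega
    rcases this with rfl | rfl
    · exact hup h01 hq0
    · exact hq1
  obtain ⟨X, hX⟩ : ∃ X, X = k + 1 := ⟨_, rfl⟩
  have g0 : n₀ = 2 * X := by omega
  have g1' : n₁ ≤ X * (c₀ + 2 * D₁ + 2) := by
    rw [hn₁, g0]
    nlinarith [Nat.zero_le (c₀ * k)]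
  have g2' : n₂ ≤ X * (c₀ + D₁ * (c₀ + 2 * D₁ + 2) + 2) := by
    have q := Nat.mul_le_mul_right D₁ g1'
    rw [hn₂, g0]
    nlinarith [Nat.zero_le (c₀ * k)]
  have hfin : n₂ ≤ (c₀ + D₁ * (c₀ + 2 * D₁ + 2) + 2) * (k + 1) := by
    rw [hX] at g2'
    rw [mul_comm]
    exact g2'
  refine ⟨b, b0, hbt, fun l hl => ?_⟩
  have : l = 0 ∨ l = 1 ∨ l = 2 := by omega
  rcases this with rfl | rfl | rfl
  · exact hup ((h01.trans h12).trans hfin) hq0
  · exact hup (h12.trans hfin) hq1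
  · exact hup hfin hq2

/-- **Bounds** of the polynomials of the first three places go to the natural coordinates. -/
theorem nat_bd (D : ℕ) : ∃ C : ℕ, ∀ {m : ℕ} {c : ℕ → Fin m} {w g1 g2 k : ℕ} {g : ℕ → ℕ}
    {G : ℕ → MvPolynomial (Option (Fin m)) ℝ} {U V : MvPolynomial (Option (Fin m)) ℝ}
    {a : Option (Fin m) → ℝ}, NatP c D w g1 g2 k g G U V a → ∀ (τ : ℝ) (ξ : V4),
    |ξ none - nco c w g1 g2 τ U V a none| ≤ 1 →
    (∀ o, |ξ o - nco c w g1 g2 τ U V a o| ≤ 2) →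
    ∃ b : Option (Fin m) → ℝ, nco c w g1 g2 τ U V b = ξ ∧
      ∀ (Q : MvPolynomial (Option (Fin m)) ℝ) (M : ℝ), Q.totalDegree ≤ D → DepC c 3 Q → 0 ≤ M →
        (∀ b, NBx c G g w (a none) 3 b → |eval b Q| ≤ M) → |eval b Q| ≤ 2 ^ (C * (k + 1)) * M := by
  obtain ⟨c₀, D₁, hD₁, hdil⟩ := nbx_dil 4 (fun _ => D)
  obtain ⟨C, hC⟩ := nat_nbx D
  refine ⟨c₀ + C * D₁, ?_⟩
  intro m c w g1 g2 k g G U V a N τ ξ hξ0 hξ
  obtain ⟨b, k1, k2, k3⟩ := hC N τ ξ hξ0 hξ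
  refine ⟨b, k1, fun Q M hQ hQd hM hb => ?_⟩
  have h1 := hdil (C * (k + 1)) (show 3 < 4 by norm_num) N.inj N.deg N.dep hQd hQ hM hb b k2 k3
  refine h1.trans (mul_le_mul_of_nonneg_right (pow_le_pow_right₀ (by norm_num) ?_) hM)
  calc c₀ + C * (k + 1) * D₁ ≤ c₀ * (k + 1) + C * (k + 1) * D₁ :=
        Nat.add_le_add_right (Nat.le_mul_of_pos_right _ (by omega)) _
    _ = _ := by ring

end Pool.NV24
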