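import Pool.Agent.H24.NV.Cfr

/-!
# The polynomial is affine on the plane of the fan

`cfr_pt`: at one point, from the own lines of separated velocities.
-/

set_option autoImplicit false

namespace Pool.NV24

open Finset Real MvPolynomial

theorem mono_sum_eval (n : ℕ) (a : ℕ → ℝ) (t : ℝ) :
    (∑ j ∈ range (n + 1), Polynomial.monomial j (a j)).eval t = ∑ j ∈ range (n + 1), a j * t ^ j := by
  rw [Polynomial.eval_finsetSum]
  exact Finset.sum_congr rfl fun j _ => by rw [Polynomial.eval_monomial]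

theorem mono_sum_coeff (n : ℕ) (a : ℕ → ℝ) {j : ℕ} (hj : j ≤ n) :
    (∑ j ∈ range (n + 1), Polynomial.monomial j (a j)).coeff j = a j := by
  classical
  rw [Polynomial.finsetSum_coeff, Finset.sum_eq_single j]
  · rw [Polynomial.coeff_monomial, if_pos rfl]
  · intro i _ hi
    rw [Polynomial.coeff_monomial, if_neg hi]
  · intro h
    rw [mem_range] at h
    omega

theorem mono_sum_deg (n : ℕ) (a : ℕ → ℝ) :
    (∑ j ∈ range (n + 1), Polynomial.monomial j (a j)).natDegree ≤ n := by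
  refine Polynomial.natDegree_sum_le_of_forall_le _ _ fun j hj => ?_
  rw [mem_range] at hj
  exact (Polynomial.natDegree_monomial_le _).trans (by omega)

/-- **The polynomial is affine on the plane of the fan.** -/
theorem cfr_pt (D : ℕ) : ∃ C₁ : ℝ, 1 ≤ C₁ ∧ ∀ (Q : P4) (F : V4) (p0 p1 : Fin 2 → ℝ) (S ε β : ℝ)
    (cs : ℕ → ℝ) (Ds : ℕ → Fin 2 → ℝ), Q.totalDegree ≤ D → 1 ≤ S → 0 ≤ ε → 0 < β →
    (∀ o, |vec 1 0 p0 o| ≤ S) → (∀ o, |vec 0 1 p1 o| ≤ S) → (∀ i ≤ D, |cs i| ≤ 1) →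
    (∀ i ≤ D, ∀ o, |vec 1 (cs i) (Ds i) o| ≤ S) →
    (∀ i ≤ D, ∀ o, |vec 1 0 p0 o + cs i * vec 0 1 p1 o| ≤ S) →
    (∀ i ≤ D, ∀ j ≤ D, i ≠ j → β ≤ |cs i - cs j|) →
    (∀ i ≤ D, ∀ j, |Ds i j - (p0 j + cs i * p1 j)| ≤ ε) →
    (∀ i ≤ D, ∀ n, 2 ≤ n → n ≤ D → |eval F ((dv (vec 1 (cs i) (Ds i)))^[n] Q)| ≤ ε) →
    (∀ b : V4, (∀ o, |b o - F o| ≤ 1) → ∀ o j, |eval b (pderiv o (pderiv (vt j) Q))| ≤ 1) →
    ∀ i j, 2 ≤ i + j → |eval F (dl (rep (vec 1 0 p0) (vec 0 1 p1) i j) Q)| ≤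
      C₁ * (2 / β) ^ D * (S ^ D * ε) := by
  obtain ⟨C₂, hC₂, hdif⟩ := dif_pow D
  obtain ⟨C₃, hC₃, hco⟩ := sep_coef D
  have hD0 : (0 : ℝ) ≤ D := Nat.cast_nonneg D
  have hCD : 0 ≤ 2 * (D : ℝ) * C₂ ^ D := by positivity
  refine ⟨C₃ * (1 + 2 * D * C₂ ^ D), by nlinarith, ?_⟩
  intro Q F p0 p1 S ε β cs Ds hQ hS hε hβ hk0 hk1 hcs hDs hks hsep hvel hown H2 i j hij
  obtain ⟨k0, hk0e⟩ : ∃ k0, k0 = vec 1 0 p0 := ⟨_, rfl⟩
  obtain ⟨k1, hk1e⟩ : ∃ k1, k1 = vec 0 1 p1 := ⟨_, rfl⟩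
  rw [← hk0e] at hk0 hks ⊢
  rw [← hk1e] at hk1 hks ⊢
  have hS0 : 0 < S := by linarith
  have hSD : 1 ≤ S ^ D := one_le_pow₀ hS
  by_cases hn : D < i + j
  · rw [dl_long _ _ (by rw [rep_len]; omega), map_zero, abs_zero]
    positivity
  · rw [not_lt] at hn
    obtain ⟨n, hn'⟩ : ∃ n, n = i + j := ⟨_, rfl⟩
    obtain ⟨w, hw⟩ : ∃ w : ℕ → ℝ, w = fun l => (n.choose l : ℝ) *
        eval F (dl (rep k0 k1 (n - l) l) Q) := ⟨_, rfl⟩
    obtain ⟨q, hq⟩ : ∃ q : Polynomial ℝ, q = ∑ l ∈ range (n + 1), Polynomial.monomial l (w l) :=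
      ⟨_, rfl⟩
    have hqd : q.natDegree ≤ D := by
      rw [hq]
      exact (mono_sum_deg n w).trans (by omega)
    have hqv : ∀ i ≤ D, |q.eval (cs i)| ≤ (1 + 2 * D * C₂ ^ D) * (S ^ D * ε) := by
      intro i hi
      have e1 : q.eval (cs i) =
          eval F (dl (List.replicate n (fun o => k0 o + cs i * k1 o)) Q) := by
        rw [bin_dv, hq, mono_sum_eval, hw]
      have h1 := hdif Q F (fun o => k0 o + cs i * k1 o) (vec 1 (cs i) (Ds i))
        (fun j => Ds i j - (p0 j + cs i * p1 j)) ε S hQ hS hε (hks i hi) (hDs i hi) (hvel i hi)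
        (cases4 (by
          show (1 : ℝ) = k0 none + cs i * k1 none + 0
          rw [hk0e, hk1e, vec_none, vec_none]
          ring) (by
          show cs i = k0 (some 0) + cs i * k1 (some 0) + 0
          rw [hk0e, hk1e, vec_zero, vec_zero]
          ring) fun j => by
          show Ds i j = k0 (vt j) + cs i * k1 (vt j) + (Ds i j - (p0 j + cs i * p1 j))
          rw [hk0e, hk1e, vec_vt, vec_vt]
          ring) H2 n [] (by simp) (by rw [List.length_nil]; omega)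
      rw [dl_nil, List.length_nil, add_zero, dl_rep (vec 1 (cs i) (Ds i))] at h1
      have h2 := hown i hi n (by omega) (by omega)
      have hnD : (n : ℝ) ≤ D := by exact_mod_cast (by omega : n ≤ D)
      have h3 : (C₂ * S) ^ n ≤ C₂ ^ D * S ^ D := by
        rw [← mul_pow]
        exact pow_le_pow_right₀ (one_le_mul_of_one_le_of_one_le hC₂ hS) (by omega)
      have h4 : (n : ℝ) * (2 * ε * (C₂ * S) ^ n) ≤ 2 * D * C₂ ^ D * (S ^ D * ε) := by
        calc (n : ℝ) * (2 * ε * (C₂ * S) ^ n) ≤ D * (2 * ε * (C₂ ^ D * S ^ D)) :=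
              mul_le_mul hnD (mul_le_mul_of_nonneg_left h3 (by positivity)) (by positivity) hD0
          _ = _ := by ring
      have h5 : ε ≤ S ^ D * ε := by nlinarith
      rw [e1]
      have h6 : eval F (dl (List.replicate n (fun o => k0 o + cs i * k1 o)) Q) =
          eval F ((dv (vec 1 (cs i) (Ds i)))^[n] Q) -
            (eval F ((dv (vec 1 (cs i) (Ds i)))^[n] Q) -
              eval F (dl (List.replicate n (fun o => k0 o + cs i * k1 o)) Q)) := by ring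
      rw [h6]
      refine (abs_sub _ _).trans ?_
      calc |eval F ((dv (vec 1 (cs i) (Ds i)))^[n] Q)| +
            |eval F ((dv (vec 1 (cs i) (Ds i)))^[n] Q) -
              eval F (dl (List.replicate n (fun o => k0 o + cs i * k1 o)) Q)|
          ≤ ε + n * (2 * ε * (C₂ * S) ^ n) := add_le_add h2 h1
        _ ≤ S ^ D * ε + 2 * D * C₂ ^ D * (S ^ D * ε) := add_le_add h5 h4
        _ = _ := by ring
    have h7 := hco hqd hβ hcs hsep hqv j
    rw [hq, mono_sum_coeff n w (by omega), hw] at h7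
    simp only at h7
    have e2 : n - j = i := by omega
    rw [e2, abs_mul] at h7
    have h8 : (1 : ℝ) ≤ |(n.choose j : ℝ)| := by
      rw [abs_of_nonneg (Nat.cast_nonneg _)]
      exact_mod_cast Nat.choose_pos (by omega)
    have h9 := abs_nonneg (eval F (dl (rep k0 k1 i j) Q))
    calc |eval F (dl (rep k0 k1 i j) Q)|
        ≤ |(n.choose j : ℝ)| * |eval F (dl (rep k0 k1 i j) Q)| := by nlinarith
      _ ≤ _ := h7
      _ = _ := by ring

end Pool.NV24
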