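import Pool.Agent.H24.NV.Cht
import Pool.Agent.H40.FR.Grid

/-!
# Many own lines through one point

`dif_pow`: a power of a derivative in a near direction. `bin_dv`: the binomial formula. `lagr`:
interpolation. `cfr_pt`: if the derivatives of order `2 ≤ n ≤ D` in the directions of many lines
through a point are small, and the directions are near a plane, then the polynomial is affine on the
plane up to a small error.
-/

set_option autoImplicit false

namespace Pool.NV24

open Finset Real MvPolynomial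

/-- A power of a derivative in a near direction. -/
theorem dif_pow (D : ℕ) : ∃ C₁ : ℝ, 1 ≤ C₁ ∧ ∀ (Q : P4) (F k κ : V4) (e : Fin 2 → ℝ) (ε S : ℝ),
    Q.totalDegree ≤ D → 1 ≤ S → 0 ≤ ε → (∀ o, |k o| ≤ S) → (∀ o, |κ o| ≤ S) → (∀ j, |e j| ≤ ε) →
    (∀ o, κ o = k o + vec 0 0 e o) →
    (∀ b : V4, (∀ o, |b o - F o| ≤ 1) → ∀ o j, |eval b (pderiv o (pderiv (vt j) Q))| ≤ 1) →
    ∀ (n : ℕ) (l : List V4), (∀ s ∈ l, ∀ o, |s o| ≤ S) → 2 ≤ n + l.length →
      |eval F (dl (List.replicate n κ) (dl l Q)) - eval F (dl (List.replicate n k) (dl l Q))| ≤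
        n * (2 * ε * (C₁ * S) ^ (n + l.length)) := by
  obtain ⟨C₁, hC₁, hbx⟩ := bx_dl D
  refine ⟨C₁, hC₁, fun Q F k κ e ε S hQ hS hε hk hκ he hke H2 n => ?_⟩
  have hCS : 1 ≤ C₁ * S := one_le_mul_of_one_le_of_one_le hC₁ hS
  induction n with
  | zero =>
    intro l _ _
    rw [List.replicate_zero, List.replicate_zero, sub_self, abs_zero]
    positivity
  | succ n ih =>
    intro l hl hnl
    have h1 : dv κ (dl l Q) = dv k (dl l Q) + dv (vec 0 0 e) (dl l Q) := by
      rw [dv_lin 1 0 k k (vec 0 0 e) _ κ (fun o => by rw [hke o]; ring), C_1, C_0, one_mul,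
        zero_mul, add_zero]
    have h2 : dv k (dl l Q) = dl (l ++ [k]) Q := by rw [dl_append, dl_cons, dl_nil]
    have e1 : dl (List.replicate (n + 1) κ) (dl l Q) =
        dl (List.replicate n κ) (dl (l ++ [k]) Q) +
          dl (List.replicate n κ) (dv (vec 0 0 e) (dl l Q)) := by
      rw [List.replicate_succ, dl_cons, h1, dl_add, h2]
    have e2 : dl (List.replicate (n + 1) k) (dl l Q) =
        dl (List.replicate n k) (dl (l ++ [k]) Q) := by
      rw [List.replicate_succ, dl_cons, h2]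
    have hlen : (l ++ [k]).length = l.length + 1 := by simp
    have h3 := ih (l ++ [k]) (fun s hs => by
      rcases List.mem_append.1 hs with h | h
      · exact hl s h
      · rw [List.mem_singleton] at h
        rw [h]
        exact hk) (by rw [hlen]; omega)
    rw [hlen] at h3
    have h4 : |eval F (dl (List.replicate n κ) (dv (vec 0 0 e) (dl l Q)))| ≤
        2 * ε * (C₁ * S) ^ (n + 1 + l.length) := by
      refine eval_sum_vert hε he fun j' => ?_
      have e3 : dl (List.replicate n κ) (pderiv (vt j') (dl l Q)) =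
          dl (l ++ List.replicate n κ) (pderiv (vt j') Q) := by
        rw [← dl_pd, dl_append]
      rw [e3]
      have h5 := hbx (pderiv (vt j') Q) F 1 S (pd_deg _ hQ) zero_le_one hS
        (fun b hb o => H2 b hb o j') (l ++ List.replicate n κ) (fun x hx => by
          rcases List.mem_append.1 hx with h | h
          · exact hl x h
          · rw [List.eq_of_mem_replicate h]
            exact hκ) (by
          rw [List.length_append, List.length_replicate]
          omega) F (fun o => by rw [sub_self, abs_zero]; exact zero_le_one)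
      refine h5.trans ?_
      rw [mul_one, List.length_append, List.length_replicate]
      exact pow_le_pow_right₀ hCS (by omega)
    rw [e1, e2, map_add]
    have e4 : eval F (dl (List.replicate n κ) (dl (l ++ [k]) Q)) +
        eval F (dl (List.replicate n κ) (dv (vec 0 0 e) (dl l Q))) -
          eval F (dl (List.replicate n k) (dl (l ++ [k]) Q)) =
        (eval F (dl (List.replicate n κ) (dl (l ++ [k]) Q)) -
          eval F (dl (List.replicate n k) (dl (l ++ [k]) Q))) +
          eval F (dl (List.replicate n κ) (dv (vec 0 0 e) (dl l Q))) := by ring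
    rw [e4]
    refine (abs_add_le _ _).trans ((add_le_add h3 h4).trans (le_of_eq ?_))
    have e5 : n + (l.length + 1) = n + 1 + l.length := by omega
    rw [e5]
    push_cast
    ring

/-! ### The binomial formula -/

/-- The derivative as an endomorphism. -/
noncomputable def dvE (s : V4) : Module.End ℝ P4 where
  toFun := dv s
  map_add' := dv_add s
  map_smul' := fun r Q => by
    rw [MvPolynomial.smul_eq_C_mul, dv_Cmul, RingHom.id_apply, MvPolynomial.smul_eq_C_mul]

theorem dvE_apply (s : V4) (Q : P4) : dvE s Q = dv s Q := rfl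

theorem dvE_pow (s : V4) (n : ℕ) (Q : P4) : (dvE s ^ n) Q = (dv s)^[n] Q := by
  induction n with
  | zero => rw [pow_zero, Module.End.one_apply, Function.iterate_zero, id_eq]
  | succ n ih =>
    rw [pow_succ', Module.End.mul_apply, ih, Function.iterate_succ_apply', dvE_apply]

theorem vec_zz (o : Option (Fin 3)) : vec 0 0 (fun _ => (0 : ℝ)) o = 0 :=
  cases4 (P := fun o => vec 0 0 (fun _ => (0 : ℝ)) o = 0) rfl rfl (fun j => rfl) o

theorem dv_add_mul (k0 k1 : V4) (c : ℝ) (P : P4) :
    dv (fun o => k0 o + c * k1 o) P = C c * dv k1 P + dv k0 P := by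
  have h := dv_lin 1 c k0 k1 (vec 0 0 (fun _ => 0)) P (fun o => k0 o + c * k1 o) (fun o => by
    rw [vec_zz]
    ring)
  have h0 : dv (vec 0 0 (fun _ => (0 : ℝ))) P = 0 := by
    rw [dv_vert]
    exact Finset.sum_eq_zero fun j _ => by rw [C_0, zero_mul]
  rw [h, h0, C_1, add_zero, one_mul, add_comm]

theorem dvE_split (k0 k1 : V4) (c : ℝ) :
    dvE (fun o => k0 o + c * k1 o) = c • dvE k1 + dvE k0 := by
  refine LinearMap.ext fun P => ?_
  rw [LinearMap.add_apply, LinearMap.smul_apply, dvE_apply, dvE_apply, dvE_apply,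
    MvPolynomial.smul_eq_C_mul, dv_add_mul]

theorem dvE_comm (k0 k1 : V4) : Commute (dvE k1) (dvE k0) := by
  refine LinearMap.ext fun P => ?_
  rw [Module.End.mul_apply, Module.End.mul_apply, dvE_apply, dvE_apply, dvE_apply, dvE_apply,
    dv_comm]

theorem nat_end (n : ℕ) (Q : P4) : ((n : ℕ) : Module.End ℝ P4) Q = C (n : ℝ) * Q := by
  rw [Module.End.natCast_apply, nsmul_eq_mul, map_natCast]

theorem bin_dv (F k0 k1 : V4) (c : ℝ) (n : ℕ) (Q : P4) :
    eval F (dl (List.replicate n (fun o => k0 o + c * k1 o)) Q) =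
      ∑ j ∈ range (n + 1), (n.choose j : ℝ) * eval F (dl (rep k0 k1 (n - j) j) Q) * c ^ j := by
  rw [dl_rep, ← dvE_pow, dvE_split, ((dvE_comm k0 k1).smul_left c).add_pow, LinearMap.sum_apply,
    map_sum]
  refine Finset.sum_congr rfl fun j _ => ?_
  rw [Module.End.mul_apply, Module.End.mul_apply, nat_end, smul_pow, LinearMap.smul_apply,
    dvE_pow, dvE_pow, MvPolynomial.smul_eq_C_mul, ← dl_rep, ← dl_rep, dl_Cmul, dl_Cmul]
  have h5 : dl (List.replicate j k1) (dl (List.replicate (n - j) k0) Q) =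
      dl (rep k0 k1 (n - j) j) Q := by
    unfold rep
    rw [dl_append]
  rw [h5, map_mul, map_mul, eval_C, eval_C]
  ring

/-! ### Interpolation -/

/-- Interpolation at separated nodes. -/
theorem lagr {D : ℕ} (r : Polynomial ℝ) (hr : r.natDegree ≤ D) (N : Finset ℝ)
    (hN : N.card = D + 1) {m B L s : ℝ} (hL : 0 < L) (hB : 0 ≤ B)
    (hsep : ∀ a ∈ N, ∀ b ∈ N, a ≠ b → 1 / L ≤ |a - b|) (hs : ∀ b ∈ N, |s - b| ≤ B)
    (hm : ∀ a ∈ N, |r.eval a| ≤ m) :
    |r.eval s| ≤ (D + 1) * (m * (B * L) ^ D) := by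
  classical
  have hm0 : 0 ≤ m := by
    have : N.Nonempty := Finset.card_pos.1 (by omega)
    obtain ⟨a, ha⟩ := this
    exact (abs_nonneg _).trans (hm a ha)
  have hinj : Set.InjOn (id : ℝ → ℝ) N := Set.injOn_id _
  have hdeg : r.degree < N.card := by
    refine lt_of_le_of_lt Polynomial.degree_le_natDegree ?_
    rw [hN]
    exact_mod_cast Nat.lt_succ_of_le hr
  have h1 := Lagrange.eq_interpolate hinj hdeg
  have h2 : r.eval s = ∑ a ∈ N, r.eval a * ∏ b ∈ N.erase a, ((a - b)⁻¹ * (s - b)) := by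
    conv_lhs => rw [h1]
    rw [Lagrange.interpolate_apply, Polynomial.eval_finsetSum]
    refine Finset.sum_congr rfl fun a _ => ?_
    rw [Polynomial.eval_mul, Polynomial.eval_C, Lagrange.basis, Polynomial.eval_prod]
    congr 1
    refine Finset.prod_congr rfl fun b _ => ?_
    rw [Lagrange.basisDivisor, Polynomial.eval_mul, Polynomial.eval_C, Polynomial.eval_sub,
      Polynomial.eval_X, Polynomial.eval_C]
    rfl
  rw [h2]
  calc |∑ a ∈ N, r.eval a * ∏ b ∈ N.erase a, ((a - b)⁻¹ * (s - b))|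
      ≤ ∑ a ∈ N, |r.eval a * ∏ b ∈ N.erase a, ((a - b)⁻¹ * (s - b))| :=
        Finset.abs_sum_le_sum_abs _ _
    _ ≤ ∑ a ∈ N, m * (B * L) ^ D := by
        refine Finset.sum_le_sum fun a ha => ?_
        rw [abs_mul]
        refine mul_le_mul (hm a ha) ?_ (abs_nonneg _) hm0
        rw [Finset.abs_prod]
        have e1 : (B * L) ^ D = ∏ _b ∈ N.erase a, (B * L) := by
          rw [Finset.prod_const, Finset.card_erase_of_mem ha, hN]
          rfl
        rw [e1]
        refine Finset.prod_le_prod (fun b _ => abs_nonneg _) fun b hb => ?_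
        have hb1 := Finset.mem_erase.1 hb
        have h3 := hsep a ha b hb1.2 (Ne.symm hb1.1)
        have h4 := hs b hb1.2
        rw [abs_mul, abs_inv, mul_comm]
        refine mul_le_mul h4 ?_ (by positivity) hB
        have h5 : 0 < |a - b| := lt_of_lt_of_le (by positivity) h3
        rw [inv_le_comm₀ h5 hL, inv_eq_one_div]
        exact h3
    _ = (D + 1) * (m * (B * L) ^ D) := by
        rw [Finset.sum_const, hN, nsmul_eq_mul]
        push_cast
        ring

/-- **Values on `[-1, 1]`** of a polynomial which is small at separated points of `[-1, 1]`. -/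
theorem sep_val {D : ℕ} {q : Polynomial ℝ} (hq : q.natDegree ≤ D) {cs : ℕ → ℝ} {β M : ℝ}
    (hβ : 0 < β) (hc : ∀ i ≤ D, |cs i| ≤ 1)
    (hs : ∀ i ≤ D, ∀ j ≤ D, i ≠ j → β ≤ |cs i - cs j|) (hM : ∀ i ≤ D, |q.eval (cs i)| ≤ M)
    {t : ℝ} (ht : |t| ≤ 1) : |q.eval t| ≤ (D + 1) * (2 / β) ^ D * M := by
  classical
  have hinj : Set.InjOn cs (range (D + 1) : Finset ℕ) := by
    intro i hi j hj h
    by_contra hne
    have h1 := hs i (Nat.lt_succ_iff.1 (mem_range.1 hi)) j (Nat.lt_succ_iff.1 (mem_range.1 hj)) hne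
    rw [h, sub_self, abs_zero] at h1
    linarith
  have h1 := lagr q hq ((range (D + 1)).image cs) (by
    rw [Finset.card_image_of_injOn hinj, card_range]) (m := M) (B := 2) (L := 1 / β) (s := t)
    (by positivity) (by norm_num) (fun a ha b hb hab => by
      obtain ⟨i, hi, rfl⟩ := Finset.mem_image.1 ha
      obtain ⟨j, hj, rfl⟩ := Finset.mem_image.1 hb
      rw [one_div_one_div]
      exact hs i (Nat.lt_succ_iff.1 (mem_range.1 hi)) j (Nat.lt_succ_iff.1 (mem_range.1 hj))
        fun h => hab (by rw [h])) (fun b hb => by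
      obtain ⟨j, hj, rfl⟩ := Finset.mem_image.1 hb
      have h1 := abs_le.1 (hc j (Nat.lt_succ_iff.1 (mem_range.1 hj)))
      have h2 := abs_le.1 ht
      rw [abs_le]
      constructor <;> linarith) fun a ha => by
      obtain ⟨i, hi, rfl⟩ := Finset.mem_image.1 ha
      exact hM i (Nat.lt_succ_iff.1 (mem_range.1 hi))
  refine h1.trans (le_of_eq ?_)
  rw [mul_one_div]
  ring

/-- **The coefficients.** -/
theorem sep_coef (D : ℕ) : ∃ C₁ : ℝ, 1 ≤ C₁ ∧ ∀ {q : Polynomial ℝ} {cs : ℕ → ℝ} {β M : ℝ},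
    q.natDegree ≤ D → 0 < β → (∀ i ≤ D, |cs i| ≤ 1) →
    (∀ i ≤ D, ∀ j ≤ D, i ≠ j → β ≤ |cs i - cs j|) → (∀ i ≤ D, |q.eval (cs i)| ≤ M) →
    ∀ n, |q.coeff n| ≤ C₁ * (2 / β) ^ D * M := by
  obtain ⟨C, hC, hco⟩ := Pool.Agent.H40.FR.unit_coef D
  refine ⟨C * (D + 1), by nlinarith [(Nat.cast_nonneg D : (0 : ℝ) ≤ D)], ?_⟩
  intro q cs β M hq hβ hc hs hM n
  refine (hco q ((D + 1) * (2 / β) ^ D * M) hq (fun t ht => sep_val hq hβ hc hs hM (by
    rw [abs_of_nonneg ht.1]
    exact ht.2)) n).trans (le_of_eq (by ring))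

end Pool.NV24
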