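import Pool.Agent.H24.NV.Dv

/-!
# Small derivatives along a plane

`rep`: the words in two directions. `lst`: a word in directions which are near the plane is small.
`chart_two`: the second derivatives along the plane at other points of the plane are small.
`near_aff`: a polynomial is near its tangent.
-/

set_option autoImplicit false

namespace Pool.NV24

open Finset Real MvPolynomial

theorem dl_append (l l' : List V4) (Q : P4) : dl (l ++ l') Q = dl l' (dl l Q) := by
  induction l generalizing Q with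
  | nil => rw [List.nil_append, dl_nil]
  | cons s l ih => rw [List.cons_append, dl_cons, dl_cons, ih]

theorem dl_rep (s : V4) (n : ℕ) (Q : P4) : dl (List.replicate n s) Q = (dv s)^[n] Q := by
  induction n generalizing Q with
  | zero => rw [List.replicate_zero, dl_nil]; rfl
  | succ n ih => rw [List.replicate_succ, dl_cons, ih, Function.iterate_succ_apply]

theorem tdeg_pd (o : Option (Fin 3)) (P : P4) :
    (pderiv o P).totalDegree ≤ P.totalDegree - 1 := by
  classical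
  refine Finset.sup_le fun s hs => ?_
  rw [MvPolynomial.mem_support_iff, MvPolynomial.coeff_pderiv] at hs
  have h1 : MvPolynomial.coeff (s + Finsupp.single o 1) P ≠ 0 := fun h0 =>
    hs (by rw [h0, zero_mul])
  have h2 := MvPolynomial.le_totalDegree (MvPolynomial.mem_support_iff.2 h1)
  have h3 : (s.sum fun _ e => e) + 1 = ((s + Finsupp.single o 1).sum fun _ e => e) := by
    rw [Finsupp.sum_add_index' (fun _ => rfl) (fun _ _ _ => rfl), Finsupp.sum_single_index rfl]
  omega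

theorem dv_tdeg (s : V4) (P : P4) : (dv s P).totalDegree ≤ P.totalDegree - 1 := by
  unfold dv
  refine (totalDegree_finsetSum _ _).trans (Finset.sup_le fun o _ => ?_)
  refine (totalDegree_mul _ _).trans ?_
  rw [totalDegree_C, zero_add]
  exact tdeg_pd o P

/-- Long words vanish. -/
theorem dl_long (l : List V4) (Q : P4) (h : Q.totalDegree < l.length) : dl l Q = 0 := by
  induction l generalizing Q with
  | nil => simp at h
  | cons s l ih =>
    rw [dl_cons]
    rcases Nat.eq_zero_or_pos Q.totalDegree with h0 | h0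
    · have h1 : Q = C (coeff 0 Q) := totalDegree_eq_zero_iff_eq_C.1 h0
      have h2 : dv s Q = 0 := by
        rw [h1]
        unfold dv
        exact Finset.sum_eq_zero fun o _ => by rw [pderiv_C, mul_zero]
      rw [h2]
      clear h h0 h1 h2 ih
      induction l with
      | nil => rw [dl_nil]
      | cons s l ih => rw [dl_cons, dv_zero, ih]
    · refine ih _ ?_
      have h1 := dv_tdeg s Q
      rw [List.length_cons] at h
      omega

/-- The words in two directions. -/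
def rep (k0 k1 : V4) (i j : ℕ) : List V4 := List.replicate i k0 ++ List.replicate j k1

theorem rep_len (k0 k1 : V4) (i j : ℕ) : (rep k0 k1 i j).length = i + j := by
  unfold rep
  rw [List.length_append, List.length_replicate, List.length_replicate]

theorem rep_left (k0 k1 : V4) (i j : ℕ) (Q : P4) :
    dv k0 (dl (rep k0 k1 i j) Q) = dl (rep k0 k1 (i + 1) j) Q := by
  unfold rep
  rw [← dl_dv, List.replicate_succ, List.cons_append, dl_cons]

theorem rep_right (k0 k1 : V4) (i j : ℕ) (Q : P4) :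
    dv k1 (dl (rep k0 k1 i j) Q) = dl (rep k0 k1 i (j + 1)) Q := by
  unfold rep
  rw [dl_append, dl_append, List.replicate_succ, dl_cons, ← dl_dv]

theorem mem_rep {k0 k1 s : V4} {i j : ℕ} (h : s ∈ rep k0 k1 i j) : s = k0 ∨ s = k1 := by
  unfold rep at h
  rw [List.mem_append] at h
  rcases h with h | h
  · exact Or.inl (List.eq_of_mem_replicate h)
  · exact Or.inr (List.eq_of_mem_replicate h)

theorem dv_vert (e : Fin 2 → ℝ) (Q : P4) : dv (vec 0 0 e) Q = ∑ j, C (e j) * pderiv (vt j) Q := by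
  rw [dv_vec, C_0, zero_mul, zero_mul, zero_add, zero_add]

theorem eval_sum_vert {b : V4} {l : List V4} {e : Fin 2 → ℝ} {Q : P4} {E M : ℝ} (hE : 0 ≤ E)
    (he : ∀ j, |e j| ≤ E) (hM : ∀ j, |eval b (dl l (pderiv (vt j) Q))| ≤ M) :
    |eval b (dl l (dv (vec 0 0 e) Q))| ≤ 2 * E * M := by
  have h1 : dl l (dv (vec 0 0 e) Q) = ∑ j, C (e j) * dl l (pderiv (vt j) Q) := by
    rw [dv_vert, Fin.sum_univ_two, Fin.sum_univ_two, dl_add, dl_Cmul, dl_Cmul]
  rw [h1, map_sum]
  refine (Finset.abs_sum_le_sum_abs _ _).trans ?_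
  have h : ∀ j ∈ (univ : Finset (Fin 2)), |eval b (C (e j) * dl l (pderiv (vt j) Q))| ≤ E * M := by
    intro j _
    rw [map_mul, eval_C, abs_mul]
    exact mul_le_mul (he j) (hM j) (abs_nonneg _) hE
  refine (Finset.sum_le_sum h).trans (le_of_eq ?_)
  rw [Finset.sum_const, Finset.card_univ, Fintype.card_fin, nsmul_eq_mul]
  push_cast
  ring

/-- **A direction near the plane.** -/
def Adm (k0 k1 : V4) (S R ε : ℝ) (s : V4) : Prop := (∀ o, |s o| ≤ S) ∧ ∃ (a b : ℝ) (e : Fin 2 → ℝ),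
  |a| ≤ R ∧ |b| ≤ R ∧ (∀ j, |e j| ≤ ε) ∧ ∀ o, s o = a * k0 o + b * k1 o + vec 0 0 e o

/-- **A word in directions near the plane.** -/
theorem lst (D : ℕ) : ∃ C₁ : ℝ, 1 ≤ C₁ ∧ ∀ (Q : P4) (F k0 k1 : V4) (R ε S : ℝ),
    Q.totalDegree ≤ D → 1 ≤ R → 1 ≤ S → 0 ≤ ε → (∀ o, |k0 o| ≤ S) → (∀ o, |k1 o| ≤ S) →
    (∀ i j, 2 ≤ i + j → |eval F (dl (rep k0 k1 i j) Q)| ≤ ε) →
    (∀ b : V4, (∀ o, |b o - F o| ≤ 1) → ∀ o j, |eval b (pderiv o (pderiv (vt j) Q))| ≤ 1) →
    ∀ l : List V4, (∀ s ∈ l, Adm k0 k1 S R ε s) → ∀ i j, 2 ≤ l.length + i + j →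
      |eval F (dl l (dl (rep k0 k1 i j) Q))| ≤ (4 * C₁ * S * R) ^ (2 * l.length + i + j) * ε := by
  obtain ⟨C₁, hC₁, hbx⟩ := bx_dl D
  refine ⟨C₁, hC₁, fun Q F k0 k1 R ε S hQ hR hS hε hk0 hk1 H1 H2 l => ?_⟩
  obtain ⟨K, hK⟩ : ∃ K, K = 4 * C₁ * S * R := ⟨_, rfl⟩
  have hCS : 1 ≤ C₁ * S := one_le_mul_of_one_le_of_one_le hC₁ hS
  have hK4 : 4 * R ≤ K := by
    rw [hK]
    have h1 := mul_le_mul_of_nonneg_right hCS (by linarith : 0 ≤ 4 * R)
    linarith
  have hK1 : 1 ≤ K := by linarith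
  have hCK : C₁ * S ≤ K := by
    rw [hK]
    have h1 := mul_le_mul_of_nonneg_left hR (by linarith : 0 ≤ C₁ * S)
    nlinarith
  rw [← hK]
  induction l with
  | nil =>
    intro _ i j hij
    rw [dl_nil]
    simp only [List.length_nil, mul_zero, zero_add] at hij ⊢
    refine (H1 i j hij).trans ?_
    have := one_le_pow₀ hK1 (n := i + j)
    nlinarith
  | cons s l ih =>
    intro hl i j hij
    obtain ⟨-, a, b, e, ha, hb, he, hs⟩ := hl s (by simp)
    have hl' : ∀ s ∈ l, Adm k0 k1 S R ε s := fun x hx => hl x (List.mem_cons_of_mem _ hx)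
    rw [List.length_cons] at hij
    have hstep : dl (s :: l) (dl (rep k0 k1 i j) Q) =
        C a * dl l (dl (rep k0 k1 (i + 1) j) Q) + C b * dl l (dl (rep k0 k1 i (j + 1)) Q) +
          dl l (dv (vec 0 0 e) (dl (rep k0 k1 i j) Q)) := by
      rw [dl_cons, dv_lin a b k0 k1 (vec 0 0 e) _ s hs, dl_add, dl_add, dl_Cmul, dl_Cmul,
        rep_left, rep_right]
    have h1 := ih hl' (i + 1) j (by omega)
    have h2 := ih hl' i (j + 1) (by omega)
    have h3 : |eval F (dl l (dv (vec 0 0 e) (dl (rep k0 k1 i j) Q)))| ≤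
        2 * ε * K ^ (2 * l.length + i + j) := by
      refine eval_sum_vert hε he fun j' => ?_
      have e1 : dl l (pderiv (vt j') (dl (rep k0 k1 i j) Q)) =
          dl (rep k0 k1 i j ++ l) (pderiv (vt j') Q) := by
        rw [← dl_pd, dl_append]
      rw [e1]
      have h4 := hbx (pderiv (vt j') Q) F 1 S (pd_deg _ hQ) zero_le_one hS
        (fun b hb o => H2 b hb o j') (rep k0 k1 i j ++ l) (fun x hx => by
          rcases List.mem_append.1 hx with h | h
          · rcases mem_rep h with rfl | rfl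
            · exact hk0
            · exact hk1
          · exact (hl' x h).1) (by
          rw [List.length_append, rep_len]
          omega) F (fun o => by rw [sub_self, abs_zero]; exact zero_le_one)
      refine h4.trans ?_
      rw [mul_one, List.length_append, rep_len]
      calc (C₁ * S) ^ (i + j + l.length) ≤ K ^ (i + j + l.length) :=
            pow_le_pow_left₀ (by linarith) hCK _
        _ ≤ K ^ (2 * l.length + i + j) := pow_le_pow_right₀ hK1 (by omega)
    obtain ⟨n, hn⟩ : ∃ n, n = 2 * l.length + i + j := ⟨_, rfl⟩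
    have en1 : 2 * l.length + (i + 1) + j = n + 1 := by omega
    have en2 : 2 * l.length + i + (j + 1) = n + 1 := by omega
    have en3 : 2 * (s :: l).length + i + j = n + 2 := by
      rw [List.length_cons]
      omega
    rw [en1] at h1
    rw [en2] at h2
    rw [← hn] at h3
    rw [hstep, en3, map_add, map_add, map_mul, map_mul, eval_C, eval_C]
    have hKn : 0 < K ^ n := by positivity
    have a1 : |a * eval F (dl l (dl (rep k0 k1 (i + 1) j) Q))| ≤ R * (K ^ (n + 1) * ε) := by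
      rw [abs_mul]
      exact mul_le_mul ha h1 (abs_nonneg _) (by linarith)
    have a2 : |b * eval F (dl l (dl (rep k0 k1 i (j + 1)) Q))| ≤ R * (K ^ (n + 1) * ε) := by
      rw [abs_mul]
      exact mul_le_mul hb h2 (abs_nonneg _) (by linarith)
    refine (abs_add_le _ _).trans ((add_le_add (abs_add_le _ _) le_rfl).trans ?_)
    refine (add_le_add (add_le_add a1 a2) h3).trans ?_
    have h5 : 2 * R * K + 2 ≤ K * K := by nlinarith
    calc R * (K ^ (n + 1) * ε) + R * (K ^ (n + 1) * ε) + 2 * ε * K ^ n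
        = (2 * R * K + 2) * (K ^ n * ε) := by rw [pow_succ]; ring
      _ ≤ K * K * (K ^ n * ε) := mul_le_mul_of_nonneg_right h5 (by positivity)
      _ = K ^ (n + 2) * ε := by rw [pow_add]; ring

theorem rep_zero (k0 k1 : V4) (Q : P4) : dl (rep k0 k1 0 0) Q = Q := by
  unfold rep
  rw [List.replicate_zero, List.replicate_zero, List.nil_append, dl_nil]

/-- **The second derivatives along the plane** at another point of the plane. -/
theorem chart_two (D : ℕ) : ∃ C₁ : ℝ, 1 ≤ C₁ ∧ ∀ (Q : P4) (F k0 k1 s z1 z2 : V4) (R ε S : ℝ),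
    Q.totalDegree ≤ D → 1 ≤ R → 1 ≤ S → 0 ≤ ε → (∀ o, |k0 o| ≤ S) → (∀ o, |k1 o| ≤ S) →
    (∀ i j, 2 ≤ i + j → |eval F (dl (rep k0 k1 i j) Q)| ≤ ε) →
    (∀ b : V4, (∀ o, |b o - F o| ≤ 1) → ∀ o j, |eval b (pderiv o (pderiv (vt j) Q))| ≤ 1) →
    Adm k0 k1 S R ε s → Adm k0 k1 S R ε z1 → Adm k0 k1 S R ε z2 →
    |eval (fun o => F o + s o) (dv z1 (dv z2 Q))| ≤ (C₁ * S * R) ^ (2 * D + 5) * ε := by
  obtain ⟨C₁, hC₁, hl⟩ := lst D
  refine ⟨4 * C₁ * (D + 1), by nlinarith [(Nat.cast_nonneg D : (0 : ℝ) ≤ D)], ?_⟩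
  intro Q F k0 k1 s z1 z2 R ε S hQ hR hS hε hk0 hk1 H1 H2 hs hz1 hz2
  obtain ⟨K, hK⟩ : ∃ K, K = 4 * C₁ * S * R := ⟨_, rfl⟩
  have hCS : 1 ≤ C₁ * S := one_le_mul_of_one_le_of_one_le hC₁ hS
  have hK1 : 1 ≤ K := by
    rw [hK]
    have h1 : 1 ≤ C₁ * S * R := one_le_mul_of_one_le_of_one_le hCS hR
    nlinarith
  have hD0 : (0 : ℝ) ≤ D := Nat.cast_nonneg D
  have h1 := taylor_dv (dv_deg z1 (dv_deg z2 hQ)) F s 1
  have e1 : (fun o => F o + 1 * s o) = fun o => F o + s o := by
    funext o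
    ring
  rw [e1] at h1
  rw [h1]
  refine (Finset.abs_sum_le_sum_abs _ _).trans ?_
  have h2 : ∀ n ∈ range (D + 1), |(1 : ℝ) ^ n / n.factorial *
      eval F ((dv s)^[n] (dv z1 (dv z2 Q)))| ≤ K ^ (2 * D + 4) * ε := by
    intro n hn
    rw [mem_range] at hn
    have hf : (1 : ℝ) ≤ n.factorial := by exact_mod_cast Nat.factorial_pos n
    have h3 := hl Q F k0 k1 R ε S hQ hR hS hε hk0 hk1 H1 H2 (z2 :: z1 :: List.replicate n s)
      (fun x hx => by
        rw [List.mem_cons, List.mem_cons] at hx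
        rcases hx with rfl | rfl | hx
        · exact hz2
        · exact hz1
        · rw [List.eq_of_mem_replicate hx]
          exact hs) 0 0 (by simp)
    rw [rep_zero, dl_cons, dl_cons, dl_rep, List.length_cons, List.length_cons,
      List.length_replicate, ← hK] at h3
    rw [abs_mul, one_pow, abs_of_pos (by positivity : (0 : ℝ) < 1 / n.factorial)]
    have h4 : 1 / (n.factorial : ℝ) ≤ 1 := by
      rw [div_le_one (by linarith)]
      exact hf
    calc 1 / (n.factorial : ℝ) * |eval F ((dv s)^[n] (dv z1 (dv z2 Q)))|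
        ≤ 1 * (K ^ (2 * (n + 1 + 1) + 0 + 0) * ε) :=
          mul_le_mul h4 h3 (abs_nonneg _) zero_le_one
      _ ≤ K ^ (2 * D + 4) * ε := by
          rw [one_mul]
          exact mul_le_mul_of_nonneg_right (pow_le_pow_right₀ hK1 (by omega)) hε
  refine (Finset.sum_le_sum h2).trans ?_
  rw [Finset.sum_const, card_range, nsmul_eq_mul]
  push_cast
  have e2 : 4 * C₁ * ((D : ℝ) + 1) * S * R = ((D : ℝ) + 1) * K := by rw [hK]; ring
  rw [e2, mul_pow]
  have h5 : ((D : ℝ) + 1) ≤ ((D : ℝ) + 1) ^ (2 * D + 5) :=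
    le_self_pow₀ (by linarith) (by omega)
  have h6 : K ^ (2 * D + 4) ≤ K ^ (2 * D + 5) := pow_le_pow_right₀ hK1 (by omega)
  calc ((D : ℝ) + 1) * (K ^ (2 * D + 4) * ε)
      ≤ ((D : ℝ) + 1) ^ (2 * D + 5) * (K ^ (2 * D + 5) * ε) :=
        mul_le_mul h5 (mul_le_mul_of_nonneg_right h6 hε) (by positivity) (by positivity)
    _ = _ := by ring

/-- **The tangent.** -/
theorem near_aff (D : ℕ) : ∃ C₁ : ℝ, 1 ≤ C₁ ∧ ∀ (Q : P4) (F k0 k1 s : V4) (R ε S : ℝ),
    Q.totalDegree ≤ D → 1 ≤ R → 1 ≤ S → 0 ≤ ε → (∀ o, |k0 o| ≤ S) → (∀ o, |k1 o| ≤ S) →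
    (∀ i j, 2 ≤ i + j → |eval F (dl (rep k0 k1 i j) Q)| ≤ ε) →
    (∀ b : V4, (∀ o, |b o - F o| ≤ 1) → ∀ o j, |eval b (pderiv o (pderiv (vt j) Q))| ≤ 1) →
    Adm k0 k1 S R ε s →
    |eval (fun o => F o + s o) Q - (eval F Q + eval F (dv s Q))| ≤
      (C₁ * S * R) ^ (2 * D + 2) * ε := by
  obtain ⟨C₁, hC₁, hl⟩ := lst D
  refine ⟨4 * C₁ * (D + 2), by nlinarith [(Nat.cast_nonneg D : (0 : ℝ) ≤ D)], ?_⟩
  intro Q F k0 k1 s R ε S hQ hR hS hε hk0 hk1 H1 H2 hs
  obtain ⟨K, hK⟩ : ∃ K, K = 4 * C₁ * S * R := ⟨_, rfl⟩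
  have hCS : 1 ≤ C₁ * S := one_le_mul_of_one_le_of_one_le hC₁ hS
  have hK1 : 1 ≤ K := by
    rw [hK]
    have h1 : 1 ≤ C₁ * S * R := one_le_mul_of_one_le_of_one_le hCS hR
    nlinarith
  have hD0 : (0 : ℝ) ≤ D := Nat.cast_nonneg D
  have h1 := taylor_dv (D := D + 1) (hQ.trans (Nat.le_succ D)) F s 1
  have e1 : (fun o => F o + 1 * s o) = fun o => F o + s o := by
    funext o
    ring
  rw [e1, Finset.sum_range_succ', Finset.sum_range_succ'] at h1
  simp only [one_pow, Nat.factorial_zero, Nat.factorial_one, Nat.cast_one, div_one, one_mul,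
    Function.iterate_zero, id_eq, zero_add, Function.iterate_one] at h1
  have e3 : eval (fun o => F o + s o) Q - (eval F Q + eval F (dv s Q)) =
      ∑ n ∈ range D, 1 / ((n + 1 + 1).factorial : ℝ) * eval F ((dv s)^[n + 1 + 1] Q) := by
    rw [h1]
    ring
  rw [e3]
  refine (Finset.abs_sum_le_sum_abs _ _).trans ?_
  have h2 : ∀ n ∈ range D, |1 / ((n + 1 + 1).factorial : ℝ) * eval F ((dv s)^[n + 1 + 1] Q)| ≤
      K ^ (2 * D + 2) * ε := by
    intro n hn
    rw [mem_range] at hn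
    have hf : (1 : ℝ) ≤ (n + 1 + 1).factorial := by exact_mod_cast Nat.factorial_pos _
    have h3 := hl Q F k0 k1 R ε S hQ hR hS hε hk0 hk1 H1 H2 (List.replicate (n + 1 + 1) s)
      (fun x hx => by
        rw [List.eq_of_mem_replicate hx]
        exact hs) 0 0 (by rw [List.length_replicate]; omega)
    rw [rep_zero, dl_rep, List.length_replicate, ← hK] at h3
    rw [abs_mul, abs_of_pos (by positivity : (0 : ℝ) < 1 / (n + 1 + 1).factorial)]
    have h4 : 1 / ((n + 1 + 1).factorial : ℝ) ≤ 1 := by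
      rw [div_le_one (by linarith)]
      exact hf
    calc 1 / ((n + 1 + 1).factorial : ℝ) * |eval F ((dv s)^[n + 1 + 1] Q)|
        ≤ 1 * (K ^ (2 * (n + 1 + 1) + 0 + 0) * ε) :=
          mul_le_mul h4 h3 (abs_nonneg _) zero_le_one
      _ ≤ K ^ (2 * D + 2) * ε := by
          rw [one_mul]
          exact mul_le_mul_of_nonneg_right (pow_le_pow_right₀ hK1 (by omega)) hε
  refine (Finset.sum_le_sum h2).trans ?_
  rw [Finset.sum_const, card_range, nsmul_eq_mul]
  have e2 : 4 * C₁ * ((D : ℝ) + 2) * S * R = ((D : ℝ) + 2) * K := by rw [hK]; ring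
  rw [e2, mul_pow]
  have h5 : ((D : ℝ) + 2) ≤ ((D : ℝ) + 2) ^ (2 * D + 2) :=
    le_self_pow₀ (by linarith) (by omega)
  calc (D : ℝ) * (K ^ (2 * D + 2) * ε)
      ≤ ((D : ℝ) + 2) ^ (2 * D + 2) * (K ^ (2 * D + 2) * ε) :=
        mul_le_mul_of_nonneg_right (by linarith) (by positivity)
    _ = _ := by ring

end Pool.NV24
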