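import Pool.Agent.H91.LA.Jet
import Pool.Agent.H50.PW.Det

/-!
# Directional derivatives of polynomials in four variables

The time is `none`, the base coordinate is `some 0`, the two vertical coordinates are `vt j`.
`dv s Q`: the derivative of `Q` in the direction `s`. `dl l Q`: along a list of directions.
`taylor_dv`: the Taylor formula. `bx_pd`, `bx_dl`: bounds on boxes.
-/

set_option autoImplicit false

namespace Pool.NV24

open Finset Real MvPolynomial
open Pool.LA91 (jet natDegree_alp eval_alp)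

/-- The points. -/
abbrev V4 : Type := Option (Fin 3) → ℝ

/-- The polynomials. -/
abbrev P4 : Type := MvPolynomial (Option (Fin 3)) ℝ

/-- The vertical coordinates. -/
def vt (j : Fin 2) : Option (Fin 3) := some j.succ

/-- The vector with the horizontal components `a`, `b` and the vertical components `v`. -/
def vec (a b : ℝ) (v : Fin 2 → ℝ) : V4
  | none => a
  | some i => Fin.cases b v i

@[simp] theorem vec_none (a b : ℝ) (v : Fin 2 → ℝ) : vec a b v none = a := rfl

@[simp] theorem vec_zero (a b : ℝ) (v : Fin 2 → ℝ) : vec a b v (some 0) = b := rfl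

@[simp] theorem vec_vt (a b : ℝ) (v : Fin 2 → ℝ) (j : Fin 2) : vec a b v (vt j) = v j := rfl

/-- The coordinates. -/
theorem cases4 {P : Option (Fin 3) → Prop} (h0 : P none) (h1 : P (some 0))
    (h2 : ∀ j, P (vt j)) : ∀ o, P o := by
  intro o
  rcases o with _ | i
  · exact h0
  · induction i using Fin.cases with
    | zero => exact h1
    | succ j => exact h2 j

theorem vec_ext {s s' : V4} (h0 : s none = s' none) (h1 : s (some 0) = s' (some 0))
    (h2 : ∀ j, s (vt j) = s' (vt j)) : s = s' :=
  funext (cases4 (P := fun o => s o = s' o) h0 h1 h2)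

theorem sum4 {M : Type} [AddCommMonoid M] (f : Option (Fin 3) → M) :
    ∑ o, f o = f none + (f (some 0) + ∑ j, f (vt j)) := by
  rw [Fintype.sum_option, Fin.sum_univ_succ]
  rfl

/-- The derivatives commute. -/
theorem pd_comm4 (o o' : Option (Fin 3)) (R : P4) :
    pderiv o (pderiv o' R) = pderiv o' (pderiv o R) := by
  classical
  induction R using MvPolynomial.induction_on with
  | C a => simp
  | add p q hp hq => rw [map_add, map_add, map_add, map_add, hp, hq]
  | mul_X p j hp =>
    have hX : ∀ i i' : Option (Fin 3), pderiv i (pderiv i' (MvPolynomial.X j : P4)) = 0 := by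
      intro i i'
      rw [pderiv_X]
      by_cases h : i' = j
      · rw [h, Pi.single_eq_same, pderiv_one]
      · rw [Pi.single_eq_of_ne (Ne.symm h), map_zero]
    rw [pderiv_mul, pderiv_mul, map_add, map_add, pderiv_mul, pderiv_mul, pderiv_mul, pderiv_mul,
      hX, hX, hp]
    ring

/-- **The derivative in the direction** `s`. -/
noncomputable def dv (s : V4) (Q : P4) : P4 := ∑ o, C (s o) * pderiv o Q

theorem dv_vec (a b : ℝ) (v : Fin 2 → ℝ) (Q : P4) : dv (vec a b v) Q =
    C a * pderiv none Q + (C b * pderiv (some 0) Q + ∑ j, C (v j) * pderiv (vt j) Q) := by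
  unfold dv
  rw [sum4]
  rfl

theorem dv_add (s : V4) (P Q : P4) : dv s (P + Q) = dv s P + dv s Q := by
  unfold dv
  rw [← Finset.sum_add_distrib]
  exact Finset.sum_congr rfl fun o _ => by rw [map_add]; ring

theorem dv_sub (s : V4) (P Q : P4) : dv s (P - Q) = dv s P - dv s Q := by
  unfold dv
  rw [← Finset.sum_sub_distrib]
  exact Finset.sum_congr rfl fun o _ => by rw [map_sub]; ring

theorem dv_Cmul (s : V4) (a : ℝ) (Q : P4) : dv s (C a * Q) = C a * dv s Q := by
  unfold dv
  rw [Finset.mul_sum]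
  exact Finset.sum_congr rfl fun o _ => by rw [pderiv_C_mul]; ring

theorem dv_sum {ι : Type} (s : V4) (t : Finset ι) (f : ι → P4) :
    dv s (∑ i ∈ t, f i) = ∑ i ∈ t, dv s (f i) := by
  classical
  induction t using Finset.induction_on with
  | empty =>
    rw [Finset.sum_empty, Finset.sum_empty]
    unfold dv
    exact Finset.sum_eq_zero fun o _ => by rw [map_zero, mul_zero]
  | insert a t ha ih => rw [Finset.sum_insert ha, Finset.sum_insert ha, dv_add, ih]

theorem dv_zero (s : V4) : dv s 0 = 0 := by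
  unfold dv
  exact Finset.sum_eq_zero fun o _ => by rw [map_zero, mul_zero]

theorem dv_pd (s : V4) (o : Option (Fin 3)) (Q : P4) : dv s (pderiv o Q) = pderiv o (dv s Q) := by
  unfold dv
  rw [map_sum]
  exact Finset.sum_congr rfl fun o' _ => by rw [pderiv_C_mul, pd_comm4]

theorem dv_comm (s s' : V4) (Q : P4) : dv s (dv s' Q) = dv s' (dv s Q) := by
  have h : dv s' Q = ∑ o, C (s' o) * pderiv o Q := rfl
  rw [h, dv_sum]
  have h2 : dv s' (dv s Q) = ∑ o, C (s' o) * pderiv o (dv s Q) := rfl
  rw [h2]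
  exact Finset.sum_congr rfl fun o _ => by rw [dv_Cmul, dv_pd]

/-- Linearity in the direction. -/
theorem dv_lin (a b : ℝ) (s s' e : V4) (Q : P4) (t : V4)
    (h : ∀ o, t o = a * s o + b * s' o + e o) :
    dv t Q = C a * dv s Q + C b * dv s' Q + dv e Q := by
  unfold dv
  rw [Finset.mul_sum, Finset.mul_sum, ← Finset.sum_add_distrib, ← Finset.sum_add_distrib]
  exact Finset.sum_congr rfl fun o _ => by
    rw [h o, C_add, C_add, C_mul, C_mul]
    ring

theorem dv_deg {Q : P4} {D : ℕ} (s : V4) (h : Q.totalDegree ≤ D) : (dv s Q).totalDegree ≤ D := by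
  unfold dv
  refine (totalDegree_finsetSum _ _).trans (Finset.sup_le fun o _ => ?_)
  refine (totalDegree_mul _ _).trans ?_
  rw [totalDegree_C, zero_add]
  exact (Pool.Agent.H50.PW.totalDegree_pderiv_le _ _).trans h

theorem pd_deg {Q : P4} {D : ℕ} (o : Option (Fin 3)) (h : Q.totalDegree ≤ D) :
    (pderiv o Q).totalDegree ≤ D := (Pool.Agent.H50.PW.totalDegree_pderiv_le _ _).trans h

/-! ### Lines -/

/-- The derivative along a line. -/
theorem der_alp (Q : P4) (b v : V4) :
    Polynomial.derivative (aeval (Pool.LA91.lp b v) Q) = aeval (Pool.LA91.lp b v) (dv v Q) := by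
  classical
  induction Q using MvPolynomial.induction_on with
  | C a =>
    have h1 : dv v (C a) = 0 := by
      unfold dv
      exact Finset.sum_eq_zero fun o _ => by rw [pderiv_C, mul_zero]
    rw [h1, map_zero, aeval_C]
    exact Polynomial.derivative_C
  | add p q hp hq => rw [map_add, Polynomial.derivative_add, hp, hq, dv_add, map_add]
  | mul_X p i hp =>
    have h1 : dv v (p * X i) = dv v p * X i + p * C (v i) := by
      unfold dv
      rw [Finset.sum_mul]
      have e : ∀ o, C (v o) * pderiv o (p * X i) =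
          C (v o) * pderiv o p * X i + (if o = i then p * C (v o) else 0) := by
        intro o
        rw [pderiv_mul, pderiv_X]
        by_cases h : o = i
        · subst h
          rw [Pi.single_eq_same, if_pos rfl]
          ring
        · rw [Pi.single_eq_of_ne (Ne.symm h), if_neg h]
          ring
      rw [Finset.sum_congr rfl fun o _ => e o, Finset.sum_add_distrib,
        Finset.sum_ite_eq' univ i fun o => p * C (v o), if_pos (Finset.mem_univ i)]
    rw [h1, map_mul, Polynomial.derivative_mul, hp, map_add, map_mul, map_mul, aeval_X, aeval_C]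
    congr 1
    have h2 : Polynomial.derivative (Pool.LA91.lp b v i) = Polynomial.C (v i) := by
      unfold Pool.LA91.lp
      rw [Polynomial.derivative_add, Polynomial.derivative_C, zero_add,
        Polynomial.derivative_C_mul, Polynomial.derivative_X, mul_one]
    rw [h2]
    rfl

theorem der_alp_iter (Q : P4) (b v : V4) (n : ℕ) :
    Polynomial.derivative^[n] (aeval (Pool.LA91.lp b v) Q) = aeval (Pool.LA91.lp b v) ((dv v)^[n] Q) := by
  induction n with
  | zero => rfl
  | succ n ih => rw [Function.iterate_succ_apply', ih, der_alp, Function.iterate_succ_apply']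

theorem jet_dv (Q : P4) (b v : V4) (n : ℕ) : jet n Q b v = eval b ((dv v)^[n] Q) := by
  unfold jet
  rw [der_alp_iter, eval_alp]
  congr 2
  funext o
  ring

theorem iter_deg {Q : P4} {D : ℕ} (s : V4) (h : Q.totalDegree ≤ D) (n : ℕ) :
    ((dv s)^[n] Q).totalDegree ≤ D := by
  induction n with
  | zero => exact h
  | succ n ih =>
    rw [Function.iterate_succ_apply']
    exact dv_deg s ih

/-- **The Taylor formula.** -/
theorem taylor_dv {Q : P4} {D : ℕ} (hQ : Q.totalDegree ≤ D) (b v : V4) (t : ℝ) :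
    eval (fun o => b o + t * v o) Q =
      ∑ n ∈ range (D + 1), t ^ n / n.factorial * eval b ((dv v)^[n] Q) := by
  have h1 : eval (fun o => b o + t * v o) Q = (aeval (Pool.LA91.lp b v) Q).eval t := (eval_alp Q b v t).symm
  rw [h1, Polynomial.eval_eq_sum_range' (n := D + 1)
    (lt_of_le_of_lt (natDegree_alp hQ b v) (Nat.lt_succ_self D))]
  refine Finset.sum_congr rfl fun n _ => ?_
  have h2 := Polynomial.coeff_iterate_derivative (k := n) (p := aeval (Pool.LA91.lp b v) Q) 0
  rw [zero_add, Nat.descFactorial_self, nsmul_eq_mul, Polynomial.coeff_zero_eq_eval_zero] at h2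
  have h3 : (Polynomial.derivative^[n] (aeval (Pool.LA91.lp b v) Q)).eval 0 = eval b ((dv v)^[n] Q) :=
    jet_dv Q b v n
  rw [h3] at h2
  have h4 : (0 : ℝ) < n.factorial := by exact_mod_cast Nat.factorial_pos n
  rw [h2]
  field_simp

/-! ### Boxes -/

/-- **Markov on a box.** -/
theorem bx_pd (D : ℕ) : ∃ C₁ : ℝ, 1 ≤ C₁ ∧ ∀ (Q : P4) (F : V4) (M : ℝ), Q.totalDegree ≤ D →
    (∀ b : V4, (∀ o, |b o - F o| ≤ 1) → |eval b Q| ≤ M) →
    ∀ b : V4, (∀ o, |b o - F o| ≤ 1) → ∀ o, |eval b (pderiv o Q)| ≤ C₁ * M := by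
  classical
  obtain ⟨C₁, hC₁, hmk⟩ := Pool.Agent.H40.BFL.unit_markov D
  refine ⟨C₁, hC₁, fun Q F M hQ hM b hb o => ?_⟩
  obtain ⟨b₀, hb₀⟩ : ∃ b₀ : V4, b₀ = fun o' => if o' = o then F o - 1 else b o' := ⟨_, rfl⟩
  obtain ⟨v, hv⟩ : ∃ v : V4, v = fun o' => if o' = o then 2 else 0 := ⟨_, rfl⟩
  obtain ⟨τ, hτ⟩ : ∃ τ, τ = (b o - F o + 1) / 2 := ⟨_, rfl⟩
  have hbo := abs_le.1 (hb o)
  have hτ0 : τ ∈ Set.Icc (0 : ℝ) 1 := by
    rw [hτ]
    constructor <;> linarith
  have hin : ∀ t ∈ Set.Icc (0 : ℝ) 1, ∀ o', |b₀ o' + t * v o' - F o'| ≤ 1 := by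
    intro t ht o'
    rw [hb₀, hv]
    by_cases h : o' = o
    · subst h
      simp only [if_true]
      rw [abs_le]
      constructor <;> linarith [ht.1, ht.2]
    · simp only [if_neg h, mul_zero, add_zero]
      exact hb o'
  have h1 := hmk (aeval (Pool.LA91.lp b₀ v) Q) M (natDegree_alp hQ _ _) (fun t ht => by
    rw [eval_alp]
    exact hM _ (hin t ht)) τ hτ0
  rw [der_alp, eval_alp] at h1
  have e1 : (fun o' => b₀ o' + τ * v o') = b := by
    funext o'
    rw [hb₀, hv]
    by_cases h : o' = o
    · subst h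
      simp only [if_true]
      rw [hτ]
      ring
    · simp only [if_neg h, mul_zero, add_zero]
  rw [e1] at h1
  have e2 : dv v Q = C 2 * pderiv o Q := by
    unfold dv
    rw [Finset.sum_eq_single o]
    · rw [hv]
      simp only [if_true]
    · intro o' _ h
      rw [hv]
      simp only [if_neg h, C_0, zero_mul]
    · intro h
      exact absurd (Finset.mem_univ o) h
  rw [e2, map_mul, eval_C, abs_mul, abs_of_pos (by norm_num : (0 : ℝ) < 2)] at h1
  have h2 := abs_nonneg (eval b (pderiv o Q))
  linarith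

/-- Along a list of directions. -/
noncomputable def dl : List V4 → P4 → P4
  | [], Q => Q
  | s :: l, Q => dl l (dv s Q)

theorem dl_nil (Q : P4) : dl [] Q = Q := rfl

theorem dl_cons (s : V4) (l : List V4) (Q : P4) : dl (s :: l) Q = dl l (dv s Q) := rfl

theorem dl_add (l : List V4) (P Q : P4) : dl l (P + Q) = dl l P + dl l Q := by
  induction l generalizing P Q with
  | nil => rw [dl_nil, dl_nil, dl_nil]
  | cons s l ih => rw [dl_cons, dl_cons, dl_cons, dv_add, ih]

theorem dl_Cmul (l : List V4) (a : ℝ) (Q : P4) : dl l (C a * Q) = C a * dl l Q := by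
  induction l generalizing Q with
  | nil => rw [dl_nil, dl_nil]
  | cons s l ih => rw [dl_cons, dl_cons, dv_Cmul, ih]

theorem dl_dv (l : List V4) (s : V4) (Q : P4) : dl l (dv s Q) = dv s (dl l Q) := by
  induction l generalizing Q with
  | nil => rw [dl_nil, dl_nil]
  | cons s' l ih => rw [dl_cons, dl_cons, dv_comm, ih]

theorem dl_pd (l : List V4) (o : Option (Fin 3)) (Q : P4) :
    dl l (pderiv o Q) = pderiv o (dl l Q) := by
  induction l generalizing Q with
  | nil => rw [dl_nil, dl_nil]
  | cons s' l ih => rw [dl_cons, dl_cons, dv_pd, ih]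

theorem dl_deg {Q : P4} {D : ℕ} (l : List V4) (h : Q.totalDegree ≤ D) :
    (dl l Q).totalDegree ≤ D := by
  induction l generalizing Q with
  | nil => rw [dl_nil]; exact h
  | cons s' l ih => rw [dl_cons]; exact ih (dv_deg s' h)

theorem dv_le {Q : P4} {b s : V4} {S M : ℝ} (hS : 0 ≤ S) (hs : ∀ o, |s o| ≤ S)
    (hM : ∀ o, |eval b (pderiv o Q)| ≤ M) : |eval b (dv s Q)| ≤ 4 * S * M := by
  unfold dv
  rw [map_sum]
  refine (Finset.abs_sum_le_sum_abs _ _).trans ?_
  have h : ∀ o ∈ (univ : Finset (Option (Fin 3))), |eval b (C (s o) * pderiv o Q)| ≤ S * M := by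
    intro o _
    rw [map_mul, eval_C, abs_mul]
    exact mul_le_mul (hs o) (hM o) (abs_nonneg _) hS
  refine (Finset.sum_le_sum h).trans (le_of_eq ?_)
  rw [Finset.sum_const, Finset.card_univ, Fintype.card_option, Fintype.card_fin, nsmul_eq_mul]
  push_cast
  ring

/-- **A product of derivatives of a polynomial with a bounded gradient on a box.** -/
theorem bx_dl (D : ℕ) : ∃ C₁ : ℝ, 1 ≤ C₁ ∧ ∀ (Q : P4) (F : V4) (M S : ℝ), Q.totalDegree ≤ D →
    0 ≤ M → 1 ≤ S →
    (∀ b : V4, (∀ o, |b o - F o| ≤ 1) → ∀ o, |eval b (pderiv o Q)| ≤ M) →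
    ∀ l : List V4, (∀ s ∈ l, ∀ o, |s o| ≤ S) → 1 ≤ l.length →
    ∀ b : V4, (∀ o, |b o - F o| ≤ 1) → |eval b (dl l Q)| ≤ (C₁ * S) ^ l.length * M := by
  obtain ⟨C₁, hC₁, hmk⟩ := bx_pd D
  refine ⟨4 * C₁, by linarith, fun Q F M S hQ hM hS hb l => ?_⟩
  induction l generalizing Q M with
  | nil =>
    intro _ h
    simp at h
  | cons s l ih =>
    intro hl _ b hb'
    have hs : ∀ o, |s o| ≤ S := hl s (by simp)
    have h1 : ∀ b : V4, (∀ o, |b o - F o| ≤ 1) → |eval b (dv s Q)| ≤ 4 * S * M := fun b hb1 =>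
      dv_le (by linarith) hs (hb b hb1)
    rw [dl_cons, List.length_cons]
    rcases l with _ | ⟨s', l⟩
    · rw [dl_nil, List.length_nil, zero_add, pow_one]
      refine (h1 b hb').trans ?_
      have : 4 * S * M ≤ 4 * C₁ * S * M := by
        refine mul_le_mul_of_nonneg_right ?_ hM
        nlinarith
      exact this
    · have h2 := ih (dv s Q) (C₁ * (4 * S * M)) (dv_deg s hQ) (by positivity)
        (fun b hb1 o => hmk (dv s Q) F _ (dv_deg s hQ) h1 b hb1 o)
        (fun x hx => hl x (List.mem_cons_of_mem _ hx)) (by simp) b hb'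
      refine h2.trans (le_of_eq ?_)
      rw [pow_succ]
      ring

end Pool.NV24
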