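import Pool.Agent.H24.NV.One
import Pool.Agent.H91.NVA.Vel
import Pool.Agent.H91.NVA.Rel
import Pool.Agent.H91.LA.Own

/-!
# One scale: the event

`own_all`: all own jets over a closed label on a part. `one_ev`: the part of the event on which the
affine labels are near the ball labels, the velocities are in the plane of the fan, and the own jets
of the label of the place three are small.
-/

set_option autoImplicit false

namespace Pool.NV24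

open Finset Real MvPolynomial
open Pool.Agent.H49.Ent Pool.Agent.H32.Dense Pool.STK Pool.KA Pool.KSAT Pool.K2S Pool.PB Pool.S6C
open Pool.GEN Pool.CHT Pool.ISO Pool.D2R
open Pool.FLF (Fam.sub)
open Pool.LA91 (ojet own_fam)

/-- The constants of finitely many own jets. -/
theorem own_cst (m K N : ℕ) : ∃ C : ℝ, 1 ≤ C ∧ ∀ j < N, ∀ (J : ℕ) (F : Fam m J) (A : F.Ω → Prop)
    (hA : 0 < Pe F.p A) (w : ℕ) (G : LnT F → MvPolynomial (Option (Fin m)) ℝ) (k : Fin m)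
    (S₀ θ : ℝ), w ≤ J → (∀ s, (G s).totalDegree ≤ K) → 0 < S₀ → 0 ≤ θ →
    (Fam.sub F A hA).Tm θ → C * (θ + 1) ≤ ((J : ℝ) - w) * Real.log 2 →
    (∀ ω, A ω → |F.x ω k - eval (bt F ω) (G (slam F w ω))| ≤ S₀) →
    ∃ B : F.Ω → Prop, Sub B A ∧ Pe F.p A / 2 ≤ Pe F.p B ∧ ∀ ω, B ω →
      |ojet F k j (G (slam F w ω)) ω| ≤ Real.exp (C * (θ + 1)) * (2 ^ w) ^ j * S₀ := by
  induction N with
  | zero => exact ⟨1, le_rfl, fun j hj => absurd hj (Nat.not_lt_zero j)⟩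
  | succ N ih =>
    obtain ⟨C₁, hC₁, h1⟩ := ih
    obtain ⟨C₂, hC₂, h2⟩ := own_fam m K N
    refine ⟨max C₁ C₂, hC₁.trans (le_max_left _ _), ?_⟩
    intro j hj J F A hA w G k S₀ θ hw hG hS hθ hT hC hpos
    have hθ1 : 0 ≤ θ + 1 := by linarith
    have hle1 : C₁ * (θ + 1) ≤ max C₁ C₂ * (θ + 1) :=
      mul_le_mul_of_nonneg_right (le_max_left _ _) hθ1
    have hle2 : C₂ * (θ + 1) ≤ max C₁ C₂ * (θ + 1) :=
      mul_le_mul_of_nonneg_right (le_max_right _ _) hθ1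
    rcases Nat.lt_succ_iff_lt_or_eq.1 hj with h3 | h3
    · obtain ⟨B, b1, b2, b3⟩ := h1 j h3 J F A hA w G k S₀ θ hw hG hS hθ hT (hle1.trans hC) hpos
      refine ⟨B, b1, b2, fun ω hω => (b3 ω hω).trans ?_⟩
      exact mul_le_mul_of_nonneg_right (mul_le_mul_of_nonneg_right (Real.exp_le_exp.2 hle1)
        (by positivity)) hS.le
    · rw [h3]
      obtain ⟨B, b1, b2, b3⟩ := h2 J F A hA w G k S₀ θ hw hG hS hθ hT (hle2.trans hC) hpos
      refine ⟨B, b1, b2, fun ω hω => (b3 ω hω).trans ?_⟩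
      exact mul_le_mul_of_nonneg_right (mul_le_mul_of_nonneg_right (Real.exp_le_exp.2 hle2)
        (by positivity)) hS.le

/-- **All own jets** over a closed label, whole family. -/
theorem own_alls (m K N : ℕ) : ∃ C : ℝ, 1 ≤ C ∧ ∀ {J : ℕ} {F : Fam m J} {A : F.Ω → Prop}
    {w : ℕ} {G : LnT F → MvPolynomial (Option (Fin m)) ℝ} {k : Fin m} {S₀ θ : ℝ},
    F.Tm θ → 0 ≤ θ → 1 / 16 ≤ Pe F.p A → w ≤ J → (∀ s, (G s).totalDegree ≤ K) → 0 < S₀ →
    C * (θ + 1) ≤ ((J : ℝ) - w) * Real.log 2 →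
    (∀ ω, A ω → |F.x ω k - eval (bt F ω) (G (slam F w ω))| ≤ S₀) →
    ∃ B : F.Ω → Prop, Sub B A ∧ Pe F.p A / 2 ^ N ≤ Pe F.p B ∧ ∀ ω, B ω → ∀ j < N,
      |ojet F k j (G (slam F w ω)) ω| ≤ Real.exp (C * (θ + 1)) * (2 ^ w) ^ j * S₀ := by
  obtain ⟨C₁, hC₁, hown⟩ := own_cst m K N
  refine ⟨C₁ * (16 * 2 ^ N + 1), by nlinarith [one_le_pow₀ (n := N) (one_le_two (α := ℝ))], ?_⟩
  intro J F A w G k S₀ θ hTm hθ hA hw hG hS hC hpos
  have hl0 : 0 < Real.log 2 := Real.log_pos (by norm_num)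
  have hl1 : Real.log 2 ≤ 1 := by
    have := Real.log_two_lt_d9
    linarith
  obtain ⟨E, hE⟩ : ∃ E : ℝ, E = Real.exp (C₁ * (16 * 2 ^ N + 1) * (θ + 1)) := ⟨_, rfl⟩
  rw [← hE]
  have key : ∀ n ≤ N, ∃ B : F.Ω → Prop, Sub B A ∧ Pe F.p A / 2 ^ n ≤ Pe F.p B ∧
      ∀ ω, B ω → ∀ j < n, |ojet F k j (G (slam F w ω)) ω| ≤ E * (2 ^ w) ^ j * S₀ := by
    intro n
    induction n with
    | zero =>
      intro _
      exact ⟨A, fun _ h => h, by rw [pow_zero, div_one], fun ω _ j hj =>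
        absurd hj (Nat.not_lt_zero j)⟩
    | succ n ih =>
      intro hn
      obtain ⟨B, b1, b2, b3⟩ := ih (by omega)
      have h2N : (2 : ℝ) ^ n ≤ 2 ^ N := pow_le_pow_right₀ (by norm_num) (by omega)
      have hBN : 1 / (16 * 2 ^ N) ≤ Pe F.p B := by
        refine le_trans ?_ b2
        rw [div_le_div_iff₀ (by positivity) (by positivity)]
        nlinarith [show (0 : ℝ) < 2 ^ N by positivity]
      have hB0 : 0 < Pe F.p B := lt_of_lt_of_le (by positivity) hBN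
      have hT' := Pool.FLF.Tm_of_event hTm hB0
      obtain ⟨θ', hθ'⟩ : ∃ θ' : ℝ, θ' = (θ + Real.log 2) / Pe F.p B := ⟨_, rfl⟩
      rw [← hθ'] at hT'
      have h0 : 0 ≤ θ' := by
        rw [hθ']
        exact div_nonneg (by linarith) hB0.le
      have h8 : θ' ≤ 16 * 2 ^ N * (θ + 1) := by
        rw [hθ', div_le_iff₀ hB0]
        have h9 : 1 ≤ 16 * 2 ^ N * Pe F.p B := by
          rw [div_le_iff₀ (by positivity)] at hBN
          linarith
        calc θ + Real.log 2 ≤ 1 * (θ + 1) := by linarith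
          _ ≤ 16 * 2 ^ N * Pe F.p B * (θ + 1) :=
            mul_le_mul_of_nonneg_right h9 (by linarith)
          _ = _ := by ring
      have h9 : C₁ * (θ' + 1) ≤ C₁ * (16 * 2 ^ N + 1) * (θ + 1) := by
        rw [mul_assoc]
        refine mul_le_mul_of_nonneg_left ?_ (by linarith)
        nlinarith
      obtain ⟨B', k1, k2, k3⟩ := hown n (by omega) J F B hB0 w G k S₀ θ' hw hG hS h0 hT'
        (h9.trans hC) (fun ω hω => hpos ω (b1 ω hω))
      refine ⟨B', fun ω hω => b1 ω (k1 ω hω), ?_, fun ω hω j hj => ?_⟩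
      · rw [pow_succ]
        have : Pe F.p A / (2 ^ n * 2) = Pe F.p A / 2 ^ n / 2 := by
          field_simp
        rw [this]
        linarith
      · rcases Nat.lt_succ_iff_lt_or_eq.1 hj with h3 | h3
        · exact b3 ω (k1 ω hω) j h3
        · rw [h3]
          refine (k3 ω hω).trans ?_
          rw [hE]
          exact mul_le_mul_of_nonneg_right (mul_le_mul_of_nonneg_right (Real.exp_le_exp.2 h9)
            (by positivity)) hS.le
  exact key N le_rfl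

/-- **All own jets** over a closed label. -/
theorem own_all (m K N : ℕ) : ∃ C : ℝ, 1 ≤ C ∧ ∀ {J : ℕ} {F : Fam m J} {A A₁ : F.Ω → Prop}
    (hA : 0 < Pe F.p A) {w : ℕ} {G : LnT F → MvPolynomial (Option (Fin m)) ℝ} {k : Fin m}
    {S₀ θ : ℝ}, (Fam.sub F A hA).Tm θ → 0 ≤ θ → Sub A₁ A → Pe F.p A / 16 ≤ Pe F.p A₁ → w ≤ J →
    (∀ s, (G s).totalDegree ≤ K) → 0 < S₀ → C * (θ + 1) ≤ ((J : ℝ) - w) * Real.log 2 →
    (∀ ω, A₁ ω → |F.x ω k - eval (bt F ω) (G (slam F w ω))| ≤ S₀) →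
    ∃ B : F.Ω → Prop, Sub B A₁ ∧ Pe F.p A₁ / 2 ^ N ≤ Pe F.p B ∧ ∀ ω, B ω → ∀ j < N,
      |ojet F k j (G (slam F w ω)) ω| ≤ Real.exp (C * (θ + 1)) * (2 ^ w) ^ j * S₀ := by
  obtain ⟨C, hC, hown⟩ := own_alls m K N
  refine ⟨C, hC, ?_⟩
  intro J F A A₁ hA w G k S₀ θ hTm hθ hA₁ hPA hw hG hS hCJ hpos
  have hsp : ∀ B' : (Fam.sub F A hA).Ω → Prop, Pe F.p (fun ω => ∃ h : A ω, B' ⟨ω, h⟩) =
      Pe F.p A * Pe (Fam.sub F A hA).p B' := fun B' => Pool.FLF.sub_Pe hA B'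
  obtain ⟨T, hT⟩ : ∃ T : (Fam.sub F A hA).Ω → Prop, ∀ ω, T ω ↔ A₁ ω.1 := ⟨_, fun _ => Iff.rfl⟩
  have hPT : Pe F.p A₁ = Pe F.p A * Pe (Fam.sub F A hA).p T := by
    rw [← hsp T]
    congr 1
    funext ω
    refine propext ⟨fun h => ⟨hA₁ ω h, (hT _).2 h⟩, fun ⟨h, h'⟩ => (hT _).1 h'⟩
  have hT16 : 1 / 16 ≤ Pe (Fam.sub F A hA).p T := by
    rw [hPT] at hPA
    by_contra hcon
    push Not at hcon
    nlinarith
  obtain ⟨B', b1, b2, b3⟩ := hown (F := Fam.sub F A hA) (A := T) (w := w) (G := G) (k := k)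
    (S₀ := S₀) (θ := θ) hTm hθ hT16 hw hG hS hCJ (fun ω hω => hpos ω.1 ((hT ω).1 hω))
  refine ⟨fun ω => ∃ h : A ω, B' ⟨ω, h⟩, fun ω ⟨h, h'⟩ => (hT _).1 (b1 _ h'), ?_,
    fun ω ⟨h, h'⟩ j hj => b3 _ h' j hj⟩
  rw [hsp B', hPT, mul_div_assoc]
  exact mul_le_mul_of_nonneg_left b2 hA.le

end Pool.NV24
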