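import Pool.Agent.H24.NV.Ev

/-!
# One scale: the part of the event

`OnP`: the properties of the samples. `one_ev`: they hold on a part of the event.
-/

set_option autoImplicit false

namespace Pool.NV24

open Finset Real MvPolynomial
open Pool.Agent.H49.Ent Pool.Agent.H32.Dense Pool.STK Pool.KA Pool.KSAT Pool.K2S Pool.PB Pool.S6C
open Pool.GEN Pool.CHT Pool.ISO Pool.D2R
open Pool.FLF (Fam.sub)
open Pool.LA91 (ojet)
open Pool.NVA91 (velJ afBall slope g0Ball)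

variable {m J : ℕ}

/-- **The properties of the samples** of the part of the event. -/
structure OnP (F : Fam m J) (c : ℕ → Fin m) (D w P1 P2 k n : ℕ) (g : ℕ → ℕ)
    (G : PtT F → ℕ → MvPolynomial (Option (Fin m)) ℝ)
    (U V U3 V2 : PtT F → MvPolynomial (Option (Fin m)) ℝ)
    (U' V' : LnT F → MvPolynomial (Option (Fin m)) ℝ) (B : F.Ω → Prop) : Prop where
  dd : ∀ ω, B ω → ∀ j, |DLn c w P1 P2 U' V' (slam F w ω) j| ≤ 2 ^ k
  vel : ∀ ω, B ω → ∀ j, |DLn c w P1 P2 U' V' (slam F w ω) j -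
    (Jn c w P1 P2 U V U3 V2 none (ptr F J ω) j +
      F.d ω (c 0) * Jn c w P1 P2 U V U3 V2 (some (c 0)) (ptr F J ω) j)| ≤ 2 ^ k / 2 ^ n
  own : ∀ ω, B ω → ∀ j ≤ D, |ojet F (c 3) j (G (ptr F J ω) 3) ω| ≤ 2 ^ k * (2 ^ w) ^ j / 2 ^ g 3
  g0 : ∀ ω, B ω → ∀ b : Option (Fin m) → ℝ, |b none - F.t ω| ≤ 1 / 2 ^ w →
    |F.x ω (c 0) - eval b (G (ptr F J ω) 0)| ≤ 2 ^ k / 2 ^ w
  nU : ∀ ω, B ω → ∀ b, NBx c (G (ptr F J ω)) g w (F.t ω) 1 b →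
    |eval b (U (ptr F J ω)) - eval b (G (ptr F J ω) 1)| ≤ 2 ^ k / 2 ^ P1
  nV : ∀ ω, B ω → ∀ b, NBx c (G (ptr F J ω)) g w (F.t ω) 2 b →
    |eval b (V (ptr F J ω)) - eval b (G (ptr F J ω) 2)| ≤ 2 ^ k / 2 ^ P2

theorem exp_le_two {x : ℝ} {k : ℕ} (h : 2 * x ≤ k) (hx : 0 ≤ x) : Real.exp x ≤ 2 ^ k := by
  have hl1 : 1 / 2 ≤ Real.log 2 := by
    have := Real.log_two_gt_d9
    linarith
  have h1 : (2 : ℝ) ^ k = Real.exp (k * Real.log 2) := by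
    rw [mul_comm, Real.exp_mul, Real.exp_log (by norm_num), Real.rpow_natCast]
  rw [h1]
  refine Real.exp_le_exp.2 ?_
  have : (k : ℝ) * (1 / 2) ≤ k * Real.log 2 := mul_le_mul_of_nonneg_left hl1 (Nat.cast_nonneg k)
  linarith

theorem pow_quo {E : ℝ} {a b d w k n : ℕ} (hE0 : 0 ≤ E) (hE : E ≤ 2 ^ k) (h : a + d + n ≤ w + b) :
    E * (2 ^ a / 2 ^ w * (2 ^ d / 2 ^ b)) ≤ 2 ^ k / 2 ^ n := by
  have h1 : (2 : ℝ) ^ a / 2 ^ w * (2 ^ d / 2 ^ b) ≤ 1 / 2 ^ n := by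
    rw [div_mul_div_comm, ← pow_add, ← pow_add, div_le_div_iff₀ (by positivity) (by positivity),
      one_mul, ← pow_add]
    exact pow_le_pow_right₀ (by norm_num) h
  calc E * (2 ^ a / 2 ^ w * (2 ^ d / 2 ^ b)) ≤ 2 ^ k * (1 / 2 ^ n) :=
        mul_le_mul hE h1 (by positivity) (by positivity)
    _ = _ := by ring

/-- **The part of the event.** -/
theorem one_ev (m D : ℕ) : ∃ C : ℕ, ∀ {J : ℕ} {F : Fam m J} {c : ℕ → Fin m}
    {A : F.Ω → Prop} (hA : 0 < Pe F.p A) {w w2 w3 e e2 h Dr k n P1 P2 h1 h2 : ℕ} {g g' : ℕ → ℕ}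
    {κ θ : ℝ} {G G2 : PtT F → ℕ → MvPolynomial (Option (Fin m)) ℝ}
    {H H2 : LnT F → ℕ → MvPolynomial (Option (Fin m)) ℝ}
    {U V U3 V2 : PtT F → MvPolynomial (Option (Fin m)) ℝ}
    {U' V' U3' V2' : LnT F → MvPolynomial (Option (Fin m)) ℝ},
    Set.InjOn c (Set.Iio 4) → 1 ≤ D → D ≤ Dr → w ≤ w2 → w2 ≤ w3 → w3 ≤ J →
    ChOK F c 4 (fun _ => D) w w e g A G H → Clsd F 4 w A G H → RelvF F c 3 w w g Dr h κ A G →
    ChOK F c 4 (fun _ => D) w2 w2 e2 g' A G2 H2 → RelvF F c 3 w2 w2 g' Dr h κ A G2 →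
    AfP F c 1 w P1 A U U' → AfP F c 2 w P2 A V V' → AfP F c 1 w3 h1 A U3 U3' →
    AfP F c 2 w2 h2 A V2 V2' →
    0 ≤ θ → (Fam.sub F A hA).Tm θ → C * (θ + 1) ≤ ((J : ℝ) - w3) * Real.log 2 →
    C * (θ + 1) ≤ k → h ≤ k → w ≤ g 0 + k → P1 ≤ g 1 → P2 ≤ g 2 → P2 ≤ h2 →
    P1 + w3 + n ≤ w + h1 → P2 + w2 + n ≤ w + h2 → g' 1 + w3 + n ≤ w + h1 →
    κ ≤ 1 / 2 ^ (D + 9) →
    ∃ B : F.Ω → Prop, Sub B A ∧ Pe F.p A / 2 ^ (D + 9) ≤ Pe F.p B ∧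
      OnP F c D w P1 P2 (C * (k + 1)) n g G U V U3 V2 U' V' B := by
  obtain ⟨Cv, hCv, hvel⟩ := velJ m
  obtain ⟨Co, hCo, hown⟩ := own_all m D (D + 1)
  obtain ⟨Cs, hslope⟩ := slope
  obtain ⟨C, hC⟩ := exists_nat_ge (2 * Cv + 2 * Co + Cs + 10)
  have hC1 : 2 * Cv ≤ C := by
    have : (0 : ℝ) ≤ Cs := Nat.cast_nonneg Cs
    linarith
  have hC2 : 2 * Co ≤ C := by
    have : (0 : ℝ) ≤ Cs := Nat.cast_nonneg Cs
    linarith
  have hC3 : Cs + 10 ≤ C := by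
    have h1 : ((Cs + 10 : ℕ) : ℝ) ≤ C := by
      push_cast
      linarith
    exact_mod_cast h1
  refine ⟨C, ?_⟩
  intro J F c A hA w w2 w3 e e2 h Dr k n P1 P2 h1 h2 g g' κ θ G G2 H H2 U V U3 V2 U' V' U3' V2'
    hc hD hDr hw hw2 hw3 hch hcl hR hch2 hR2 hU hV hU3 hV2 hθ hTm hCJ hCk hhk hg0 hP1 hP2 hPh n1 n2
    n3 hκ
  have hθ1 : 0 ≤ θ + 1 := by linarith
  have hlog : 0 < Real.log 2 := Real.log_pos (by norm_num)
  have hCv' : Cv * (θ + 1) ≤ C * (θ + 1) :=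
    mul_le_mul_of_nonneg_right (by linarith) hθ1
  have hCo' : Co * (θ + 1) ≤ C * (θ + 1) :=
    mul_le_mul_of_nonneg_right (by linarith) hθ1
  have hEv : Real.exp (Cv * (θ + 1)) ≤ 2 ^ k := exp_le_two (by
    have := mul_le_mul_of_nonneg_right hC1 hθ1
    linarith) (by positivity)
  have hEo : Real.exp (Co * (θ + 1)) ≤ 2 ^ k := exp_le_two (by
    have := mul_le_mul_of_nonneg_right hC2 hθ1
    linarith) (by positivity)
  have hkC : k ≤ C * (k + 1) := by nlinarith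
  obtain ⟨B1, a1, b1, v1⟩ := hvel hA hc hw hw2 hw3 hθ hU hV hU3 hV2 hTm (hCv'.trans hCJ)
  have hwJ : w ≤ J := by omega
  have hww : ((J : ℝ) - w3) * Real.log 2 ≤ ((J : ℝ) - w) * Real.log 2 := by
    refine mul_le_mul_of_nonneg_right ?_ hlog.le
    have : (w : ℝ) ≤ w3 := by exact_mod_cast hw.trans hw2
    linarith
  obtain ⟨B2, a2, b2, v2⟩ := hown (F := F) (A₁ := B1) hA (w := w) (G := fun s => H s 3) (k := c 3)
    (S₀ := 1 / 2 ^ g 3) hTm hθ a1 b1 hwJ (fun s => hch.degH s 3) (by positivity)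
    ((hCo'.trans hCJ).trans hww) (fun ω hω => by
      have h5 := hch.pos ω (a1 ω hω) 3 (by norm_num)
      rw [hcl ω (a1 ω hω) 3 (by norm_num)] at h5
      exact h5)
  have s2 : Sub B2 A := fun ω hω => a1 ω (a2 ω hω)
  have hp : (2 : ℝ) ^ (D + 9) = 16 * (2 ^ (D + 1) * 16) := by
    rw [pow_add, pow_add]
    norm_num
    ring
  have m2 : Pe F.p A / (16 * 2 ^ (D + 1)) ≤ Pe F.p B2 := by
    refine le_trans ?_ b2
    rw [← div_div]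
    exact div_le_div_of_nonneg_right b1 (by positivity)
  obtain ⟨a, ha⟩ : ∃ a, a = Pe F.p A / (16 * 2 ^ (D + 1)) := ⟨_, rfl⟩
  have hκa : 1 / 2 ^ (D + 9) * Pe F.p A = a / 16 := by
    rw [ha, hp]
    field_simp
  have ha0 : 0 < a := by
    rw [ha]
    positivity
  rw [← ha] at m2
  obtain ⟨B3, a3, b3, v3⟩ := afBall hc hD hDr (show 1 ≤ 2 by norm_num) hch hcl hR hκ hU hP1 B2 s2
    (by linarith)
  obtain ⟨B4, a4, b4, v4⟩ := afBall hc hD hDr (show 2 ≤ 2 by norm_num) hch hcl hR hκ hV hP2 B3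
    (fun ω hω => s2 ω (a3 ω hω)) (by linarith)
  obtain ⟨B5, a5, b5, v5⟩ := g0Ball hc hD hDr hwJ hch hR hκ hg0 (B' := B4)
    (fun ω hω => s2 ω (a3 ω (a4 ω hω))) (by linarith)
  obtain ⟨B6, a6, b6, v6⟩ := hslope hc hD hDr hw (by omega) hch2 hR2 hκ hV hV2 hPh B5
    (fun ω hω => s2 ω (a3 ω (a4 ω (a5 ω hω)))) (by linarith)
  have hup : ∀ {x : ℝ} {a b d : ℕ}, a ≤ b → x ≤ 2 ^ a / 2 ^ d → x ≤ 2 ^ b / 2 ^ d :=
    fun {x a b d} hab hx => hx.trans (div_le_div_of_nonneg_right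
      (pow_le_pow_right₀ (by norm_num) hab) (by positivity))
  have hbig : h + Cs + 3 + k ≤ C * (k + 1) := by nlinarith
  refine ⟨B6, fun ω hω => s2 ω (a3 ω (a4 ω (a5 ω (a6 ω hω)))), ?_, ?_, ?_, ?_, ?_, ?_, ?_⟩
  · have h5 : Pe F.p A / 2 ^ (D + 9) = a / 16 := by
      rw [← hκa]
      ring
    rw [h5]
    linarith
  · intro ω hω j
    exact ((v1 ω (a2 ω (a3 ω (a4 ω (a5 ω (a6 ω hω)))))).1 j).trans (hEv.trans
      (pow_le_pow_right₀ (by norm_num) hkC))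
  · intro ω hω j
    obtain ⟨-, q1, q2⟩ := v1 ω (a2 ω (a3 ω (a4 ω (a5 ω (a6 ω hω)))))
    have hE0 : 0 ≤ Real.exp (Cv * (θ + 1)) := (Real.exp_pos _).le
    have q3 : Real.exp (Cv * (θ + 1)) * (2 ^ P1 / 2 ^ w * (2 ^ w3 / 2 ^ h1)) ≤ 2 ^ k / 2 ^ n :=
      pow_quo hE0 hEv n1
    fin_cases j
    · exact hup hkC (q1.trans q3)
    · refine q2.trans ?_
      have q4 : Real.exp (Cv * (θ + 1)) * (2 ^ P2 / 2 ^ w * (2 ^ w2 / 2 ^ h2)) ≤ 2 ^ k / 2 ^ n :=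
        pow_quo hE0 hEv n2
      have q5 := v6 ω hω
      have q6 : 2 ^ P2 / 2 ^ w * (2 ^ w3 / 2 ^ h1) * |pc (V2 (ptr F J ω)) (some (c 1)) -
          pc (V (ptr F J ω)) (some (c 1))| ≤ 2 ^ P2 / 2 ^ w * (2 ^ w3 / 2 ^ h1) *
            (2 ^ (h + Cs + g' 1) / 2 ^ P2) := mul_le_mul_of_nonneg_left q5 (by positivity)
      have q7 : (2 : ℝ) ^ P2 / 2 ^ w * (2 ^ w3 / 2 ^ h1) * (2 ^ (h + Cs + g' 1) / 2 ^ P2) =
          2 ^ (h + Cs) * (2 ^ g' 1 / 2 ^ w * (2 ^ w3 / 2 ^ h1)) := by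
        rw [pow_add]
        field_simp
      have q8 : (2 : ℝ) ^ (h + Cs) * (2 ^ g' 1 / 2 ^ w * (2 ^ w3 / 2 ^ h1)) ≤
          2 ^ (h + Cs) / 2 ^ n := pow_quo (by positivity) le_rfl n3
      have q9 : Real.exp (Cv * (θ + 1)) * (2 ^ P2 / 2 ^ w * (2 ^ w2 / 2 ^ h2) +
          2 ^ P2 / 2 ^ w * (2 ^ w3 / 2 ^ h1) * |pc (V2 (ptr F J ω)) (some (c 1)) -
            pc (V (ptr F J ω)) (some (c 1))|) ≤ 2 ^ k / 2 ^ n + 2 ^ k * (2 ^ (h + Cs) / 2 ^ n) := by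
        rw [mul_add]
        refine add_le_add q4 ?_
        exact mul_le_mul hEv (q6.trans (q7.le.trans q8)) (by positivity) (by positivity)
      refine q9.trans ?_
      have q10 : (2 : ℝ) ^ k / 2 ^ n + 2 ^ k * (2 ^ (h + Cs) / 2 ^ n) ≤
          2 ^ (h + Cs + 3 + k) / 2 ^ n := by
        have e1 : (2 : ℝ) ^ (h + Cs + 3 + k) = 8 * (2 ^ k * 2 ^ (h + Cs)) := by
          rw [pow_add, pow_add]
          norm_num
          ring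
        rw [e1, mul_div_assoc', ← add_div]
        refine div_le_div_of_nonneg_right ?_ (by positivity)
        have e2 : (1 : ℝ) ≤ 2 ^ (h + Cs) := one_le_pow₀ (by norm_num)
        have e3 : (0 : ℝ) < 2 ^ k := by positivity
        nlinarith
      exact hup hbig q10
  · intro ω hω j hj
    have q1 := v2 ω (a3 ω (a4 ω (a5 ω (a6 ω hω)))) j (by omega)
    have hωA : A ω := s2 ω (a3 ω (a4 ω (a5 ω (a6 ω hω))))
    rw [hcl ω hωA 3 (by norm_num)]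
    refine q1.trans ?_
    rw [mul_one_div]
    refine div_le_div_of_nonneg_right (mul_le_mul_of_nonneg_right (hEo.trans
      (pow_le_pow_right₀ (by norm_num) hkC)) (by positivity)) (by positivity)
  · intro ω hω b hb
    exact hup (by omega) (v5 ω (a6 ω hω) b hb)
  · intro ω hω b hb
    exact hup (by omega) (v3 ω (a4 ω (a5 ω (a6 ω hω))) b hb)
  · intro ω hω b hb
    exact hup (by omega) (v4 ω (a5 ω (a6 ω hω)) b hb)

end Pool.NV24
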