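import Pool.Agent.H24.NV.Olw

/-!
# One scale: the theorem

`tan4`: the tangent. `nv_one`: on a part of the event the label of the place three is nearly affine.
-/

set_option autoImplicit false

namespace Pool.NV24

open Finset Real MvPolynomial
open Pool.Agent.H49.Ent Pool.Agent.H32.Dense Pool.STK Pool.KA Pool.KSAT Pool.K2S Pool.PB Pool.S6C
open Pool.GEN Pool.CHT Pool.ISO Pool.D2R
open Pool.FLF (Fam.sub)
open Pool.NVA91 (AfP.sub psn eval_psn deg_psn dep_psn grow_box)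
open Pool.AFK25 (psh eval_psh deg_psh)

/-- **The tangent** of a polynomial at a point. -/
noncomputable def tan4 (Q : P4) (x : V4) : P4 :=
  C (eval x Q) + ∑ o, C (eval x (pderiv o Q)) * (X o - C (x o))

theorem eval_tan4 (Q : P4) (x b : V4) :
    eval b (tan4 Q x) = eval x Q + eval x (dv (fun o => b o - x o) Q) := by
  unfold tan4 dv
  simp only [map_add, map_sum, map_mul, map_sub, eval_C, eval_X]
  congr 1
  exact Finset.sum_congr rfl fun o _ => mul_comm _ _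

theorem deg_tan4 (Q : P4) (x : V4) : (tan4 Q x).totalDegree ≤ 1 := by
  unfold tan4
  refine (totalDegree_add _ _).trans (max_le (by rw [totalDegree_C]; omega) ?_)
  refine (totalDegree_finsetSum _ _).trans (Finset.sup_le fun o _ => ?_)
  refine (totalDegree_mul _ _).trans ?_
  rw [totalDegree_C, zero_add]
  exact deg_xc o _

/-- **From the natural coordinates to the old ones.** -/
theorem tan_old (D : ℕ) : ∃ C₀ : ℕ, ∀ {m : ℕ} {c : ℕ → Fin m} {w g1 g2 k : ℕ} {g : ℕ → ℕ}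
    {G : ℕ → MvPolynomial (Option (Fin m)) ℝ} {U V : MvPolynomial (Option (Fin m)) ℝ}
    {a : Option (Fin m) → ℝ}, NatP c D w g1 g2 k g G U V a → ∀ (τ : ℝ) (x : V4) (M : ℝ),
    (∀ o, |x o - nco c w g1 g2 τ U V a o| ≤ 1) →
    (∀ b : V4, (∀ o, |b o - x o| ≤ 1) →
      |eval b (qn c w g1 g2 g τ U V (G 3)) - (eval x (qn c w g1 g2 g τ U V (G 3)) +
        eval x (dv (fun o => b o - x o) (qn c w g1 g2 g τ U V (G 3))))| ≤ M) →
    ∃ Q : MvPolynomial (Option (Fin m)) ℝ, Q.totalDegree ≤ 1 ∧ DepC c 3 Q ∧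
      ∀ b, NBx c G g w (a none) 3 b →
        |eval b (G 3) - eval b Q| ≤ 2 ^ (C₀ * (k + 1)) * M / 2 ^ g 3 := by
  obtain ⟨c', hgr⟩ := grow_box D
  refine ⟨c' + 3 * D, ?_⟩
  intro m c w g1 g2 k g G U V a N τ x M hx hM
  obtain ⟨q, hq⟩ : ∃ q, q = qn c w g1 g2 g τ U V (G 3) := ⟨_, rfl⟩
  rw [← hq] at hM
  have hqd : q.totalDegree ≤ D := by
    rw [hq]
    exact deg_psh N.dU N.dV (q3_deg (N.deg 3))
  have hTd : (psn c w g1 g2 τ U V (tan4 q x)).totalDegree ≤ 1 := deg_psn N.dU N.dV (deg_tan4 q x)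
  have hM0 : 0 ≤ M := (abs_nonneg _).trans (hM x fun o => by
    rw [sub_self, abs_zero]
    exact zero_le_one)
  refine ⟨C (1 / 2 ^ g 3) * psn c w g1 g2 τ U V (tan4 q x), ?_, ?_, fun b hb => ?_⟩
  · refine (totalDegree_mul _ _).trans ?_
    rw [totalDegree_C, zero_add]
    exact hTd
  · intro b b' h0 h1
    rw [map_mul, map_mul, eval_C, eval_C, dep_psn N.eU N.eV (tan4 q x) b b' h0 h1]
  · have h1 := N.nbx_nat τ hb
    have hk3 : ∀ o, |nco c w g1 g2 τ U V b o - x o| ≤ 2 ^ (k + 3) := by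
      intro o
      have a1 := abs_le.1 (h1 o)
      have a2 := abs_le.1 (hx o)
      have e1 : (2 : ℝ) ^ (k + 3) = 2 ^ (k + 2) + 2 ^ (k + 2) := by
        rw [show k + 3 = k + 2 + 1 by ring, pow_succ]
        ring
      have e2 : (1 : ℝ) ≤ 2 ^ (k + 2) := one_le_pow₀ (by norm_num)
      rw [abs_le]
      constructor <;> linarith [a1.1, a1.2, a2.1, a2.2]
    have h2 := hgr (k + 3) (q - tan4 q x) x (nco c w g1 g2 τ U V b) M
      ((totalDegree_sub _ _).trans (max_le hqd ((deg_tan4 q x).trans N.D1)))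
      (fun y hy => by
        rw [map_sub, eval_tan4]
        exact hM y hy) hk3
    rw [map_sub] at h2
    have h3 : eval (nco c w g1 g2 τ U V b) q = 2 ^ g 3 * eval b (G 3) := by
      rw [hq]
      unfold qn
      rw [eval_psh N.inj w g1 g2 τ N.eU N.eV (q3_dep (N.dep 3)) b]
      unfold q3
      rw [map_mul, eval_C]
    rw [map_mul, eval_C, eval_psn]
    have hg : (0 : ℝ) < 2 ^ g 3 := by positivity
    have e1 : eval b (G 3) - 1 / 2 ^ g 3 * eval (nco c w g1 g2 τ U V b) (tan4 q x) =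
        (eval (nco c w g1 g2 τ U V b) q - eval (nco c w g1 g2 τ U V b) (tan4 q x)) / 2 ^ g 3 := by
      rw [h3]
      field_simp
    rw [e1, abs_div, abs_of_pos hg]
    refine div_le_div_of_nonneg_right (h2.trans ?_) hg.le
    refine mul_le_mul_of_nonneg_right (num_le ?_) hM0
    nlinarith [Nat.zero_le (c' * k), Nat.zero_le (D * k)]

theorem OnP.mono {m J : ℕ} {F : Fam m J} {c : ℕ → Fin m} {D w P1 P2 k k' n : ℕ} {g : ℕ → ℕ}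
    {G : PtT F → ℕ → MvPolynomial (Option (Fin m)) ℝ}
    {U V U3 V2 : PtT F → MvPolynomial (Option (Fin m)) ℝ}
    {U' V' : LnT F → MvPolynomial (Option (Fin m)) ℝ} {B : F.Ω → Prop}
    (O : OnP F c D w P1 P2 k n g G U V U3 V2 U' V' B) (hk : k ≤ k') :
    OnP F c D w P1 P2 k' n g G U V U3 V2 U' V' B := by
  have h1 : (2 : ℝ) ^ k ≤ 2 ^ k' := num_le hk
  have h2 : ∀ {x : ℝ} {d : ℕ}, x ≤ 2 ^ k / 2 ^ d → x ≤ 2 ^ k' / 2 ^ d := fun {x d} hx =>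
    hx.trans (div_le_div_of_nonneg_right h1 (by positivity))
  refine ⟨fun ω hω j => (O.dd ω hω j).trans h1, fun ω hω j => h2 (O.vel ω hω j),
    fun ω hω j hj => (O.own ω hω j hj).trans ?_, fun ω hω b hb => h2 (O.g0 ω hω b hb),
    fun ω hω b hb => h2 (O.nU ω hω b hb), fun ω hω b hb => h2 (O.nV ω hω b hb)⟩
  exact div_le_div_of_nonneg_right (mul_le_mul_of_nonneg_right h1 (by positivity)) (by positivity)

theorem kap_le {κ M T : ℝ} (h : κ * T ≤ 1) (hM : 0 < M) (hMT : M ≤ T) : κ ≤ 1 / M := by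
  rw [le_div_iff₀ hM]
  rcases le_total κ 0 with h0 | h0
  · nlinarith
  · exact (mul_le_mul_of_nonneg_left hMT h0).trans h

theorem mas_num {C K a : ℝ} (ha : 0 < a) (hK : 0 ≤ K) (hC : a * 1024 ≤ C) :
    128 * (2 * K + 2) * a ≤ C * (K + 1) ∧ a ≤ C * (K + 1) := by
  have h1 : a * 1024 * (K + 1) ≤ C * (K + 1) := mul_le_mul_of_nonneg_right hC (by linarith)
  have h2 : 0 ≤ a * K := mul_nonneg ha.le hK
  constructor <;> nlinarith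

/-- The numbers of the end, I. -/
theorem num_aff {C C₂ C₃ D r₀ k n : ℕ} (hC : C = (C₂ + C₃ + 1) * (18 * D + 50) + r₀ + 5)
    (hn : C * (k + 1) ≤ n) :
    C₂ * (k + 1) ≤ n ∧ k + 4 + C₂ * (k + 1) * (9 * D + 41) ≤ n ∧
      C₃ * (k + 1) + C₂ * (k + 1) * (18 * D + 50) ≤ C * (k + 1) := by
  obtain ⟨N, hN⟩ : ∃ N, N = 18 * D + 50 := ⟨_, rfl⟩
  rw [← hN] at hC ⊢
  have h3 : 9 * D + 41 ≤ N := by omega
  have e1 : C * (k + 1) = C₂ * (k + 1) * N + C₃ * (k + 1) * N + N * (k + 1) + r₀ * (k + 1) +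
      5 * (k + 1) := by
    rw [hC]
    ring
  have h5 : C₂ * (k + 1) * (9 * D + 41) ≤ C₂ * (k + 1) * N := Nat.mul_le_mul_left _ h3
  have h6 : C₃ * (k + 1) ≤ C₃ * (k + 1) * N := Nat.le_mul_of_pos_right _ (by omega)
  have h7 : C₂ * (k + 1) ≤ C₂ * (k + 1) * N := Nat.le_mul_of_pos_right _ (by omega)
  refine ⟨by omega, by omega, by omega⟩

/-- **The nearly affine label** on a quarter of the part of the event. -/
theorem one_aff (D : ℕ) (hD : 1 ≤ D) : ∃ C₀ : ℕ, ∀ {m J : ℕ} {F : Fam m J} {c : ℕ → Fin m}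
    {A B : F.Ω → Prop} {w e h Dr k k₀ n K P1 P2 gm : ℕ} {g : ℕ → ℕ} {κ κ₀ κ₁ η : ℝ}
    {G : PtT F → ℕ → MvPolynomial (Option (Fin m)) ℝ}
    {H : LnT F → ℕ → MvPolynomial (Option (Fin m)) ℝ}
    {U V U3 V2 : PtT F → MvPolynomial (Option (Fin m)) ℝ}
    {U' V' : LnT F → MvPolynomial (Option (Fin m)) ℝ},
    Set.InjOn c (Set.Iio 4) → D ≤ Dr → w ≤ J → ChOK F c 4 (fun _ => D) w w e g A G H →
    Clsd F 4 w A G H → RelvF F c 3 w w g Dr h κ A G → AfP F c 1 w P1 A U U' →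
    AfP F c 2 w P2 A V V' → Sub B A → 0 < Pe F.p B → η * Pe F.p A ≤ Pe F.p B →
    OnP F c D w P1 P2 k n g G U V U3 V2 U' V' B → w ≤ g 0 + k → g 0 ≤ w + k → g 1 ≤ P1 + k →
    P1 ≤ g 1 + k → g 2 ≤ P2 + k → P2 ≤ g 2 + k → (∀ l ≤ 3, g l ≤ gm) → e + gm + n ≤ J →
    C₀ * (k + 1) ≤ n → C₀ ≤ k → h ≤ k → k₀ ≤ k → J ≤ K * k →
    Fre F.p A (ptr F J) (fun ω => F.d ω (c 0)) (1 / 2 ^ k₀) D κ₀ →
    Fre F.p A (slam F w) (Tn F w) (1 / 2 ^ k₀) D κ₀ → 0 < κ₁ → κ ≤ κ₁ * η → κ₀ ≤ κ₁ * η →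
    κ₁ * (128 * (2 * K + 2)) ≤ 1 →
    ∃ B₁ : F.Ω → Prop, Sub B₁ B ∧ Pe F.p B / 4 ≤ Pe F.p B₁ ∧ ∀ ω, B₁ ω →
      ∃ Q : MvPolynomial (Option (Fin m)) ℝ, Q.totalDegree ≤ 1 ∧ DepC c 3 Q ∧
        ∀ b, NBx c (G (ptr F J ω)) g w (F.t ω) 3 b →
          |eval b (G (ptr F J ω) 3) - eval b Q| ≤ 2 ^ (C₀ * (k + 1)) / 2 ^ g 3 := by
  obtain ⟨C₂, hC₂, hlaw⟩ := one_law D
  obtain ⟨C₃, htan⟩ := tan_old D
  obtain ⟨R₀, hR₀, hnv⟩ := nv_law D hD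
  obtain ⟨r₀, hr₀⟩ := pow_unbounded_of_one_lt R₀ (one_lt_two (α := ℝ))
  obtain ⟨C, hC⟩ : ∃ C, C = (C₂ + C₃ + 1) * (18 * D + 50) + r₀ + 5 := ⟨_, rfl⟩
  refine ⟨C, ?_⟩
  intro m J F c A B w e h Dr k k₀ n K P1 P2 gm g κ κ₀ κ₁ η G H U V U3 V2 U' V' hc hDr hw hch hcl
    hR hU hV hBA hPB hη O h0 h0' h1 h1' h2 h2' hgm hJ hn hCk hhk hk0 hJK hfc hft hκ₁ hκκ hκ₀ hκK
  obtain ⟨e1, e2, e3⟩ := num_aff hC hn
  have L := hlaw hc hD hDr hw hch hcl hR hU hV hBA hPB hη O h0 h0' h1 h1' h2 h2' hgm hJ e1 hhk hk0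
    hJK hfc hft hκ₁ hκκ hκ₀ (R := 2 ^ (C₂ * (k + 1))) rfl
  have hrk : r₀ ≤ C₂ * (k + 1) := by
    have q1 : r₀ ≤ k := by omega
    have q2 : k + 1 ≤ C₂ * (k + 1) := Nat.le_mul_of_pos_left _ hC₂
    omega
  obtain ⟨B₁, b1, b2, b3⟩ := hnv L (hr₀.le.trans (num_le hrk)) (by positivity) (by
      have q3 : (128 * (((2 * K + 1 : ℕ) : ℝ) + 1)) = 128 * (2 * K + 2) := by
        push_cast
        ring
      rw [q3]
      exact hκK) (by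
      rw [← pow_mul, div_mul_eq_mul_div, ← pow_add, div_le_one (by positivity)]
      exact num_le e2)
  refine ⟨B₁, b1, b2, fun ω hω => ?_⟩
  obtain ⟨Nn, hL⟩ := smp_nat hc hD hch hU hV hBA O h0 h0' h1 h1' h2 h2' (b1 ω hω)
  obtain ⟨r1, r2⟩ := smp_rnd F c ω
  have hnr : ∀ o, |FPn c w P1 P2 U V (ptr F J ω) o -
      nco c w P1 P2 (τP w (ptr F J ω)) (U (ptr F J ω)) (V (ptr F J ω)) (bt F ω) o| ≤ 1 := by
    intro o
    refine (Nn.near hL hgm (τP w (ptr F J ω)) (b := bP (ptr F J ω)) (b' := bt F ω) r1 r2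
      o).trans ?_
    rw [mul_one_div, div_le_one (by positivity)]
    exact num_le (by omega)
  obtain ⟨Q, q1, q2, q3'⟩ := htan Nn (τP w (ptr F J ω)) (FPn c w P1 P2 U V (ptr F J ω)) _ hnr
    (b3 ω hω)
  refine ⟨Q, q1, q2, fun b hb => (q3' b hb).trans ?_⟩
  refine div_le_div_of_nonneg_right ?_ (by positivity)
  rw [← pow_mul, ← pow_add]
  exact num_le e3

/-- The numbers of the end, II. -/
theorem num_one {C C₁ C₂ C₄ E k k' n : ℕ} (hC₄ : C₄ = C₁ + C₂ + 1)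
    (hC : C = C₁ + C₂ * (C₄ + 1) + C₄ + E) (hk : k' = C₄ * (k + 1)) (hn : C * (k + 1) ≤ n) :
    C₁ ≤ C ∧ E ≤ C ∧ C₁ * (k + 1) ≤ k' ∧ k ≤ k' ∧ C₂ ≤ k' ∧ C₂ * (k' + 1) ≤ C * (k + 1) ∧
      C₂ * (k' + 1) ≤ n := by
  have e1 : C * (k + 1) = C₁ * (k + 1) + C₂ * (C₄ * (k + 1) + (k + 1)) + C₄ * (k + 1) +
      E * (k + 1) := by
    rw [hC]
    ring
  have h1 : k' + 1 ≤ C₄ * (k + 1) + (k + 1) := by omega
  have h2 : C₂ * (k' + 1) ≤ C₂ * (C₄ * (k + 1) + (k + 1)) := Nat.mul_le_mul_left _ h1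
  have h3 : k' = C₁ * (k + 1) + C₂ * (k + 1) + (k + 1) := by
    rw [hk, hC₄]
    ring
  have h4 : C₂ ≤ C₂ * (k + 1) := Nat.le_mul_of_pos_right _ (by omega)
  refine ⟨by omega, by omega, by omega, by omega, by omega, by omega, by omega⟩

theorem gm_ex {g : ℕ → ℕ} {e n J : ℕ} (h : ∀ l ≤ 3, e + g l + n ≤ J) :
    ∃ gm, (∀ l ≤ 3, g l ≤ gm) ∧ e + gm + n ≤ J := by
  refine ⟨(range 4).sup g, fun l hl => Finset.le_sup (f := g) (mem_range.2 (by omega)), ?_⟩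
  have h5 : (range 4).sup g ≤ J - e - n := by
    refine Finset.sup_le fun l hl => ?_
    have := h l (by rw [mem_range] at hl; omega)
    omega
  have := h 0 (by norm_num)
  omega

/-- The relative masses. -/
theorem mas_one {C D K : ℕ} (h : 2 ^ (D + 19) ≤ C) :
    (2 : ℝ) ^ (D + 9) * 1024 ≤ C ∧ (2 : ℝ) ^ (D + 9) ≤ C * (K + 1) ∧
    0 < 128 * (2 * (K : ℝ) + 2) * 2 ^ (D + 9) ∧
    128 * (2 * (K : ℝ) + 2) * 2 ^ (D + 9) ≤ C * (K + 1) ∧ 0 < 1 / (128 * (2 * (K : ℝ) + 2)) ∧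
    1 / (128 * (2 * (K : ℝ) + 2)) * (1 / 2 ^ (D + 9)) =
      1 / (128 * (2 * (K : ℝ) + 2) * 2 ^ (D + 9)) ∧
    1 / (128 * (2 * (K : ℝ) + 2)) * (128 * (2 * K + 2)) ≤ 1 := by
  have hK0 : (0 : ℝ) ≤ K := Nat.cast_nonneg K
  have h2D : (0 : ℝ) < 2 ^ (D + 9) := by positivity
  have hC2 : (2 : ℝ) ^ (D + 9) * 1024 ≤ C := by
    have h5 : ((2 ^ (D + 19) : ℕ) : ℝ) ≤ C := by exact_mod_cast h
    push_cast at h5
    rw [show D + 19 = D + 9 + 10 by ring, pow_add 2 (D + 9)] at h5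
    norm_num at h5 ⊢
    exact h5
  obtain ⟨h1, h2⟩ := mas_num h2D hK0 hC2
  refine ⟨hC2, h2, by positivity, h1, by positivity, ?_, ?_⟩
  · rw [div_mul_div_comm, one_mul]
  · rw [one_div, inv_mul_cancel₀]
    positivity

theorem mas_end {a b d e C : ℝ} (he : 0 < e) (h1 : a / e ≤ b) (h2 : b / 4 ≤ d)
    (hC : e * 1024 ≤ C) (hd : 0 ≤ d) : a ≤ C * d := by
  rw [div_le_iff₀ he] at h1
  have h3 : b * e ≤ 4 * d * e := mul_le_mul_of_nonneg_right (by linarith) he.le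
  have h4 : e * 1024 * d ≤ C * d := mul_le_mul_of_nonneg_right hC hd
  have h5 : 0 ≤ d * e := mul_nonneg hd he.le
  linarith

/-- **One scale**: the nearly affine label of the place three. -/
theorem nv_one (m D : ℕ) : NvOneStmt m D := by
  by_cases hD : 1 ≤ D
  swap
  · refine ⟨0, ?_⟩
    intro J F c A hA w w2 w3 e e2 h Dr k n K P1 P2 h1 h2 g g' κ κ₀ θ G G2 H H2 U V U3 V2 U' V' U3'
      V2' _ hD'
    exact absurd hD' hD
  obtain ⟨C₁, hev⟩ := one_ev m D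
  obtain ⟨C₂, haff⟩ := one_aff D hD
  obtain ⟨C₄, hC₄⟩ : ∃ C₄, C₄ = C₁ + C₂ + 1 := ⟨_, rfl⟩
  obtain ⟨E, hE⟩ : ∃ E, E = 2 ^ (D + 19) := ⟨_, rfl⟩
  obtain ⟨C, hC⟩ : ∃ C, C = C₁ + C₂ * (C₄ + 1) + C₄ + E := ⟨_, rfl⟩
  refine ⟨C, ?_⟩
  intro J F c A hA w w2 w3 e e2 h Dr k n K P1 P2 h1 h2 g g' κ κ₀ θ G G2 H H2 U V U3 V2 U' V' U3'
    V2' hc _ hDr hw hw2 hw3 hch hcl hR hch2 hR2 hU hV hU3 hV2 hθ hTm hCJ hCk hfc hft hhk hg0 hg0'
    hP1 hP1' hP2 hP2' hPh hJ n1 n2 n3 hn hJK hκ hκ₀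
  obtain ⟨k', hk'⟩ : ∃ k', k' = C₄ * (k + 1) := ⟨_, rfl⟩
  obtain ⟨c1, c2, c3, c4, c5, c6, c7⟩ := num_one hC₄ hC hk' hn
  have hCC : (C₁ : ℝ) ≤ C := by exact_mod_cast c1
  have hCθ : C₁ * (θ + 1) ≤ C * (θ + 1) := mul_le_mul_of_nonneg_right hCC (by linarith)
  rw [hE] at c2
  obtain ⟨m1, m2, m3, m4, m5, m6, m7⟩ := mas_one (K := K) c2
  obtain ⟨eD, heD⟩ : ∃ eD : ℝ, eD = 2 ^ (D + 9) := ⟨_, rfl⟩
  have heD0 : 0 < eD := by
    rw [heD]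
    positivity
  obtain ⟨B, hBA, hPB, O⟩ := hev hA hc hD hDr hw hw2 hw3 hch hcl hR hch2 hR2 hU hV hU3 hV2 hθ hTm
    (hCθ.trans hCJ) (hCθ.trans hCk) hhk hg0 hP1 hP2 hPh n1 n2 n3
    (kap_le hκ (by rw [← heD]; exact heD0) m2)
  obtain ⟨gm, hgm1, hgm2⟩ := gm_ex hJ
  obtain ⟨κ₁, hκ₁⟩ : ∃ κ₁ : ℝ, κ₁ = 1 / (128 * (2 * (K : ℝ) + 2)) := ⟨_, rfl⟩
  have kk1 : κ ≤ κ₁ * (1 / 2 ^ (D + 9)) := by
    rw [hκ₁, m6]
    exact kap_le hκ m3 m4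
  have kk2 : κ₀ ≤ κ₁ * (1 / 2 ^ (D + 9)) := by
    rw [hκ₁, m6]
    exact kap_le hκ₀ m3 m4
  rw [← hκ₁] at m5 m7
  rw [← heD] at hPB kk1 kk2 m1
  have hPB0 : 0 < Pe F.p B := lt_of_lt_of_le (div_pos hA heD0) hPB
  have hPη : 1 / eD * Pe F.p A ≤ Pe F.p B := by
    rw [one_div, inv_mul_eq_div]
    exact hPB
  have hle : ∀ {x y : ℕ}, x ≤ y + k → x ≤ y + k' := fun {x y} hxy => by omega
  have hle' : ∀ {x y : ℕ}, x ≤ y → x ≤ y + k' := fun {x y} hxy => by omega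
  obtain ⟨B₁, b1, b2, b3⟩ := haff hc hDr ((hw.trans hw2).trans hw3) hch hcl hR hU hV hBA hPB0
    hPη (O.mono c3) (hle hg0) (hle hg0') (hle hP1') (hle' hP1) (hle hP2') (hle' hP2)
    hgm1 hgm2 c7 c5 (hhk.trans c4) c4 (hJK.trans (Nat.mul_le_mul_left _ c4)) hfc hft
    m5 kk1 kk2 m7
  refine ⟨B₁, fun ω hω => hBA ω (b1 ω hω), mas_end heD0 hPB b2 m1 (Pe_nonneg F.isLaw B₁),
    fun ω hω => ?_⟩
  obtain ⟨Q, q1, q2, q3'⟩ := b3 ω hω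
  exact ⟨Q, q1, q2, fun b hb => (q3' b hb).trans
    (div_le_div_of_nonneg_right (num_le c6) (by positivity))⟩

end Pool.NV24
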