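import Pool.Agent.H24.NV.Lm2

/-!
# The vertical gradient does not move along the own line

`case_D`: this contradicts `no relation'.
-/

set_option autoImplicit false

namespace Pool.NV24

open Finset Real MvPolynomial
open Pool.Agent.H49.Ent Pool.Agent.H32.Dense Pool.STK Pool.KA Pool.KSAT Pool.K2S
open Pool.LA91 (natDegree_alp eval_alp)

/-- A polynomial with a bounded gradient on a box is Lipschitz. -/
theorem bx_lip {S : P4} {F b : V4} {M r : ℝ} (hr : 0 ≤ r) (hr1 : r ≤ 1)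
    (hM : ∀ b : V4, (∀ o, |b o - F o| ≤ 1) → ∀ o, |eval b (pderiv o S)| ≤ M)
    (hb : ∀ o, |b o - F o| ≤ r) : |eval b S - eval F S| ≤ 4 * r * M := by
  obtain ⟨h, hh⟩ : ∃ h, h = aeval (Pool.LA91.lp F (fun o => b o - F o)) S := ⟨_, rfl⟩
  have h2 := (convex_Icc (0 : ℝ) 1).norm_image_sub_le_of_norm_deriv_le
    (f := fun t => h.eval t) (C := 4 * r * M) (fun t _ => h.differentiableAt) (by
      intro t ht
      rw [Polynomial.deriv, Real.norm_eq_abs, hh, der_alp, eval_alp]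
      refine dv_le hr hb fun o => hM _ (fun o' => ?_) o
      have e1 : F o' + t * (b o' - F o') - F o' = t * (b o' - F o') := by ring
      rw [e1, abs_mul, abs_of_nonneg ht.1]
      exact mul_le_one₀ ht.2 (abs_nonneg _) ((hb o').trans hr1)) (x := 0) (y := 1)
    ⟨le_rfl, zero_le_one⟩ ⟨zero_le_one, le_rfl⟩
  simp only [Real.norm_eq_abs] at h2
  rw [hh, eval_alp, eval_alp, sub_zero, abs_one, mul_one] at h2
  have e3 : (fun o => F o + 1 * (b o - F o)) = b := by
    funext o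
    ring
  have e4 : (fun o => F o + 0 * (b o - F o)) = F := by
    funext o
    ring
  rwa [e3, e4] at h2

/-- A polynomial in one variable whose derivative is small. -/
theorem pol_mvt1 {h : Polynomial ℝ} {M t : ℝ} (hM : ∀ t, |t| ≤ 1 → |h.derivative.eval t| ≤ M)
    (ht : |t| ≤ 1) : |h.eval t - h.eval 0| ≤ M := by
  have hM0 : 0 ≤ M := (abs_nonneg _).trans (hM 0 (by rw [abs_zero]; exact zero_le_one))
  have h2 := (convex_Icc (-1 : ℝ) 1).norm_image_sub_le_of_norm_deriv_le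
    (f := fun t => h.eval t) (C := M) (fun t _ => h.differentiableAt) (by
      intro t ht
      rw [Polynomial.deriv, Real.norm_eq_abs]
      exact hM t (abs_le.2 ht)) (x := 0) (y := t) ⟨by norm_num, by norm_num⟩ (abs_le.1 ht)
  simp only [Real.norm_eq_abs] at h2
  rw [sub_zero] at h2
  refine h2.trans ?_
  calc M * |t| ≤ M * 1 := mul_le_mul_of_nonneg_left ht hM0
    _ = M := mul_one M

/-- **The vertical gradient does not move along the own line**: impossible. -/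
theorem case_D (D : ℕ) : ∃ C₄ : ℝ, 1 ≤ C₄ ∧ ∀ {Ω Γ Λ : Type} [Fintype Ω]
    {R ε : ℝ} {p : Ω → ℝ} {A : Ω → Prop} {P : Ω → Γ} {L : Ω → Λ} {QP : Γ → P4} {QL : Λ → P4}
    {FP : Γ → V4} {l0 : Λ → V4} {T : Ω → ℝ} {c : Λ → ℝ} {Dd : Λ → Fin 2 → ℝ}
    {p0 p1 : Γ → Fin 2 → ℝ}, NvM D R ε p A P L QP QL FP l0 T c Dd p0 p1 → C₄ ≤ R → 0 ≤ ε →
    ε * R ^ (D + 6) ≤ 1 → ∀ E : Ω → Prop, Sub E A → Pe p A / 4 ≤ Pe p E →
    (∀ ω, E ω → ∀ j, |xF P L QP FP c Dd j ω| ≤ 1 / R ^ (D + 5)) → False := by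
  obtain ⟨C₁, hC₁, hbx⟩ := bx_pd D
  have hD0 : (0 : ℝ) ≤ D := Nat.cast_nonneg D
  obtain ⟨Cc, hCc⟩ : ∃ Cc : ℝ, Cc = ((D : ℝ) + 1) * 2 ^ D * (1 + 16 * C₁) + 4 := ⟨_, rfl⟩
  have h2D : (1 : ℝ) ≤ 2 ^ D := one_le_pow₀ (by norm_num)
  have hCc4 : 4 ≤ Cc := by
    rw [hCc]
    have : 0 ≤ ((D : ℝ) + 1) * 2 ^ D * (1 + 16 * C₁) := by positivity
    linarith
  refine ⟨Cc + 2 * C₁, by linarith, ?_⟩
  intro Ω Γ Λ _ R ε p A P L QP QL FP l0 T c Dd p0 p1 H hR hε hεR E hEA hPE hE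
  have hR1 : 1 ≤ R := by linarith
  have hR0 : 0 < R := by linarith
  have hP := H.pos
  obtain ⟨B, hBE, hPB, hB⟩ := H.frt E hEA (by linarith)
  have hRD6 : 1 ≤ R ^ (D + 6) := one_le_pow₀ hR1
  have hε1 : ε ≤ 1 := by nlinarith
  -- the numbers
  obtain ⟨η, hη⟩ : ∃ η, η = ((D : ℝ) + 1) * (2 / (1 / R)) ^ D *
    (1 / R ^ (D + 5) + 4 * ε * (C₁ * (4 * R * 1))) := ⟨_, rfl⟩
  have hnum : η + 4 * ε ≤ 1 / R ^ 4 := by
    have e1 : 2 / (1 / R) = 2 * R := by field_simp
    have hεb : ε ≤ 1 / R ^ (D + 6) := by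
      rw [le_div_iff₀ (by positivity)]
      exact hεR
    have hRε : R * ε ≤ 1 / R ^ (D + 5) := by
      rw [le_div_iff₀ (by positivity)]
      calc R * ε * R ^ (D + 5) = ε * R ^ (D + 6) := by ring
        _ ≤ 1 := hεR
    have h1 : 1 / R ^ (D + 5) + 4 * ε * (C₁ * (4 * R * 1)) ≤ (1 + 16 * C₁) * (1 / R ^ (D + 5)) := by
      have : C₁ * (R * ε) ≤ C₁ * (1 / R ^ (D + 5)) := mul_le_mul_of_nonneg_left hRε (by linarith)
      linarith
    have h2 : η ≤ ((D : ℝ) + 1) * (2 * R) ^ D * ((1 + 16 * C₁) * (1 / R ^ (D + 5))) := by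
      rw [hη, e1]
      exact mul_le_mul_of_nonneg_left h1 (by positivity)
    have h3 : ((D : ℝ) + 1) * (2 * R) ^ D * ((1 + 16 * C₁) * (1 / R ^ (D + 5))) =
        ((D : ℝ) + 1) * 2 ^ D * (1 + 16 * C₁) * (1 / R ^ 5) := by
      rw [mul_pow, pow_add R D 5]
      field_simp
    have h4 : 4 * ε ≤ 4 * (1 / R ^ 5) := by
      have h5 : 1 / R ^ (D + 6) ≤ 1 / R ^ 5 :=
        div_le_div_of_nonneg_left zero_le_one (by positivity)
          (pow_le_pow_right₀ hR1 (by omega))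
      linarith
    have h6 : Cc * (1 / R ^ 5) ≤ 1 / R ^ 4 := by
      rw [mul_one_div, div_le_div_iff₀ (by positivity) (by positivity), one_mul]
      calc Cc * R ^ 4 ≤ R * R ^ 4 := mul_le_mul_of_nonneg_right (by linarith) (by positivity)
        _ = R ^ 5 := by ring
    rw [hCc] at h6
    have h7 : (((D : ℝ) + 1) * 2 ^ D * (1 + 16 * C₁) + 4) * (1 / R ^ 5) =
      ((D : ℝ) + 1) * 2 ^ D * (1 + 16 * C₁) * (1 / R ^ 5) + 4 * (1 / R ^ 5) := by ring
    linarith
  -- the gradient is known to the line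
  have key : ∀ ω, B ω → ∀ j, |eval (l0 (L ω)) (pderiv (vt j) (QL (L ω))) -
      eval (FP (P ω)) (pderiv (vt j) (QP (P ω)))| ≤ 1 / R ^ 4 := by
    intro ω hω j
    obtain ⟨ν, h1, h2⟩ := hB ω hω
    have hωA := hEA ω (hBE ω hω)
    obtain ⟨κ, hκ⟩ : ∃ κ, κ = vec 1 (c (L ω)) (Dd (L ω)) := ⟨_, rfl⟩
    obtain ⟨S, hS⟩ : ∃ S, S = pderiv (vt j) (QL (L ω)) := ⟨_, rfl⟩
    obtain ⟨h, hh⟩ : ∃ h, h = aeval (Pool.LA91.lp (l0 (L ω)) κ) S := ⟨_, rfl⟩
    have hκR : ∀ o, |κ o| ≤ R := by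
      rw [hκ]
      exact vec_bd (by rw [abs_one]; exact hR1) ((H.c1 ω hωA).trans hR1) (H.dd ω hωA)
    have hder : ∀ i ≤ D, |h.derivative.eval (T (ν i))| ≤
        1 / R ^ (D + 5) + 4 * ε * (C₁ * (4 * R * 1)) := by
      intro i hi
      obtain ⟨hEi, hLi⟩ := h1 i hi
      have hAi := hEA _ hEi
      have hQi : QP (P (ν i)) = QL (L ω) := by rw [H.cls _ hAi, hLi]
      rw [hh, der_alp, eval_alp]
      have g1 : ∀ b : V4, (∀ o, |b o - FP (P (ν i)) o| ≤ 1) → |eval b (dv κ S)| ≤ 4 * R * 1 :=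
        fun b hb => dv_le hR0.le hκR fun o => by
          have := H.up (ν i) hAi b hb o j
          rwa [hQi, ← hS] at this
      have g2 := bx_lip (S := dv κ S) (F := FP (P (ν i)))
        (b := fun o => l0 (L ω) o + T (ν i) * κ o) (M := C₁ * (4 * R * 1)) hε hε1
        (fun b hb o => hbx (dv κ S) _ _ (dv_deg _ (by rw [hS]; exact pd_deg _ (H.dL _))) g1 b hb o)
        (fun o => by
          have := H.lin (ν i) hAi o
          rw [hLi, ← hκ] at this
          rw [abs_sub_comm]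
          exact this)
      have g3 : |eval (FP (P (ν i))) (dv κ S)| ≤ 1 / R ^ (D + 5) := by
        have := hE _ hEi j
        unfold xF at this
        rwa [hQi, hLi, ← hκ, ← hS] at this
      have g4 : eval (fun o => l0 (L ω) o + T (ν i) * κ o) (dv κ S) =
          eval (FP (P (ν i))) (dv κ S) + (eval (fun o => l0 (L ω) o + T (ν i) * κ o) (dv κ S) -
            eval (FP (P (ν i))) (dv κ S)) := by ring
      rw [g4]
      exact (abs_add_le _ _).trans (add_le_add g3 g2)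
    have hdeg : h.natDegree ≤ D := by
      rw [hh]
      exact natDegree_alp (by rw [hS]; exact pd_deg _ (H.dL _)) _ _
    have hddeg : h.derivative.natDegree ≤ D :=
      (Polynomial.natDegree_derivative_le h).trans ((Nat.sub_le _ _).trans hdeg)
    have hall : ∀ t, |t| ≤ 1 → |h.derivative.eval t| ≤ η := by
      intro t ht
      rw [hη]
      exact sep_val hddeg (by positivity) (fun i hi => H.tim _ (hEA _ (h1 i hi).1)) h2 hder ht
    have g5 := pol_mvt1 hall (H.tim ω hωA)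
    have e5 : h.eval 0 = eval (l0 (L ω)) S := by
      rw [hh, eval_alp]
      congr 2
      funext o
      ring
    have e6 : h.eval (T ω) = eval (fun o => l0 (L ω) o + T ω * κ o) S := by
      rw [hh, eval_alp]
    have hQω : QP (P ω) = QL (L ω) := H.cls ω hωA
    have g6 := bx_lip (S := S) (F := FP (P ω)) (b := fun o => l0 (L ω) o + T ω * κ o)
      (M := 1) hε hε1 (fun b hb o => by
        have := H.up ω hωA b hb o j
        rwa [hQω, ← hS] at this) (fun o => by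
          have := H.lin ω hωA o
          rw [← hκ] at this
          rw [abs_sub_comm]
          exact this)
    rw [e5, e6] at g5
    rw [hQω, ← hS]
    have a1 := abs_le.1 g5
    have a2 := abs_le.1 g6
    rw [abs_le]
    constructor <;> linarith [a1.1, a1.2, a2.1, a2.2]
  have hη0 : 0 ≤ η := by
    rw [hη]
    positivity
  -- one index
  have hfin : ∀ j : Fin 2, ∀ B' : Ω → Prop, Sub B' B → Pe p A / 16 ≤ Pe p B' →
      (∀ ω, B' ω → ∃ b : V4, (∀ o, |b o - FP (P ω) o| ≤ 1) ∧ ∃ o,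
        1 / R ≤ |eval b (pderiv o (pderiv (vt j) (QP (P ω))))|) → False := by
    intro j B' hB' hPB' hlo
    have hB'A : Sub B' A := fun ω hω => hEA ω (hBE ω (hB' ω hω))
    obtain ⟨ω, hω, hbd⟩ := H.rel B' hB'A (by linarith)
      (fun y => pderiv (vt j) (QP y) - C (eval (FP y) (pderiv (vt j) (QP y))))
      (fun s => pderiv (vt j) (QL s) - C (eval (l0 s) (pderiv (vt j) (QL s)))) (1 / R ^ 4)
      (fun y => (totalDegree_sub _ _).trans (max_le (pd_deg _ (H.dP y)) (by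
        rw [totalDegree_C]
        exact Nat.zero_le _)))
      (fun s => (totalDegree_sub _ _).trans (max_le (pd_deg _ (H.dL s)) (by
        rw [totalDegree_C]
        exact Nat.zero_le _))) (by positivity)
      (fun ω hω b hb => by
        rw [map_sub, eval_C]
        have h1 := bx_lip (S := pderiv (vt j) (QP (P ω))) (F := FP (P ω)) (b := b) (M := 1) hε hε1
          (fun b hb o => H.up ω (hB'A ω hω) b hb o j) hb
        linarith)
      (fun ω hω b _ => by
        rw [map_sub, map_sub, eval_C, eval_C, H.cls ω (hB'A ω hω)]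
        have := key ω (hB' ω hω) j
        rw [H.cls ω (hB'A ω hω)] at this
        have e7 : eval b (pderiv (vt j) (QL (L ω))) -
            eval (FP (P ω)) (pderiv (vt j) (QL (L ω))) -
            (eval b (pderiv (vt j) (QL (L ω))) - eval (l0 (L ω)) (pderiv (vt j) (QL (L ω)))) =
            eval (l0 (L ω)) (pderiv (vt j) (QL (L ω))) -
              eval (FP (P ω)) (pderiv (vt j) (QL (L ω))) := by ring
        rw [e7]
        exact this)
    obtain ⟨b, hb, o, hbo⟩ := hlo ω hω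
    have h8 := hbx _ _ _ ((totalDegree_sub _ _).trans (max_le (pd_deg (vt j) (H.dP (P ω))) (by
        rw [totalDegree_C]
        exact Nat.zero_le _))) hbd b hb o
    rw [map_sub, pderiv_C, sub_zero] at h8
    have h9 : 1 / R ≤ C₁ * (R * (1 / R ^ 4)) := hbo.trans h8
    have h10 : C₁ * (R * (1 / R ^ 4)) = C₁ / R ^ 3 := by field_simp
    rw [h10, div_le_div_iff₀ hR0 (by positivity), one_mul] at h9
    have h11 : C₁ * R < R ^ 3 := by
      have h12 : C₁ < R := by linarith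
      have h13 : C₁ * R < R * R := mul_lt_mul_of_pos_right h12 hR0
      have h14 : R * R ≤ R * R * R := by nlinarith
      nlinarith
    linarith
  obtain ⟨W, hW⟩ : ∃ W : Fin 2 → Ω → Prop, ∀ j ω, W j ω ↔ (B ω ∧ ∃ b : V4,
      (∀ o, |b o - FP (P ω) o| ≤ 1) ∧ ∃ o,
        1 / R ≤ |eval b (pderiv o (pderiv (vt j) (QP (P ω))))|) := ⟨_, fun _ _ => Iff.rfl⟩
  rcases half_or H.law (A := B) (B₀ := W 0) (B₁ := W 1)
    (fun ω hω => by
      obtain ⟨b, hb, o, j, hj⟩ := H.lo ω (hEA ω (hBE ω hω))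
      have hj2 : j = 0 ∨ j = 1 := by omega
      rcases hj2 with rfl | rfl
      · exact Or.inl ((hW 0 ω).2 ⟨hω, b, hb, o, hj⟩)
      · exact Or.inr ((hW 1 ω).2 ⟨hω, b, hb, o, hj⟩)) with h | h
  · exact hfin 0 (W 0) (fun ω hω => ((hW 0 ω).1 hω).1) (by linarith) fun ω hω => ((hW 0 ω).1 hω).2
  · exact hfin 1 (W 1) (fun ω hω => ((hW 1 ω).1 hω).1) (by linarith) fun ω hω => ((hW 1 ω).1 hω).2

end Pool.NV24
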