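import Pool.Agent.H24.NV.Grd
import Pool.Agent.H24.NV.Lm3
import Pool.Agent.H91.LA.Aff

/-!
# The polynomial in natural coordinates at a sample

`qn`: the label of the place `3` in natural coordinates and natural units. `qn_ver`: the vertical
derivatives. `qn_rnd`: the derivative in the direction of the rounding error. `qn_own`: the own jets at
the rounded position.
-/

set_option autoImplicit false

namespace Pool.NV24

open Finset Real MvPolynomial
open Pool.Agent.H49.Ent Pool.Agent.H32.Dense Pool.STK Pool.KA Pool.KSAT Pool.K2S Pool.PB Pool.S6C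
open Pool.GEN Pool.CHT Pool.ISO Pool.D2R
open Pool.LA91 (lp eval_alp jet jet_cmul)
open Pool.NVA91 (nco_pt dvp aff_ev sum_pc1 sum_pc2)
open Pool.AFK25 (psh eval_psh deg_psh jet_one nes jet_psh dep_jet pd_psh0 pd_psh1 nco_add ndir
  jet_nat)

variable {m : ℕ}

/-- **The label of the place `3`** in natural units. -/
noncomputable def q3 (g : ℕ → ℕ) (P : MvPolynomial (Option (Fin m)) ℝ) :
    MvPolynomial (Option (Fin m)) ℝ := C (2 ^ g 3) * P

/-- **The label of the place `3`** in natural coordinates and natural units. -/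
noncomputable def qn (c : ℕ → Fin m) (w g1 g2 : ℕ) (g : ℕ → ℕ) (τ : ℝ)
    (U V : MvPolynomial (Option (Fin m)) ℝ) (P : MvPolynomial (Option (Fin m)) ℝ) : P4 :=
  psh c w g1 g2 τ U V (q3 g P)

theorem q3_deg {g : ℕ → ℕ} {P : MvPolynomial (Option (Fin m)) ℝ} {D : ℕ}
    (h : P.totalDegree ≤ D) : (q3 g P).totalDegree ≤ D := by
  unfold q3
  refine (totalDegree_mul _ _).trans ?_
  rw [totalDegree_C, zero_add]
  exact h

theorem q3_dep {c : ℕ → Fin m} {i : ℕ} {g : ℕ → ℕ} {P : MvPolynomial (Option (Fin m)) ℝ}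
    (h : DepC c i P) : DepC c i (q3 g P) := by
  intro b b' h0 h1
  unfold q3
  rw [map_mul, map_mul, eval_C, eval_C, h b b' h0 h1]

theorem q3_pd (g : ℕ → ℕ) (P : MvPolynomial (Option (Fin m)) ℝ) (o : Option (Fin m)) :
    pderiv o (q3 g P) = C (2 ^ g 3) * pderiv o P := by
  unfold q3
  rw [pderiv_mul, pderiv_C, zero_mul, zero_add]

variable {c : ℕ → Fin m} {D w g1 g2 k : ℕ} {g : ℕ → ℕ}
  {G : ℕ → MvPolynomial (Option (Fin m)) ℝ} {U V : MvPolynomial (Option (Fin m)) ℝ}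
  {a : Option (Fin m) → ℝ}

theorem tdeg_pdm (o : Option (Fin m)) (P : MvPolynomial (Option (Fin m)) ℝ) :
    (pderiv o P).totalDegree ≤ P.totalDegree := by
  classical
  refine Finset.sup_le fun s hs => ?_
  rw [MvPolynomial.mem_support_iff, MvPolynomial.coeff_pderiv] at hs
  have h1 : MvPolynomial.coeff (s + Finsupp.single o 1) P ≠ 0 := fun h0 =>
    hs (by rw [h0, zero_mul])
  have h2 := MvPolynomial.le_totalDegree (MvPolynomial.mem_support_iff.2 h1)
  have h3 : (s.sum fun _ e => e) + 1 = ((s + Finsupp.single o 1).sum fun _ e => e) := by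
    rw [Finsupp.sum_add_index' (fun _ => rfl) (fun _ _ _ => rfl), Finsupp.sum_single_index rfl]
  omega

/-- The gradient of the label of the place `3` in natural units. -/
theorem q3_grd {e gm : ℕ} (hL : LipG c w e g G a) (hgm : ∀ l ≤ 3, g l ≤ gm) {l : ℕ} (hl : l < 3)
    (b : Option (Fin m) → ℝ) (hb : NBx c G g w (a none) 3 b) :
    |eval b (pderiv (some (c l)) (q3 g (G 3)))| ≤ 2 ^ (e + gm) := by
  rw [q3_pd, map_mul, eval_C, abs_mul, abs_of_pos (show (0 : ℝ) < 2 ^ g 3 by positivity)]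
  have h1 := hL 3 (by norm_num) b hb l hl
  have h2 := (nlp_add g (l := l) (i := 3) (gm := gm) (by omega) hgm).1
  calc (2 : ℝ) ^ g 3 * |eval b (pderiv (some (c l)) (G 3))| ≤ 2 ^ g 3 * 2 ^ (e + nlp g l 3) :=
        mul_le_mul_of_nonneg_left h1 (by positivity)
    _ = 2 ^ (g 3 + (e + nlp g l 3)) := by rw [← pow_add]
    _ ≤ _ := pow_le_pow_right₀ (by norm_num) (by omega)

/-- The derivative in a direction of the first three places. -/
theorem jet_three (hc : Set.InjOn c (Set.Iio 3)) {Q : MvPolynomial (Option (Fin m)) ℝ}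
    (hQ : DepC c 3 Q) {b v : Option (Fin m) → ℝ} (h0 : v none = 0) {δ M : ℝ} (hδ : 0 ≤ δ)
    (h1 : ∀ l < 3, |v (some (c l))| ≤ δ)
    (h2 : ∀ l < 3, |eval b (pderiv (some (c l)) Q)| ≤ M) : |jet 1 Q b v| ≤ 3 * (δ * M) := by
  classical
  obtain ⟨n01, n02, n12⟩ := nes hc
  obtain ⟨v', hv'⟩ : ∃ v' : Option (Fin m) → ℝ, v' = fun o => match o with
    | none => 0
    | some x => if x ∈ ({c 0, c 1, c 2} : Finset (Fin m)) then v (some x) else 0 := ⟨_, rfl⟩
  have hvn : v' none = 0 := by rw [hv']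
  have hvs : ∀ x, v' (some x) = if x ∈ ({c 0, c 1, c 2} : Finset (Fin m)) then v (some x) else 0 :=
    fun x => by rw [hv']
  have hvl : ∀ l < 3, v' (some (c l)) = v (some (c l)) := by
    intro l hl
    rw [hvs, if_pos]
    have : l = 0 ∨ l = 1 ∨ l = 2 := by omega
    rcases this with rfl | rfl | rfl <;> simp
  rw [dep_jet hQ b v v' (by rw [h0, hvn]) (fun l hl => (hvl l hl).symm), jet_one,
    Fintype.sum_option, hvn, zero_mul, zero_add,
    ← Finset.sum_subset (Finset.subset_univ ({c 0, c 1, c 2} : Finset (Fin m)))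
      (fun x _ hx => by rw [hvs, if_neg hx, zero_mul])]
  have hb : ∀ l < 3, |v' (some (c l)) * eval b (pderiv (some (c l)) Q)| ≤ δ * M := by
    intro l hl
    rw [abs_mul, hvl l hl]
    exact mul_le_mul (h1 l hl) (h2 l hl) (abs_nonneg _) hδ
  rw [Finset.sum_insert (by simp [n01, n02]), Finset.sum_insert (by simp [n12]),
    Finset.sum_singleton]
  have b0 := hb 0 (by norm_num)
  have b1 := hb 1 (by norm_num)
  have b2 := hb 2 (by norm_num)
  refine (abs_add_le _ _).trans ((add_le_add le_rfl (abs_add_le _ _)).trans ?_)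
  linarith

/-- **The bounds at a sample**: the vertical derivatives, and the derivative in the direction of a
rounding error. -/
theorem qn_bd (D : ℕ) : ∃ C₀ : ℕ, ∀ {m : ℕ} {c : ℕ → Fin m} {w g1 g2 k : ℕ} {g : ℕ → ℕ}
    {G : ℕ → MvPolynomial (Option (Fin m)) ℝ} {U V : MvPolynomial (Option (Fin m)) ℝ}
    {a a' : Option (Fin m) → ℝ} {e gm : ℕ} {δ : ℝ}, NatP c D w g1 g2 k g G U V a →
    LipG c w e g G a → (∀ l ≤ 3, g l ≤ gm) → a' none = a none → 0 ≤ δ →
    (∀ l < 3, |a' (some (c l)) - a (some (c l))| ≤ δ) → ∀ (τ : ℝ) (ξ : V4),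
    |ξ none - nco c w g1 g2 τ U V a none| ≤ 1 →
    (∀ o, |ξ o - nco c w g1 g2 τ U V a o| ≤ 2) →
    (∀ j, |eval ξ (pderiv (vt j) (qn c w g1 g2 g τ U V (G 3)))| ≤
      2 ^ (C₀ * (k + 1) + 2 * (e + gm))) ∧
    |eval ξ (dv (fun o => nco c w g1 g2 τ U V a' o - nco c w g1 g2 τ U V a o)
      (qn c w g1 g2 g τ U V (G 3)))| ≤ 2 ^ (C₀ * (k + 1) + (e + gm)) * δ := by
  obtain ⟨C₁, hC₁⟩ := nat_bd D
  refine ⟨C₁ + 4, ?_⟩
  intro m c w g1 g2 k g G U V a a' e gm δ N hL hgm ha hδ had τ ξ hξ0 hξ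
  obtain ⟨b, hbξ, hb⟩ := hC₁ N τ ξ hξ0 hξ
  have hQd : (q3 g (G 3)).totalDegree ≤ D := q3_deg (N.deg 3)
  have hQe : DepC c 3 (q3 g (G 3)) := q3_dep (N.dep 3)
  have hpd : ∀ l < 3, |eval b (pderiv (some (c l)) (q3 g (G 3)))| ≤
      2 ^ (C₁ * (k + 1)) * 2 ^ (e + gm) := fun l hl =>
    hb _ _ (by
      rw [q3_pd]
      refine (totalDegree_mul _ _).trans ?_
      rw [totalDegree_C, zero_add]
      exact (tdeg_pdm _ _).trans (N.deg 3)) (hQe.pderiv l) (by positivity)
      (fun b hb => q3_grd hL hgm hl b hb)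
  obtain ⟨B, hB⟩ : ∃ B : ℝ, B = 2 ^ (C₁ * (k + 1)) * 2 ^ (e + gm) := ⟨_, rfl⟩
  rw [← hB] at hpd
  have hB0 : 0 < B := by
    rw [hB]
    positivity
  have hk4 : C₁ * (k + 1) + 4 ≤ (C₁ + 4) * (k + 1) := by nlinarith
  have hBn : ∀ n, n ≤ 4 → 2 ^ n * B ≤ 2 ^ ((C₁ + 4) * (k + 1) + (e + gm)) := by
    intro n hn
    rw [hB, ← mul_assoc, ← pow_add, ← pow_add]
    exact pow_le_pow_right₀ (by norm_num) (by omega)
  have hEG : (1 : ℝ) ≤ 2 ^ (e + gm) := one_le_pow₀ (by norm_num)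
  refine ⟨fun j => ?_, ?_⟩
  · fin_cases j
    · show |eval ξ (pderiv (vt 0) (qn c w g1 g2 g τ U V (G 3)))| ≤ _
      have h1 := pd_psh0 N.inj w g1 g2 τ N.eU N.eV hQe N.dU N.dV b
      rw [hbξ] at h1
      have h2 : |2 ^ g1 * eval ξ (pderiv (vt 0) (psh c w g1 g2 τ U V (q3 g (G 3))))| ≤
          B + 2 ^ (k + 2 + e + gm) * B := by
        rw [h1]
        refine (abs_add_le _ _).trans (add_le_add (hpd 1 (by norm_num)) ?_)
        rw [abs_mul]
        refine mul_le_mul ?_ (hpd 2 (by norm_num)) (abs_nonneg _) (by positivity)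
        have h3 := N.gV1 hL hgm
        have h4 : |pc V (some (c 1))| ≤ 2 ^ g2 * |pc V (some (c 1))| :=
          le_mul_of_one_le_left (abs_nonneg _) (one_le_pow₀ (by norm_num))
        exact h4.trans h3
      rw [abs_mul, abs_of_pos (show (0 : ℝ) < 2 ^ g1 by positivity)] at h2
      have h3 : |eval ξ (pderiv (vt 0) (psh c w g1 g2 τ U V (q3 g (G 3))))| ≤
          2 ^ g1 * |eval ξ (pderiv (vt 0) (psh c w g1 g2 τ U V (q3 g (G 3))))| :=
        le_mul_of_one_le_left (abs_nonneg _) (one_le_pow₀ (by norm_num))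
      refine (h3.trans h2).trans ?_
      have h5 : B + 2 ^ (k + 2 + e + gm) * B ≤ 2 ^ (k + 3 + (e + gm)) * B := by
        have e1 : (2 : ℝ) ^ (k + 3 + (e + gm)) = 2 * 2 ^ (k + 2 + e + gm) := by
          rw [show k + 3 + (e + gm) = k + 2 + e + gm + 1 by ring, pow_succ]
          ring
        have e2 : (1 : ℝ) ≤ 2 ^ (k + 2 + e + gm) := one_le_pow₀ (by norm_num)
        rw [e1]
        nlinarith
      refine h5.trans ?_
      rw [hB, ← pow_add, ← pow_add]
      refine pow_le_pow_right₀ (by norm_num) ?_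
      have : C₁ * (k + 1) + (k + 3) ≤ (C₁ + 4) * (k + 1) := by nlinarith
      omega
    · show |eval ξ (pderiv (vt 1) (qn c w g1 g2 g τ U V (G 3)))| ≤ _
      have h1 := pd_psh1 N.inj w g1 g2 τ N.eU N.eV hQe N.dU N.dV b
      rw [hbξ] at h1
      have h2 : |2 ^ g2 * eval ξ (pderiv (vt 1) (psh c w g1 g2 τ U V (q3 g (G 3))))| ≤ B := by
        rw [h1]
        exact hpd 2 (by norm_num)
      rw [abs_mul, abs_of_pos (show (0 : ℝ) < 2 ^ g2 by positivity)] at h2
      have h3 : |eval ξ (pderiv (vt 1) (psh c w g1 g2 τ U V (q3 g (G 3))))| ≤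
          2 ^ g2 * |eval ξ (pderiv (vt 1) (psh c w g1 g2 τ U V (q3 g (G 3))))| :=
        le_mul_of_one_le_left (abs_nonneg _) (one_le_pow₀ (by norm_num))
      refine (h3.trans h2).trans ?_
      rw [hB, ← pow_add]
      exact pow_le_pow_right₀ (by norm_num) (by omega)
  · obtain ⟨v, hv⟩ : ∃ v : Option (Fin m) → ℝ, v = fun o => a' o - a o := ⟨_, rfl⟩
    have h1 : (fun o => nco c w g1 g2 τ U V a' o - nco c w g1 g2 τ U V a o) =
        ndir c w g1 g2 U V v := by
      have h2 := nco_add (c := c) (w := w) (g1 := g1) (g2 := g2) (τ := τ) N.dU N.dV a v 1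
      have h3 : (fun o => a o + 1 * v o) = a' := by
        funext o
        rw [hv]
        ring
      rw [h3] at h2
      funext o
      rw [h2]
      ring
    have h4 := jet_psh N.inj w g1 g2 τ N.eU N.eV hQe N.dU N.dV 1 b v
    rw [Function.iterate_one, hbξ] at h4
    rw [h1]
    show |eval ξ (dv (ndir c w g1 g2 U V v) (psh c w g1 g2 τ U V (q3 g (G 3))))| ≤ _
    rw [← h4]
    refine (jet_three N.inj hQe (by rw [hv]; simp only [ha, sub_self]) hδ (fun l hl => ?_)
      hpd).trans ?_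
    · rw [hv]
      exact had l hl
    · have h5 := hBn 2 (by norm_num)
      calc 3 * (δ * B) ≤ 2 ^ 2 * B * δ := by
            have : 0 ≤ δ * B := by positivity
            nlinarith
        _ ≤ _ := mul_le_mul_of_nonneg_right h5 hδ

/-- **Jets at the rounded position.** -/
theorem jet_shift (D : ℕ) : ∃ C₁ : ℝ, 1 ≤ C₁ ∧ ∀ (Q : P4) (x x' κ : V4) (S M : ℝ),
    Q.totalDegree ≤ D → 1 ≤ S → 0 ≤ M → (∀ o, |κ o| ≤ S) → x' none = x none →
    (∀ o, |x' o - x o| ≤ 1) →
    (∀ ξ : V4, |ξ none - x none| ≤ 1 → (∀ o, |ξ o - x o| ≤ 2) →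
      |eval ξ (dv (fun o => x' o - x o) Q)| ≤ M) → ∀ n, 1 ≤ n →
    |eval x' ((dv κ)^[n] Q) - eval x ((dv κ)^[n] Q)| ≤ (C₁ * S) ^ n * (C₁ * M) := by
  obtain ⟨C₁, hC₁, hpd⟩ := bx_pd D
  obtain ⟨C₂, hC₂, hdl⟩ := bx_dl D
  refine ⟨max C₁ C₂, hC₁.trans (le_max_left _ _), ?_⟩
  intro Q x x' κ S M hQ hS hM hκ h0 h1 h2 n hn
  obtain ⟨Y, hY⟩ : ∃ Y, Y = dv (fun o => x' o - x o) Q := ⟨_, rfl⟩
  have hYd : Y.totalDegree ≤ D := by
    rw [hY]
    exact dv_deg _ hQ
  have hcomm : dv (fun o => x' o - x o) ((dv κ)^[n] Q) = (dv κ)^[n] Y := by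
    rw [hY, ← dl_rep, ← dl_rep, dl_dv]
  obtain ⟨Z, hZ⟩ : ∃ Z, Z = (dv κ)^[n] Q := ⟨_, rfl⟩
  obtain ⟨q, hq⟩ : ∃ q, q = aeval (lp x (fun o => x' o - x o)) Z := ⟨_, rfl⟩
  have key : ∀ t ∈ Set.Icc (0 : ℝ) 1, |q.derivative.eval t| ≤ (C₂ * S) ^ n * (C₁ * M) := by
    intro t ht
    rw [hq, der_alp, eval_alp, hZ, hcomm]
    obtain ⟨y, hy⟩ : ∃ y : V4, y = fun o => x o + t * (x' o - x o) := ⟨_, rfl⟩
    rw [← hy]
    have hy0 : y none = x none := by
      rw [hy]
      simp only [h0, sub_self, mul_zero, add_zero]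
    have hy1 : ∀ o, |y o - x o| ≤ 1 := by
      intro o
      rw [hy]
      simp only [add_sub_cancel_left]
      rw [abs_mul, abs_of_nonneg ht.1]
      exact mul_le_one₀ ht.2 (abs_nonneg _) (h1 o)
    have hb : ∀ b : V4, (∀ o, |b o - y o| ≤ 1) → |eval b Y| ≤ M := by
      intro b hb
      rw [hY]
      refine h2 b (by rw [← hy0]; exact hb none) fun o => ?_
      have a1 := abs_le.1 (hb o)
      have a2 := abs_le.1 (hy1 o)
      rw [abs_le]
      constructor <;> linarith [a1.1, a1.2, a2.1, a2.2]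
    have h3 := hdl Y y (C₁ * M) S hYd (by positivity) hS
      (fun b hb' o => hpd Y y M hYd hb b hb' o) (List.replicate n κ)
      (fun s hs => by
        rw [List.eq_of_mem_replicate hs]
        exact hκ) (by rw [List.length_replicate]; exact hn) y
      (fun o => by rw [sub_self, abs_zero]; exact zero_le_one)
    rwa [dl_rep, List.length_replicate] at h3
  have h4 := (convex_Icc (0 : ℝ) 1).norm_image_sub_le_of_norm_deriv_le
    (f := fun t => q.eval t) (C := (C₂ * S) ^ n * (C₁ * M)) (fun t _ => q.differentiableAt) (by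
      intro t ht
      rw [Polynomial.deriv, Real.norm_eq_abs]
      exact key t ht) (x := 0) (y := 1)
    ⟨le_rfl, zero_le_one⟩ ⟨zero_le_one, le_rfl⟩
  have e0 : (fun o => x o + 0 * (x' o - x o)) = x := by
    funext o
    ring
  have e1 : (fun o => x o + 1 * (x' o - x o)) = x' := by
    funext o
    ring
  simp only [Real.norm_eq_abs, hq, eval_alp, sub_zero, abs_one, mul_one] at h4
  rw [e0, e1, hZ] at h4
  refine h4.trans ?_
  refine mul_le_mul (pow_le_pow_left₀ (by positivity) (mul_le_mul_of_nonneg_right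
    (le_max_right _ _) (by linarith)) n) (mul_le_mul_of_nonneg_right (le_max_left _ _) hM)
    (by positivity) (by positivity)

end Pool.NV24
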