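import Pool.Agent.H24.NV.Bx

/-!
# The slopes of the affine labels

`mv_c`: the mean value in the direction of one coordinate. `NatP.slp`: the slopes of the affine
labels, from the gradients of the ball labels. `NatP.near`: the natural coordinates of near points.
-/

set_option autoImplicit false

namespace Pool.NV24

open Finset Real MvPolynomial
open Pool.Agent.H49.Ent Pool.Agent.H32.Dense Pool.STK Pool.KA Pool.KSAT Pool.K2S Pool.PB Pool.S6C
open Pool.GEN Pool.CHT Pool.ISO Pool.D2R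
open Pool.LA91 (lp eval_alp jet)
open Pool.NVA91 (nco_pt dvp aff_ev sum_pc1 sum_pc2)
open Pool.AFK25 (psh eval_psh deg_psh jet_one nes)

variable {m : ℕ}

/-- The derivative on a line. -/
theorem der_lp (P : MvPolynomial (Option (Fin m)) ℝ) (b v : Option (Fin m) → ℝ) (t : ℝ) :
    (aeval (lp b v) P).derivative.eval t = ∑ o, v o * eval (fun o => b o + t * v o) (pderiv o P) := by
  classical
  rw [der_aevalσ, Polynomial.eval_finsetSum]
  refine Finset.sum_congr rfl fun o _ => ?_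
  rw [Polynomial.eval_mul, eval_alp, mul_comm]
  unfold Pool.LA91.lp
  simp

/-- **The mean value** in the direction of one coordinate. -/
theorem mv_c {P : MvPolynomial (Option (Fin m)) ℝ} {b : Option (Fin m) → ℝ} {x : Option (Fin m)}
    {δ M : ℝ} (hδ : 0 ≤ δ) (h : ∀ s, 0 ≤ s → s ≤ δ →
      |eval (Function.update b x (b x + s)) (pderiv x P)| ≤ M) :
    |eval (Function.update b x (b x + δ)) P - eval b P| ≤ M * δ := by
  classical
  obtain ⟨v, hv⟩ : ∃ v : Option (Fin m) → ℝ, v = Pi.single x 1 := ⟨_, rfl⟩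
  have hup : ∀ t : ℝ, (fun o => b o + t * v o) = Function.update b x (b x + t) := by
    intro t
    funext o
    by_cases ho : o = x
    · rw [ho, Function.update_self, hv, Pi.single_eq_same, mul_one]
    · rw [Function.update_of_ne ho, hv, Pi.single_eq_of_ne ho, mul_zero, add_zero]
  obtain ⟨q, hq⟩ : ∃ q, q = aeval (lp b v) P := ⟨_, rfl⟩
  have hqe : ∀ t, q.eval t = eval (Function.update b x (b x + t)) P := fun t => by
    rw [hq, eval_alp, hup]
  have h2 := (convex_Icc (0 : ℝ) δ).norm_image_sub_le_of_norm_deriv_le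
    (f := fun t => q.eval t) (C := M) (fun t _ => q.differentiableAt) (by
      intro t ht
      rw [Polynomial.deriv, Real.norm_eq_abs, hq, der_lp, Finset.sum_eq_single x]
      · rw [hv, Pi.single_eq_same, one_mul, ← hv, hup]
        exact h t ht.1 ht.2
      · intro o _ ho
        rw [hv, Pi.single_eq_of_ne ho, zero_mul]
      · intro h'
        exact absurd (Finset.mem_univ _) h') (x := 0) (y := δ)
    ⟨le_rfl, hδ⟩ ⟨hδ, le_rfl⟩
  simp only [Real.norm_eq_abs, hqe] at h2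
  rw [add_zero, Function.update_eq_self, sub_zero, abs_of_nonneg hδ] at h2
  exact h2

/-- An affine polynomial in the direction of one coordinate. -/
theorem aff_up {U : MvPolynomial (Option (Fin m)) ℝ} (hU : U.totalDegree ≤ 1)
    (b : Option (Fin m) → ℝ) (x : Option (Fin m)) (δ : ℝ) :
    eval (Function.update b x (b x + δ)) U - eval b U = δ * pc U x := by
  classical
  rw [aff_ev hU, Finset.sum_eq_single x]
  · rw [Function.update_self, add_sub_cancel_left]
  · intro o _ ho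
    rw [Function.update_of_ne ho, sub_self, zero_mul]
  · intro h'
    exact absurd (Finset.mem_univ _) h'

variable {c : ℕ → Fin m} {D w g1 g2 k : ℕ} {g : ℕ → ℕ}
  {G : ℕ → MvPolynomial (Option (Fin m)) ℝ} {U V : MvPolynomial (Option (Fin m)) ℝ}
  {a : Option (Fin m) → ℝ}

theorem nlp_add (g : ℕ → ℕ) {l i gm : ℕ} (hl : l ≤ i) (h : ∀ j ≤ i, g j ≤ gm) :
    g i + nlp g l i ≤ gm ∧ g l ≤ g i + nlp g l i := by
  unfold nlp
  have h1 : (Finset.Icc l i).sup g ≤ gm := Finset.sup_le fun j hj => h j (Finset.mem_Icc.1 hj).2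
  have h2 : g i ≤ (Finset.Icc l i).sup g := Finset.le_sup (Finset.mem_Icc.2 ⟨hl, le_rfl⟩)
  have h3 : g l ≤ (Finset.Icc l i).sup g := Finset.le_sup (Finset.mem_Icc.2 ⟨le_rfl, hl⟩)
  omega

/-- The numbers of the slopes. -/
theorem slp_num {x δ L E : ℝ} (hδ : 0 < δ) (h : |δ * x| ≤ L * δ + 2 * E) :
    |x| ≤ L + 2 * E / δ := by
  rw [abs_mul, abs_of_pos hδ] at h
  have : δ * |x| ≤ δ * (L + 2 * E / δ) := by
    rw [mul_add, mul_div_cancel₀ _ hδ.ne']
    linarith
  exact le_of_mul_le_mul_left this hδ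

/-- **The slope of the affine label of the place `1`.** -/
theorem NatP.slpU (N : NatP c D w g1 g2 k g G U V a) {L : ℝ}
    (hlip : ∀ b, NBx c G g w (a none) 1 b → |eval b (pderiv (some (c 0)) (G 1))| ≤ L) :
    |pc U (some (c 0))| ≤ L + 2 * (2 ^ k / 2 ^ g1) / (1 / 2 ^ g 0) := by
  classical
  obtain ⟨b₀, h01, h02⟩ := pt_adapt N.inj N.dep (a none) (fun _ => 0) 1 (by norm_num)
  have h00 : b₀ (some (c 0)) = eval b₀ (G 0) := by
    rw [h02 0 (by norm_num), add_zero]
  have hδ : (0 : ℝ) < 1 / 2 ^ g 0 := by positivity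
  have hbx : ∀ s, 0 ≤ s → s ≤ 1 / 2 ^ g 0 →
      NBx c G g w (a none) 1 (Function.update b₀ (some (c 0)) (b₀ (some (c 0)) + s)) := by
    intro s hs hs1
    refine ⟨?_, fun l hl => ?_⟩
    · rw [Function.update_of_ne (by simp), h01, sub_self, abs_zero]
      positivity
    · have : l = 0 := by omega
      rw [this, Function.update_self, N.dep 0 _ b₀ (by rw [Function.update_of_ne (by simp)])
        (fun l hl => absurd hl (Nat.not_lt_zero l)), h00, add_sub_cancel_left, abs_of_nonneg hs]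
      exact hs1
  have h1 := mv_c (P := G 1) (b := b₀) (x := some (c 0)) hδ.le
    (fun s hs hs1 => hlip _ (hbx s hs hs1))
  have h2 := N.nU _ (hbx _ hδ.le le_rfl)
  have h3 := N.nU _ (hbx 0 le_rfl hδ.le)
  rw [add_zero, Function.update_eq_self] at h3
  have h4 := aff_up N.dU b₀ (some (c 0)) (1 / 2 ^ g 0)
  refine slp_num hδ ?_
  rw [← h4]
  rw [abs_le] at h1 h2 h3 ⊢
  constructor <;> linarith [h1.1, h1.2, h2.1, h2.2, h3.1, h3.2]

/-- **The slope of the affine label of the place `2`** in the direction of the place `1`. -/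
theorem NatP.slpV1 (N : NatP c D w g1 g2 k g G U V a) {L : ℝ}
    (hlip : ∀ b, NBx c G g w (a none) 2 b → |eval b (pderiv (some (c 1)) (G 2))| ≤ L) :
    |pc V (some (c 1))| ≤ L + 2 * (2 ^ k / 2 ^ g2) / (1 / 2 ^ g 1) := by
  classical
  obtain ⟨n01, n02, n12⟩ := nes N.inj
  obtain ⟨b₀, h01, h02⟩ := pt_adapt N.inj N.dep (a none) (fun _ => 0) 2 (by norm_num)
  have h00 : ∀ l < 2, b₀ (some (c l)) = eval b₀ (G l) := fun l hl => by
    rw [h02 l hl, add_zero]
  have hδ : (0 : ℝ) < 1 / 2 ^ g 1 := by positivity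
  have hbx : ∀ s, 0 ≤ s → s ≤ 1 / 2 ^ g 1 →
      NBx c G g w (a none) 2 (Function.update b₀ (some (c 1)) (b₀ (some (c 1)) + s)) := by
    intro s hs hs1
    refine ⟨?_, fun l hl => ?_⟩
    · rw [Function.update_of_ne (by simp), h01, sub_self, abs_zero]
      positivity
    · have : l = 0 ∨ l = 1 := by omega
      rcases this with rfl | rfl
      · rw [Function.update_of_ne (by simpa using n01), N.dep 0 _ b₀
          (by rw [Function.update_of_ne (by simp)])
          (fun l hl => absurd hl (Nat.not_lt_zero l)), h00 0 (by norm_num), sub_self, abs_zero]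
        positivity
      · rw [Function.update_self, N.dep 1 _ b₀ (by rw [Function.update_of_ne (by simp)])
          (fun l hl => by
            have : l = 0 := by omega
            rw [this, Function.update_of_ne (by simpa using n01)]), h00 1 (by norm_num),
          add_sub_cancel_left, abs_of_nonneg hs]
        exact hs1
  have h1 := mv_c (P := G 2) (b := b₀) (x := some (c 1)) hδ.le
    (fun s hs hs1 => hlip _ (hbx s hs hs1))
  have h2 := N.nV _ (hbx _ hδ.le le_rfl)
  have h3 := N.nV _ (hbx 0 le_rfl hδ.le)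
  rw [add_zero, Function.update_eq_self] at h3
  have h4 := aff_up N.dV b₀ (some (c 1)) (1 / 2 ^ g 1)
  refine slp_num hδ ?_
  rw [← h4]
  rw [abs_le] at h1 h2 h3 ⊢
  constructor <;> linarith [h1.1, h1.2, h2.1, h2.2, h3.1, h3.2]

/-- **The slope of the affine label of the place `2`** in the direction of the place `0`. -/
theorem NatP.slpV0 (N : NatP c D w g1 g2 k g G U V a) {L L1 δ : ℝ} (hδ : 0 < δ)
    (hδ0 : δ ≤ 1 / 2 ^ g 0) (hδ1 : L1 * δ ≤ 1 / 2 ^ g 1)
    (hlip1 : ∀ b, NBx c G g w (a none) 1 b → |eval b (pderiv (some (c 0)) (G 1))| ≤ L1)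
    (hlip : ∀ b, NBx c G g w (a none) 2 b → |eval b (pderiv (some (c 0)) (G 2))| ≤ L) :
    |pc V (some (c 0))| ≤ L + 2 * (2 ^ k / 2 ^ g2) / δ := by
  classical
  obtain ⟨n01, n02, n12⟩ := nes N.inj
  obtain ⟨b₀, h01, h02⟩ := pt_adapt N.inj N.dep (a none) (fun _ => 0) 2 (by norm_num)
  have h00 : ∀ l < 2, b₀ (some (c l)) = eval b₀ (G l) := fun l hl => by
    rw [h02 l hl, add_zero]
  have hL1 : 0 ≤ L1 := by
    obtain ⟨b, hb⟩ : ∃ b, NBx c G g w (a none) 1 b := ⟨b₀, by
      refine ⟨by rw [h01, sub_self, abs_zero]; positivity, fun l hl => ?_⟩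
      rw [h00 l (by omega), sub_self, abs_zero]
      positivity⟩
    exact (abs_nonneg _).trans (hlip1 b hb)
  have hbx1 : ∀ s, 0 ≤ s → s ≤ δ →
      NBx c G g w (a none) 1 (Function.update b₀ (some (c 0)) (b₀ (some (c 0)) + s)) := by
    intro s hs hs1
    refine ⟨?_, fun l hl => ?_⟩
    · rw [Function.update_of_ne (by simp), h01, sub_self, abs_zero]
      positivity
    · have : l = 0 := by omega
      rw [this, Function.update_self, N.dep 0 _ b₀ (by rw [Function.update_of_ne (by simp)])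
        (fun l hl => absurd hl (Nat.not_lt_zero l)), h00 0 (by norm_num), add_sub_cancel_left,
        abs_of_nonneg hs]
      exact hs1.trans hδ0
  have hbx : ∀ s, 0 ≤ s → s ≤ δ →
      NBx c G g w (a none) 2 (Function.update b₀ (some (c 0)) (b₀ (some (c 0)) + s)) := by
    intro s hs hs1
    refine ⟨(hbx1 s hs hs1).1, fun l hl => ?_⟩
    have : l = 0 ∨ l = 1 := by omega
    rcases this with rfl | rfl
    · exact (hbx1 s hs hs1).2 0 (by norm_num)
    · rw [Function.update_of_ne (by simpa using n01.symm), h00 1 (by norm_num), abs_sub_comm]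
      have h5 := mv_c (P := G 1) (b := b₀) (x := some (c 0)) hs
        (fun s' hs' hs1' => hlip1 _ (hbx1 s' hs' (hs1'.trans hs1)))
      refine h5.trans (le_trans ?_ hδ1)
      exact mul_le_mul_of_nonneg_left hs1 hL1
  have h1 := mv_c (P := G 2) (b := b₀) (x := some (c 0)) hδ.le
    (fun s hs hs1 => hlip _ (hbx s hs hs1))
  have h2 := N.nV _ (hbx _ hδ.le le_rfl)
  have h3 := N.nV _ (hbx 0 le_rfl hδ.le)
  rw [add_zero, Function.update_eq_self] at h3
  have h4 := aff_up N.dV b₀ (some (c 0)) δ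
  refine slp_num hδ ?_
  rw [← h4]
  rw [abs_le] at h1 h2 h3 ⊢
  constructor <;> linarith [h1.1, h1.2, h2.1, h2.2, h3.1, h3.2]

/-- The gradients of the labels in natural units. -/
def LipG (c : ℕ → Fin m) (w e : ℕ) (g : ℕ → ℕ) (G : ℕ → MvPolynomial (Option (Fin m)) ℝ)
    (a : Option (Fin m) → ℝ) : Prop :=
  ∀ i < 4, ∀ b, NBx c G g w (a none) i b → ∀ l < i,
    |eval b (pderiv (some (c l)) (G i))| ≤ 2 ^ (e + nlp g l i)

theorem NatP.gU (N : NatP c D w g1 g2 k g G U V a) {e gm : ℕ} (hL : LipG c w e g G a)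
    (hgm : ∀ l ≤ 3, g l ≤ gm) : 2 ^ g1 * |pc U (some (c 0))| ≤ 2 ^ (k + 2 + e + gm) := by
  have h1 := N.slpU (L := 2 ^ (e + nlp g 0 1)) fun b hb => hL 1 (by norm_num) b hb 0 (by norm_num)
  have h2 := (nlp_add g (l := 0) (i := 1) (gm := gm) (by norm_num) fun j hj => hgm j (by omega)).1
  have h3 := hgm 0 (by norm_num)
  have h4 := N.s1'
  have e1 : 2 ^ g1 * (2 ^ (e + nlp g 0 1) + 2 * (2 ^ k / 2 ^ g1) / (1 / 2 ^ g 0)) =
      (2 : ℝ) ^ (g1 + (e + nlp g 0 1)) + 2 ^ (k + 1 + g 0) := by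
    rw [pow_add 2 g1, pow_add 2 (k + 1), pow_add 2 k]
    field_simp
  calc 2 ^ g1 * |pc U (some (c 0))| ≤
        2 ^ g1 * (2 ^ (e + nlp g 0 1) + 2 * (2 ^ k / 2 ^ g1) / (1 / 2 ^ g 0)) :=
        mul_le_mul_of_nonneg_left h1 (by positivity)
    _ = 2 ^ (g1 + (e + nlp g 0 1)) + 2 ^ (k + 1 + g 0) := e1
    _ ≤ 2 ^ (k + 1 + e + gm) + 2 ^ (k + 1 + e + gm) :=
        add_le_add (pow_le_pow_right₀ (by norm_num) (by omega))
          (pow_le_pow_right₀ (by norm_num) (by omega))
    _ = 2 ^ (k + 2 + e + gm) := by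
        rw [show k + 2 + e + gm = k + 1 + e + gm + 1 by ring, pow_succ]
        ring

theorem NatP.gV1 (N : NatP c D w g1 g2 k g G U V a) {e gm : ℕ} (hL : LipG c w e g G a)
    (hgm : ∀ l ≤ 3, g l ≤ gm) : 2 ^ g2 * |pc V (some (c 1))| ≤ 2 ^ (k + 2 + e + gm) := by
  have h1 := N.slpV1 (L := 2 ^ (e + nlp g 1 2)) fun b hb => hL 2 (by norm_num) b hb 1 (by norm_num)
  have h2 := (nlp_add g (l := 1) (i := 2) (gm := gm) (by norm_num) fun j hj => hgm j (by omega)).1
  have h3 := hgm 1 (by norm_num)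
  have h4 := N.s2'
  have e1 : 2 ^ g2 * (2 ^ (e + nlp g 1 2) + 2 * (2 ^ k / 2 ^ g2) / (1 / 2 ^ g 1)) =
      (2 : ℝ) ^ (g2 + (e + nlp g 1 2)) + 2 ^ (k + 1 + g 1) := by
    rw [pow_add 2 g2, pow_add 2 (k + 1), pow_add 2 k]
    field_simp
  calc 2 ^ g2 * |pc V (some (c 1))| ≤
        2 ^ g2 * (2 ^ (e + nlp g 1 2) + 2 * (2 ^ k / 2 ^ g2) / (1 / 2 ^ g 1)) :=
        mul_le_mul_of_nonneg_left h1 (by positivity)
    _ = 2 ^ (g2 + (e + nlp g 1 2)) + 2 ^ (k + 1 + g 1) := e1
    _ ≤ 2 ^ (k + 1 + e + gm) + 2 ^ (k + 1 + e + gm) :=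
        add_le_add (pow_le_pow_right₀ (by norm_num) (by omega))
          (pow_le_pow_right₀ (by norm_num) (by omega))
    _ = 2 ^ (k + 2 + e + gm) := by
        rw [show k + 2 + e + gm = k + 1 + e + gm + 1 by ring, pow_succ]
        ring

theorem NatP.gV0 (N : NatP c D w g1 g2 k g G U V a) {e gm : ℕ} (hL : LipG c w e g G a)
    (hgm : ∀ l ≤ 3, g l ≤ gm) : 2 ^ g2 * |pc V (some (c 0))| ≤ 2 ^ (k + 2 + e + gm) := by
  have h0 := nlp_add g (l := 0) (i := 1) (gm := gm) (by norm_num) fun j hj => hgm j (by omega)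
  have h2 := (nlp_add g (l := 0) (i := 2) (gm := gm) (by norm_num) fun j hj => hgm j (by omega)).1
  have h1 := N.slpV0 (L := 2 ^ (e + nlp g 0 2)) (L1 := 2 ^ (e + nlp g 0 1))
    (δ := 1 / 2 ^ (e + (g 1 + nlp g 0 1))) (by positivity)
    (one_div_le_one_div_of_le (by positivity) (pow_le_pow_right₀ (by norm_num) (by omega)))
    (by
      rw [show e + (g 1 + nlp g 0 1) = e + nlp g 0 1 + g 1 by ring, pow_add 2 (e + nlp g 0 1),
        mul_one_div]
      refine le_of_eq ?_
      field_simp)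
    (fun b hb => hL 1 (by norm_num) b hb 0 (by norm_num))
    fun b hb => hL 2 (by norm_num) b hb 0 (by norm_num)
  have h4 := N.s2'
  have e1 : 2 ^ g2 * (2 ^ (e + nlp g 0 2) + 2 * (2 ^ k / 2 ^ g2) /
      (1 / 2 ^ (e + (g 1 + nlp g 0 1)))) =
      (2 : ℝ) ^ (g2 + (e + nlp g 0 2)) + 2 ^ (k + 1 + (e + (g 1 + nlp g 0 1))) := by
    rw [pow_add 2 g2, pow_add 2 (k + 1), pow_add 2 k]
    field_simp
  calc 2 ^ g2 * |pc V (some (c 0))| ≤
        2 ^ g2 * (2 ^ (e + nlp g 0 2) + 2 * (2 ^ k / 2 ^ g2) /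
          (1 / 2 ^ (e + (g 1 + nlp g 0 1)))) :=
        mul_le_mul_of_nonneg_left h1 (by positivity)
    _ = 2 ^ (g2 + (e + nlp g 0 2)) + 2 ^ (k + 1 + (e + (g 1 + nlp g 0 1))) := e1
    _ ≤ 2 ^ (k + 1 + e + gm) + 2 ^ (k + 1 + e + gm) :=
        add_le_add (pow_le_pow_right₀ (by norm_num) (by omega))
          (pow_le_pow_right₀ (by norm_num) (by omega))
    _ = 2 ^ (k + 2 + e + gm) := by
        rw [show k + 2 + e + gm = k + 1 + e + gm + 1 by ring, pow_succ]
        ring

/-- **The natural coordinates of near points** with the same time. -/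
theorem NatP.near (N : NatP c D w g1 g2 k g G U V a) {e gm : ℕ} (hL : LipG c w e g G a)
    (hgm : ∀ l ≤ 3, g l ≤ gm) (τ : ℝ) {b b' : Option (Fin m) → ℝ} {δ : ℝ}
    (h0 : b none = b' none) (h : ∀ l < 3, |b (some (c l)) - b' (some (c l))| ≤ δ) :
    ∀ o, |nco c w g1 g2 τ U V b o - nco c w g1 g2 τ U V b' o| ≤ 2 ^ (k + 4 + e + gm) * δ := by
  obtain ⟨n01, n02, n12⟩ := nes N.inj
  have hδ : 0 ≤ δ := (abs_nonneg _).trans (h 0 (by norm_num))
  obtain ⟨B, hB⟩ : ∃ B : ℝ, B = 2 ^ (k + 2 + e + gm) := ⟨_, rfl⟩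
  have hB1 : 1 ≤ B := by
    rw [hB]
    exact one_le_pow₀ (by norm_num)
  have hB4 : (2 : ℝ) ^ (k + 4 + e + gm) = 4 * B := by
    rw [hB, show k + 4 + e + gm = k + 2 + e + gm + 2 by ring, pow_add 2 (k + 2 + e + gm)]
    ring
  have gU := N.gU hL hgm
  have gV1 := N.gV1 hL hgm
  have gV0 := N.gV0 hL hgm
  rw [← hB] at gU gV1 gV0
  have p0 : (2 : ℝ) ^ w ≤ B := by
    rw [hB]
    have := hgm 0 (by norm_num)
    have := N.s0
    exact pow_le_pow_right₀ (by norm_num) (by omega)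
  have p1 : (2 : ℝ) ^ g1 ≤ B := by
    rw [hB]
    have := hgm 1 (by norm_num)
    have := N.s1'
    exact pow_le_pow_right₀ (by norm_num) (by omega)
  have p2 : (2 : ℝ) ^ g2 ≤ B := by
    rw [hB]
    have := hgm 2 (by norm_num)
    have := N.s2'
    exact pow_le_pow_right₀ (by norm_num) (by omega)
  have d0 := h 0 (by norm_num)
  have d1 := h 1 (by norm_num)
  have d2 := h 2 (by norm_num)
  rw [hB4]
  have q0 : |2 ^ w * (b (some (c 0)) - b' (some (c 0)))| ≤ B * δ := by
    rw [abs_mul, abs_of_pos (show (0 : ℝ) < 2 ^ w by positivity)]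
    exact mul_le_mul p0 d0 (abs_nonneg _) (by linarith)
  have hBδ : 0 ≤ B * δ := by positivity
  have sl : ∀ {gg : ℕ} {x d : ℝ}, 2 ^ gg * |x| ≤ B → |d| ≤ δ → |2 ^ gg * (d * x)| ≤ B * δ := by
    intro gg x d h1 h2
    rw [abs_mul, abs_mul, abs_of_pos (show (0 : ℝ) < 2 ^ gg by positivity)]
    calc (2 : ℝ) ^ gg * (|d| * |x|) = 2 ^ gg * |x| * |d| := by ring
      _ ≤ B * δ := mul_le_mul h1 h2 (abs_nonneg _) (by linarith)
  have st : ∀ {gg : ℕ} {d : ℝ}, (2 : ℝ) ^ gg ≤ B → |d| ≤ δ → |2 ^ gg * d| ≤ B * δ := by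
    intro gg d h1 h2
    rw [abs_mul, abs_of_pos (show (0 : ℝ) < 2 ^ gg by positivity)]
    exact mul_le_mul h1 h2 (abs_nonneg _) (by linarith)
  refine cases4 ?_ ?_ fun j => ?_
  · show |2 ^ w * b none - τ - (2 ^ w * b' none - τ)| ≤ _
    rw [h0, sub_self, abs_zero]
    positivity
  · show |2 ^ w * b (some (c 0)) - 2 ^ w * b' (some (c 0))| ≤ _
    rw [← mul_sub]
    linarith
  · fin_cases j
    · show |2 ^ g1 * (b (some (c 1)) - eval b U) - 2 ^ g1 * (b' (some (c 1)) - eval b' U)| ≤ _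
      have e1 := aff_ev N.dU b' b
      rw [sum_pc1 N.dU N.eU (fun o => b o - b' o)] at e1
      simp only [h0, sub_self, zero_mul, zero_add] at e1
      have e2 : 2 ^ g1 * (b (some (c 1)) - eval b U) - 2 ^ g1 * (b' (some (c 1)) - eval b' U) =
          2 ^ g1 * (b (some (c 1)) - b' (some (c 1))) -
            2 ^ g1 * ((b (some (c 0)) - b' (some (c 0))) * pc U (some (c 0))) := by
        rw [← e1]
        ring
      rw [e2]
      have h1 := st (gg := g1) p1 d1
      have h2 := sl (gg := g1) gU d0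
      refine (abs_sub _ _).trans ?_
      linarith
    · show |2 ^ g2 * (b (some (c 2)) - eval b V) - 2 ^ g2 * (b' (some (c 2)) - eval b' V)| ≤ _
      have e1 := aff_ev N.dV b' b
      rw [sum_pc2 n01 N.dV N.eV (fun o => b o - b' o)] at e1
      simp only [h0, sub_self, zero_mul, zero_add] at e1
      have e2 : 2 ^ g2 * (b (some (c 2)) - eval b V) - 2 ^ g2 * (b' (some (c 2)) - eval b' V) =
          2 ^ g2 * (b (some (c 2)) - b' (some (c 2))) -
            2 ^ g2 * ((b (some (c 0)) - b' (some (c 0))) * pc V (some (c 0))) -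
            2 ^ g2 * ((b (some (c 1)) - b' (some (c 1))) * pc V (some (c 1))) := by
        have e3 : eval b V = eval b' V + ((b (some (c 0)) - b' (some (c 0))) * pc V (some (c 0)) +
            (b (some (c 1)) - b' (some (c 1))) * pc V (some (c 1))) := by
          rw [← e1]
          ring
        rw [e3]
        ring
      rw [e2]
      have h1 := st (gg := g2) p2 d2
      have h2 := sl (gg := g2) gV0 d0
      have h3 := sl (gg := g2) gV1 d1
      refine (abs_sub _ _).trans ((add_le_add_left (abs_sub _ _) _).trans ?_)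
      linarith

end Pool.NV24
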