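import Pool.Agent.H24.NV.Lm4

/-!
# The law of a window: the polynomial is nearly affine

`nv_law`: a closed polynomial whose own jets are bounded is nearly affine on the box of a quarter of
the event.
-/

set_option autoImplicit false

namespace Pool.NV24

open Finset Real MvPolynomial
open Pool.Agent.H49.Ent Pool.Agent.H32.Dense Pool.STK Pool.KA Pool.KSAT Pool.K2S

/-- **The law of a window.** -/
structure NvL {Ω Γ Λ : Type} [Fintype Ω] (D : ℕ) (R ε κ₀ : ℝ) (K : ℕ) (p : Ω → ℝ) (A : Ω → Prop)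
    (P : Ω → Γ) (L : Ω → Λ) (QP : Γ → P4) (QL : Λ → P4) (FP : Γ → V4) (l0 : Λ → V4) (T : Ω → ℝ)
    (c : Λ → ℝ) (Dd : Λ → Fin 2 → ℝ) (p0 p1 : Γ → Fin 2 → ℝ) : Prop where
  law : IsLaw p
  pos : 0 < Pe p A
  dP : ∀ y, (QP y).totalDegree ≤ D
  dL : ∀ s, (QL s).totalDegree ≤ D
  cls : ∀ ω, A ω → QP (P ω) = QL (L ω)
  tim : ∀ ω, A ω → |T ω| ≤ 1
  c1 : ∀ ω, A ω → |c (L ω)| ≤ 1
  dd : ∀ ω, A ω → ∀ j, |Dd (L ω) j| ≤ R
  lin : ∀ ω, A ω → ∀ o,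
    |FP (P ω) o - (l0 (L ω) o + T ω * vec 1 (c (L ω)) (Dd (L ω)) o)| ≤ ε
  vel : ∀ ω, A ω → ∀ j, |Dd (L ω) j - (p0 (P ω) j + c (L ω) * p1 (P ω) j)| ≤ ε
  own : ∀ ω, A ω → ∀ n, 2 ≤ n → n ≤ D →
    |eval (FP (P ω)) ((dv (vec 1 (c (L ω)) (Dd (L ω))))^[n] (QP (P ω)))| ≤ R
  apr : ∀ ω, A ω → ∀ b : V4, (∀ o, |b o - FP (P ω) o| ≤ 1) → ∀ o j,
    |eval b (pderiv o (pderiv (vt j) (QP (P ω))))| ≤ R ^ K
  frc : Fre p A P (fun ω => c (L ω)) (1 / R) D κ₀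
  frt : Fre p A L T (1 / R) D κ₀
  rel : RelN D R ε κ₀ p A P L FP

theorem Fre.part {Ω ζ : Type} [Fintype Ω] {p : Ω → ℝ} {A E : Ω → Prop} {Z : Ω → ζ} {κ : Ω → ℝ}
    {β : ℝ} {D : ℕ} {κ₀ κ₁ η : ℝ} (h : Fre p A Z κ β D κ₀) (hE : Sub E A)
    (hη : η * Pe p A ≤ Pe p E) (h1 : 0 ≤ κ₁) (hk : κ₀ ≤ κ₁ * η) (hA : 0 ≤ Pe p A) :
    Fre p E Z κ β D κ₁ := by
  intro E' hE' hP
  refine h E' (fun ω hω => hE ω (hE' ω hω)) ?_
  calc κ₀ * Pe p A ≤ κ₁ * η * Pe p A := mul_le_mul_of_nonneg_right hk hA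
    _ = κ₁ * (η * Pe p A) := by ring
    _ ≤ κ₁ * Pe p E := mul_le_mul_of_nonneg_left hη h1
    _ ≤ Pe p E' := hP

theorem RelN.part {Ω Γ Λ : Type} [Fintype Ω] {D : ℕ} {R ε ε' κ₀ κ₁ η : ℝ} {p : Ω → ℝ}
    {A E : Ω → Prop} {P : Ω → Γ} {L : Ω → Λ} {FP : Γ → V4} (h : RelN D R ε κ₀ p A P L FP)
    (hεε : ε ≤ ε') (hE : Sub E A) (hη : η * Pe p A ≤ Pe p E) (h1 : 0 ≤ κ₁) (hk : κ₀ ≤ κ₁ * η)
    (hA : 0 ≤ Pe p A) : RelN D R ε' κ₁ p E P L FP := by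
  intro E' hE' hP Dx Dl M k1 k2 k3 k4 k5
  refine h E' (fun ω hω => hE ω (hE' ω hω)) ?_ Dx Dl M k1 k2 k3
    (fun ω hω b hb => k4 ω hω b fun o => (hb o).trans hεε) k5
  calc κ₀ * Pe p A ≤ κ₁ * η * Pe p A := mul_le_mul_of_nonneg_right hk hA
    _ = κ₁ * (η * Pe p A) := by ring
    _ ≤ κ₁ * Pe p E := mul_le_mul_of_nonneg_left hη h1
    _ ≤ Pe p E' := hP

theorem ex_pe {Ω : Type} [Fintype Ω] {p : Ω → ℝ} {B : Ω → Prop} (h : 0 < Pe p B) :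
    ∃ ω, B ω := by
  by_contra hcon
  push Not at hcon
  have h0 : Pe p B = 0 := by
    rw [Pool.K2S.Pe_eq]
    refine Finset.sum_eq_zero fun ω _ => ?_
    simp [hcon ω]
  linarith

theorem iter_Cmul (s : V4) (a : ℝ) (Q : P4) (n : ℕ) :
    (dv s)^[n] (C a * Q) = C a * (dv s)^[n] Q := by
  induction n with
  | zero => rfl
  | succ n ih => rw [Function.iterate_succ_apply', Function.iterate_succ_apply', ih, dv_Cmul]

theorem pd_Cmul (o : Option (Fin 3)) (a : ℝ) (Q : P4) : pderiv o (C a * Q) = C a * pderiv o Q := by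
  rw [pderiv_mul, pderiv_C, zero_mul, zero_add]

theorem deg_Cmul {D : ℕ} (a : ℝ) {Q : P4} (h : Q.totalDegree ≤ D) :
    (C a * Q).totalDegree ≤ D := by
  refine (totalDegree_mul _ _).trans ?_
  rw [totalDegree_C, zero_add]
  exact h

/-- The mass of one of finitely many events. -/
theorem Pe_pg {Ω : Type} [Fintype Ω] {p : Ω → ℝ} (hp : IsLaw p) (B : ℕ → Ω → Prop) (n : ℕ) :
    ∀ {A : Ω → Prop}, (∀ ω, A ω → ∃ i ∈ range n, B i ω) →
      Pe p A ≤ ∑ i ∈ range n, Pe p (B i) := by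
  induction n with
  | zero =>
    intro A h
    rw [range_zero, sum_empty]
    by_contra hcon
    push Not at hcon
    obtain ⟨ω, hω⟩ := ex_pe hcon
    obtain ⟨i, hi, -⟩ := h ω hω
    rw [range_zero] at hi
    exact absurd hi (Finset.notMem_empty i)
  | succ n ih =>
    intro A h
    have h1 := Pe_or hp (A := A) (B₀ := fun ω => ∃ i ∈ range n, B i ω) (B₁ := B n) (fun ω hω => by
      obtain ⟨i, hi, hB⟩ := h ω hω
      rw [mem_range] at hi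
      rcases Nat.lt_succ_iff_lt_or_eq.1 hi with h2 | h2
      · exact Or.inl ⟨i, mem_range.2 h2, hB⟩
      · rw [h2] at hB
        exact Or.inr hB)
    rw [sum_range_succ]
    have h2 := ih (A := fun ω => ∃ i ∈ range n, B i ω) (fun ω hω => hω)
    linarith

/-- **A level of the vertical second derivatives.** -/
theorem nvl_lvl (D : ℕ) {Ω Γ Λ : Type} [Fintype Ω] {R ε κ₀ : ℝ} {K : ℕ} {p : Ω → ℝ}
    {A : Ω → Prop} {P : Ω → Γ} {L : Ω → Λ} {QP : Γ → P4} {QL : Λ → P4} {FP : Γ → V4}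
    {l0 : Λ → V4} {T : Ω → ℝ} {c : Λ → ℝ} {Dd : Λ → Fin 2 → ℝ} {p0 p1 : Γ → Fin 2 → ℝ}
    (H : NvL D R ε κ₀ K p A P L QP QL FP l0 T c Dd p0 p1) (hR : 1 ≤ R) {N : ℕ}
    {E : Ω → Prop} (hE : Sub E A) {i : ℕ} (hi : N ≤ i) (hP : 0 < Pe p E) {η : ℝ}
    (hη : η * Pe p A ≤ Pe p E) (hk : κ₀ ≤ 1 / 64 * η)
    (h1 : ∀ ω, E ω → ∀ b : V4, (∀ o, |b o - FP (P ω) o| ≤ 1) → ∀ o j,
      |eval b (pderiv o (pderiv (vt j) (QP (P ω))))| ≤ R ^ (i + 1))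
    (h2 : ∀ ω, E ω → ∃ b : V4, (∀ o, |b o - FP (P ω) o| ≤ 1) ∧ ∃ o j,
      R ^ i ≤ |eval b (pderiv o (pderiv (vt j) (QP (P ω))))|) :
    NvM D R (max ε (1 / R ^ N)) p E P L (fun y => C (1 / R ^ (i + 1)) * QP y)
      (fun s => C (1 / R ^ (i + 1)) * QL s) FP l0 T c Dd p0 p1 := by
  have hR0 : 0 < R := by linarith
  have ha : 0 < 1 / R ^ (i + 1) := by positivity
  have hA := (Pe_nonneg H.law A)
  refine ⟨H.law, hP, fun y => deg_Cmul _ (H.dP y), fun s => deg_Cmul _ (H.dL s), fun ω hω => ?_,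
    fun ω hω => H.tim ω (hE ω hω), fun ω hω => H.c1 ω (hE ω hω), fun ω hω => H.dd ω (hE ω hω),
    fun ω hω o => (H.lin ω (hE ω hω) o).trans (le_max_left _ _),
    fun ω hω j => (H.vel ω (hE ω hω) j).trans (le_max_left _ _), fun ω hω n hn hn' => ?_,
    fun ω hω b hb o j => ?_, fun ω hω => ?_, H.frc.part hE hη (by norm_num) hk hA,
    H.frt.part hE hη (by norm_num) hk hA, H.rel.part (le_max_left _ _) hE hη (by norm_num) hk hA⟩
  · show C _ * QP (P ω) = C _ * QL (L ω)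
    rw [H.cls ω (hE ω hω)]
  · rw [iter_Cmul, map_mul, eval_C, abs_mul, abs_of_pos ha]
    refine le_trans ?_ (le_max_right _ _)
    calc 1 / R ^ (i + 1) * |eval (FP (P ω)) ((dv (vec 1 (c (L ω)) (Dd (L ω))))^[n] (QP (P ω)))|
        ≤ 1 / R ^ (i + 1) * R := mul_le_mul_of_nonneg_left (H.own ω (hE ω hω) n hn hn') ha.le
      _ = 1 / R ^ i := by
          rw [pow_succ]
          field_simp
      _ ≤ 1 / R ^ N := one_div_le_one_div_of_le (by positivity) (pow_le_pow_right₀ hR hi)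
  · rw [pd_Cmul, pd_Cmul, map_mul, eval_C, abs_mul, abs_of_pos ha, one_div, inv_mul_le_iff₀
      (by positivity), mul_one]
    exact h1 ω hω b hb o j
  · obtain ⟨b, hb, o, j, h3⟩ := h2 ω hω
    refine ⟨b, hb, o, j, ?_⟩
    rw [pd_Cmul, pd_Cmul, map_mul, eval_C, abs_mul, abs_of_pos ha]
    calc 1 / R = 1 / R ^ (i + 1) * R ^ i := by
          rw [pow_succ]
          field_simp
      _ ≤ _ := mul_le_mul_of_nonneg_left h3 ha.le

/-- **A polynomial with bounded jets along separated directions of a plane** is nearly affine. -/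
theorem nvl_aff (D : ℕ) (hD : 1 ≤ D) : ∃ C₁ : ℝ, 1 ≤ C₁ ∧ ∀ {Ω Γ Λ : Type} [Fintype Ω]
    {R ε κ₀ : ℝ} {K : ℕ} {p : Ω → ℝ} {A : Ω → Prop} {P : Ω → Γ} {L : Ω → Λ} {QP : Γ → P4}
    {QL : Λ → P4} {FP : Γ → V4} {l0 : Λ → V4} {T : Ω → ℝ} {c : Λ → ℝ} {Dd : Λ → Fin 2 → ℝ}
    {p0 p1 : Γ → Fin 2 → ℝ}, NvL D R ε κ₀ K p A P L QP QL FP l0 T c Dd p0 p1 → 1 ≤ R → 0 ≤ ε →
    ε ≤ 1 → ∀ (V : ℝ) (E : Ω → Prop), Sub E A → κ₀ * Pe p A ≤ Pe p E → R ≤ V →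
    (∀ ω, E ω → ∀ b : V4, (∀ o, |b o - FP (P ω) o| ≤ 1) → ∀ o j,
      |eval b (pderiv o (pderiv (vt j) (QP (P ω))))| ≤ V) →
    ∃ B : Ω → Prop, Sub B E ∧ Pe p E / 2 ≤ Pe p B ∧ ∀ ω, B ω → ∀ b : V4,
      (∀ o, |b o - FP (P ω) o| ≤ 1) →
      |eval b (QP (P ω)) - (eval (FP (P ω)) (QP (P ω)) +
        eval (FP (P ω)) (dv (fun o => b o - FP (P ω) o) (QP (P ω))))| ≤
        C₁ * R ^ (9 * D + 8) * V := by
  obtain ⟨C₁, hC₁, hcf⟩ := cfr_pt D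
  obtain ⟨C₂, hC₂, hna⟩ := near_aff D
  refine ⟨(C₂ * 8) ^ (2 * D + 2) * (C₁ * 16 ^ D * 15), ?_, ?_⟩
  · refine one_le_mul_of_one_le_of_one_le (one_le_pow₀ (by linarith)) ?_
    refine one_le_mul_of_one_le_of_one_le ?_ (by norm_num)
    exact one_le_mul_of_one_le_of_one_le hC₁ (one_le_pow₀ (by norm_num))
  intro Ω Γ Λ _ R ε κ₀ K p A P L QP QL FP l0 T c Dd p0 p1 H hR hε hε1 V E hEA hκ hRV hV
  have hR0 : 0 < R := by linarith
  have hV0 : 0 < V := by linarith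
  have hR2 : 1 ≤ R ^ 2 := one_le_pow₀ hR
  have hRR : R ≤ R ^ 2 := by nlinarith
  obtain ⟨B, hBE, hPB, hB⟩ := H.frc E hEA hκ
  refine ⟨B, hBE, hPB, fun ω hω b hb => ?_⟩
  obtain ⟨ν, h1, h2⟩ := hB ω hω
  have hD0 : (0 : ℕ) ≤ D := Nat.zero_le D
  have hA : ∀ i ≤ D, A (ν i) := fun i hi => hEA _ (h1 i hi).1
  have hPν : ∀ i ≤ D, P (ν i) = P ω := fun i hi => (h1 i hi).2
  have hvel : ∀ i ≤ D, ∀ j, |Dd (L (ν i)) j - (p0 (P ω) j + c (L (ν i)) * p1 (P ω) j)| ≤ 1 := by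
    intro i hi j
    rw [← hPν i hi]
    exact (H.vel (ν i) (hA i hi) j).trans hε1
  -- the slopes are bounded
  have hb1 : ∀ j, |p1 (P ω) j| ≤ 6 * R ^ 2 := by
    intro j
    have a0 := abs_le.1 (hvel 0 hD0 j)
    have a1 := abs_le.1 (hvel 1 hD j)
    have d0 := abs_le.1 (H.dd (ν 0) (hA 0 hD0) j)
    have d1 := abs_le.1 (H.dd (ν 1) (hA 1 hD) j)
    have h3 := h2 0 hD0 1 hD (by norm_num)
    simp only at h3
    have h4 : |c (L (ν 0)) - c (L (ν 1))| * |p1 (P ω) j| ≤ 4 * R := by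
      rw [← abs_mul, abs_le]
      constructor <;> linarith [a0.1, a0.2, a1.1, a1.2, d0.1, d0.2, d1.1, d1.2]
    have h5 : 1 / R * |p1 (P ω) j| ≤ 4 * R :=
      (mul_le_mul_of_nonneg_right h3 (abs_nonneg _)).trans h4
    rw [one_div, inv_mul_le_iff₀ hR0] at h5
    linarith
  have hb0 : ∀ j, |p0 (P ω) j| ≤ 8 * R ^ 2 := by
    intro j
    have a0 := abs_le.1 (hvel 0 hD0 j)
    have d0 := abs_le.1 (H.dd (ν 0) (hA 0 hD0) j)
    have h3 : |c (L (ν 0)) * p1 (P ω) j| ≤ 1 * (6 * R ^ 2) := by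
      rw [abs_mul]
      exact mul_le_mul (H.c1 (ν 0) (hA 0 hD0)) (hb1 j) (abs_nonneg _) zero_le_one
    have h4 := abs_le.1 h3
    rw [abs_le]
    constructor <;> linarith [a0.1, a0.2, d0.1, d0.2, h4.1, h4.2]
  have hb1' : ∀ j, |p1 (P ω) j| ≤ 8 * R ^ 2 := fun j => (hb1 j).trans (by linarith)
  have hS : 1 ≤ 8 * R ^ 2 := by linarith
  have ha : 0 < 1 / V := by positivity
  have hk0 : ∀ o, |vec 1 0 (p0 (P ω)) o| ≤ 8 * R ^ 2 :=
    vec_bd (by rw [abs_one]; exact hS) (by rw [abs_zero]; positivity) hb0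
  have hk1 : ∀ o, |vec 0 1 (p1 (P ω)) o| ≤ 8 * R ^ 2 :=
    vec_bd (by rw [abs_zero]; positivity) (by rw [abs_one]; exact hS) hb1'
  have hdeg : (C (1 / V) * QP (P ω)).totalDegree ≤ D := deg_Cmul _ (H.dP _)
  have hup : ∀ b : V4, (∀ o, |b o - FP (P ω) o| ≤ 1) → ∀ o j,
      |eval b (pderiv o (pderiv (vt j) (C (1 / V) * QP (P ω))))| ≤ 1 := by
    intro b hb o j
    rw [pd_Cmul, pd_Cmul, map_mul, eval_C, abs_mul, abs_of_pos ha, one_div, inv_mul_le_iff₀ hV0,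
      mul_one]
    exact hV ω (hBE ω hω) b hb o j
  have hjet := hcf (C (1 / V) * QP (P ω)) (FP (P ω)) (p0 (P ω)) (p1 (P ω)) (8 * R ^ 2) 1 (1 / R)
    (fun i => c (L (ν i))) (fun i => Dd (L (ν i))) hdeg hS zero_le_one (by positivity) hk0 hk1
    (fun i hi => H.c1 _ (hA i hi))
    (fun i hi => vec_bd (by rw [abs_one]; exact hS)
      ((H.c1 _ (hA i hi)).trans hS) fun j => (H.dd _ (hA i hi) j).trans (by linarith))
    (fun i hi => cases4 (P := fun o => |vec 1 0 (p0 (P ω)) o +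
      c (L (ν i)) * vec 0 1 (p1 (P ω)) o| ≤ 8 * R ^ 2)
      (by
        rw [vec_none, vec_none, mul_zero, add_zero, abs_one]
        exact hS)
      (by
        rw [vec_zero, vec_zero, mul_one, zero_add]
        exact (H.c1 _ (hA i hi)).trans hS)
      (fun j => by
        rw [vec_vt, vec_vt]
        have a0 := abs_le.1 (hvel i hi j)
        have d0 := abs_le.1 (H.dd (ν i) (hA i hi) j)
        rw [abs_le]
        constructor <;> linarith [a0.1, a0.2, d0.1, d0.2]))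
    h2 hvel
    (fun i hi n hn hn' => by
      have h3 := H.own (ν i) (hA i hi) n hn hn'
      rw [hPν i hi] at h3
      rw [iter_Cmul, map_mul, eval_C, abs_mul, abs_of_pos ha, one_div, inv_mul_le_iff₀ hV0,
        mul_one]
      exact h3.trans hRV)
    hup
  obtain ⟨δ, hδ⟩ : ∃ δ, δ = C₁ * 16 ^ D * 15 * R ^ (3 * D + 2) := ⟨_, rfl⟩
  have hC16 : 1 ≤ C₁ * 16 ^ D := one_le_mul_of_one_le_of_one_le hC₁ (one_le_pow₀ (by norm_num))
  have hR3 : 1 ≤ R ^ (3 * D) := one_le_pow₀ hR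
  have e1 : C₁ * (2 / (1 / R)) ^ D * ((8 * R ^ 2) ^ D * 1) = C₁ * 16 ^ D * R ^ (3 * D) := by
    have e1 : 2 / (1 / R) = 2 * R := by
      field_simp
    rw [e1, mul_pow, mul_pow, ← pow_mul]
    have e2 : R ^ (3 * D) = R ^ D * R ^ (2 * D) := by rw [← pow_add]; congr 1; omega
    rw [e2]
    have e3 : (16 : ℝ) ^ D = 2 ^ D * 8 ^ D := by rw [← mul_pow]; norm_num
    rw [e3]
    ring
  rw [e1] at hjet
  have hδ0 : 0 ≤ δ := by rw [hδ]; positivity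
  have hle1 : C₁ * 16 ^ D * R ^ (3 * D) ≤ δ := by
    rw [hδ, pow_add]
    have : C₁ * 16 ^ D * R ^ (3 * D) * 1 ≤ C₁ * 16 ^ D * R ^ (3 * D) * (15 * R ^ 2) :=
      mul_le_mul_of_nonneg_left (by linarith) (by positivity)
    linarith
  have hle2 : 15 * R ^ 2 ≤ δ := by
    rw [hδ, pow_add]
    have h3 : 1 ≤ C₁ * 16 ^ D * R ^ (3 * D) := one_le_mul_of_one_le_of_one_le hC16 hR3
    have : 15 * R ^ 2 * 1 ≤ 15 * R ^ 2 * (C₁ * 16 ^ D * R ^ (3 * D)) :=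
      mul_le_mul_of_nonneg_left h3 (by positivity)
    linarith
  have hadm : Adm (vec 1 0 (p0 (P ω))) (vec 0 1 (p1 (P ω))) (8 * R ^ 2) R δ
      (fun o => b o - FP (P ω) o) := by
    refine ⟨fun o => (hb o).trans hS, b none - FP (P ω) none, b (some 0) - FP (P ω) (some 0),
      fun j => (b (vt j) - FP (P ω) (vt j)) - (b none - FP (P ω) none) * p0 (P ω) j -
        (b (some 0) - FP (P ω) (some 0)) * p1 (P ω) j, (hb _).trans hR, (hb _).trans hR,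
      fun j => ?_, ?_⟩
    · refine le_trans ?_ hle2
      have m1 : |(b none - FP (P ω) none) * p0 (P ω) j| ≤ 1 * (8 * R ^ 2) := by
        rw [abs_mul]
        exact mul_le_mul (hb _) (hb0 j) (abs_nonneg _) zero_le_one
      have m2 : |(b (some 0) - FP (P ω) (some 0)) * p1 (P ω) j| ≤ 1 * (6 * R ^ 2) := by
        rw [abs_mul]
        exact mul_le_mul (hb _) (hb1 j) (abs_nonneg _) zero_le_one
      have a1 := abs_le.1 m1
      have a2 := abs_le.1 m2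
      have a3 := abs_le.1 (hb (vt j))
      rw [abs_le]
      constructor <;> linarith [a1.1, a1.2, a2.1, a2.2, a3.1, a3.2]
    · refine cases4 (P := fun o => b o - FP (P ω) o = _ * vec 1 0 (p0 (P ω)) o +
        _ * vec 0 1 (p1 (P ω)) o + vec 0 0 _ o) ?_ ?_ ?_
      · rw [vec_none, vec_none, vec_none]
        ring
      · rw [vec_zero, vec_zero, vec_zero]
        ring
      · intro j
        rw [vec_vt, vec_vt, vec_vt]
        ring
  have h5 := hna (C (1 / V) * QP (P ω)) (FP (P ω)) _ _ _ R δ (8 * R ^ 2) hdeg hR hS hδ0 hk0 hk1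
    (fun i j hij => (hjet i j hij).trans hle1) hup hadm
  have e5 : (fun o => FP (P ω) o + (b o - FP (P ω) o)) = b := by
    funext o
    ring
  rw [e5, dv_Cmul, map_mul, map_mul, map_mul, eval_C, eval_C, ← mul_add, ← mul_sub,
    abs_mul, abs_of_pos ha, one_div, inv_mul_le_iff₀ hV0] at h5
  refine h5.trans (le_of_eq ?_)
  rw [hδ]
  have e6 : R ^ (9 * D + 8) = (R ^ 2 * R) ^ (2 * D + 2) * R ^ (3 * D + 2) := by
    rw [← pow_succ, ← pow_mul, ← pow_add]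
    congr 1
    ring
  rw [e6]
  have e7 : (C₂ * (8 * R ^ 2) * R) ^ (2 * D + 2) = (C₂ * 8) ^ (2 * D + 2) *
      (R ^ 2 * R) ^ (2 * D + 2) := by
    rw [← mul_pow]
    ring
  rw [e7]
  ring

/-- **The law of a window**: the polynomial is nearly affine on the box. -/
theorem nv_law (D : ℕ) (hD : 1 ≤ D) : ∃ R₀ : ℝ, 1 ≤ R₀ ∧ ∀ {Ω Γ Λ : Type} [Fintype Ω]
    {R ε κ₀ : ℝ} {K : ℕ} {p : Ω → ℝ} {A : Ω → Prop} {P : Ω → Γ} {L : Ω → Λ} {QP : Γ → P4}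
    {QL : Λ → P4} {FP : Γ → V4} {l0 : Λ → V4} {T : Ω → ℝ} {c : Λ → ℝ} {Dd : Λ → Fin 2 → ℝ}
    {p0 p1 : Γ → Fin 2 → ℝ}, NvL D R ε κ₀ K p A P L QP QL FP l0 T c Dd p0 p1 → R₀ ≤ R → 0 ≤ ε →
    κ₀ * (128 * (K + 1)) ≤ 1 → ε * R ^ (9 * D + 41) ≤ 1 →
    ∃ B : Ω → Prop, Sub B A ∧ Pe p A / 4 ≤ Pe p B ∧ ∀ ω, B ω → ∀ b : V4,
      (∀ o, |b o - FP (P ω) o| ≤ 1) →
      |eval b (QP (P ω)) - (eval (FP (P ω)) (QP (P ω)) +
        eval (FP (P ω)) (dv (fun o => b o - FP (P ω) o) (QP (P ω))))| ≤ R ^ (18 * D + 50) := by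
  classical
  obtain ⟨R₁, hR₁, hfalse⟩ := nvm_false D hD
  obtain ⟨C₁, hC₁, haff⟩ := nvl_aff D hD
  refine ⟨R₁ + C₁, by linarith, ?_⟩
  intro Ω Γ Λ _ R ε κ₀ K p A P L QP QL FP l0 T c Dd p0 p1 H hR hε hκ hεR
  have hR1 : 1 ≤ R := by linarith
  have hR0 : 0 < R := by linarith
  have hK0 : (0 : ℝ) ≤ K := Nat.cast_nonneg K
  have hA := H.pos
  have hκ0 : κ₀ ≤ 1 / (128 * (K + 1)) := by
    rw [le_div_iff₀ (by positivity)]
    exact hκ
  have hκ2 : 1 / (128 * ((K : ℝ) + 1)) ≤ 1 / 128 :=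
    one_div_le_one_div_of_le (by norm_num) (by linarith)
  have hε1 : ε ≤ 1 := by
    have h1 : ε * 1 ≤ ε * R ^ (9 * D + 41) := mul_le_mul_of_nonneg_left (one_le_pow₀ hR1) hε
    linarith
  obtain ⟨Lo, hLo⟩ : ∃ Lo : ℕ → Ω → Prop, ∀ n ω, Lo n ω ↔ ∀ b : V4,
      (∀ o, |b o - FP (P ω) o| ≤ 1) → ∀ o j,
      |eval b (pderiv o (pderiv (vt j) (QP (P ω))))| ≤ R ^ n := ⟨_, fun _ _ => Iff.rfl⟩
  obtain ⟨N, hN⟩ : ∃ N, N = 9 * D + 41 := ⟨_, rfl⟩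
  obtain ⟨E0, hE0⟩ : ∃ E0 : Ω → Prop, ∀ ω, E0 ω ↔ (A ω ∧ Lo N ω) := ⟨_, fun _ => Iff.rfl⟩
  obtain ⟨E1, hE1⟩ : ∃ E1 : Ω → Prop, ∀ ω, E1 ω ↔ (A ω ∧ ¬ Lo N ω) := ⟨_, fun _ => Iff.rfl⟩
  rcases half_or H.law (A := A) (B₀ := E0) (B₁ := E1) (fun ω hω => by
    by_cases h : Lo N ω
    · exact Or.inl ((hE0 ω).2 ⟨hω, h⟩)
    · exact Or.inr ((hE1 ω).2 ⟨hω, h⟩)) with h | h
  · obtain ⟨B, hB, hPB, hBB⟩ := haff H hR1 hε hε1 (R ^ N) E0 (fun ω hω => ((hE0 ω).1 hω).1)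
      (by nlinarith) (le_self_pow₀ hR1 (by omega))
      (fun ω hω => (hLo N ω).1 ((hE0 ω).1 hω).2)
    refine ⟨B, fun ω hω => ((hE0 ω).1 (hB ω hω)).1, by linarith, fun ω hω b hb => ?_⟩
    refine (hBB ω hω b hb).trans ?_
    calc C₁ * R ^ (9 * D + 8) * R ^ N ≤ R * R ^ (9 * D + 8) * R ^ N := by
          refine mul_le_mul_of_nonneg_right (mul_le_mul_of_nonneg_right (by linarith)
            (by positivity)) (by positivity)
      _ = R ^ (18 * D + 50) := by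
          rw [hN, ← pow_succ', ← pow_add]
          congr 1
          ring
  · exfalso
    obtain ⟨Lv, hLv⟩ : ∃ Lv : ℕ → Ω → Prop, ∀ i ω, Lv i ω ↔
      (E1 ω ∧ N ≤ i ∧ Lo (i + 1) ω ∧ ¬ Lo i ω) := ⟨_, fun _ _ => Iff.rfl⟩
    have hcov : ∀ ω, E1 ω → ∃ i ∈ range (K + 1), Lv i ω := by
      intro ω hω
      have h1 := (hE1 ω).1 hω
      have hK : Lo K ω := (hLo K ω).2 fun b hb o j => H.apr ω h1.1 b hb o j
      have hex : ∃ n, Lo n ω := ⟨K, hK⟩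
      obtain ⟨n, hn⟩ : ∃ n, n = Nat.find hex := ⟨_, rfl⟩
      have hn1 : Lo n ω := by
        rw [hn]
        exact Nat.find_spec hex
      have hn2 : ∀ k < n, ¬ Lo k ω := fun k hk => by
        rw [hn] at hk
        exact Nat.find_min hex hk
      have hn3 : n ≤ K := by
        rw [hn]
        exact Nat.find_le hK
      have hmono : ∀ a b, a ≤ b → Lo a ω → Lo b ω := fun a b hab ha =>
        (hLo b ω).2 fun x hx o j => ((hLo a ω).1 ha x hx o j).trans (pow_le_pow_right₀ hR1 hab)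
      have hNn : N < n := by
        by_contra hcon
        exact h1.2 (hmono n N (by omega) hn1)
      refine ⟨n - 1, mem_range.2 (by omega), (hLv _ _).2 ⟨hω, by omega, ?_, hn2 _ (by omega)⟩⟩
      have e1 : n - 1 + 1 = n := by omega
      rw [e1]
      exact hn1
    obtain ⟨i, -, hi⟩ : ∃ i ∈ range (K + 1), Pe p E1 / (K + 1) ≤ Pe p (Lv i) := by
      by_contra hcon
      push Not at hcon
      have h1 := Pe_pg H.law Lv (K + 1) hcov
      have h2 : ∑ i ∈ range (K + 1), Pe p (Lv i) < ∑ _i ∈ range (K + 1), Pe p E1 / (K + 1) :=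
        Finset.sum_lt_sum_of_nonempty ⟨0, mem_range.2 (Nat.succ_pos K)⟩ fun i hi => hcon i hi
      rw [Finset.sum_const, card_range, nsmul_eq_mul] at h2
      push_cast at h2
      rw [mul_div_cancel₀ _ (by positivity : ((K : ℝ) + 1) ≠ 0)] at h2
      linarith
    have hE1A : ∀ ω, E1 ω → A ω := fun ω hω => ((hE1 ω).1 hω).1
    have hPE1 : 0 < Pe p E1 := by linarith
    have hK1 : (0 : ℝ) < (K : ℝ) + 1 := by linarith
    have hPi : 0 < Pe p (Lv i) := lt_of_lt_of_le (by positivity) hi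
    have hηi : 1 / (2 * (K + 1)) * Pe p A ≤ Pe p (Lv i) := by
      refine le_trans ?_ hi
      calc 1 / (2 * ((K : ℝ) + 1)) * Pe p A = Pe p A / 2 / (K + 1) := by
            field_simp
        _ ≤ _ := div_le_div_of_nonneg_right h hK1.le
    have hNi : N ≤ i := by
      obtain ⟨ω, hω⟩ := ex_pe hPi
      exact ((hLv i ω).1 hω).2.1
    have hM := nvl_lvl D H hR1 (N := N) (E := Lv i) (i := i)
      (fun ω hω => hE1A ω ((hLv i ω).1 hω).1) hNi hPi hηi (by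
        refine hκ0.trans (le_of_eq ?_)
        field_simp
        norm_num)
      (fun ω hω => (hLo _ ω).1 ((hLv i ω).1 hω).2.2.1) (fun ω hω => by
        have h3 := ((hLv i ω).1 hω).2.2.2
        rw [hLo] at h3
        push Not at h3
        obtain ⟨b, hb, o, j, h4⟩ := h3
        exact ⟨b, hb, o, j, h4.le⟩)
    refine hfalse hM (by linarith) (le_trans hε (le_max_left _ _)) ?_
    rcases le_total ε (1 / R ^ N) with h5 | h5
    · rw [max_eq_right h5, hN, one_div, inv_mul_cancel₀ (by positivity)]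
    · rw [max_eq_left h5]
      exact hεR

end Pool.NV24
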