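import Pool.Agent.H13.K2S.Cht

/-!
# The two-dimensional algebra of the fan

`two_slp`: if the differences `w` of the slopes of the fans along one own line satisfy
`x . w = 0` and `2 y . w + w d w = 0`, where `x = b + c y` does not vanish, then one closed
combination of the slopes is known to the line.
-/

set_option autoImplicit false

namespace Pool.NV24

open Finset Real
open Pool.Agent.H49.Ent Pool.Agent.H32.Dense Pool.STK Pool.KA Pool.KSAT Pool.K2S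

/-- One of two events is large. -/
theorem half_or {Ω : Type} [Fintype Ω] {p : Ω → ℝ} (hp : IsLaw p) {A B₀ B₁ : Ω → Prop}
    (h : ∀ ω, A ω → B₀ ω ∨ B₁ ω) : Pe p A / 2 ≤ Pe p B₀ ∨ Pe p A / 2 ≤ Pe p B₁ := by
  have h1 := Pe_or hp h
  by_contra hcon
  push Not at hcon
  linarith [hcon.1, hcon.2]

/-- A representative of a fibre. -/
theorem rep_ex {Ω Λ : Type} [Nonempty Ω] (L : Ω → Λ) (B : Ω → Prop) :
    ∃ f : Λ → Ω, ∀ ω, B ω → B (f (L ω)) ∧ L (f (L ω)) = L ω := by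
  classical
  refine ⟨fun l => if h : ∃ ω, B ω ∧ L ω = l then h.choose else Classical.arbitrary Ω,
    fun ω hω => ?_⟩
  have h : ∃ ω', B ω' ∧ L ω' = L ω := ⟨ω, hω, rfl⟩
  simp only [dif_pos h]
  exact h.choose_spec

/-- The first equation. -/
theorem sl_one {x0 x1 w0 w1 δ1 ε : ℝ} (hδ : 0 < δ1) (hx : δ1 ≤ |x0|)
    (h : |x0 * w0 + x1 * w1| ≤ ε) : |w0 + x1 / x0 * w1| ≤ ε / δ1 := by
  have hx0 : x0 ≠ 0 := fun h0 => by
    rw [h0, abs_zero] at hx
    linarith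
  have e1 : w0 + x1 / x0 * w1 = (x0 * w0 + x1 * w1) / x0 := by
    field_simp
  rw [e1, abs_div]
  exact div_le_div₀ ((abs_nonneg _).trans h) h hδ hx

/-- Two roots. -/
theorem two_root {w μ ν E δ δ3 R : ℝ} (hδ : 0 < δ) (hδ3 : 0 < δ3) (hR : 1 ≤ R) (hw : |w| ≤ 2 * R)
    (hE : 16 * R * E ≤ δ ^ 2 * δ3) (hμ : δ3 ≤ |μ|) (h : |w * (2 * μ + w * ν)| ≤ E) :
    |w| ≤ δ / 2 ∨ |w - -2 * μ / ν| ≤ δ / 2 := by
  by_cases hwa : |w| ≤ δ / 2
  · exact Or.inl hwa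
  · right
    rw [not_le] at hwa
    have hE0 : 0 ≤ E := (abs_nonneg _).trans h
    rw [abs_mul] at h
    obtain ⟨a, ha⟩ : ∃ a, a = |2 * μ + w * ν| := ⟨_, rfl⟩
    have ha0 : 0 ≤ a := by rw [ha]; exact abs_nonneg _
    rw [← ha] at h
    have hw0 : 0 < |w| := by linarith
    have h1 : δ / 2 * a ≤ E := (mul_le_mul_of_nonneg_right hwa.le ha0).trans h
    have h2 : 8 * R * δ * a ≤ δ ^ 2 * δ3 := by nlinarith
    have h3 : 8 * R * a ≤ δ * δ3 := by
      have : δ * (8 * R * a) ≤ δ * (δ * δ3) := by nlinarith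
      exact le_of_mul_le_mul_left this hδ
    -- the slope is not small
    have h4 : a ≤ |μ| := by
      by_cases hd1 : δ ≤ 8 * R
      · have h5 : 8 * R * a ≤ 8 * R * δ3 := h3.trans (mul_le_mul_of_nonneg_right hd1 hδ3.le)
        exact (le_of_mul_le_mul_left h5 (by linarith)).trans hμ
      · exfalso
        rw [not_le] at hd1
        linarith
    have h6 : |μ| ≤ |w| * |ν| := by
      rw [← abs_mul]
      have h7 : 2 * |μ| ≤ a + |w * ν| := by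
        rw [ha]
        have h8 : 2 * μ = (2 * μ + w * ν) - w * ν := by ring
        calc 2 * |μ| = |2 * μ| := by rw [abs_mul, abs_two]
          _ = |(2 * μ + w * ν) - w * ν| := by rw [← h8]
          _ ≤ _ := abs_sub _ _
      linarith
    have hν : 0 < |ν| := by
      by_contra hn
      have : |ν| = 0 := le_antisymm (not_lt.1 hn) (abs_nonneg _)
      rw [this, mul_zero] at h6
      linarith
    have hν0 : ν ≠ 0 := abs_pos.1 hν
    have e1 : w - -2 * μ / ν = (2 * μ + w * ν) / ν := by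
      field_simp
      ring
    rw [e1, abs_div, ← ha, div_le_iff₀ hν]
    have h9 : δ3 ≤ 2 * R * |ν| := (hμ.trans h6).trans (mul_le_mul_of_nonneg_right hw hν.le)
    have h10 : 8 * R * a ≤ δ * (2 * R * |ν|) := h3.trans (mul_le_mul_of_nonneg_left h9 hδ.le)
    have h11 : 8 * R * a ≤ 8 * R * (δ / 4 * |ν|) := by linarith
    have h12 := le_of_mul_le_mul_left h11 (by linarith : 0 < 8 * R)
    have h13 : 0 ≤ δ / 4 * |ν| := by positivity
    linarith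

/-- The second equation on the line of the first one. -/
theorem sl_two {y0 y1 d00 d01 d11 w0 w1 σ r ε R : ℝ} (hR : 1 ≤ R) (hr : 0 ≤ r) (hr1 : r ≤ 1)
    (hσ : |σ| ≤ 1) (h0 : |w0 + σ * w1| ≤ r) (hw1 : |w1| ≤ 2 * R) (hy0 : |y0| ≤ R)
    (hd00 : |d00| ≤ 1) (hd01 : |d01| ≤ 1)
    (h : |2 * (y0 * w0 + y1 * w1) + (d00 * w0 ^ 2 + 2 * d01 * w0 * w1 + d11 * w1 ^ 2)| ≤ ε) :
    |w1 * (2 * (y1 - σ * y0) + w1 * (d11 - 2 * σ * d01 + σ ^ 2 * d00))| ≤ ε + 12 * R * r := by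
  obtain ⟨t, ht⟩ : ∃ t, t = w0 + σ * w1 := ⟨_, rfl⟩
  rw [← ht] at h0
  have ew : w0 = t - σ * w1 := by rw [ht]; ring
  have e1 : w1 * (2 * (y1 - σ * y0) + w1 * (d11 - 2 * σ * d01 + σ ^ 2 * d00)) =
      (2 * (y0 * w0 + y1 * w1) + (d00 * w0 ^ 2 + 2 * d01 * w0 * w1 + d11 * w1 ^ 2)) -
        (2 * (y0 * t) + d00 * (t * t) - 2 * (d00 * (σ * w1 * t)) + 2 * (d01 * (t * w1))) := by
    rw [ew]
    ring
  rw [e1]
  have a1 : |y0 * t| ≤ R * r := by
    rw [abs_mul]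
    exact mul_le_mul hy0 h0 (abs_nonneg _) (by linarith)
  have a2 : |d00 * (t * t)| ≤ r := by
    rw [abs_mul, abs_mul]
    calc |d00| * (|t| * |t|) ≤ 1 * (r * 1) :=
          mul_le_mul hd00 (mul_le_mul h0 (h0.trans hr1) (abs_nonneg _) hr) (by positivity)
            zero_le_one
      _ = r := by ring
  have a3 : |d00 * (σ * w1 * t)| ≤ 2 * R * r := by
    rw [abs_mul, abs_mul, abs_mul]
    calc |d00| * (|σ| * |w1| * |t|) ≤ 1 * (1 * (2 * R) * r) := by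
          refine mul_le_mul hd00 ?_ (by positivity) zero_le_one
          refine mul_le_mul ?_ h0 (abs_nonneg _) (by positivity)
          exact mul_le_mul hσ hw1 (abs_nonneg _) zero_le_one
      _ = 2 * R * r := by ring
  have a4 : |d01 * (t * w1)| ≤ 2 * R * r := by
    rw [abs_mul, abs_mul]
    calc |d01| * (|t| * |w1|) ≤ 1 * (r * (2 * R)) :=
          mul_le_mul hd01 (mul_le_mul h0 hw1 (abs_nonneg _) hr) (by positivity) zero_le_one
      _ = 2 * R * r := by ring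
  have hRr : r ≤ R * r := by nlinarith
  have b1 := abs_le.1 a1
  have b2 := abs_le.1 a2
  have b3 := abs_le.1 a3
  have b4 := abs_le.1 a4
  have b5 := abs_le.1 h
  rw [abs_le]
  constructor <;> linarith [b1.1, b1.2, b2.1, b2.2, b3.1, b3.2, b4.1, b4.2, b5.1, b5.2]

/-- The slope from a row. -/
theorem row_slp {r0 r1 σ a δ1 : ℝ} (hδ : 0 < δ1) (h0 : δ1 ≤ |r0|) (h : |r1 - σ * r0| ≤ a) :
    |r1 / r0 - σ| ≤ a / δ1 := by
  have hr0 : r0 ≠ 0 := fun h1 => by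
    rw [h1, abs_zero] at h0
    linarith
  have e1 : r1 / r0 - σ = (r1 - σ * r0) / r0 := by
    field_simp
  rw [e1, abs_div]
  exact div_le_div₀ ((abs_nonneg _).trans h) h hδ h0

/-- **The slopes of the fans along one own line.** -/
theorem two_slp {Ω Γ Λ : Type} [Fintype Ω] {p : Ω → ℝ} (hp : IsLaw p) {A : Ω → Prop} {P : Ω → Γ}
    {L : Ω → Λ} {x0 x1 : Ω → ℝ} {y0 y1 b0 b1 d00 d01 d11 q0 q1 : Γ → ℝ} {c : Λ → ℝ}
    {R ε δ δ1 : ℝ} (hR : 1 ≤ R) (hδ : 0 < δ) (hδ' : δ ≤ 1) (hδ1 : 0 < δ1) (hδ1' : δ1 ≤ 1)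
    (hε0 : 0 ≤ ε) (hε : 2 ^ 15 * R ^ 4 * ε ≤ δ1 ^ 2 * δ ^ 3)
    (hx : ∀ ω, A ω → δ1 ≤ |x0 ω| ∧ |x1 ω| ≤ |x0 ω|) (hc : ∀ ω, A ω → |c (L ω)| ≤ 1)
    (hy : ∀ ω, A ω → |y0 (P ω)| ≤ R) (hq : ∀ ω, A ω → |q0 (P ω)| ≤ R ∧ |q1 (P ω)| ≤ R)
    (hd : ∀ ω, A ω → |d00 (P ω)| ≤ 1 ∧ |d01 (P ω)| ≤ 1)
    (e1 : ∀ ω ω', A ω → A ω' → L ω = L ω' →
      |x0 ω' * (q0 (P ω) - q0 (P ω')) + x1 ω' * (q1 (P ω) - q1 (P ω'))| ≤ ε)
    (e2 : ∀ ω ω', A ω → A ω' → L ω = L ω' →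
      |2 * (y0 (P ω') * (q0 (P ω) - q0 (P ω')) + y1 (P ω') * (q1 (P ω) - q1 (P ω'))) +
        (d00 (P ω') * (q0 (P ω) - q0 (P ω')) ^ 2 +
          2 * d01 (P ω') * (q0 (P ω) - q0 (P ω')) * (q1 (P ω) - q1 (P ω')) +
          d11 (P ω') * (q1 (P ω) - q1 (P ω')) ^ 2)| ≤ ε)
    (e3 : ∀ ω, A ω → |x0 ω - (b0 (P ω) + c (L ω) * y0 (P ω))| ≤ ε ∧
      |x1 ω - (b1 (P ω) + c (L ω) * y1 (P ω))| ≤ ε) :
    ∃ (B : Ω → Prop) (sP : Γ → ℝ) (sL qL : Λ → ℝ), Sub B A ∧ Pe p A / 4 ≤ Pe p B ∧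
      (∀ ω, B ω → |sP (P ω)| ≤ 2) ∧ (∀ ω, B ω → |sP (P ω) - sL (L ω)| ≤ δ) ∧
      ∀ ω, B ω → |q0 (P ω) + sP (P ω) * q1 (P ω) - qL (L ω)| ≤ δ := by
  classical
  haveI : Nonempty Ω := by
    by_contra hne
    rw [not_nonempty_iff] at hne
    have h := hp.sum_one
    rw [Finset.univ_eq_empty, Finset.sum_empty] at h
    exact zero_ne_one h
  obtain ⟨σ, hσ⟩ : ∃ σ : Ω → ℝ, σ = fun ω => x1 ω / x0 ω := ⟨_, rfl⟩
  obtain ⟨μ, hμ⟩ : ∃ μ : Ω → ℝ, μ = fun ω => y1 (P ω) - σ ω * y0 (P ω) := ⟨_, rfl⟩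
  obtain ⟨ν, hν⟩ : ∃ ν : Ω → ℝ, ν = fun ω => d11 (P ω) - 2 * σ ω * d01 (P ω) +
    σ ω ^ 2 * d00 (P ω) := ⟨_, rfl⟩
  obtain ⟨δ3, hδ3⟩ : ∃ δ3, δ3 = δ * δ1 / (64 * R) := ⟨_, rfl⟩
  have hR0 : 0 < R := by linarith
  have hδ3p : 0 < δ3 := by rw [hδ3]; positivity
  have hδ3e : 64 * R * δ3 = δ * δ1 := by rw [hδ3]; field_simp
  obtain ⟨r, hr⟩ : ∃ r, r = ε / δ1 := ⟨_, rfl⟩
  have hr0 : 0 ≤ r := by rw [hr]; positivity
  have hre : δ1 * r = ε := by rw [hr]; field_simp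
  have hεr : ε ≤ r := by
    have : δ1 * r ≤ 1 * r := mul_le_mul_of_nonneg_right hδ1' hr0
    linarith
  -- the numbers
  have hR4 : 1 ≤ R ^ 3 := one_le_pow₀ hR
  have hrb : 2 ^ 15 * R ^ 4 * r ≤ δ1 * δ ^ 3 := by
    have h1 : δ1 * (2 ^ 15 * R ^ 4 * r) ≤ δ1 * (δ1 * δ ^ 3) := by
      calc δ1 * (2 ^ 15 * R ^ 4 * r) = 2 ^ 15 * R ^ 4 * (δ1 * r) := by ring
        _ = 2 ^ 15 * R ^ 4 * ε := by rw [hre]
        _ ≤ δ1 ^ 2 * δ ^ 3 := hε
        _ = _ := by ring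
    exact le_of_mul_le_mul_left h1 hδ1
  have hRr : R * r ≤ R ^ 4 * r := by
    refine mul_le_mul_of_nonneg_right ?_ hr0
    nlinarith
  have hrR : r ≤ R * r := by nlinarith
  have hd3 : δ1 * δ ^ 3 ≤ δ1 * δ := by
    refine mul_le_mul_of_nonneg_left ?_ hδ1.le
    have : δ ^ 2 ≤ 1 := pow_le_one₀ hδ.le hδ'
    calc δ ^ 3 = δ * δ ^ 2 := by ring
      _ ≤ δ * 1 := mul_le_mul_of_nonneg_left this hδ.le
      _ = δ := mul_one δ
  have hdd : δ1 * δ ≤ δ := by nlinarith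
  have n1 : r ≤ δ / 16 := by
    have : (2 : ℝ) ^ 15 * (R ^ 4 * r) ≤ δ := by linarith
    norm_num at this
    linarith
  have n1' : R * r ≤ δ / 16 := by
    have : (2 : ℝ) ^ 15 * (R ^ 4 * r) ≤ δ := by linarith
    norm_num at this
    linarith
  have hE : 16 * R * (ε + 12 * R * r) ≤ δ ^ 2 * δ3 := by
    have h1 : 64 * R * (16 * R * (ε + 12 * R * r)) ≤ 64 * R * (δ ^ 2 * δ3) := by
      have h2 : 64 * R * (δ ^ 2 * δ3) = δ1 * δ ^ 3 := by
        calc 64 * R * (δ ^ 2 * δ3) = δ ^ 2 * (64 * R * δ3) := by ring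
          _ = δ ^ 2 * (δ * δ1) := by rw [hδ3e]
          _ = _ := by ring
      rw [h2]
      refine le_trans ?_ hrb
      have h3 : ε + 12 * R * r ≤ 13 * (R * r) := by linarith
      calc 64 * R * (16 * R * (ε + 12 * R * r)) ≤ 64 * R * (16 * R * (13 * (R * r))) :=
            mul_le_mul_of_nonneg_left (mul_le_mul_of_nonneg_left h3 (by positivity))
              (by positivity)
        _ = 13312 * (R ^ 3 * r) := by ring
        _ ≤ 2 ^ 15 * (R ^ 4 * r) := by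
            have h4 : R ^ 3 * r ≤ R ^ 4 * r :=
              mul_le_mul_of_nonneg_right (pow_le_pow_right₀ hR (by norm_num)) hr0
            have h5 : 0 ≤ R ^ 3 * r := by positivity
            norm_num
            linarith
        _ = _ := by ring
    exact le_of_mul_le_mul_left h1 (by positivity)
  -- the equations
  have hσ1 : ∀ ω, A ω → |σ ω| ≤ 1 := by
    intro ω hω
    obtain ⟨h1, h2⟩ := hx ω hω
    rw [hσ]
    show |x1 ω / x0 ω| ≤ 1
    rw [abs_div]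
    exact div_le_one_of_le₀ h2 (abs_nonneg _)
  have f1 : ∀ ω ω', A ω → A ω' → L ω = L ω' →
      |(q0 (P ω) - q0 (P ω')) + σ ω' * (q1 (P ω) - q1 (P ω'))| ≤ r := by
    intro ω ω' hω hω' hl
    have h := sl_one hδ1 (hx ω' hω').1 (e1 ω ω' hω hω' hl)
    rw [← hr] at h
    rw [hσ]
    exact h
  have hw1 : ∀ ω ω', A ω → A ω' → |q1 (P ω) - q1 (P ω')| ≤ 2 * R := by
    intro ω ω' hω hω'
    have h1 := abs_le.1 (hq ω hω).2
    have h2 := abs_le.1 (hq ω' hω').2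
    rw [abs_le]
    constructor <;> linarith
  have f2 : ∀ ω ω', A ω → A ω' → L ω = L ω' →
      |(q1 (P ω) - q1 (P ω')) * (2 * μ ω' + (q1 (P ω) - q1 (P ω')) * ν ω')| ≤
        ε + 12 * R * r := by
    intro ω ω' hω hω' hl
    have h := sl_two hR hr0 (by linarith) (hσ1 ω' hω') (f1 ω ω' hω hω' hl) (hw1 ω ω' hω hω')
      (hy ω' hω') (hd ω' hω').1 (hd ω' hω').2 (e2 ω ω' hω hω' hl)
    rw [hμ, hν]
    exact h
  -- two kinds of samples
  rcases half_or hp (A := A) (B₀ := fun ω => A ω ∧ δ3 ≤ |μ ω|) (B₁ := fun ω => A ω ∧ |μ ω| < δ3)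
    (fun ω hω => by
      rcases le_or_gt δ3 |μ ω| with h | h
      · exact Or.inl ⟨hω, h⟩
      · exact Or.inr ⟨hω, h⟩) with hB | hB
  · obtain ⟨f, hf⟩ := rep_ex L (fun ω => A ω ∧ δ3 ≤ |μ ω|)
    obtain ⟨w, hw⟩ : ∃ w : Ω → ℝ, w = fun ω => q1 (P ω) - q1 (P (f (L ω))) := ⟨_, rfl⟩
    obtain ⟨ws, hws⟩ : ∃ ws : Λ → ℝ, ws = fun l => -2 * μ (f l) / ν (f l) := ⟨_, rfl⟩
    rcases half_or hp (A := fun ω => A ω ∧ δ3 ≤ |μ ω|)
      (B₀ := fun ω => (A ω ∧ δ3 ≤ |μ ω|) ∧ |w ω| ≤ δ / 2)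
      (B₁ := fun ω => (A ω ∧ δ3 ≤ |μ ω|) ∧ |w ω - ws (L ω)| ≤ δ / 2)
      (fun ω hω => by
        obtain ⟨⟨g1, g2⟩, g3⟩ := hf ω hω
        have h := two_root hδ hδ3p hR (hw1 ω (f (L ω)) hω.1 g1) hE g2
          (f2 ω (f (L ω)) hω.1 g1 g3.symm)
        rw [hw, hws]
        rcases h with h | h
        · exact Or.inl ⟨hω, h⟩
        · exact Or.inr ⟨hω, h⟩) with hC | hC
    · refine ⟨fun ω => (A ω ∧ δ3 ≤ |μ ω|) ∧ |w ω| ≤ δ / 2, fun _ => 0, fun _ => 0,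
        fun l => q0 (P (f l)), fun ω h => h.1.1, by linarith,
        fun ω _ => by rw [abs_zero]; norm_num, fun ω _ => by rw [sub_zero, abs_zero]; exact hδ.le,
        fun ω hω => ?_⟩
      obtain ⟨⟨g1, g2⟩, g3⟩ := hf ω hω.1
      have h1 := abs_le.1 (f1 ω (f (L ω)) hω.1.1 g1 g3.symm)
      have h2 : |σ (f (L ω)) * (q1 (P ω) - q1 (P (f (L ω))))| ≤ 1 * (δ / 2) := by
        rw [abs_mul]
        have h3 := hω.2
        rw [hw] at h3
        exact mul_le_mul (hσ1 _ g1) h3 (abs_nonneg _) zero_le_one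
      have h4 := abs_le.1 h2
      rw [zero_mul, add_zero, abs_le]
      constructor <;> linarith [h1.1, h1.2, h4.1, h4.2]
    · refine ⟨fun ω => (A ω ∧ δ3 ≤ |μ ω|) ∧ |w ω - ws (L ω)| ≤ δ / 2, fun _ => 0, fun _ => 0,
        fun l => q0 (P (f l)) - σ (f l) * ws l,
        fun ω h => h.1.1, by linarith,
        fun ω _ => by rw [abs_zero]; norm_num, fun ω _ => by rw [sub_zero, abs_zero]; exact hδ.le,
        fun ω hω => ?_⟩
      obtain ⟨⟨g1, g2⟩, g3⟩ := hf ω hω.1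
      have h1 := abs_le.1 (f1 ω (f (L ω)) hω.1.1 g1 g3.symm)
      have h2 : |σ (f (L ω)) * (q1 (P ω) - q1 (P (f (L ω))) - ws (L ω))| ≤ 1 * (δ / 2) := by
        rw [abs_mul]
        have h3 := hω.2
        rw [hw] at h3
        exact mul_le_mul (hσ1 _ g1) h3 (abs_nonneg _) zero_le_one
      have h4 := abs_le.1 h2
      have e5 : σ (f (L ω)) * (q1 (P ω) - q1 (P (f (L ω))) - ws (L ω)) =
          σ (f (L ω)) * (q1 (P ω) - q1 (P (f (L ω)))) - σ (f (L ω)) * ws (L ω) := by ring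
      rw [e5] at h4
      rw [zero_mul, add_zero, abs_le]
      constructor <;> linarith [h1.1, h1.2, h4.1, h4.2]
  · obtain ⟨δ4, hδ4⟩ : ∃ δ4, δ4 = δ / (4 * R) := ⟨_, rfl⟩
    have hδ4p : 0 < δ4 := by rw [hδ4]; positivity
    have hδ4e : 4 * R * δ4 = δ := by rw [hδ4]; field_simp
    have hδ4δ : δ4 ≤ δ / 4 := by nlinarith
    obtain ⟨A₁, hA₁⟩ : ∃ A₁ : Ω → Prop, A₁ = fun ω => A ω ∧ |μ ω| < δ3 := ⟨_, rfl⟩
    have hA₁A : ∀ ω, A₁ ω → A ω := fun ω h => by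
      rw [hA₁] at h
      exact h.1
    rw [← hA₁] at hB
    rcases half_or hp (A := A₁)
      (B₀ := fun ω => A₁ ω ∧ ∃ ω1 ω2, (A₁ ω1 ∧ A₁ ω2 ∧ L ω1 = L ω ∧ L ω2 = L ω) ∧
        δ4 < |σ ω1 - σ ω2|)
      (B₁ := fun ω => A₁ ω ∧ ∀ ω1 ω2, A₁ ω1 → A₁ ω2 → L ω1 = L ω → L ω2 = L ω →
        |σ ω1 - σ ω2| ≤ δ4)
      (fun ω hω => by
        by_cases h : ∃ ω1 ω2, (A₁ ω1 ∧ A₁ ω2 ∧ L ω1 = L ω ∧ L ω2 = L ω) ∧ δ4 < |σ ω1 - σ ω2|
        · exact Or.inl ⟨hω, h⟩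
        · refine Or.inr ⟨hω, fun ω1 ω2 h1 h2 h3 h4 => ?_⟩
          by_contra hc
          exact h ⟨ω1, ω2, ⟨h1, h2, h3, h4⟩, not_le.1 hc⟩) with hC | hC
    · -- the first type
      obtain ⟨g, hg⟩ : ∃ g : Λ → Ω, ∀ ω, (A₁ ω ∧ ∃ ω1 ω2, (A₁ ω1 ∧ A₁ ω2 ∧ L ω1 = L ω ∧
          L ω2 = L ω) ∧ δ4 < |σ ω1 - σ ω2|) → ∃ ω2, (A₁ (g (L ω)) ∧ A₁ ω2 ∧
            L (g (L ω)) = L ω ∧ L ω2 = L ω) ∧ δ4 < |σ (g (L ω)) - σ ω2| := by
        refine ⟨fun l => if h : ∃ ω1 ω2, (A₁ ω1 ∧ A₁ ω2 ∧ L ω1 = l ∧ L ω2 = l) ∧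
          δ4 < |σ ω1 - σ ω2| then h.choose else Classical.arbitrary Ω, fun ω hω => ?_⟩
        simp only [dif_pos hω.2]
        exact hω.2.choose_spec
      refine ⟨fun ω => A₁ ω ∧ ∃ ω1 ω2, (A₁ ω1 ∧ A₁ ω2 ∧ L ω1 = L ω ∧ L ω2 = L ω) ∧
          δ4 < |σ ω1 - σ ω2|, fun _ => 0, fun _ => 0, fun l => q0 (P (g l)), fun ω h => hA₁A ω h.1,
        by linarith, fun ω _ => by rw [abs_zero]; norm_num,
        fun ω _ => by rw [sub_zero, abs_zero]; exact hδ.le, fun ω hω => ?_⟩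
      obtain ⟨ω2, ⟨k1, k2, k3, k4⟩, k5⟩ := hg ω hω
      obtain ⟨ω1, hω1⟩ : ∃ ω1, ω1 = g (L ω) := ⟨_, rfl⟩
      rw [← hω1] at k1 k3 k5
      show |q0 (P ω) + 0 * q1 (P ω) - q0 (P (g (L ω)))| ≤ δ
      rw [← hω1, zero_mul, add_zero]
      have hωA := hA₁A ω hω.1
      have h1 := abs_le.1 (f1 ω ω1 hωA (hA₁A _ k1) k3.symm)
      have h2 := abs_le.1 (f1 ω ω2 hωA (hA₁A _ k2) k4.symm)
      have h3 := abs_le.1 (f1 ω1 ω2 (hA₁A _ k1) (hA₁A _ k2) (k3.trans k4.symm))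
      obtain ⟨w, hw⟩ : ∃ w, w = q1 (P ω) - q1 (P ω1) := ⟨_, rfl⟩
      have h4 : |σ ω1 - σ ω2| * |w| ≤ 3 * r := by
        rw [← abs_mul, abs_le, hw]
        constructor <;> nlinarith [h1.1, h1.2, h2.1, h2.2, h3.1, h3.2]
      have h5 : |w| ≤ δ / 2 := by
        have h6 : δ4 * |w| ≤ 3 * r :=
          (mul_le_mul_of_nonneg_right k5.le (abs_nonneg _)).trans h4
        have h7 : δ * |w| ≤ 12 * (R * r) := by
          calc δ * |w| = 4 * R * (δ4 * |w|) := by rw [← hδ4e]; ring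
            _ ≤ 4 * R * (3 * r) := mul_le_mul_of_nonneg_left h6 (by positivity)
            _ = _ := by ring
        have h8 : 12 * (R * r) ≤ δ * (δ / 2) := by
          have h9 : (2 : ℝ) ^ 15 * (R ^ 4 * r) ≤ δ ^ 3 := by
            have : δ1 * δ ^ 3 ≤ 1 * δ ^ 3 := mul_le_mul_of_nonneg_right hδ1' (by positivity)
            linarith
          have h10 : δ ^ 3 ≤ δ ^ 2 := pow_le_pow_of_le_one hδ.le hδ' (by norm_num)
          norm_num at h9
          have h11 : 0 ≤ R ^ 4 * r := by positivity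
          nlinarith
        exact le_of_mul_le_mul_left (h7.trans h8) hδ
      have h6 : |σ ω1 * w| ≤ 1 * (δ / 2) := by
        rw [abs_mul]
        exact mul_le_mul (hσ1 _ (hA₁A _ k1)) h5 (abs_nonneg _) zero_le_one
      have h7 := abs_le.1 h6
      rw [← hw] at h1
      rw [abs_le]
      constructor <;> linarith [h1.1, h1.2, h7.1, h7.2]
    · -- the second type
      obtain ⟨f, hf⟩ := rep_ex L (fun ω => A₁ ω ∧ ∀ ω1 ω2, A₁ ω1 → A₁ ω2 → L ω1 = L ω →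
        L ω2 = L ω → |σ ω1 - σ ω2| ≤ δ4)
      obtain ⟨sP, hsP⟩ : ∃ sP : Γ → ℝ, sP = fun y => if |b0 y| ≤ |y0 y| then y1 y / y0 y else
        b1 y / b0 y := ⟨_, rfl⟩
      have hslp : ∀ ω, A₁ ω → |sP (P ω) - σ ω| ≤ δ / (8 * R) := by
        intro ω hω
        have hωA := hA₁A ω hω
        rw [hA₁] at hω
        have hm : |y1 (P ω) - σ ω * y0 (P ω)| ≤ 2 * δ3 := by
          have := hω.2
          rw [hμ] at this
          exact this.le.trans (by linarith)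
        obtain ⟨u1, u2⟩ := e3 ω hωA
        obtain ⟨v1, v2⟩ := hx ω hωA
        have hx0 : x0 ω ≠ 0 := fun h0 => by
          rw [h0, abs_zero] at v1
          linarith
        have hσx : σ ω * x0 ω = x1 ω := by
          rw [hσ]
          show x1 ω / x0 ω * x0 ω = x1 ω
          field_simp
        have hε3 : 2 * ε ≤ δ3 := by
          have h1 : 64 * R * (2 * ε) ≤ 64 * R * δ3 := by
            rw [hδ3e]
            have h2 : (2 : ℝ) ^ 15 * (R ^ 4 * r) ≤ δ * δ1 := by linarith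
            norm_num at h2
            have h3 : R * ε ≤ R * r := mul_le_mul_of_nonneg_left hεr (by linarith)
            have h4 : 0 ≤ R ^ 4 * r := by positivity
            linarith
          exact le_of_mul_le_mul_left h1 (by positivity)
        have hm2 : |b1 (P ω) - σ ω * b0 (P ω)| ≤ 2 * δ3 := by
          have h3 : |c (L ω) * (y1 (P ω) - σ ω * y0 (P ω))| ≤ 1 * δ3 := by
            rw [abs_mul]
            have := hω.2
            rw [hμ] at this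
            exact mul_le_mul (hc ω hωA) this.le (abs_nonneg _) zero_le_one
          have h4 : |σ ω * (x0 ω - (b0 (P ω) + c (L ω) * y0 (P ω)))| ≤ 1 * ε := by
            rw [abs_mul]
            exact mul_le_mul (hσ1 ω hωA) u1 (abs_nonneg _) zero_le_one
          have e6 : b1 (P ω) - σ ω * b0 (P ω) =
              -(x1 ω - (b1 (P ω) + c (L ω) * y1 (P ω))) +
                σ ω * (x0 ω - (b0 (P ω) + c (L ω) * y0 (P ω))) -
                c (L ω) * (y1 (P ω) - σ ω * y0 (P ω)) + (x1 ω - σ ω * x0 ω) := by ring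
          rw [hσx, sub_self, add_zero] at e6
          rw [e6]
          have h5 := abs_le.1 u2
          have h6 := abs_le.1 h3
          have h7 := abs_le.1 h4
          rw [abs_le]
          constructor <;> linarith [h5.1, h5.2, h6.1, h6.2, h7.1, h7.2]
        have hbig : δ1 / 4 ≤ max |b0 (P ω)| |y0 (P ω)| := by
          by_contra hcon
          rw [not_le, max_lt_iff] at hcon
          have h3 : |c (L ω) * y0 (P ω)| ≤ 1 * (δ1 / 4) := by
            rw [abs_mul]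
            exact mul_le_mul (hc ω hωA) hcon.2.le (abs_nonneg _) zero_le_one
          have h4 : |x0 ω| ≤ ε + (δ1 / 4 + δ1 / 4) := by
            have e7 : x0 ω = (x0 ω - (b0 (P ω) + c (L ω) * y0 (P ω))) +
                (b0 (P ω) + c (L ω) * y0 (P ω)) := by ring
            rw [e7]
            refine (abs_add_le _ _).trans (add_le_add u1 ((abs_add_le _ _).trans
              (add_le_add hcon.1.le (by linarith))))
          have h5 : ε ≤ δ1 / 4 := by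
            have h6 : δ1 * r ≤ δ1 * (1 / 4) := mul_le_mul_of_nonneg_left (by linarith) hδ1.le
            linarith
          linarith
        have hfin : 2 * δ3 / (δ1 / 4) = δ / (8 * R) := by
          rw [hδ3]
          field_simp
          norm_num
        rw [← hfin, hsP]
        show |(if |b0 (P ω)| ≤ |y0 (P ω)| then y1 (P ω) / y0 (P ω) else b1 (P ω) / b0 (P ω)) -
          σ ω| ≤ _
        split_ifs with hif
        · rw [max_eq_right hif] at hbig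
          exact row_slp (by positivity) hbig hm
        · rw [max_eq_left (le_of_not_ge hif)] at hbig
          exact row_slp (by positivity) hbig hm2
      have hδR : δ / (8 * R) ≤ δ / 8 := by
        refine div_le_div_of_nonneg_left hδ.le (by norm_num) (by linarith)
      refine ⟨fun ω => A₁ ω ∧ ∀ ω1 ω2, A₁ ω1 → A₁ ω2 → L ω1 = L ω → L ω2 = L ω →
          |σ ω1 - σ ω2| ≤ δ4, sP, fun l => σ (f l), fun l => q0 (P (f l)) + σ (f l) * q1 (P (f l)),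
        fun ω h => hA₁A ω h.1, by linarith, fun ω hω => ?_, fun ω hω => ?_, fun ω hω => ?_⟩
      · have h1 := hslp ω hω.1
        have h2 := hσ1 ω (hA₁A ω hω.1)
        have e8 : sP (P ω) = (sP (P ω) - σ ω) + σ ω := by ring
        rw [e8]
        exact (abs_add_le _ _).trans (by linarith)
      · obtain ⟨g1, g3⟩ := hf ω hω
        have h1 := hslp ω hω.1
        have h2 := hω.2 ω (f (L ω)) hω.1 g1.1 rfl g3
        have e8 : sP (P ω) - σ (f (L ω)) = (sP (P ω) - σ ω) + (σ ω - σ (f (L ω))) := by ring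
        show |sP (P ω) - σ (f (L ω))| ≤ δ
        rw [e8]
        exact (abs_add_le _ _).trans (by linarith)
      · obtain ⟨g1, g3⟩ := hf ω hω
        have hωA := hA₁A ω hω.1
        have h1 := hslp ω hω.1
        have h2 := hω.2 ω (f (L ω)) hω.1 g1.1 rfl g3
        have h3 := f1 ω (f (L ω)) hωA (hA₁A _ g1.1) g3.symm
        have h4 : |sP (P ω) - σ (f (L ω))| ≤ δ / (8 * R) + δ4 := by
          have e8 : sP (P ω) - σ (f (L ω)) = (sP (P ω) - σ ω) + (σ ω - σ (f (L ω))) := by ring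
          rw [e8]
          exact (abs_add_le _ _).trans (by linarith)
        have h5 : |(sP (P ω) - σ (f (L ω))) * q1 (P ω)| ≤ (δ / (8 * R) + δ4) * R := by
          rw [abs_mul]
          exact mul_le_mul h4 (hq ω hωA).2 (abs_nonneg _) (by positivity)
        have h6 : (δ / (8 * R) + δ4) * R = δ / 8 + δ / 4 := by
          rw [hδ4]
          field_simp
        show |q0 (P ω) + sP (P ω) * q1 (P ω) -
          (q0 (P (f (L ω))) + σ (f (L ω)) * q1 (P (f (L ω))))| ≤ δ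
        have e9 : q0 (P ω) + sP (P ω) * q1 (P ω) -
            (q0 (P (f (L ω))) + σ (f (L ω)) * q1 (P (f (L ω)))) =
            ((q0 (P ω) - q0 (P (f (L ω)))) + σ (f (L ω)) * (q1 (P ω) - q1 (P (f (L ω))))) +
              (sP (P ω) - σ (f (L ω))) * q1 (P ω) := by ring
        rw [e9]
        refine (abs_add_le _ _).trans ?_
        rw [h6] at h5
        linarith

end Pool.NV24
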