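import Pool.Agent.H24.NV.S
import Pool.Agent.H24.NV.Cfp
import Pool.Agent.H24.NV.Two

/-!
# The law of a window in natural coordinates

`NvM`: the data, with the vertical second derivatives normalised. `nvm_good`: on a half of the event
the slopes of the fan are bounded and the polynomial is affine on the plane of the fan.
-/

set_option autoImplicit false

namespace Pool.NV24

open Finset Real MvPolynomial
open Pool.Agent.H49.Ent Pool.Agent.H32.Dense Pool.STK Pool.KA Pool.KSAT Pool.K2S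

/-- **No relation**, with the loss `R`, the positions of precision `ε`. -/
def RelN {Ω Γ Λ : Type} [Fintype Ω] (D : ℕ) (R ε κ₀ : ℝ) (p : Ω → ℝ) (A : Ω → Prop) (P : Ω → Γ)
    (L : Ω → Λ) (FP : Γ → V4) : Prop :=
  ∀ B : Ω → Prop, Sub B A → κ₀ * Pe p A ≤ Pe p B → ∀ (Dx : Γ → P4) (Dl : Λ → P4) (M : ℝ),
    (∀ y, (Dx y).totalDegree ≤ D) → (∀ s, (Dl s).totalDegree ≤ D) → 0 < M →
    (∀ ω, B ω → ∀ b : V4, (∀ o, |b o - FP (P ω) o| ≤ ε) → |eval b (Dx (P ω))| ≤ M) →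
    (∀ ω, B ω → ∀ b : V4, (∀ o, |b o - FP (P ω) o| ≤ 1) →
      |eval b (Dx (P ω)) - eval b (Dl (L ω))| ≤ M) →
    ∃ ω, B ω ∧ ∀ b : V4, (∀ o, |b o - FP (P ω) o| ≤ 1) → |eval b (Dx (P ω))| ≤ R * M

/-- **The law of a window**, the vertical second derivatives have the size one. -/
structure NvM {Ω Γ Λ : Type} [Fintype Ω] (D : ℕ) (R ε : ℝ) (p : Ω → ℝ) (A : Ω → Prop) (P : Ω → Γ)
    (L : Ω → Λ) (QP : Γ → P4) (QL : Λ → P4) (FP : Γ → V4) (l0 : Λ → V4) (T : Ω → ℝ) (c : Λ → ℝ)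
    (Dd : Λ → Fin 2 → ℝ) (p0 p1 : Γ → Fin 2 → ℝ) : Prop where
  law : IsLaw p
  pos : 0 < Pe p A
  dP : ∀ y, (QP y).totalDegree ≤ D
  dL : ∀ s, (QL s).totalDegree ≤ D
  cls : ∀ ω, A ω → QP (P ω) = QL (L ω)
  tim : ∀ ω, A ω → |T ω| ≤ 1
  c1 : ∀ ω, A ω → |c (L ω)| ≤ 1
  dd : ∀ ω, A ω → ∀ j, |Dd (L ω) j| ≤ R
  lin : ∀ ω, A ω → ∀ o,
    |FP (P ω) o - (l0 (L ω) o + T ω * vec 1 (c (L ω)) (Dd (L ω)) o)| ≤ ε
  vel : ∀ ω, A ω → ∀ j, |Dd (L ω) j - (p0 (P ω) j + c (L ω) * p1 (P ω) j)| ≤ ε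
  own : ∀ ω, A ω → ∀ n, 2 ≤ n → n ≤ D →
    |eval (FP (P ω)) ((dv (vec 1 (c (L ω)) (Dd (L ω))))^[n] (QP (P ω)))| ≤ ε
  up : ∀ ω, A ω → ∀ b : V4, (∀ o, |b o - FP (P ω) o| ≤ 1) → ∀ o j,
    |eval b (pderiv o (pderiv (vt j) (QP (P ω))))| ≤ 1
  lo : ∀ ω, A ω → ∃ b : V4, (∀ o, |b o - FP (P ω) o| ≤ 1) ∧ ∃ o j,
    1 / R ≤ |eval b (pderiv o (pderiv (vt j) (QP (P ω))))|
  frc : Fre p A P (fun ω => c (L ω)) (1 / R) D (1 / 64)
  frt : Fre p A L T (1 / R) D (1 / 64)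
  rel : RelN D R ε (1 / 64) p A P L FP

section

variable {Ω Γ Λ : Type} [Fintype Ω] {D : ℕ} {R ε : ℝ} {p : Ω → ℝ} {A : Ω → Prop} {P : Ω → Γ}
    {L : Ω → Λ} {QP : Γ → P4} {QL : Λ → P4} {FP : Γ → V4} {l0 : Λ → V4} {T : Ω → ℝ} {c : Λ → ℝ}
    {Dd : Λ → Fin 2 → ℝ} {p0 p1 : Γ → Fin 2 → ℝ}

theorem vec_bd {a b S : ℝ} {v : Fin 2 → ℝ} (ha : |a| ≤ S) (hb : |b| ≤ S) (hv : ∀ j, |v j| ≤ S) :
    ∀ o, |vec a b v o| ≤ S := cases4 (P := fun o => |vec a b v o| ≤ S) ha hb hv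

/-- **The good samples** of the law of a window. -/
structure GdM (D : ℕ) (R ε₁ : ℝ) (P : Ω → Γ) (QP : Γ → P4) (FP : Γ → V4)
    (p0 p1 : Γ → Fin 2 → ℝ) (ω : Ω) : Prop where
  b0 : ∀ j, |p0 (P ω) j| ≤ 6 * R ^ 2
  b1 : ∀ j, |p1 (P ω) j| ≤ 6 * R ^ 2
  aff : ∀ i j, 2 ≤ i + j →
    |eval (FP (P ω)) (dl (rep (vec 1 0 (p0 (P ω))) (vec 0 1 (p1 (P ω))) i j) (QP (P ω)))| ≤ ε₁

/-- **On a half of the event** the polynomial is affine on the plane of the fan. -/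
theorem nvm_good (D : ℕ) (hD : 1 ≤ D) : ∃ C₁ : ℝ, 1 ≤ C₁ ∧ ∀ {Ω Γ Λ : Type} [Fintype Ω]
    {R ε : ℝ} {p : Ω → ℝ} {A : Ω → Prop} {P : Ω → Γ} {L : Ω → Λ} {QP : Γ → P4} {QL : Λ → P4}
    {FP : Γ → V4} {l0 : Λ → V4} {T : Ω → ℝ} {c : Λ → ℝ} {Dd : Λ → Fin 2 → ℝ}
    {p0 p1 : Γ → Fin 2 → ℝ}, NvM D R ε p A P L QP QL FP l0 T c Dd p0 p1 → 1 ≤ R → 0 ≤ ε →
    ε ≤ 1 → ∃ B : Ω → Prop, Sub B A ∧ Pe p A / 2 ≤ Pe p B ∧ ∀ ω, B ω →
      GdM D R (C₁ * R ^ (3 * D) * ε) P QP FP p0 p1 ω := by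
  obtain ⟨C₁, hC₁, hcf⟩ := cfr_pt D
  refine ⟨C₁ * 12 ^ D, one_le_mul_of_one_le_of_one_le hC₁ (one_le_pow₀ (by norm_num)), ?_⟩
  intro Ω Γ Λ _ R ε p A P L QP QL FP l0 T c Dd p0 p1 H hR hε hε1
  have hR0 : 0 < R := by linarith
  have hR2 : 1 ≤ R ^ 2 := one_le_pow₀ hR
  have hRR : R ≤ R ^ 2 := by nlinarith
  obtain ⟨B, hBA, hPB, hB⟩ := H.frc A (fun _ h => h) (by
    have := H.pos
    linarith)
  refine ⟨B, hBA, hPB, fun ω hω => ?_⟩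
  obtain ⟨ν, h1, h2⟩ := hB ω hω
  have hD0 : (0 : ℕ) ≤ D := Nat.zero_le D
  have hA : ∀ i ≤ D, A (ν i) := fun i hi => (h1 i hi).1
  have hPν : ∀ i ≤ D, P (ν i) = P ω := fun i hi => (h1 i hi).2
  have hvel : ∀ i ≤ D, ∀ j, |Dd (L (ν i)) j - (p0 (P ω) j + c (L (ν i)) * p1 (P ω) j)| ≤ ε := by
    intro i hi j
    rw [← hPν i hi]
    exact H.vel (ν i) (hA i hi) j
  -- the slopes are bounded
  have hb1 : ∀ j, |p1 (P ω) j| ≤ 4 * R ^ 2 := by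
    intro j
    have a0 := abs_le.1 (hvel 0 hD0 j)
    have a1 := abs_le.1 (hvel 1 hD j)
    have d0 := abs_le.1 (H.dd (ν 0) (hA 0 hD0) j)
    have d1 := abs_le.1 (H.dd (ν 1) (hA 1 hD) j)
    have h3 := h2 0 hD0 1 hD (by norm_num)
    simp only at h3
    have h4 : |c (L (ν 0)) - c (L (ν 1))| * |p1 (P ω) j| ≤ 4 * R := by
      rw [← abs_mul, abs_le]
      constructor <;> linarith [a0.1, a0.2, a1.1, a1.2, d0.1, d0.2, d1.1, d1.2]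
    have h5 : 1 / R * |p1 (P ω) j| ≤ 4 * R :=
      (mul_le_mul_of_nonneg_right h3 (abs_nonneg _)).trans h4
    rw [one_div, inv_mul_le_iff₀ hR0] at h5
    linarith
  have hb0 : ∀ j, |p0 (P ω) j| ≤ 6 * R ^ 2 := by
    intro j
    have a0 := abs_le.1 (hvel 0 hD0 j)
    have d0 := abs_le.1 (H.dd (ν 0) (hA 0 hD0) j)
    have h3 : |c (L (ν 0)) * p1 (P ω) j| ≤ 1 * (4 * R ^ 2) := by
      rw [abs_mul]
      exact mul_le_mul (H.c1 (ν 0) (hA 0 hD0)) (hb1 j) (abs_nonneg _) zero_le_one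
    have h4 := abs_le.1 h3
    rw [abs_le]
    constructor <;> linarith [a0.1, a0.2, d0.1, d0.2, h4.1, h4.2]
  have hb1' : ∀ j, |p1 (P ω) j| ≤ 6 * R ^ 2 := fun j => (hb1 j).trans (by linarith)
  refine ⟨hb0, hb1', fun i j hij => ?_⟩
  have hS : 1 ≤ 6 * R ^ 2 := by linarith
  have h6 := hcf (QP (P ω)) (FP (P ω)) (p0 (P ω)) (p1 (P ω)) (6 * R ^ 2) ε (1 / R)
    (fun i => c (L (ν i))) (fun i => Dd (L (ν i))) (H.dP _) hS hε (by positivity)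
    (vec_bd (by rw [abs_one]; exact hS) (by rw [abs_zero]; positivity) hb0)
    (vec_bd (by rw [abs_zero]; positivity) (by rw [abs_one]; exact hS) hb1')
    (fun i hi => H.c1 _ (hA i hi))
    (fun i hi => vec_bd (by rw [abs_one]; exact hS)
      ((H.c1 _ (hA i hi)).trans hS) fun j => (H.dd _ (hA i hi) j).trans (by linarith))
    (fun i hi => cases4 (P := fun o => |vec 1 0 (p0 (P ω)) o +
      c (L (ν i)) * vec 0 1 (p1 (P ω)) o| ≤ 6 * R ^ 2)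
      (by
        rw [vec_none, vec_none, mul_zero, add_zero, abs_one]
        exact hS)
      (by
        rw [vec_zero, vec_zero, mul_one, zero_add]
        exact (H.c1 _ (hA i hi)).trans hS)
      (fun j => by
        rw [vec_vt, vec_vt]
        have a0 := abs_le.1 (hvel i hi j)
        have d0 := abs_le.1 (H.dd (ν i) (hA i hi) j)
        rw [abs_le]
        constructor <;> linarith [a0.1, a0.2, d0.1, d0.2]))
    h2 hvel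
    (fun i hi n hn hn' => by
      have := H.own (ν i) (hA i hi) n hn hn'
      rw [hPν i hi] at this
      exact this)
    (H.up ω (hBA ω hω)) i j hij
  refine h6.trans (le_of_eq ?_)
  have e1 : 2 / (1 / R) = 2 * R := by
    field_simp
  rw [e1, mul_pow, mul_pow, ← pow_mul]
  have e2 : R ^ (3 * D) = R ^ D * R ^ (2 * D) := by rw [← pow_add]; congr 1; omega
  rw [e2]
  have e3 : (12 : ℝ) ^ D = 2 ^ D * 6 ^ D := by rw [← mul_pow]; norm_num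
  rw [e3]
  ring

end

end Pool.NV24
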