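import Pool.Agent.H24.NV.Lm1

/-!
# Two samples of one own line

`two_smp`: the second derivatives along the plane of one sample vanish at the other sample.
`eq_one`, `eq_two`, `eq_row`: the equations for the differences of the slopes.
-/

set_option autoImplicit false

namespace Pool.NV24

open Finset Real MvPolynomial
open Pool.Agent.H49.Ent Pool.Agent.H32.Dense Pool.STK Pool.KA Pool.KSAT Pool.K2S

/-- **The plane of one sample at the other sample.** -/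
theorem two_smp (D : ℕ) (hD : 1 ≤ D) {C₁ : ℝ} (hC₁ : 1 ≤ C₁) : ∃ C₃ : ℝ, 1 ≤ C₃ ∧
    ∀ {Ω Γ Λ : Type} [Fintype Ω]
    {R ε : ℝ} {p : Ω → ℝ} {A : Ω → Prop} {P : Ω → Γ} {L : Ω → Λ} {QP : Γ → P4} {QL : Λ → P4}
    {FP : Γ → V4} {l0 : Λ → V4} {T : Ω → ℝ} {c : Λ → ℝ} {Dd : Λ → Fin 2 → ℝ}
    {p0 p1 : Γ → Fin 2 → ℝ}, NvM D R ε p A P L QP QL FP l0 T c Dd p0 p1 → 1 ≤ R → 0 ≤ ε →
    ε ≤ 1 → ∀ ω ω', A ω → A ω' → L ω = L ω' → GdM D R (C₁ * R ^ (3 * D) * ε) P QP FP p0 p1 ω →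
    |eval (FP (P ω')) (dv (vec 1 (c (L ω')) (Dd (L ω')))
      (dv (vec 0 1 (p1 (P ω))) (QP (P ω'))))| ≤ C₃ * R ^ (7 * D + 10) * ε ∧
    |eval (FP (P ω')) (dv (vec 0 1 (p1 (P ω)))
      (dv (vec 0 1 (p1 (P ω))) (QP (P ω'))))| ≤ C₃ * R ^ (7 * D + 10) * ε := by
  obtain ⟨C₂, hC₂, hch⟩ := chart_two D
  refine ⟨(24 * C₂) ^ (2 * D + 5) * (28 * C₁), one_le_mul_of_one_le_of_one_le
    (one_le_pow₀ (by linarith)) (by linarith), ?_⟩
  intro Ω Γ Λ _ R ε p A P L QP QL FP l0 T c Dd p0 p1 H hR hε hε1 ω ω' hω hω' hl G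
  have hR0 : 0 < R := by linarith
  have hR2 : 1 ≤ R ^ 2 := one_le_pow₀ hR
  have hRR : R ≤ R ^ 2 := by nlinarith
  have hS : 1 ≤ 6 * R ^ 2 := by linarith
  have hR3D : R ^ 2 ≤ R ^ (3 * D) := pow_le_pow_right₀ hR (by omega)
  obtain ⟨ε₂, hε₂⟩ : ∃ ε₂, ε₂ = 28 * C₁ * R ^ (3 * D) * ε := ⟨_, rfl⟩
  have hε20 : 0 ≤ ε₂ := by rw [hε₂]; positivity
  have hx0 : 0 ≤ R ^ (3 * D) * ε := by positivity
  have hεa : C₁ * R ^ (3 * D) * ε ≤ ε₂ := by
    rw [hε₂]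
    have : 0 ≤ C₁ * (R ^ (3 * D) * ε) := by positivity
    linarith
  have hεb : 28 * R ^ 2 * ε ≤ ε₂ := by
    rw [hε₂]
    have h1 : R ^ 2 * ε ≤ R ^ (3 * D) * ε := mul_le_mul_of_nonneg_right hR3D hε
    have h2 : R ^ (3 * D) * ε ≤ C₁ * (R ^ (3 * D) * ε) := by nlinarith
    linarith
  have hεc : ε ≤ ε₂ := by
    refine le_trans ?_ hεb
    nlinarith
  obtain ⟨Q, hQ⟩ : ∃ Q, Q = QP (P ω') := ⟨_, rfl⟩
  have hQω : QP (P ω) = Q := by rw [hQ, H.cls ω hω, H.cls ω' hω', hl]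
  obtain ⟨s, hs⟩ : ∃ s : V4, s = fun o => FP (P ω') o - FP (P ω) o := ⟨_, rfl⟩
  -- the displacement
  have hdis : ∀ o, |s o - (T ω' - T ω) * vec 1 (c (L ω')) (Dd (L ω')) o| ≤ 2 * ε := by
    intro o
    have a1 := abs_le.1 (H.lin ω hω o)
    have a2 := abs_le.1 (H.lin ω' hω' o)
    rw [hl] at a1
    rw [hs]
    show |FP (P ω') o - FP (P ω) o - _| ≤ _
    rw [abs_le]
    constructor <;> linarith [a1.1, a1.2, a2.1, a2.2]
  have hTT : |T ω' - T ω| ≤ 2 := by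
    have a1 := abs_le.1 (H.tim ω hω)
    have a2 := abs_le.1 (H.tim ω' hω')
    rw [abs_le]
    constructor <;> linarith [a1.1, a1.2, a2.1, a2.2]
  have hvel : ∀ j, |Dd (L ω') j - (p0 (P ω) j + c (L ω') * p1 (P ω) j)| ≤ ε := by
    intro j
    have := H.vel ω hω j
    rwa [hl] at this
  have ha : |s none - (T ω' - T ω)| ≤ 2 * ε := by
    have := hdis none
    rwa [vec_none, mul_one] at this
  have hb : |s (some 0) - (T ω' - T ω) * c (L ω')| ≤ 2 * ε := by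
    have := hdis (some 0)
    rwa [vec_zero] at this
  have hc1 := H.c1 ω' hω'
  have hsn : |s none| ≤ 4 := by
    have h1 := abs_le.1 ha
    have h2 := abs_le.1 hTT
    rw [abs_le]
    constructor <;> linarith [h1.1, h1.2, h2.1, h2.2]
  have hTc : |(T ω' - T ω) * c (L ω')| ≤ 2 * 1 := by
    rw [abs_mul]
    exact mul_le_mul hTT hc1 (abs_nonneg _) (by norm_num)
  have hsz : |s (some 0)| ≤ 4 := by
    have h1 := abs_le.1 hb
    have h2 := abs_le.1 hTc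
    rw [abs_le]
    constructor <;> linarith [h1.1, h1.2, h2.1, h2.2]
  have hTD : ∀ j, |(T ω' - T ω) * Dd (L ω') j| ≤ 2 * R := by
    intro j
    rw [abs_mul]
    exact mul_le_mul hTT (H.dd ω' hω' j) (abs_nonneg _) (by norm_num)
  have hk0 : ∀ o, |vec 1 0 (p0 (P ω)) o| ≤ 6 * R ^ 2 :=
    vec_bd (by rw [abs_one]; exact hS) (by rw [abs_zero]; positivity) G.b0
  have hk1 : ∀ o, |vec 0 1 (p1 (P ω)) o| ≤ 6 * R ^ 2 :=
    vec_bd (by rw [abs_zero]; positivity) (by rw [abs_one]; exact hS) G.b1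
  have hadm_s : Adm (vec 1 0 (p0 (P ω))) (vec 0 1 (p1 (P ω))) (6 * R ^ 2) 4 ε₂ s := by
    refine ⟨cases4 (P := fun o => |s o| ≤ 6 * R ^ 2) (hsn.trans (by linarith))
      (hsz.trans (by linarith)) (fun j => ?_), s none, s (some 0),
      fun j => s (vt j) - (s none * p0 (P ω) j + s (some 0) * p1 (P ω) j), hsn, hsz, fun j => ?_,
      cases4 (by rw [vec_none, vec_none, vec_none]; ring)
        (by rw [vec_zero, vec_zero, vec_zero]; ring) (fun j => by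
          rw [vec_vt, vec_vt, vec_vt]
          ring)⟩
    · have h1 := abs_le.1 (hdis (vt j))
      rw [vec_vt] at h1
      have h2 := abs_le.1 (hTD j)
      rw [abs_le]
      constructor <;> linarith [h1.1, h1.2, h2.1, h2.2]
    · have h1 := hdis (vt j)
      rw [vec_vt] at h1
      have h2 : |(T ω' - T ω) * (Dd (L ω') j - (p0 (P ω) j + c (L ω') * p1 (P ω) j))| ≤ 2 * ε := by
        rw [abs_mul]
        exact mul_le_mul hTT (hvel j) (abs_nonneg _) (by norm_num)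
      have h3 : |(s none - (T ω' - T ω)) * p0 (P ω) j| ≤ 2 * ε * (6 * R ^ 2) := by
        rw [abs_mul]
        exact mul_le_mul ha (G.b0 j) (abs_nonneg _) (by positivity)
      have h4 : |(s (some 0) - (T ω' - T ω) * c (L ω')) * p1 (P ω) j| ≤ 2 * ε * (6 * R ^ 2) := by
        rw [abs_mul]
        exact mul_le_mul hb (G.b1 j) (abs_nonneg _) (by positivity)
      have e1 : s (vt j) - (s none * p0 (P ω) j + s (some 0) * p1 (P ω) j) =
          (s (vt j) - (T ω' - T ω) * Dd (L ω') j) +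
          (T ω' - T ω) * (Dd (L ω') j - (p0 (P ω) j + c (L ω') * p1 (P ω) j)) -
          (s none - (T ω' - T ω)) * p0 (P ω) j -
          (s (some 0) - (T ω' - T ω) * c (L ω')) * p1 (P ω) j := by ring
      have h5 : 4 * ε + 24 * R ^ 2 * ε ≤ ε₂ := by
        refine le_trans ?_ hεb
        nlinarith
      show |s (vt j) - (s none * p0 (P ω) j + s (some 0) * p1 (P ω) j)| ≤ ε₂
      rw [e1]
      have b1 := abs_le.1 h1
      have b2 := abs_le.1 h2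
      have b3 := abs_le.1 h3
      have b4 := abs_le.1 h4
      rw [abs_le]
      constructor <;> linarith [b1.1, b1.2, b2.1, b2.2, b3.1, b3.2, b4.1, b4.2]
  have hadm_κ : Adm (vec 1 0 (p0 (P ω))) (vec 0 1 (p1 (P ω))) (6 * R ^ 2) 4 ε₂
      (vec 1 (c (L ω')) (Dd (L ω'))) := by
    refine ⟨vec_bd (by rw [abs_one]; exact hS) (hc1.trans hS)
      (fun j => (H.dd ω' hω' j).trans (by linarith)), 1, c (L ω'),
      fun j => Dd (L ω') j - (p0 (P ω) j + c (L ω') * p1 (P ω) j),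
      by rw [abs_one]; norm_num, hc1.trans (by norm_num), fun j => (hvel j).trans hεc,
      cases4 (by rw [vec_none, vec_none, vec_none, vec_none]; ring)
        (by rw [vec_zero, vec_zero, vec_zero, vec_zero]; ring) (fun j => by
          rw [vec_vt, vec_vt, vec_vt, vec_vt]
          ring)⟩
  have hadm_1 : Adm (vec 1 0 (p0 (P ω))) (vec 0 1 (p1 (P ω))) (6 * R ^ 2) 4 ε₂
      (vec 0 1 (p1 (P ω))) := by
    refine ⟨hk1, 0, 1, fun _ => 0, by rw [abs_zero]; norm_num, by rw [abs_one]; norm_num,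
      fun j => by rw [abs_zero]; exact hε20,
      cases4 (by rw [vec_none, vec_none, vec_none]; ring)
        (by rw [vec_zero, vec_zero, vec_zero]; ring) (fun j => by
          rw [vec_vt, vec_vt, vec_vt]
          ring)⟩
  have hH1 : ∀ i j, 2 ≤ i + j → |eval (FP (P ω)) (dl (rep (vec 1 0 (p0 (P ω)))
      (vec 0 1 (p1 (P ω))) i j) Q)| ≤ ε₂ := fun i j hij => by
    rw [← hQω]
    exact (G.aff i j hij).trans hεa
  have hH2 : ∀ b : V4, (∀ o, |b o - FP (P ω) o| ≤ 1) → ∀ o j,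
      |eval b (pderiv o (pderiv (vt j) Q))| ≤ 1 := by
    rw [← hQω]
    exact H.up ω hω
  have hFs : (fun o => FP (P ω) o + s o) = FP (P ω') := by
    funext o
    rw [hs]
    ring
  have hfin : (C₂ * (6 * R ^ 2) * 4) ^ (2 * D + 5) * ε₂ ≤
      (24 * C₂) ^ (2 * D + 5) * (28 * C₁) * R ^ (7 * D + 10) * ε := by
    have e2 : C₂ * (6 * R ^ 2) * 4 = 24 * C₂ * R ^ 2 := by ring
    rw [e2, mul_pow, ← pow_mul, hε₂]
    have e3 : R ^ (7 * D + 10) = R ^ (2 * (2 * D + 5)) * R ^ (3 * D) := by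
      rw [← pow_add]
      congr 1
      ring
    rw [e3]
    exact le_of_eq (by ring)
  have r1 := hch Q (FP (P ω)) _ _ s _ _ 4 ε₂ (6 * R ^ 2) (by rw [hQ]; exact H.dP _)
    (by norm_num) hS hε20 hk0 hk1 hH1 hH2 hadm_s hadm_κ hadm_1
  have r2 := hch Q (FP (P ω)) _ _ s _ _ 4 ε₂ (6 * R ^ 2) (by rw [hQ]; exact H.dP _)
    (by norm_num) hS hε20 hk0 hk1 hH1 hH2 hadm_s hadm_1 hadm_1
  rw [hFs] at r1 r2
  rw [← hQ]
  exact ⟨r1.trans hfin, r2.trans hfin⟩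

section

variable {Ω Γ Λ : Type}

/-- The vertical part of the Hessian along the own line. -/
noncomputable def xF (P : Ω → Γ) (L : Ω → Λ) (QP : Γ → P4) (FP : Γ → V4) (c : Λ → ℝ)
    (Dd : Λ → Fin 2 → ℝ) (j : Fin 2) (ω : Ω) : ℝ :=
  eval (FP (P ω)) (dv (vec 1 (c (L ω)) (Dd (L ω))) (pderiv (vt j) (QP (P ω))))

/-- The vertical part of the Hessian in the direction `k1`. -/
noncomputable def yF (QP : Γ → P4) (FP : Γ → V4) (p1 : Γ → Fin 2 → ℝ) (j : Fin 2) (y : Γ) : ℝ :=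
  eval (FP y) (dv (vec 0 1 (p1 y)) (pderiv (vt j) (QP y)))

/-- The vertical part of the Hessian in the direction `k0`. -/
noncomputable def bF (QP : Γ → P4) (FP : Γ → V4) (p0 : Γ → Fin 2 → ℝ) (j : Fin 2) (y : Γ) : ℝ :=
  eval (FP y) (dv (vec 1 0 (p0 y)) (pderiv (vt j) (QP y)))

/-- The vertical Hessian. -/
noncomputable def dF (QP : Γ → P4) (FP : Γ → V4) (i j : Fin 2) (y : Γ) : ℝ :=
  eval (FP y) (pderiv (vt i) (pderiv (vt j) (QP y)))

end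

theorem dv_one_dif (q q' : Fin 2 → ℝ) (Q : P4) : dv (vec 0 1 q) Q - dv (vec 0 1 q') Q =
    ∑ j, C (q j - q' j) * pderiv (vt j) Q := by
  rw [dv_vec, dv_vec, Fin.sum_univ_two, Fin.sum_univ_two, Fin.sum_univ_two, C_sub, C_sub]
  ring

theorem eval_two (F : V4) (s : V4) (w : Fin 2 → ℝ) (Q : P4) :
    eval F (dv s (∑ j, C (w j) * pderiv (vt j) Q)) =
      w 0 * eval F (dv s (pderiv (vt 0) Q)) + w 1 * eval F (dv s (pderiv (vt 1) Q)) := by
  rw [Fin.sum_univ_two, dv_add, dv_Cmul, dv_Cmul, map_add, map_mul, map_mul, eval_C, eval_C]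

theorem eval_shift (q q' : Fin 2 → ℝ) (F : V4) (S : P4) : eval F (dv (vec 0 1 q) S) =
    eval F (dv (vec 0 1 q') S) + ((q 0 - q' 0) * eval F (pderiv (vt 0) S) +
      (q 1 - q' 1) * eval F (pderiv (vt 1) S)) := by
  rw [dv_vec, dv_vec]
  simp only [map_add, map_mul, eval_C, Fin.sum_univ_two]
  ring

/-- **The equations.** -/
theorem eqs (D : ℕ) (hD : 1 ≤ D) {C₁ : ℝ} (hC₁ : 1 ≤ C₁) : ∃ C₃ : ℝ, 1 ≤ C₃ ∧
    ∀ {Ω Γ Λ : Type} [Fintype Ω]
    {R ε : ℝ} {p : Ω → ℝ} {A : Ω → Prop} {P : Ω → Γ} {L : Ω → Λ} {QP : Γ → P4} {QL : Λ → P4}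
    {FP : Γ → V4} {l0 : Λ → V4} {T : Ω → ℝ} {c : Λ → ℝ} {Dd : Λ → Fin 2 → ℝ}
    {p0 p1 : Γ → Fin 2 → ℝ}, NvM D R ε p A P L QP QL FP l0 T c Dd p0 p1 → 1 ≤ R → 0 ≤ ε →
    ε ≤ 1 → ∀ ω ω', A ω → A ω' → L ω = L ω' → GdM D R (C₁ * R ^ (3 * D) * ε) P QP FP p0 p1 ω →
    GdM D R (C₁ * R ^ (3 * D) * ε) P QP FP p0 p1 ω' →
    |xF P L QP FP c Dd 0 ω' * (p1 (P ω) 0 - p1 (P ω') 0) +
      xF P L QP FP c Dd 1 ω' * (p1 (P ω) 1 - p1 (P ω') 1)| ≤ C₃ * R ^ (7 * D + 10) * ε ∧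
    |2 * (yF QP FP p1 0 (P ω') * (p1 (P ω) 0 - p1 (P ω') 0) +
        yF QP FP p1 1 (P ω') * (p1 (P ω) 1 - p1 (P ω') 1)) +
      (dF QP FP 0 0 (P ω') * (p1 (P ω) 0 - p1 (P ω') 0) ^ 2 +
        2 * dF QP FP 0 1 (P ω') * (p1 (P ω) 0 - p1 (P ω') 0) * (p1 (P ω) 1 - p1 (P ω') 1) +
        dF QP FP 1 1 (P ω') * (p1 (P ω) 1 - p1 (P ω') 1) ^ 2)| ≤
      C₃ * R ^ (7 * D + 10) * ε ∧
    ∀ j, |xF P L QP FP c Dd j ω - (bF QP FP p0 j (P ω) + c (L ω) * yF QP FP p1 j (P ω))| ≤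
      C₃ * R ^ (7 * D + 10) * ε := by
  obtain ⟨C₃, hC₃, htw⟩ := two_smp D hD hC₁
  refine ⟨2 * C₃, by linarith, ?_⟩
  intro Ω Γ Λ _ R ε p A P L QP QL FP l0 T c Dd p0 p1 H hR hε hε1 ω ω' hω hω' hl G G'
  obtain ⟨r1, r2⟩ := htw H hR hε hε1 ω ω' hω hω' hl G
  obtain ⟨s1, s2⟩ := htw H hR hε hε1 ω' ω' hω' hω' rfl G'
  obtain ⟨E, hE⟩ : ∃ E, E = C₃ * R ^ (7 * D + 10) * ε := ⟨_, rfl⟩
  rw [← hE] at r1 r2 s1 s2
  have hE2 : 2 * C₃ * R ^ (7 * D + 10) * ε = 2 * E := by rw [hE]; ring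
  rw [hE2]
  obtain ⟨F, hF⟩ : ∃ F, F = FP (P ω') := ⟨_, rfl⟩
  obtain ⟨Q, hQ⟩ : ∃ Q, Q = QP (P ω') := ⟨_, rfl⟩
  obtain ⟨q, hq⟩ : ∃ q, q = p1 (P ω) := ⟨_, rfl⟩
  obtain ⟨q', hq'⟩ : ∃ q', q' = p1 (P ω') := ⟨_, rfl⟩
  rw [← hF, ← hQ, ← hq] at r1 r2
  rw [← hF, ← hQ, ← hq'] at s1 s2
  refine ⟨?_, ?_, fun j => ?_⟩
  · have e1 : xF P L QP FP c Dd 0 ω' * (p1 (P ω) 0 - p1 (P ω') 0) +
        xF P L QP FP c Dd 1 ω' * (p1 (P ω) 1 - p1 (P ω') 1) =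
        eval F (dv (vec 1 (c (L ω')) (Dd (L ω'))) (dv (vec 0 1 q) Q)) -
          eval F (dv (vec 1 (c (L ω')) (Dd (L ω'))) (dv (vec 0 1 q') Q)) := by
      rw [← map_sub, ← dv_sub, dv_one_dif, eval_two]
      unfold xF
      rw [hF, hQ, hq, hq']
      ring
    rw [e1]
    have a1 := abs_le.1 r1
    have a2 := abs_le.1 s1
    rw [abs_le]
    constructor <;> linarith [a1.1, a1.2, a2.1, a2.2]
  · have e1 : 2 * (yF QP FP p1 0 (P ω') * (p1 (P ω) 0 - p1 (P ω') 0) +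
          yF QP FP p1 1 (P ω') * (p1 (P ω) 1 - p1 (P ω') 1)) +
        (dF QP FP 0 0 (P ω') * (p1 (P ω) 0 - p1 (P ω') 0) ^ 2 +
          2 * dF QP FP 0 1 (P ω') * (p1 (P ω) 0 - p1 (P ω') 0) * (p1 (P ω) 1 - p1 (P ω') 1) +
          dF QP FP 1 1 (P ω') * (p1 (P ω) 1 - p1 (P ω') 1) ^ 2) =
        eval F (dv (vec 0 1 q) (dv (vec 0 1 q) Q)) -
          eval F (dv (vec 0 1 q') (dv (vec 0 1 q') Q)) := by
      have h1 : dv (vec 0 1 q) (dv (vec 0 1 q) Q) - dv (vec 0 1 q') (dv (vec 0 1 q') Q) =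
          (dv (vec 0 1 q) (dv (vec 0 1 q) Q) - dv (vec 0 1 q') (dv (vec 0 1 q) Q)) +
            dv (vec 0 1 q') (dv (vec 0 1 q) Q - dv (vec 0 1 q') Q) := by
        rw [dv_sub]
        ring
      rw [← map_sub, h1, map_add, dv_one_dif, dv_one_dif, eval_two, Fin.sum_univ_two, map_add,
        map_mul, map_mul, eval_C, eval_C, ← dv_pd, ← dv_pd, eval_shift q q', eval_shift q q']
      unfold yF dF
      rw [hF, hQ, hq, hq', pd_comm4 (vt 1) (vt 0)]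
      ring
    rw [e1]
    have a1 := abs_le.1 r2
    have a2 := abs_le.1 s2
    rw [abs_le]
    constructor <;> linarith [a1.1, a1.2, a2.1, a2.2]
  · have h1 := H.vel ω hω
    have e1 : xF P L QP FP c Dd j ω - (bF QP FP p0 j (P ω) + c (L ω) * yF QP FP p1 j (P ω)) =
        ∑ i, (Dd (L ω) i - (p0 (P ω) i + c (L ω) * p1 (P ω) i)) *
          eval (FP (P ω)) (pderiv (vt i) (pderiv (vt j) (QP (P ω)))) := by
      unfold xF bF yF
      rw [dv_vec, dv_vec, dv_vec]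
      simp only [map_add, map_mul, eval_C, Fin.sum_univ_two]
      ring
    rw [e1]
    refine (Finset.abs_sum_le_sum_abs _ _).trans ?_
    have h2 : ∀ i ∈ (univ : Finset (Fin 2)),
        |(Dd (L ω) i - (p0 (P ω) i + c (L ω) * p1 (P ω) i)) *
          eval (FP (P ω)) (pderiv (vt i) (pderiv (vt j) (QP (P ω))))| ≤ ε * 1 := by
      intro i _
      rw [abs_mul]
      exact mul_le_mul (h1 i) (H.up ω hω _ (fun o => by
        rw [sub_self, abs_zero]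
        exact zero_le_one) _ _) (abs_nonneg _) hε
    refine (Finset.sum_le_sum h2).trans ?_
    rw [Finset.sum_const, Finset.card_univ, Fintype.card_fin, nsmul_eq_mul]
    push_cast
    have h3 : 1 ≤ C₃ * R ^ (7 * D + 10) :=
      one_le_mul_of_one_le_of_one_le hC₃ (one_le_pow₀ hR)
    have h4 : ε ≤ E := by
      rw [hE]
      nlinarith
    linarith

end Pool.NV24
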