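import Pool.Agent.H24.NV.Two

/-!
# The two-dimensional algebra, without a choice of the coordinate
-/

set_option autoImplicit false

namespace Pool.NV24

open Finset Real
open Pool.Agent.H49.Ent Pool.Agent.H32.Dense Pool.STK Pool.KA Pool.KSAT Pool.K2S

theorem two_gen {Ω Γ Λ : Type} [Fintype Ω] {p : Ω → ℝ} (hp : IsLaw p) {A : Ω → Prop} {P : Ω → Γ}
    {L : Ω → Λ} {x : Fin 2 → Ω → ℝ} {y b : Fin 2 → Γ → ℝ} {d : Fin 2 → Fin 2 → Γ → ℝ}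
    {q : Γ → Fin 2 → ℝ} {c : Λ → ℝ}
    {R ε δ δ1 : ℝ} (hR : 1 ≤ R) (hδ : 0 < δ) (hδ' : δ ≤ 1) (hδ1 : 0 < δ1) (hδ1' : δ1 ≤ 1)
    (hε0 : 0 ≤ ε) (hε : 2 ^ 15 * R ^ 4 * ε ≤ δ1 ^ 2 * δ ^ 3)
    (hx : ∀ ω, A ω → ¬ ∀ j, |x j ω| ≤ δ1) (hc : ∀ ω, A ω → |c (L ω)| ≤ 1)
    (hy : ∀ ω, A ω → ∀ j, |y j (P ω)| ≤ R) (hq : ∀ ω, A ω → ∀ j, |q (P ω) j| ≤ R)
    (hd : ∀ ω, A ω → ∀ i j, |d i j (P ω)| ≤ 1)
    (e1 : ∀ ω ω', A ω → A ω' → L ω = L ω' →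
      |x 0 ω' * (q (P ω) 0 - q (P ω') 0) + x 1 ω' * (q (P ω) 1 - q (P ω') 1)| ≤ ε)
    (e2 : ∀ ω ω', A ω → A ω' → L ω = L ω' →
      |2 * (y 0 (P ω') * (q (P ω) 0 - q (P ω') 0) + y 1 (P ω') * (q (P ω) 1 - q (P ω') 1)) +
        (d 0 0 (P ω') * (q (P ω) 0 - q (P ω') 0) ^ 2 +
          2 * d 0 1 (P ω') * (q (P ω) 0 - q (P ω') 0) * (q (P ω) 1 - q (P ω') 1) +
          d 1 1 (P ω') * (q (P ω) 1 - q (P ω') 1) ^ 2)| ≤ ε)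
    (e3 : ∀ ω, A ω → ∀ j, |x j ω - (b j (P ω) + c (L ω) * y j (P ω))| ≤ ε) :
    ∃ (i i' : Fin 2) (B : Ω → Prop) (sP : Γ → ℝ) (sL qL : Λ → ℝ), i ≠ i' ∧ Sub B A ∧
      Pe p A / 8 ≤ Pe p B ∧
      (∀ ω, B ω → |sP (P ω)| ≤ 2) ∧ (∀ ω, B ω → |sP (P ω) - sL (L ω)| ≤ δ) ∧
      ∀ ω, B ω → |q (P ω) i + sP (P ω) * q (P ω) i' - qL (L ω)| ≤ δ := by
  obtain ⟨E0, hE0'⟩ : ∃ E0 : Ω → Prop, ∀ ω, E0 ω ↔ (A ω ∧ δ1 ≤ |x 0 ω| ∧ |x 1 ω| ≤ |x 0 ω|) :=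
    ⟨_, fun _ => Iff.rfl⟩
  obtain ⟨E1, hE1'⟩ : ∃ E1 : Ω → Prop, ∀ ω, E1 ω ↔ (A ω ∧ δ1 ≤ |x 1 ω| ∧ |x 0 ω| ≤ |x 1 ω|) :=
    ⟨_, fun _ => Iff.rfl⟩
  have hcov : ∀ ω, A ω → E0 ω ∨ E1 ω := by
    intro ω hω
    have h2 := hx ω hω
    rw [Fin.forall_fin_two] at h2
    rcases le_total |x 1 ω| |x 0 ω| with h3 | h3
    · left
      refine (hE0' ω).2 ⟨hω, ?_, h3⟩
      by_contra h4
      rw [not_le] at h4
      exact h2 ⟨h4.le, h3.trans h4.le⟩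
    · right
      refine (hE1' ω).2 ⟨hω, ?_, h3⟩
      by_contra h4
      rw [not_le] at h4
      exact h2 ⟨h3.trans h4.le, h4.le⟩
  rcases half_or hp hcov with h' | h'
  · have hsub : ∀ ω, E0 ω → A ω := fun ω hω => ((hE0' ω).1 hω).1
    obtain ⟨B, sP, sL, qL, f1, f2, f3, f4, f5⟩ := two_slp (p := p) hp (A := E0) (P := P)
      (L := L) (x0 := x 0) (x1 := x 1) (y0 := y 0) (y1 := y 1)
      (b0 := b 0) (b1 := b 1) (d00 := d 0 0) (d01 := d 0 1)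
      (d11 := d 1 1) (q0 := fun y => q y 0) (q1 := fun y => q y 1) (c := c)
      (R := R) (ε := ε) (δ := δ) (δ1 := δ1) hR hδ hδ' hδ1 hδ1' hε0 hε
      (fun ω hω => ((hE0' ω).1 hω).2) (fun ω hω => hc ω (hsub ω hω))
      (fun ω hω => hy ω (hsub ω hω) 0)
      (fun ω hω => ⟨hq ω (hsub ω hω) 0, hq ω (hsub ω hω) 1⟩)
      (fun ω hω => ⟨hd ω (hsub ω hω) 0 0, hd ω (hsub ω hω) 0 1⟩)
      (fun ω ω' hω hω' hl => e1 ω ω' (hsub ω hω) (hsub ω' hω') hl)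
      (fun ω ω' hω hω' hl => e2 ω ω' (hsub ω hω) (hsub ω' hω') hl)
      (fun ω hω => ⟨e3 ω (hsub ω hω) 0, e3 ω (hsub ω hω) 1⟩)
    exact ⟨0, 1, B, sP, sL, qL, by decide, fun ω hω => hsub ω (f1 ω hω), by linarith, f3, f4, f5⟩
  · have hsub : ∀ ω, E1 ω → A ω := fun ω hω => ((hE1' ω).1 hω).1
    obtain ⟨B, sP, sL, qL, f1, f2, f3, f4, f5⟩ := two_slp (p := p) hp (A := E1) (P := P)
      (L := L) (x0 := x 1) (x1 := x 0) (y0 := y 1) (y1 := y 0)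
      (b0 := b 1) (b1 := b 0) (d00 := d 1 1) (d01 := d 0 1)
      (d11 := d 0 0) (q0 := fun y => q y 1) (q1 := fun y => q y 0) (c := c)
      (R := R) (ε := ε) (δ := δ) (δ1 := δ1) hR hδ hδ' hδ1 hδ1' hε0 hε
      (fun ω hω => ((hE1' ω).1 hω).2) (fun ω hω => hc ω (hsub ω hω))
      (fun ω hω => hy ω (hsub ω hω) 1)
      (fun ω hω => ⟨hq ω (hsub ω hω) 1, hq ω (hsub ω hω) 0⟩)
      (fun ω hω => ⟨hd ω (hsub ω hω) 1 1, hd ω (hsub ω hω) 0 1⟩)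
      (fun ω ω' hω hω' hl => by
        have := e1 ω ω' (hsub ω hω) (hsub ω' hω') hl
        rw [add_comm] at this
        exact this)
      (fun ω ω' hω hω' hl => by
        have := e2 ω ω' (hsub ω hω) (hsub ω' hω') hl
        refine le_trans (le_of_eq ?_) this
        congr 1
        ring)
      (fun ω hω => ⟨e3 ω (hsub ω hω) 1, e3 ω (hsub ω hω) 0⟩)
    exact ⟨1, 0, B, sP, sL, qL, by decide, fun ω hω => hsub ω (f1 ω hω), by linarith, f3, f4, f5⟩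

end Pool.NV24
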