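import Pool.Agent.H24.NV.Lm3
import Pool.Agent.H24.NV.Tw2

/-!
# The law of a window is impossible

`end_N`: a closed combination of the slopes of the fans contradicts `no relation'. `nvm_false`: the
law of a window whose vertical second derivatives have the size one is impossible.
-/

set_option autoImplicit false

namespace Pool.NV24

open Finset Real MvPolynomial
open Pool.Agent.H49.Ent Pool.Agent.H32.Dense Pool.STK Pool.KA Pool.KSAT Pool.K2S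

/-- The affine polynomial of a relation. -/
noncomputable def rel4 (i i' : Fin 2) (s t0 t1 : ℝ) (F : V4) : P4 :=
  (X (vt i) - C (F (vt i))) + C s * (X (vt i') - C (F (vt i'))) - C t0 * (X none - C (F none)) -
    C t1 * (X (some 0) - C (F (some 0)))

theorem eval_rel4 (i i' : Fin 2) (s t0 t1 : ℝ) (F b : V4) : eval b (rel4 i i' s t0 t1 F) =
    (b (vt i) - F (vt i)) + s * (b (vt i') - F (vt i')) - t0 * (b none - F none) -
      t1 * (b (some 0) - F (some 0)) := by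
  unfold rel4
  simp only [map_add, map_sub, map_mul, eval_C, eval_X]

theorem deg_xc (o : Option (Fin 3)) (a : ℝ) : (X o - C a : P4).totalDegree ≤ 1 :=
  (totalDegree_sub _ _).trans (max_le (totalDegree_X _).le (by rw [totalDegree_C]; omega))

theorem deg_cxc (r : ℝ) (o : Option (Fin 3)) (a : ℝ) : (C r * (X o - C a) : P4).totalDegree ≤ 1 := by
  refine (totalDegree_mul _ _).trans ?_
  rw [totalDegree_C, zero_add]
  exact deg_xc o a

theorem deg_rel4 (i i' : Fin 2) (s t0 t1 : ℝ) (F : V4) : (rel4 i i' s t0 t1 F).totalDegree ≤ 1 := by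
  unfold rel4
  exact (totalDegree_sub _ _).trans (max_le ((totalDegree_sub _ _).trans (max_le
    ((totalDegree_add _ _).trans (max_le (deg_xc _ _) (deg_cxc _ _ _))) (deg_cxc _ _ _)))
    (deg_cxc _ _ _))

theorem abs7 (a b c d e f g : ℝ) :
    |a - b - c - d - e + f + g| ≤ |a| + |b| + |c| + |d| + |e| + |f| + |g| := by
  refine (abs_add_le _ _).trans (add_le_add ((abs_add_le _ _).trans (add_le_add
    ((abs_sub _ _).trans (add_le_add ((abs_sub _ _).trans (add_le_add ((abs_sub _ _).trans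
      (add_le_add (abs_sub _ _) le_rfl)) le_rfl)) le_rfl)) le_rfl)) le_rfl)

theorem num7 {R ε δ : ℝ} (hR : 1 ≤ R) (hε : 0 ≤ ε) (hδ : 0 < δ) (h : 60 * R ^ 2 * ε ≤ δ) :
    δ * 1 + (δ + δ * R + 3 * ε) * 1 + δ * 1 + ε + 3 * ε + 23 * R ^ 2 * ε + 19 * R ^ 2 * ε ≤
      5 * R * δ := by
  have h1 : ε ≤ R ^ 2 * ε := by
    have : 1 ≤ R ^ 2 := one_le_pow₀ hR
    nlinarith
  have h2 : δ ≤ R * δ := by nlinarith
  linarith

/-- A relation at a point which is near the origin. -/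
theorem rel_small {R ε δ s cc pi pi' qi qi' Di Di' x x' y z : ℝ} (hR : 1 ≤ R) (hε : 0 ≤ ε)
    (hδ : 0 < δ) (hδ1 : δ ≤ 1) (hεδ : 60 * R ^ 2 * ε ≤ δ) (hs : |s| ≤ 2) (hq : |qi| ≤ 6 * R ^ 2)
    (hq' : |qi'| ≤ 6 * R ^ 2) (hD : |Di| ≤ R) (hD' : |Di'| ≤ R) (hv : |Di - (pi + cc * qi)| ≤ ε)
    (hv' : |Di' - (pi' + cc * qi')| ≤ ε) (hc : |cc| ≤ 1) (hx : |x| ≤ ε) (hx' : |x'| ≤ ε)
    (hy : |y| ≤ ε) (hz : |z| ≤ ε) :
    |x + s * x' - (pi + s * pi') * y - (qi + s * qi') * z| ≤ 5 * R * δ := by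
  have hR2 : 1 ≤ R ^ 2 := one_le_pow₀ hR
  have hRR : R ≤ R ^ 2 := by nlinarith
  have hε1 : ε ≤ δ := by
    have : ε ≤ R ^ 2 * ε := by nlinarith
    linarith
  have e1 : |cc * qi| ≤ 1 * (6 * R ^ 2) := by
    rw [abs_mul]
    exact mul_le_mul hc hq (abs_nonneg _) zero_le_one
  have e2 : |cc * qi'| ≤ 1 * (6 * R ^ 2) := by
    rw [abs_mul]
    exact mul_le_mul hc hq' (abs_nonneg _) zero_le_one
  have f1 : |pi| ≤ 7 * R ^ 2 + ε := by
    have a1 := abs_le.1 hv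
    have a2 := abs_le.1 e1
    have a3 := abs_le.1 hD
    rw [abs_le]
    constructor <;> linarith [a1.1, a1.2, a2.1, a2.2, a3.1, a3.2]
  have f2 : |pi'| ≤ 7 * R ^ 2 + ε := by
    have a1 := abs_le.1 hv'
    have a2 := abs_le.1 e2
    have a3 := abs_le.1 hD'
    rw [abs_le]
    constructor <;> linarith [a1.1, a1.2, a2.1, a2.2, a3.1, a3.2]
  have s1 : |s * pi'| ≤ 2 * (7 * R ^ 2 + ε) := by
    rw [abs_mul]
    exact mul_le_mul hs f2 (abs_nonneg _) (by norm_num)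
  have s2 : |s * qi'| ≤ 2 * (6 * R ^ 2) := by
    rw [abs_mul]
    exact mul_le_mul hs hq' (abs_nonneg _) (by norm_num)
  have t0 : |pi + s * pi'| ≤ 21 * R ^ 2 + 3 * ε := by
    refine (abs_add_le _ _).trans ?_
    linarith
  have t1 : |qi + s * qi'| ≤ 18 * R ^ 2 := by
    refine (abs_add_le _ _).trans ?_
    linarith
  have u1 : |s * x'| ≤ 2 * ε := by
    rw [abs_mul]
    exact mul_le_mul hs hx' (abs_nonneg _) (by norm_num)
  have u2 : |(pi + s * pi') * y| ≤ (21 * R ^ 2 + 3 * ε) * ε := by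
    rw [abs_mul]
    exact mul_le_mul t0 hy (abs_nonneg _) (by positivity)
  have u3 : |(qi + s * qi') * z| ≤ 18 * R ^ 2 * ε := by
    rw [abs_mul]
    exact mul_le_mul t1 hz (abs_nonneg _) (by positivity)
  have h1 : |x + s * x' - (pi + s * pi') * y - (qi + s * qi') * z| ≤
      |x| + |s * x'| + |(pi + s * pi') * y| + |(qi + s * qi') * z| :=
    (abs_sub _ _).trans (add_le_add ((abs_sub _ _).trans (add_le_add (abs_add_le _ _) le_rfl))
      le_rfl)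
  refine h1.trans ?_
  have h2 : ε * ε ≤ 1 * ε := mul_le_mul_of_nonneg_right (hε1.trans hδ1) hε
  have h3 : ε ≤ R ^ 2 * ε := by nlinarith
  have h4 : δ ≤ R * δ := by nlinarith
  linarith

/-- The two relations are near on the box. -/
theorem end_alg {R ε δ s s' q cc t0 t0' t1 pi pi' qi qi' Di Di' T bn bz bi bi' Fn Fz Fi Fi' ln lz li
    li' : ℝ} (hR : 1 ≤ R) (hε : 0 ≤ ε) (hδ : 0 < δ) (hδ1 : δ ≤ 1) (hεδ : 60 * R ^ 2 * ε ≤ δ)
    (k1 : |s| ≤ 2) (k2 : |s - s'| ≤ δ) (k3 : |t1 - q| ≤ δ) (k4 : |qi| ≤ 6 * R ^ 2)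
    (k4' : |qi'| ≤ 6 * R ^ 2) (k5 : |Di| ≤ R) (k5' : |Di'| ≤ R)
    (k6 : |Di - (pi + cc * qi)| ≤ ε) (k6' : |Di' - (pi' + cc * qi')| ≤ ε) (k8 : |cc| ≤ 1)
    (m1 : |Fn - (ln + T)| ≤ ε) (m2 : |Fz - (lz + T * cc)| ≤ ε) (m3 : |Fi - (li + T * Di)| ≤ ε)
    (m4 : |Fi' - (li' + T * Di')| ≤ ε) (ht1 : t1 = qi + s * qi') (ht0 : t0 = pi + s * pi')
    (ht0' : t0' = Di + s' * Di' - cc * q) (g1 : |bn - Fn| ≤ 1) (g2 : |bz - Fz| ≤ 1)
    (g4 : |bi' - Fi'| ≤ 1) :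
    |bi - Fi + s * (bi' - Fi') - t0 * (bn - Fn) - t1 * (bz - Fz) -
      (bi - li + s' * (bi' - li') - t0' * (bn - ln) - q * (bz - lz))| ≤ 5 * R * δ := by
  have hR2 : 1 ≤ R ^ 2 := one_le_pow₀ hR
  have hRR : R ≤ R ^ 2 := by nlinarith
  have c1 : |t0 - t0'| ≤ δ + δ * R + 3 * ε := by
    have e1 : t0 - t0' = -(cc * (t1 - q)) + (s - s') * Di' - (Di - (pi + cc * qi)) -
        s * (Di' - (pi' + cc * qi')) := by
      rw [ht0, ht0', ht1]
      ring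
    have a1 : |cc * (t1 - q)| ≤ 1 * δ := by
      rw [abs_mul]
      exact mul_le_mul k8 k3 (abs_nonneg _) zero_le_one
    have a2 : |(s - s') * Di'| ≤ δ * R := by
      rw [abs_mul]
      exact mul_le_mul k2 k5' (abs_nonneg _) hδ.le
    have a3 : |s * (Di' - (pi' + cc * qi'))| ≤ 2 * ε := by
      rw [abs_mul]
      exact mul_le_mul k1 k6' (abs_nonneg _) (by norm_num)
    rw [e1]
    refine (abs_sub _ _).trans ((add_le_add ((abs_sub _ _).trans (add_le_add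
      ((abs_add_le _ _).trans (add_le_add (show |-(cc * (t1 - q))| ≤ 1 * δ by
        rw [abs_neg]
        exact a1) a2)) k6)) a3).trans ?_)
    linarith
  have c2 : |s'| ≤ 3 := by
    have e1 : s' = s - (s - s') := by ring
    rw [e1]
    exact (abs_sub _ _).trans (by linarith)
  have c3 : |q| ≤ 19 * R ^ 2 := by
    have a1 : |s * qi'| ≤ 2 * (6 * R ^ 2) := by
      rw [abs_mul]
      exact mul_le_mul k1 k4' (abs_nonneg _) (by norm_num)
    have e1 : q = qi + s * qi' - (t1 - q) := by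
      rw [ht1]
      ring
    rw [e1]
    refine (abs_sub _ _).trans ((add_le_add ((abs_add_le _ _).trans (add_le_add k4 a1)) k3).trans ?_)
    linarith
  have c4 : |t0'| ≤ 23 * R ^ 2 := by
    have a1 : |s' * Di'| ≤ 3 * R := by
      rw [abs_mul]
      exact mul_le_mul c2 k5' (abs_nonneg _) (by norm_num)
    have a2 : |cc * q| ≤ 1 * (19 * R ^ 2) := by
      rw [abs_mul]
      exact mul_le_mul k8 c3 (abs_nonneg _) zero_le_one
    rw [ht0']
    refine (abs_sub _ _).trans ((add_le_add ((abs_add_le _ _).trans (add_le_add k5 a1)) a2).trans ?_)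
    linarith
  have d1 : |(s - s') * (bi' - Fi')| ≤ δ * 1 := by
    rw [abs_mul]
    exact mul_le_mul k2 g4 (abs_nonneg _) hδ.le
  have d2 : |(t0 - t0') * (bn - Fn)| ≤ (δ + δ * R + 3 * ε) * 1 := by
    rw [abs_mul]
    exact mul_le_mul c1 g1 (abs_nonneg _) (by positivity)
  have d3 : |(t1 - q) * (bz - Fz)| ≤ δ * 1 := by
    rw [abs_mul]
    exact mul_le_mul k3 g2 (abs_nonneg _) hδ.le
  have d5 : |s' * (Fi' - (li' + T * Di'))| ≤ 3 * ε := by
    rw [abs_mul]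
    exact mul_le_mul c2 m4 (abs_nonneg _) (by norm_num)
  have d6 : |t0' * (Fn - (ln + T))| ≤ 23 * R ^ 2 * ε := by
    rw [abs_mul]
    exact mul_le_mul c4 m1 (abs_nonneg _) (by positivity)
  have d7 : |q * (Fz - (lz + T * cc))| ≤ 19 * R ^ 2 * ε := by
    rw [abs_mul]
    exact mul_le_mul c3 m2 (abs_nonneg _) (by positivity)
  have e2 : bi - Fi + s * (bi' - Fi') - t0 * (bn - Fn) - t1 * (bz - Fz) -
      (bi - li + s' * (bi' - li') - t0' * (bn - ln) - q * (bz - lz)) =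
      (s - s') * (bi' - Fi') - (t0 - t0') * (bn - Fn) - (t1 - q) * (bz - Fz) -
        (Fi - (li + T * Di)) - s' * (Fi' - (li' + T * Di')) +
        t0' * (Fn - (ln + T)) + q * (Fz - (lz + T * cc)) := by
    rw [ht0']
    ring
  rw [e2]
  refine (abs7 _ _ _ _ _ _ _).trans (le_trans ?_ (num7 hR hε hδ hεδ))
  exact add_le_add (add_le_add (add_le_add (add_le_add (add_le_add (add_le_add d1 d2) d3) m3) d5)
    d6) d7

/-- **A closed combination of the slopes of the fans** is impossible. -/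
theorem end_N {Ω Γ Λ : Type} [Fintype Ω] {D : ℕ}
    {R ε : ℝ} {p : Ω → ℝ} {A : Ω → Prop} {P : Ω → Γ} {L : Ω → Λ} {QP : Γ → P4} {QL : Λ → P4}
    {FP : Γ → V4} {l0 : Λ → V4} {T : Ω → ℝ} {c : Λ → ℝ} {Dd : Λ → Fin 2 → ℝ}
    {p0 p1 : Γ → Fin 2 → ℝ} (H : NvM D R ε p A P L QP QL FP l0 T c Dd p0 p1) (hD : 1 ≤ D)
    (hR : 1 ≤ R) (hε : 0 ≤ ε) {δ : ℝ} (hδ : 0 < δ) (hδ1 : δ ≤ 1) (hεδ : 60 * R ^ 2 * ε ≤ δ)
    (hδR : 5 * R ^ 2 * δ < 1) {i i' : Fin 2} (hii : i ≠ i') {B : Ω → Prop} (hB : Sub B A)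
    (hPB : Pe p A / 64 ≤ Pe p B) (hb1 : ∀ ω, B ω → ∀ j, |p1 (P ω) j| ≤ 6 * R ^ 2)
    {sP : Γ → ℝ} {sL qL : Λ → ℝ} (h1 : ∀ ω, B ω → |sP (P ω)| ≤ 2)
    (h2 : ∀ ω, B ω → |sP (P ω) - sL (L ω)| ≤ δ)
    (h3 : ∀ ω, B ω → |p1 (P ω) i + sP (P ω) * p1 (P ω) i' - qL (L ω)| ≤ δ) : False := by
  classical
  have hR2 : 1 ≤ R ^ 2 := one_le_pow₀ hR
  have hR0 : 0 < R := by linarith
  have hRR : R ≤ R ^ 2 := by nlinarith
  obtain ⟨ω, hω, hbd⟩ := H.rel B hB (by linarith)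
    (fun y => rel4 i i' (sP y) (p0 y i + sP y * p0 y i') (p1 y i + sP y * p1 y i') (FP y))
    (fun s => rel4 i i' (sL s) (Dd s i + sL s * Dd s i' - c s * qL s) (qL s) (l0 s))
    (5 * R * δ) (fun y => (deg_rel4 _ _ _ _ _ _).trans hD)
    (fun s => (deg_rel4 _ _ _ _ _ _).trans hD) (by positivity)
    (fun ω hω b hb => by
      rw [eval_rel4]
      have hωA := hB ω hω
      exact rel_small hR hε hδ hδ1 hεδ (h1 ω hω) (hb1 ω hω i) (hb1 ω hω i') (H.dd ω hωA i)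
        (H.dd ω hωA i') (H.vel ω hωA i) (H.vel ω hωA i') (H.c1 ω hωA) (hb (vt i)) (hb (vt i'))
        (hb none) (hb (some 0)))
    (fun ω hω b hb => by
      rw [eval_rel4, eval_rel4]
      have hωA := hB ω hω
      have k7 := H.lin ω hωA
      have m1 := k7 none
      have m2 := k7 (some 0)
      have m3 := k7 (vt i)
      have m4 := k7 (vt i')
      rw [vec_none, mul_one] at m1
      rw [vec_zero] at m2
      rw [vec_vt] at m3 m4
      exact end_alg hR hε hδ hδ1 hεδ (h1 ω hω) (h2 ω hω) (h3 ω hω) (hb1 ω hω i) (hb1 ω hω i')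
        (H.dd ω hωA i) (H.dd ω hωA i') (H.vel ω hωA i) (H.vel ω hωA i') (H.c1 ω hωA) m1 m2 m3 m4
        rfl rfl rfl (hb none) (hb (some 0)) (hb (vt i')))
  have h4 := hbd (fun o => if o = vt i then FP (P ω) o + 1 else FP (P ω) o) (fun o => by
    by_cases h : o = vt i
    · simp only [if_pos h, add_sub_cancel_left, abs_one, le_refl]
    · simp only [if_neg h, sub_self, abs_zero, zero_le_one])
  have n1 : vt i' ≠ vt i := fun h => by
    unfold vt at h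
    rw [Option.some.injEq, Fin.succ_inj] at h
    exact hii h.symm
  have n2 : none ≠ vt i := fun h => by
    unfold vt at h
    exact Option.some_ne_none _ h.symm
  have n3 : some 0 ≠ vt i := fun h => by
    unfold vt at h
    rw [Option.some.injEq] at h
    exact Fin.succ_ne_zero i h.symm
  rw [eval_rel4] at h4
  simp only [if_true, if_neg n1, if_neg n2, if_neg n3, sub_self, mul_zero, add_zero, sub_zero,
    add_sub_cancel_left, abs_one] at h4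
  have e3 : R * (5 * R * δ) = 5 * R ^ 2 * δ := by ring
  rw [e3] at h4
  linarith

/-- **The law of a window** whose vertical second derivatives have the size one. -/
theorem nvm_false (D : ℕ) (hD : 1 ≤ D) : ∃ R₀ : ℝ, 1 ≤ R₀ ∧ ∀ {Ω Γ Λ : Type} [Fintype Ω]
    {R ε : ℝ} {p : Ω → ℝ} {A : Ω → Prop} {P : Ω → Γ} {L : Ω → Λ} {QP : Γ → P4} {QL : Λ → P4}
    {FP : Γ → V4} {l0 : Λ → V4} {T : Ω → ℝ} {c : Λ → ℝ} {Dd : Λ → Fin 2 → ℝ}
    {p0 p1 : Γ → Fin 2 → ℝ}, NvM D R ε p A P L QP QL FP l0 T c Dd p0 p1 → R₀ ≤ R → 0 ≤ ε →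
    ε * R ^ (9 * D + 41) ≤ 1 → False := by
  obtain ⟨C₁, hC₁, hgood⟩ := nvm_good D hD
  obtain ⟨C₃, hC₃, heq⟩ := eqs D hD hC₁
  obtain ⟨C₄, hC₄, hcD⟩ := case_D D
  obtain ⟨R₀, hR₀⟩ : ∃ R₀ : ℝ, R₀ = C₄ + 2 ^ 15 * 24 ^ 4 * C₃ + 60 := ⟨_, rfl⟩
  have hb : 0 ≤ 2 ^ 15 * 24 ^ 4 * C₃ := by positivity
  refine ⟨R₀, by rw [hR₀]; linarith, ?_⟩
  intro Ω Γ Λ _ R ε p A P L QP QL FP l0 T c Dd p0 p1 H hR hε hεR
  rw [hR₀] at hR
  have hR60 : 60 ≤ R := by linarith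
  have hR1 : 1 ≤ R := by linarith
  have hR0 : 0 < R := by linarith
  have hRC : 2 ^ 15 * 24 ^ 4 * C₃ ≤ R := by linarith
  have hεn : ∀ n ≤ 9 * D + 41, ε * R ^ n ≤ 1 := fun n hn =>
    (mul_le_mul_of_nonneg_left (pow_le_pow_right₀ hR1 hn) hε).trans hεR
  have hε1 : ε ≤ 1 := by
    have := hεn 0 (by omega)
    rwa [pow_zero, mul_one] at this
  obtain ⟨B₁, hB₁A, hPB₁, hB₁⟩ := hgood H hR1 hε hε1
  obtain ⟨δ, hδ⟩ : ∃ δ, δ = 1 / R ^ 4 := ⟨_, rfl⟩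
  obtain ⟨δ1, hδ1⟩ : ∃ δ1, δ1 = 1 / R ^ (D + 5) := ⟨_, rfl⟩
  obtain ⟨E, hE⟩ : ∃ E, E = C₃ * R ^ (7 * D + 10) * ε := ⟨_, rfl⟩
  have hδ0 : 0 < δ := by rw [hδ]; positivity
  have hδ10 : 0 < δ1 := by rw [hδ1]; positivity
  have hδle : δ ≤ 1 := by
    rw [hδ, div_le_one (by positivity)]
    exact one_le_pow₀ hR1
  have hδ1le : δ1 ≤ 1 := by
    rw [hδ1, div_le_one (by positivity)]
    exact one_le_pow₀ hR1
  have hE0 : 0 ≤ E := by rw [hE]; positivity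
  have hεδ : 60 * R ^ 2 * ε ≤ δ := by
    rw [hδ, le_div_iff₀ (by positivity)]
    calc 60 * R ^ 2 * ε * R ^ 4 ≤ R * R ^ 2 * ε * R ^ 4 := by
          refine mul_le_mul_of_nonneg_right (mul_le_mul_of_nonneg_right
            (mul_le_mul_of_nonneg_right hR60 (by positivity)) hε) (by positivity)
      _ = ε * R ^ 7 := by ring
      _ ≤ 1 := hεn 7 (by omega)
  have hδR : 5 * R ^ 2 * δ < 1 := by
    rw [hδ, mul_one_div, div_lt_one (by positivity)]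
    have h1 : R ^ 4 = R ^ 2 * R ^ 2 := by ring
    have h2 : 5 < R ^ 2 := by nlinarith
    rw [h1]
    exact mul_lt_mul_of_pos_right h2 (by positivity)
  have hnum : 2 ^ 15 * (24 * R ^ 2) ^ 4 * E ≤ δ1 ^ 2 * δ ^ 3 := by
    have e1 : δ1 ^ 2 * δ ^ 3 = 1 / R ^ (2 * D + 22) := by
      rw [hδ1, hδ, div_pow, div_pow, one_pow, one_pow, div_mul_div_comm, one_mul, ← pow_mul,
        ← pow_mul, ← pow_add]
      congr 2
      ring
    rw [e1, le_div_iff₀ (by positivity), hE]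
    calc 2 ^ 15 * (24 * R ^ 2) ^ 4 * (C₃ * R ^ (7 * D + 10) * ε) * R ^ (2 * D + 22)
        = 2 ^ 15 * 24 ^ 4 * C₃ * (ε * R ^ (9 * D + 40)) := by
          have e2 : R ^ (9 * D + 40) = (R ^ 2) ^ 4 * R ^ (7 * D + 10) * R ^ (2 * D + 22) := by
            rw [← pow_mul, ← pow_add, ← pow_add]
            congr 1
            ring
          rw [e2, mul_pow]
          ring
      _ ≤ R * (ε * R ^ (9 * D + 40)) := mul_le_mul_of_nonneg_right hRC (by positivity)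
      _ = ε * R ^ (9 * D + 41) := by ring
      _ ≤ 1 := hεR
  have hP := H.pos
  -- the equations
  have heq' : ∀ ω ω', B₁ ω → B₁ ω' → L ω = L ω' → _ := fun ω ω' hω hω' hl =>
    heq H hR1 hε hε1 ω ω' (hB₁A ω hω) (hB₁A ω' hω') hl (hB₁ ω hω) (hB₁ ω' hω')
  rw [← hE] at heq'
  have hy : ∀ ω, B₁ ω → ∀ j, |yF QP FP p1 j (P ω)| ≤ 24 * R ^ 2 := by
    intro ω hω j
    have h1 := dv_le (Q := pderiv (vt j) (QP (P ω))) (b := FP (P ω)) (s := vec 0 1 (p1 (P ω)))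
      (S := 6 * R ^ 2) (M := 1) (by positivity)
      (vec_bd (by rw [abs_zero]; positivity) (by
        rw [abs_one]
        have : 1 ≤ R ^ 2 := one_le_pow₀ hR1
        linarith) (hB₁ ω hω).b1)
      (fun o => H.up ω (hB₁A ω hω) _ (fun o => by
        rw [sub_self, abs_zero]
        exact zero_le_one) o j)
    unfold yF
    linarith
  have hq : ∀ ω, B₁ ω → ∀ j, |p1 (P ω) j| ≤ 24 * R ^ 2 := fun ω hω j =>
    ((hB₁ ω hω).b1 j).trans (by nlinarith [sq_nonneg R])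
  have hd : ∀ ω, B₁ ω → ∀ i j, |dF QP FP i j (P ω)| ≤ 1 := fun ω hω i j =>
    H.up ω (hB₁A ω hω) _ (fun o => by
      rw [sub_self, abs_zero]
      exact zero_le_one) _ j
  have hR2 : 1 ≤ 24 * R ^ 2 := by
    have : 1 ≤ R ^ 2 := one_le_pow₀ hR1
    linarith
  obtain ⟨ED, hED⟩ : ∃ ED : Ω → Prop, ∀ ω, ED ω ↔ (B₁ ω ∧ ∀ j, |xF P L QP FP c Dd j ω| ≤ δ1) :=
    ⟨_, fun _ => Iff.rfl⟩
  obtain ⟨EN, hEN⟩ : ∃ EN : Ω → Prop, ∀ ω, EN ω ↔ (B₁ ω ∧ ¬ ∀ j, |xF P L QP FP c Dd j ω| ≤ δ1) :=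
    ⟨_, fun _ => Iff.rfl⟩
  rcases half_or H.law (A := B₁) (B₀ := ED) (B₁ := EN) (fun ω hω => by
    by_cases h : ∀ j, |xF P L QP FP c Dd j ω| ≤ δ1
    · exact Or.inl ((hED ω).2 ⟨hω, h⟩)
    · exact Or.inr ((hEN ω).2 ⟨hω, h⟩)) with h | h
  · refine hcD H (by linarith) hε (hεn _ (by omega)) ED
      (fun ω hω => hB₁A ω ((hED ω).1 hω).1) (by linarith) fun ω hω j => ?_
    rw [← hδ1]
    exact ((hED ω).1 hω).2 j
  · have hsub : ∀ ω, EN ω → B₁ ω := fun ω hω => ((hEN ω).1 hω).1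
    obtain ⟨i, i', B, sP, sL, qL, hii, f1, f2, f3, f4, f5⟩ := two_gen (p := p) H.law (A := EN)
      (P := P) (L := L) (x := xF P L QP FP c Dd) (y := yF QP FP p1) (b := bF QP FP p0)
      (d := dF QP FP) (q := p1) (c := c) hR2 hδ0 hδle hδ10 hδ1le hE0 hnum
      (fun ω hω => ((hEN ω).1 hω).2) (fun ω hω => H.c1 ω (hB₁A ω (hsub ω hω)))
      (fun ω hω => hy ω (hsub ω hω)) (fun ω hω => hq ω (hsub ω hω))
      (fun ω hω => hd ω (hsub ω hω))
      (fun ω ω' hω hω' hl => (heq' ω ω' (hsub ω hω) (hsub ω' hω') hl).1)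
      (fun ω ω' hω hω' hl => (heq' ω ω' (hsub ω hω) (hsub ω' hω') hl).2.1)
      (fun ω hω => (heq' ω ω (hsub ω hω) (hsub ω hω) rfl).2.2)
    exact end_N H hD hR1 hε hδ0 hδle hεδ hδR hii
      (fun ω hω => hB₁A ω (hsub ω (f1 ω hω))) (by linarith)
      (fun ω hω => (hB₁ ω (hsub ω (f1 ω hω))).b1) f3 f4 f5

end Pool.NV24
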