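import Pool.Agent.H24.NV.Fin
import Pool.Agent.H36.NV.Nfn

/-!
# Affine labels of the place three

`nafNear`: nearly affine labels near almost every window. `aePG_nafQ`: affine labels of the place
three just before all windows near almost every window, in a subclass.
-/

set_option autoImplicit false

namespace Pool.NV24

open Pool.PKG

/-- **Nearly affine labels near a window.** -/
theorem nafNear (n : ℕ) : NafNear n := Pool.NV36.naf_near (nv_one n)

/-- **Affine labels of the place three**, in a subclass. -/
theorem aePG_nafQ (n : ℕ) : AePG n (NafQ : PropG n Unit) := aePG_naf (nafNear n)

end Pool.NV24
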