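import Pool.Agent.H24.NV.Smp
import Pool.Agent.H91.NVA.Fre

/-!
# One scale: the law

`one_law`: the fields of `NvL` on the part of the event.
-/

set_option autoImplicit false

namespace Pool.NV24

open Finset Real MvPolynomial
open Pool.Agent.H49.Ent Pool.Agent.H32.Dense Pool.STK Pool.KA Pool.KSAT Pool.K2S Pool.PB Pool.S6C
open Pool.GEN Pool.CHT Pool.ISO Pool.D2R
open Pool.NVA91 (AfP.sub relvN fre_mono)
open Pool.AFK25 (deg_psh)

/-- The numbers of the law. -/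
theorem num_le {a b : ℕ} (h : a ≤ b) : (2 : ℝ) ^ a ≤ 2 ^ b := pow_le_pow_right₀ (by norm_num) h

/-- **The law of the window** on the part of the event. -/
theorem one_law (D : ℕ) : ∃ C₀ : ℕ, 1 ≤ C₀ ∧ ∀ {m J : ℕ} {F : Fam m J} {c : ℕ → Fin m} {A B : F.Ω → Prop}
    {w e h Dr k k₀ n K P1 P2 gm : ℕ} {g : ℕ → ℕ} {κ κ₀ κ₁ η : ℝ}
    {G : PtT F → ℕ → MvPolynomial (Option (Fin m)) ℝ}
    {H : LnT F → ℕ → MvPolynomial (Option (Fin m)) ℝ}
    {U V U3 V2 : PtT F → MvPolynomial (Option (Fin m)) ℝ}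
    {U' V' : LnT F → MvPolynomial (Option (Fin m)) ℝ},
    Set.InjOn c (Set.Iio 4) → 1 ≤ D → D ≤ Dr → w ≤ J → ChOK F c 4 (fun _ => D) w w e g A G H →
    Clsd F 4 w A G H → RelvF F c 3 w w g Dr h κ A G → AfP F c 1 w P1 A U U' →
    AfP F c 2 w P2 A V V' → Sub B A → 0 < Pe F.p B → η * Pe F.p A ≤ Pe F.p B →
    OnP F c D w P1 P2 k n g G U V U3 V2 U' V' B → w ≤ g 0 + k → g 0 ≤ w + k → g 1 ≤ P1 + k →
    P1 ≤ g 1 + k → g 2 ≤ P2 + k → P2 ≤ g 2 + k → (∀ l ≤ 3, g l ≤ gm) → e + gm + n ≤ J →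
    C₀ * (k + 1) ≤ n → h ≤ k → k₀ ≤ k → J ≤ K * k →
    Fre F.p A (ptr F J) (fun ω => F.d ω (c 0)) (1 / 2 ^ k₀) D κ₀ →
    Fre F.p A (slam F w) (Tn F w) (1 / 2 ^ k₀) D κ₀ → 0 < κ₁ → κ ≤ κ₁ * η → κ₀ ≤ κ₁ * η →
    ∀ {R : ℝ}, R = 2 ^ (C₀ * (k + 1)) →
    NvL D R (2 ^ (k + 4) / 2 ^ n) κ₁ (2 * K + 1) F.p B (ptr F J) (slam F w)
      (fun y => qn c w P1 P2 g (τP w y) (U y) (V y) (G y 3))
      (fun s => qn c w P1 P2 g (τL s) (U' s) (V' s) (H s 3)) (FPn c w P1 P2 U V)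
      (l0n c w P1 P2 U' V') (Tn F w) (fun s => s.1.2 (c 0)) (DLn c w P1 P2 U' V')
      (fun y j => Jn c w P1 P2 U V U3 V2 none y j)
      (fun y j => Jn c w P1 P2 U V U3 V2 (some (c 0)) y j) := by
  obtain ⟨C₁, hown⟩ := smp_own D
  obtain ⟨C₂, hapr⟩ := smp_apr D
  obtain ⟨C₃, hrel⟩ := relvN D
  obtain ⟨C, hC⟩ : ∃ C, C = C₁ + C₂ + C₃ + 6 := ⟨_, rfl⟩
  refine ⟨C, by omega, ?_⟩
  intro m J F c A B w e h Dr k k₀ n K P1 P2 gm g κ κ₀ κ₁ η G H U V U3 V2 U' V' hc hD hDr hw hch hcl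
    hR hU hV hBA hPB hη O h0 h0' h1 h1' h2 h2' hgm hJ hn hhk hk0 hJK hfc hft hκ₁ hκκ hκ₀ R hRe
  have hCk : C * (k + 1) = C * k + C := by ring
  have hC1n : C₁ * (k + 1) ≤ n := by
    refine le_trans ?_ hn
    exact Nat.mul_le_mul_right _ (by omega)
  have hkC : k + 5 ≤ C * (k + 1) := by
    rw [hC]
    nlinarith [Nat.zero_le (C₁ * k), Nat.zero_le (C₂ * k), Nat.zero_le (C₃ * k)]
  have hR1 : 1 ≤ R := by
    rw [hRe]
    exact one_le_pow₀ (by norm_num)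
  have hPA : 0 ≤ Pe F.p A := Pe_nonneg F.isLaw A
  have hnat : ∀ ω, B ω → _ := fun ω hω => smp_nat hc hD hch hU hV hBA O h0 h0' h1 h1' h2 h2' hω
  have hnr : ∀ ω, B ω → ∀ o, |FPn c w P1 P2 U V (ptr F J ω) o -
      nco c w P1 P2 (τP w (ptr F J ω)) (U (ptr F J ω)) (V (ptr F J ω)) (bt F ω) o| ≤
        2 ^ (k + 4) / 2 ^ n := by
    intro ω hω o
    obtain ⟨N, hL⟩ := hnat ω hω
    obtain ⟨r1, r2⟩ := smp_rnd F c ω
    refine (N.near hL hgm (τP w (ptr F J ω)) (b := bP (ptr F J ω)) (b' := bt F ω) r1 r2 o).trans ?_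
    rw [mul_one_div, div_le_div_iff₀ (by positivity) (by positivity), ← pow_add, ← pow_add]
    exact num_le (by omega)
  have hε1 : (2 : ℝ) ^ (k + 4) / 2 ^ n ≤ 1 := by
    rw [div_le_one (by positivity)]
    exact num_le (by omega)
  refine ⟨F.isLaw, hPB, fun y => deg_psh (hU.dP y) (hV.dP y) (q3_deg (hch.degG y 3)),
    fun s => deg_psh (hU.dL s) (hV.dL s) (q3_deg (hch.degH s 3)), fun ω hω => ?_,
    fun ω _ => tn_le F hw ω, fun ω _ => F.dir ω (c 0), fun ω hω j => ?_, fun ω hω o => ?_,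
    fun ω hω j => ?_, fun ω hω j hj hjD => ?_, fun ω hω b hb o j => ?_, ?_, ?_, ?_⟩
  · have hA := hBA ω hω
    show qn c w P1 P2 g (τP w (ptr F J ω)) (U (ptr F J ω)) (V (ptr F J ω)) (G (ptr F J ω) 3) =
      qn c w P1 P2 g (τL (slam F w ω)) (U' (slam F w ω)) (V' (slam F w ω)) (H (slam F w ω) 3)
    rw [hU.cls ω hA, hV.cls ω hA, hcl ω hA 3 (by norm_num)]
    rfl
  · refine (O.dd ω hω j).trans ?_
    rw [hRe]
    exact num_le (by omega)
  · have hA := hBA ω hω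
    have e1 := smp_line F c w P1 P2 (U' := U') (V' := V') ω (hU.dL _) (hV.dL _) o
    rw [← hU.cls ω hA, ← hV.cls ω hA] at e1
    have e2 : (slam F w ω).1.2 (c 0) = F.d ω (c 0) := rfl
    rw [e2, ← e1]
    exact hnr ω hω o
  · refine (O.vel ω hω j).trans ?_
    exact div_le_div_of_nonneg_right (num_le (by omega)) (by positivity)
  · obtain ⟨N, hL⟩ := hnat ω hω
    refine (hown hcl hU hV hBA O hω N hL hgm hJ hC1n (τP w (ptr F J ω)) j hj hjD).trans ?_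
    rw [hRe]
    exact num_le (by omega)
  · obtain ⟨N, hL⟩ := hnat ω hω
    refine (hapr N hL hgm (τP w (ptr F J ω)) (FPn c w P1 P2 U V (ptr F J ω)) rfl
      (fun o => (hnr ω hω o).trans hε1) b hb o j).trans ?_
    rw [hRe, ← pow_mul]
    refine num_le ?_
    have q1 : e + gm ≤ K * k := by omega
    have q2 : C₂ * (k + 1) ≤ C * (k + 1) := Nat.mul_le_mul_right _ (by omega)
    have q3 : K * k ≤ K * (C * (k + 1)) := Nat.mul_le_mul_left _ (by omega)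
    calc C₂ * (k + 1) + 2 * (e + gm) ≤ C * (k + 1) + 2 * (K * (C * (k + 1))) := by omega
      _ = C * (k + 1) * (2 * K + 1) := by ring
  · have q1 : Fre F.p A (ptr F J) (fun ω => F.d ω (c 0)) (1 / R) D κ₀ :=
      fre_mono F.isLaw hfc (one_div_le_one_div_of_le (by positivity) (by
        rw [hRe]
        exact num_le (by omega))) le_rfl le_rfl
    exact q1.part hBA hη hκ₁.le hκ₀ hPA
  · have q1 : Fre F.p A (slam F w) (Tn F w) (1 / R) D κ₀ :=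
      fre_mono F.isLaw hft (one_div_le_one_div_of_le (by positivity) (by
        rw [hRe]
        exact num_le (by omega))) le_rfl le_rfl
    exact q1.part hBA hη hκ₁.le hκ₀ hPA
  · intro B' hB' hP Dx Dl M d1 d2 hM d4 d5
    have hκB : κ * Pe F.p A ≤ κ₁ * Pe F.p B := by
      calc κ * Pe F.p A ≤ κ₁ * η * Pe F.p A := mul_le_mul_of_nonneg_right hκκ hPA
        _ = κ₁ * (η * Pe F.p A) := by ring
        _ ≤ _ := mul_le_mul_of_nonneg_left hη hκ₁.le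
    obtain ⟨B'', b1, b2, b3⟩ := hrel (k := k) hc hD hDr hch hR hBA hκB (AfP.sub hU hBA)
      (AfP.sub hV hBA) ⟨h0, h0'⟩ ⟨h1, h1'⟩ ⟨h2, h2'⟩ O.g0 O.nU O.nV
      (fun ω hω o => (hnr ω hω o).trans hε1) B' hB' hP Dx Dl M d1 d2 hM
      (fun ω hω => d4 ω hω _ (fun o => by
        rw [abs_sub_comm]
        exact hnr ω (hB' ω hω) o)) d5
    have hP' : 0 < Pe F.p B' := lt_of_lt_of_le (mul_pos hκ₁ hPB) hP
    obtain ⟨ω, hω⟩ := ex_pe (p := F.p) (B := B'') (by linarith)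
    refine ⟨ω, b1 ω hω, fun b hb => (b3 ω hω b hb).trans ?_⟩
    refine mul_le_mul_of_nonneg_right ?_ hM.le
    rw [hRe]
    refine num_le ?_
    have q2 : C₃ * (k + 1) + (k + 1) ≤ C * (k + 1) := by
      have q3 : (C₃ + 1) * (k + 1) ≤ C * (k + 1) := Nat.mul_le_mul_right _ (by omega)
      have q4 : (C₃ + 1) * (k + 1) = C₃ * (k + 1) + (k + 1) := by ring
      omega
    omega

end Pool.NV24
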