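import Pool.Agent.H24.NV.S

/-!
# One scale: the nearly affine label of the place three

`NvOneStmt m D`: the event of a closed chart of degree `D` at the window `w`, affine labels of the
places `1`, `2` at `w`, of the place `1` at `w3`, of the place `2` at `w2`: on a part of the event the
ball label of the place `3` is nearly affine on the natural box.
-/

set_option autoImplicit false

namespace Pool.NV24

open Finset Real MvPolynomial
open Pool.Agent.H49.Ent Pool.Agent.H32.Dense Pool.STK Pool.KA Pool.KSAT Pool.K2S Pool.PB Pool.S6C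
open Pool.GEN Pool.CHT Pool.ISO Pool.D2R
open Pool.FLF (Fam.sub)

/-- **One scale.** The small number of digits is `k`, the large one is `n`. -/
def NvOneStmt (m D : ℕ) : Prop := ∃ C : ℕ, ∀ {J : ℕ} {F : Fam m J} {c : ℕ → Fin m}
    {A : F.Ω → Prop} (hA : 0 < Pe F.p A) {w w2 w3 e e2 h Dr k n K P1 P2 h1 h2 : ℕ} {g g' : ℕ → ℕ}
    {κ κ₀ θ : ℝ} {G G2 : PtT F → ℕ → MvPolynomial (Option (Fin m)) ℝ}
    {H H2 : LnT F → ℕ → MvPolynomial (Option (Fin m)) ℝ}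
    {U V U3 V2 : PtT F → MvPolynomial (Option (Fin m)) ℝ}
    {U' V' U3' V2' : LnT F → MvPolynomial (Option (Fin m)) ℝ},
    Set.InjOn c (Set.Iio 4) → 1 ≤ D → D ≤ Dr → w ≤ w2 → w2 ≤ w3 → w3 ≤ J →
    -- the balls at `w` and at `w2`
    ChOK F c 4 (fun _ => D) w w e g A G H → Clsd F 4 w A G H → RelvF F c 3 w w g Dr h κ A G →
    ChOK F c 4 (fun _ => D) w2 w2 e2 g' A G2 H2 → RelvF F c 3 w2 w2 g' Dr h κ A G2 →
    -- the affine labels
    AfP F c 1 w P1 A U U' → AfP F c 2 w P2 A V V' → AfP F c 1 w3 h1 A U3 U3' →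
    AfP F c 2 w2 h2 A V2 V2' →
    -- the time
    0 ≤ θ → (Fam.sub F A hA).Tm θ → C * (θ + 1) ≤ ((J : ℝ) - w3) * Real.log 2 →
    C * (θ + 1) ≤ k →
    -- separated velocities and times
    Fre F.p A (ptr F J) (fun ω => F.d ω (c 0)) (1 / 2 ^ k) D κ₀ →
    Fre F.p A (slam F w) (Tn F w) (1 / 2 ^ k) D κ₀ →
    -- the numbers
    h ≤ k → w ≤ g 0 + k → g 0 ≤ w + k → P1 ≤ g 1 → g 1 ≤ P1 + k → P2 ≤ g 2 → g 2 ≤ P2 + k →
    P2 ≤ h2 → (∀ l ≤ 3, e + g l + n ≤ J) → P1 + w3 + n ≤ w + h1 → P2 + w2 + n ≤ w + h2 →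
    g' 1 + w3 + n ≤ w + h1 → C * (k + 1) ≤ n → J ≤ K * k → κ * (C * (K + 1)) ≤ 1 →
    κ₀ * (C * (K + 1)) ≤ 1 →
    ∃ B : F.Ω → Prop, Sub B A ∧ Pe F.p A ≤ C * Pe F.p B ∧ ∀ ω, B ω →
      ∃ Q : MvPolynomial (Option (Fin m)) ℝ, Q.totalDegree ≤ 1 ∧ DepC c 3 Q ∧
        ∀ b, NBx c (G (ptr F J ω)) g w (F.t ω) 3 b →
          |eval b (G (ptr F J ω) 3) - eval b Q| ≤ 2 ^ (C * (k + 1)) / 2 ^ g 3

end Pool.NV24
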