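import Pool.Agent.H24.NV.Dv
import Pool.Agent.H23.D2.Bwj

/-!
# Natural coordinates over affine frames: definitions and interfaces

`Fre`: separated values on the fibres. `AfP`: an affine closed label. `nco`, `ncd`: the natural
coordinates of a point and of a direction over two affine labels. `FPn`, `l0n`, `kpn`, `J0n`, `J1n`:
the natural position of a point, the natural own line, the slopes of the fan.
-/

set_option autoImplicit false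

namespace Pool.NV24

open Finset Real MvPolynomial
open Pool.Agent.H49.Ent Pool.Agent.H32.Dense Pool.STK Pool.KA Pool.KSAT Pool.K2S Pool.PB Pool.S6C
open Pool.GEN Pool.CHT Pool.ISO Pool.D2R
open Pool.FLF (Fam.sub)

variable {m J : ℕ}

/-- **Separated values on the fibres** of `Z`, on a half of every large part of `A`. -/
def Fre {Ω ζ : Type} [Fintype Ω] (p : Ω → ℝ) (A : Ω → Prop) (Z : Ω → ζ) (κ : Ω → ℝ) (β : ℝ)
    (D : ℕ) (κ₀ : ℝ) : Prop :=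
  ∀ E : Ω → Prop, Sub E A → κ₀ * Pe p A ≤ Pe p E → ∃ B : Ω → Prop, Sub B E ∧
    Pe p E / 2 ≤ Pe p B ∧ ∀ ω, B ω → ∃ ν : ℕ → Ω, (∀ i ≤ D, E (ν i) ∧ Z (ν i) = Z ω) ∧
      ∀ i ≤ D, ∀ j ≤ D, i ≠ j → β ≤ |κ (ν i) - κ (ν j)|

/-- **An affine closed label** of the place `i` at the window `w`, precision `2 ^ (-P)`. -/
structure AfP (F : Fam m J) (c : ℕ → Fin m) (i w P : ℕ) (A : F.Ω → Prop)
    (U : PtT F → MvPolynomial (Option (Fin m)) ℝ) (U' : LnT F → MvPolynomial (Option (Fin m)) ℝ) :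
    Prop where
  dP : ∀ y, (U y).totalDegree ≤ 1
  dL : ∀ s, (U' s).totalDegree ≤ 1
  eP : ∀ y, DepC c i (U y)
  eL : ∀ s, DepC c i (U' s)
  cls : ∀ ω, A ω → U (ptr F J ω) = U' (slam F w ω)
  pos : ∀ ω, A ω → |F.x ω (c i) - eval (bt F ω) (U (ptr F J ω))| ≤ 1 / 2 ^ P

/-- The coefficient of an affine polynomial. -/
noncomputable def pc (U : MvPolynomial (Option (Fin m)) ℝ) (o : Option (Fin m)) : ℝ :=
  eval (fun _ => 0) (pderiv o U)

/-- **The natural coordinates of a point** over the affine labels `U` of `c 1` and `V` of `c 2`;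
`τ` is the number of the window. -/
noncomputable def nco (c : ℕ → Fin m) (w g1 g2 : ℕ) (τ : ℝ)
    (U V : MvPolynomial (Option (Fin m)) ℝ) (b : Option (Fin m) → ℝ) : V4 :=
  vec (2 ^ w * b none - τ) (2 ^ w * b (some (c 0)))
    ![2 ^ g1 * (b (some (c 1)) - eval b U), 2 ^ g2 * (b (some (c 2)) - eval b V)]

/-- **The natural slopes** of the places `1` and `2` along a direction `v` with `v none = 1`. -/
noncomputable def Ddn (w g1 g2 : ℕ) (c : ℕ → Fin m) (U V : MvPolynomial (Option (Fin m)) ℝ)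
    (v : Option (Fin m) → ℝ) : Fin 2 → ℝ :=
  ![2 ^ g1 / 2 ^ w * (v (some (c 1)) - ∑ o, v o * pc U o),
    2 ^ g2 / 2 ^ w * (v (some (c 2)) - ∑ o, v o * pc V o)]

/-- The position of a point of resolution `J`. -/
noncomputable def bP {F : Fam m J} (y : PtT F) : Option (Fin m) → ℝ
  | none => (y.2.1 : ℝ) / 2 ^ J
  | some k => (y.1 k : ℝ) / 2 ^ J

/-- The number of the window of a point. -/
noncomputable def τP {F : Fam m J} (w : ℕ) (y : PtT F) : ℝ := ((y.2.1 / 2 ^ (J - w) : ℕ) : ℝ)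

/-- The number of the window of a line cell. -/
def τL {F : Fam m J} (s : LnT F) : ℝ := (s.2.2 : ℝ)

/-- The position of the own line at the beginning of the window. -/
noncomputable def bL {F : Fam m J} (w : ℕ) (s : LnT F) : Option (Fin m) → ℝ
  | none => (s.2.2 : ℝ) / 2 ^ w
  | some k => s.1.1 k + (s.2.2 : ℝ) / 2 ^ w * s.1.2 k

/-- The direction of the own line. -/
def vL {F : Fam m J} (s : LnT F) : Option (Fin m) → ℝ
  | none => 1
  | some k => s.1.2 k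

/-- **The natural position** of a point. -/
noncomputable def FPn {F : Fam m J} (c : ℕ → Fin m) (w g1 g2 : ℕ)
    (U V : PtT F → MvPolynomial (Option (Fin m)) ℝ) (y : PtT F) : V4 :=
  nco c w g1 g2 (τP w y) (U y) (V y) (bP y)

/-- **The natural own line** at the beginning of the window. -/
noncomputable def l0n {F : Fam m J} (c : ℕ → Fin m) (w g1 g2 : ℕ)
    (U' V' : LnT F → MvPolynomial (Option (Fin m)) ℝ) (s : LnT F) : V4 :=
  nco c w g1 g2 (τL s) (U' s) (V' s) (bL w s)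

/-- **The natural slopes of the own line.** -/
noncomputable def DLn {F : Fam m J} (c : ℕ → Fin m) (w g1 g2 : ℕ)
    (U' V' : LnT F → MvPolynomial (Option (Fin m)) ℝ) (s : LnT F) : Fin 2 → ℝ :=
  Ddn w g1 g2 c (U' s) (V' s) (vL s)

/-- The natural time in the window. -/
noncomputable def Tn (F : Fam m J) (w : ℕ) (ω : F.Ω) : ℝ := 2 ^ w * F.t ω - (F.T1 w ω : ℝ)

/-- **The slopes of the fan** at a point in the direction `o` (`none` or `some (c 0)`), from a label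
`U3` of `c 1` at a much later window and a label `V2` of `c 2` at a later window. -/
noncomputable def Jn {F : Fam m J} (c : ℕ → Fin m) (w g1 g2 : ℕ)
    (U V U3 V2 : PtT F → MvPolynomial (Option (Fin m)) ℝ) (o : Option (Fin m)) (y : PtT F) :
    Fin 2 → ℝ :=
  ![2 ^ g1 / 2 ^ w * (pc (U3 y) o - pc (U y) o),
    2 ^ g2 / 2 ^ w * ((pc (V2 y) o - pc (V y) o) +
      pc (U3 y) o * (pc (V2 y) (some (c 1)) - pc (V y) (some (c 1))))]

/-! ### Interfaces -/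

/-- **(P3) The velocities** are in the plane of the fan of the point. -/
def VelJStmt (m : ℕ) : Prop := ∃ C : ℝ, 1 ≤ C ∧ ∀ {J : ℕ} {F : Fam m J} {c : ℕ → Fin m}
    {A : F.Ω → Prop} (hA : 0 < Pe F.p A) {w w2 w3 g1 g2 h1 h2 : ℕ}
    {U V U3 V2 : PtT F → MvPolynomial (Option (Fin m)) ℝ}
    {U' V' U3' V2' : LnT F → MvPolynomial (Option (Fin m)) ℝ} {θ : ℝ},
    Set.InjOn c (Set.Iio 4) → w ≤ w2 → w2 ≤ w3 → w3 ≤ J → 0 ≤ θ →
    AfP F c 1 w g1 A U U' → AfP F c 2 w g2 A V V' → AfP F c 1 w3 h1 A U3 U3' →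
    AfP F c 2 w2 h2 A V2 V2' → (Fam.sub F A hA).Tm θ → C * (θ + 1) ≤ ((J : ℝ) - w3) * Real.log 2 →
    ∃ B : F.Ω → Prop, Sub B A ∧ Pe F.p A / 16 ≤ Pe F.p B ∧ ∀ ω, B ω →
      (∀ j, |DLn c w g1 g2 U' V' (slam F w ω) j| ≤ Real.exp (C * (θ + 1))) ∧
      |DLn c w g1 g2 U' V' (slam F w ω) 0 - (Jn c w g1 g2 U V U3 V2 none (ptr F J ω) 0 +
        F.d ω (c 0) * Jn c w g1 g2 U V U3 V2 (some (c 0)) (ptr F J ω) 0)| ≤
        Real.exp (C * (θ + 1)) * (2 ^ g1 / 2 ^ w * (2 ^ w3 / 2 ^ h1)) ∧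
      |DLn c w g1 g2 U' V' (slam F w ω) 1 - (Jn c w g1 g2 U V U3 V2 none (ptr F J ω) 1 +
        F.d ω (c 0) * Jn c w g1 g2 U V U3 V2 (some (c 0)) (ptr F J ω) 1)| ≤
        Real.exp (C * (θ + 1)) * (2 ^ g2 / 2 ^ w * (2 ^ w2 / 2 ^ h2) +
          2 ^ g2 / 2 ^ w * (2 ^ w3 / 2 ^ h1) *
            |pc (V2 (ptr F J ω)) (some (c 1)) - pc (V (ptr F J ω)) (some (c 1))|)

/-- **(P2) An affine label is near the ball label** of the same window on the natural box. -/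
def AfBallStmt : Prop := ∀ {m J : ℕ} {F : Fam m J} {c : ℕ → Fin m} {w e h Dr D : ℕ}
    {g : ℕ → ℕ} {κ κ' : ℝ} {B : F.Ω → Prop}
    {G : PtT F → ℕ → MvPolynomial (Option (Fin m)) ℝ}
    {H : LnT F → ℕ → MvPolynomial (Option (Fin m)) ℝ} {i P : ℕ}
    {U : PtT F → MvPolynomial (Option (Fin m)) ℝ} {U' : LnT F → MvPolynomial (Option (Fin m)) ℝ},
    Set.InjOn c (Set.Iio 4) → 1 ≤ D → D ≤ Dr → i ≤ 2 → ChOK F c 4 (fun _ => D) w w e g B G H →
    Clsd F 4 w B G H → RelvF F c 3 w w g Dr h κ B G → κ ≤ κ' → AfP F c i w P B U U' →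
    P ≤ g i → ∀ B' : F.Ω → Prop, Sub B' B → κ' * Pe F.p B ≤ Pe F.p B' →
    ∃ B'' : F.Ω → Prop, Sub B'' B' ∧ Pe F.p B' / 2 ≤ Pe F.p B'' ∧ ∀ ω, B'' ω → ∀ b,
      NBx c (G (ptr F J ω)) g w (F.t ω) i b →
        |eval b (U (ptr F J ω)) - eval b (G (ptr F J ω) i)| ≤ 2 ^ (h + 1) / 2 ^ P

/-- **(P2) The slope of the label of `c 2` in the direction `c 1`**: labels at two windows. -/
def SlopeStmt : Prop := ∃ C : ℕ, ∀ {m J : ℕ} {F : Fam m J} {c : ℕ → Fin m} {w w2 e h Dr D : ℕ}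
    {g : ℕ → ℕ} {κ κ' : ℝ} {B : F.Ω → Prop}
    {G : PtT F → ℕ → MvPolynomial (Option (Fin m)) ℝ}
    {H : LnT F → ℕ → MvPolynomial (Option (Fin m)) ℝ} {P P2 : ℕ}
    {V V2 : PtT F → MvPolynomial (Option (Fin m)) ℝ}
    {V' V2' : LnT F → MvPolynomial (Option (Fin m)) ℝ},
    Set.InjOn c (Set.Iio 4) → 1 ≤ D → D ≤ Dr → w ≤ w2 → w2 ≤ J →
    ChOK F c 4 (fun _ => D) w2 w2 e g B G H → RelvF F c 3 w2 w2 g Dr h κ B G → κ ≤ κ' →
    AfP F c 2 w P B V V' → AfP F c 2 w2 P2 B V2 V2' → P ≤ P2 →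
    ∀ B' : F.Ω → Prop, Sub B' B → κ' * Pe F.p B ≤ Pe F.p B' →
    ∃ B'' : F.Ω → Prop, Sub B'' B' ∧ Pe F.p B' / 2 ≤ Pe F.p B'' ∧ ∀ ω, B'' ω →
      |pc (V2 (ptr F J ω)) (some (c 1)) - pc (V (ptr F J ω)) (some (c 1))| ≤
        2 ^ (h + C + g 1) / 2 ^ P

/-- **(P4) No relation in natural coordinates.** -/
def RelvNStmt : Prop := ∀ D : ℕ, ∃ C : ℕ, ∀ {m J : ℕ} {F : Fam m J} {c : ℕ → Fin m}
    {w e h k Dr : ℕ} {g : ℕ → ℕ} {κ κ' : ℝ} {B B₁ : F.Ω → Prop}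
    {G : PtT F → ℕ → MvPolynomial (Option (Fin m)) ℝ}
    {H : LnT F → ℕ → MvPolynomial (Option (Fin m)) ℝ} {g1 g2 : ℕ}
    {U V : PtT F → MvPolynomial (Option (Fin m)) ℝ} {U' V' : LnT F → MvPolynomial (Option (Fin m)) ℝ},
    Set.InjOn c (Set.Iio 4) → 1 ≤ D → D ≤ Dr → w ≤ J → ChOK F c 4 (fun _ => D) w w e g B G H →
    RelvF F c 3 w w g Dr h κ B G → Sub B₁ B → 0 < Pe F.p B₁ → κ * Pe F.p B ≤ κ' * Pe F.p B₁ →
    AfP F c 1 w g1 B₁ U U' → AfP F c 2 w g2 B₁ V V' →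
    -- the sides are comparable, up to `k`
    (w ≤ g 0 + k ∧ g 0 ≤ w + k) → (g 1 ≤ g1 + k ∧ g1 ≤ g 1 + k) → (g 2 ≤ g2 + k ∧ g2 ≤ g 2 + k) →
    g 0 ≤ J → g 1 ≤ J → g 2 ≤ J → g1 ≤ J → g2 ≤ J →
    -- the affine labels are near the ball labels
    (∀ ω, B₁ ω → ∀ b, NBx c (G (ptr F J ω)) g w (F.t ω) 1 b →
      |eval b (U (ptr F J ω)) - eval b (G (ptr F J ω) 1)| ≤ 2 ^ k / 2 ^ g1) →
    (∀ ω, B₁ ω → ∀ b, NBx c (G (ptr F J ω)) g w (F.t ω) 2 b →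
      |eval b (V (ptr F J ω)) - eval b (G (ptr F J ω) 2)| ≤ 2 ^ k / 2 ^ g2) →
    -- the natural position is known to the point
    (∀ ω, B₁ ω → ∀ o, |FPn c w g1 g2 U V (ptr F J ω) o -
      nco c w g1 g2 (F.T1 w ω) (U (ptr F J ω)) (V (ptr F J ω)) (bt F ω) o| ≤ 1) →
    ∀ B' : F.Ω → Prop, Sub B' B₁ → κ' * Pe F.p B₁ ≤ Pe F.p B' →
    ∀ (Dx : PtT F → P4) (Dl : LnT F → P4) (M : ℝ), (∀ y, (Dx y).totalDegree ≤ D) →
      (∀ s, (Dl s).totalDegree ≤ D) → 0 < M →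
      (∀ ω, B' ω → |eval (nco c w g1 g2 (F.T1 w ω) (U (ptr F J ω)) (V (ptr F J ω)) (bt F ω))
        (Dx (ptr F J ω))| ≤ M) →
      (∀ ω, B' ω → ∀ b : V4, (∀ o, |b o - FPn c w g1 g2 U V (ptr F J ω) o| ≤ 1) →
        |eval b (Dx (ptr F J ω)) - eval b (Dl (slam F w ω))| ≤ M) →
      ∃ ω, B' ω ∧ ∀ b : V4, (∀ o, |b o - FPn c w g1 g2 U V (ptr F J ω) o| ≤ 1) →
        |eval b (Dx (ptr F J ω))| ≤ 2 ^ (h + C * (k + e + 1)) * M

end Pool.NV24
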