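import Pool.Agent.H24.NV.Ev2
import Pool.Agent.H24.NV.Fld
import Pool.Agent.H24.NV.Law

/-!
# One scale: the fields at a sample

`smp_nat`: the pointwise data at a sample. `smp_lin`: the own line in natural coordinates. `smp_own`:
the own jets at the rounded position. `smp_apr`: the rough bound of the vertical second derivatives.
-/

set_option autoImplicit false

namespace Pool.NV24

open Finset Real MvPolynomial
open Pool.Agent.H49.Ent Pool.Agent.H32.Dense Pool.STK Pool.KA Pool.KSAT Pool.K2S Pool.PB Pool.S6C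
open Pool.GEN Pool.CHT Pool.ISO Pool.D2R
open Pool.LA91 (lp eval_alp jet jet_cmul jet_sub ojet)
open Pool.NVA91 (nco_pt dvp aff_ev sum_pc1 sum_pc2 pos_rnd AfP.sub)
open Pool.AFK25 (psh eval_psh deg_psh jet_one nes jet_psh dep_jet nco_add ndir ndir_one jet_nat)

variable {m J : ℕ}

/-- The natural time is between zero and one. -/
theorem tn_le (F : Fam m J) {w : ℕ} (hw : w ≤ J) (ω : F.Ω) : |Tn F w ω| ≤ 1 := by
  obtain ⟨r, hr⟩ : ∃ r, r = F.T ω % 2 ^ (J - w) := ⟨_, rfl⟩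
  have h1 := Nat.div_add_mod (F.T ω) (2 ^ (J - w))
  have h2 := Nat.mod_lt (F.T ω) (show 0 < 2 ^ (J - w) by positivity)
  rw [← hr] at h1 h2
  have e1 : (2 : ℝ) ^ J = 2 ^ (J - w) * 2 ^ w := by
    rw [← pow_add]
    congr 1
    omega
  have e2 : Tn F w ω = (r : ℝ) / 2 ^ (J - w) := by
    have h3 : (F.T ω : ℝ) = 2 ^ (J - w) * (F.T1 w ω : ℝ) + r := by
      have h4 : F.T ω = 2 ^ (J - w) * (F.T ω / 2 ^ (J - w)) + r := h1.symm
      have h5 : ((F.T ω : ℕ) : ℝ) = ((2 ^ (J - w) * (F.T ω / 2 ^ (J - w)) + r : ℕ) : ℝ) := by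
        exact_mod_cast h4
      rw [h5]
      push_cast
      rfl
    unfold Tn Fam.t
    rw [h3, e1]
    field_simp
    ring
  rw [e2, abs_of_nonneg (by positivity), div_le_one (by positivity)]
  have : (r : ℝ) < ((2 ^ (J - w) : ℕ) : ℝ) := by exact_mod_cast h2
  push_cast at this
  linarith

/-- The base point on the own line. -/
theorem bt_line (F : Fam m J) (w : ℕ) (ω : F.Ω) :
    bt F ω = fun o => bL w (slam F w ω) o + Tn F w ω / 2 ^ w * vL (slam F w ω) o := by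
  have hw : (0 : ℝ) < 2 ^ w := by positivity
  funext o
  match o with
  | none =>
    show F.t ω = (F.T1 w ω : ℝ) / 2 ^ w + (2 ^ w * F.t ω - F.T1 w ω) / 2 ^ w * 1
    field_simp
    ring
  | some x =>
    show F.u ω x + F.t ω * F.d ω x = F.u ω x + (F.T1 w ω : ℝ) / 2 ^ w * F.d ω x +
      (2 ^ w * F.t ω - F.T1 w ω) / 2 ^ w * F.d ω x
    field_simp
    ring

/-- **The own line in natural coordinates.** -/
theorem smp_line (F : Fam m J) (c : ℕ → Fin m) (w g1 g2 : ℕ)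
    {U' V' : LnT F → MvPolynomial (Option (Fin m)) ℝ} (ω : F.Ω)
    (hU : (U' (slam F w ω)).totalDegree ≤ 1) (hV : (V' (slam F w ω)).totalDegree ≤ 1)
    (o : Option (Fin 3)) :
    nco c w g1 g2 (τL (slam F w ω)) (U' (slam F w ω)) (V' (slam F w ω)) (bt F ω) o =
      l0n c w g1 g2 U' V' (slam F w ω) o + Tn F w ω *
        vec 1 (F.d ω (c 0)) (DLn c w g1 g2 U' V' (slam F w ω)) o := by
  have hw : (0 : ℝ) < 2 ^ w := by positivity
  rw [bt_line F w ω, nco_add hU hV, ndir_one (v := vL (slam F w ω)) rfl]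
  show nco c w g1 g2 (τL (slam F w ω)) (U' (slam F w ω)) (V' (slam F w ω)) (bL w (slam F w ω)) o +
    Tn F w ω / 2 ^ w * (2 ^ w * vec 1 (F.d ω (c 0)) (DLn c w g1 g2 U' V' (slam F w ω)) o) = _
  unfold l0n
  field_simp

section

variable {F : Fam m J} {c : ℕ → Fin m} {A B : F.Ω → Prop} {w e k n P1 P2 D : ℕ} {g : ℕ → ℕ}
  {G : PtT F → ℕ → MvPolynomial (Option (Fin m)) ℝ}
  {H : LnT F → ℕ → MvPolynomial (Option (Fin m)) ℝ}
  {U V U3 V2 : PtT F → MvPolynomial (Option (Fin m)) ℝ}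
  {U' V' : LnT F → MvPolynomial (Option (Fin m)) ℝ}

/-- **The pointwise data at a sample.** -/
theorem smp_nat (hc : Set.InjOn c (Set.Iio 4)) (hD : 1 ≤ D)
    (hch : ChOK F c 4 (fun _ => D) w w e g A G H) (hU : AfP F c 1 w P1 A U U')
    (hV : AfP F c 2 w P2 A V V') (hBA : Sub B A)
    (O : OnP F c D w P1 P2 k n g G U V U3 V2 U' V' B) (h0 : w ≤ g 0 + k) (h0' : g 0 ≤ w + k)
    (h1 : g 1 ≤ P1 + k) (h1' : P1 ≤ g 1 + k) (h2 : g 2 ≤ P2 + k) (h2' : P2 ≤ g 2 + k) {ω : F.Ω}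
    (hω : B ω) : NatP c D w P1 P2 k g (G (ptr F J ω)) (U (ptr F J ω)) (V (ptr F J ω)) (bt F ω) ∧
      LipG c w e g (G (ptr F J ω)) (bt F ω) :=
  ⟨⟨hc.mono (Set.Iio_subset_Iio (by omega)), hD, hch.degG _, hch.depG _, hU.dP _, hV.dP _,
    hU.eP _, hV.eP _, hU.pos ω (hBA ω hω), hV.pos ω (hBA ω hω), O.g0 ω hω, O.nU ω hω, O.nV ω hω,
    h0, h0', h1, h1', h2, h2'⟩, fun i hi b hb l hl => hch.lip ω (hBA ω hω) i hi b hb l hl⟩

/-- The rounded position. -/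
theorem smp_rnd (F : Fam m J) (c : ℕ → Fin m) (ω : F.Ω) : bP (ptr F J ω) none = bt F ω none ∧
    ∀ l < 3, |bP (ptr F J ω) (some (c l)) - bt F ω (some (c l))| ≤ 1 / 2 ^ J :=
  ⟨rfl, fun l _ => by
    rw [abs_sub_comm]
    exact pos_rnd F ω (c l)⟩

/-- Higher jets of a coordinate vanish. -/
theorem jet_X0 (x : Fin m) {j : ℕ} (hj : 2 ≤ j) (b v : Option (Fin m) → ℝ) :
    jet j (X (some x)) b v = 0 := by
  unfold jet
  rw [aeval_X]
  have h1 : (lp b v (some x)).natDegree < j := lt_of_le_of_lt (Pool.LA91.natDegree_lp b v _) hj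
  rw [Polynomial.iterate_derivative_eq_zero h1, Polynomial.eval_zero]

/-- **The own jets at the sample** in natural coordinates. -/
theorem smp_jet (hcl : Clsd F 4 w A G H) (hU : AfP F c 1 w P1 A U U') (hV : AfP F c 2 w P2 A V V')
    (hBA : Sub B A) (O : OnP F c D w P1 P2 k n g G U V U3 V2 U' V' B) {ω : F.Ω} (hω : B ω)
    (N : NatP c D w P1 P2 k g (G (ptr F J ω)) (U (ptr F J ω)) (V (ptr F J ω)) (bt F ω)) (τ : ℝ)
    {j : ℕ} (hj : 2 ≤ j) (hjD : j ≤ D) :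
    |eval (nco c w P1 P2 τ (U (ptr F J ω)) (V (ptr F J ω)) (bt F ω))
      ((dv (vec 1 (F.d ω (c 0)) (DLn c w P1 P2 U' V' (slam F w ω))))^[j]
        (qn c w P1 P2 g τ (U (ptr F J ω)) (V (ptr F J ω)) (G (ptr F J ω) 3)))| ≤ 2 ^ k := by
  have hQe : DepC c 3 (q3 g (G (ptr F J ω) 3)) := q3_dep (N.dep 3)
  have h1 := jet_nat N.inj w P1 P2 τ N.eU N.eV hQe N.dU N.dV j (bt F ω) (bd F ω) rfl
  have h2 : vec 1 (bd F ω (some (c 0))) (Ddn w P1 P2 c (U (ptr F J ω)) (V (ptr F J ω)) (bd F ω)) =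
      vec 1 (F.d ω (c 0)) (DLn c w P1 P2 U' V' (slam F w ω)) := by
    have e1 := hU.cls ω (hBA ω hω)
    have e2 := hV.cls ω (hBA ω hω)
    unfold DLn
    rw [← e1, ← e2]
    have e3 : vL (slam F w ω) = bd F ω := by
      funext o
      match o with
      | none => rfl
      | some x => rfl
    rw [e3]
    rfl
  rw [h2] at h1
  have h3 : jet j (q3 g (G (ptr F J ω) 3)) (bt F ω) (bd F ω) =
      2 ^ g 3 * jet j (G (ptr F J ω) 3) (bt F ω) (bd F ω) := jet_cmul _ _ _ _ _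
  have h4 := O.own ω hω j hjD
  have h5 : |jet j (G (ptr F J ω) 3) (bt F ω) (bd F ω)| ≤ 2 ^ k * (2 ^ w) ^ j / 2 ^ g 3 := by
    unfold ojet at h4
    rw [jet_sub, jet_X0 (c 3) hj, zero_sub, abs_neg] at h4
    exact h4
  have hw : (0 : ℝ) < (2 ^ w) ^ j := by positivity
  have h6 : |(2 ^ w) ^ j * eval (nco c w P1 P2 τ (U (ptr F J ω)) (V (ptr F J ω)) (bt F ω))
      ((dv (vec 1 (F.d ω (c 0)) (DLn c w P1 P2 U' V' (slam F w ω))))^[j]
        (psh c w P1 P2 τ (U (ptr F J ω)) (V (ptr F J ω)) (q3 g (G (ptr F J ω) 3))))| ≤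
      2 ^ k * (2 ^ w) ^ j := by
    rw [← h1, h3, abs_mul, abs_of_pos (show (0 : ℝ) < 2 ^ g 3 by positivity)]
    calc (2 : ℝ) ^ g 3 * |jet j (G (ptr F J ω) 3) (bt F ω) (bd F ω)| ≤
          2 ^ g 3 * (2 ^ k * (2 ^ w) ^ j / 2 ^ g 3) := mul_le_mul_of_nonneg_left h5 (by positivity)
      _ = _ := by field_simp
  rw [abs_mul, abs_of_pos hw, mul_comm] at h6
  exact le_of_mul_le_mul_right h6 hw

end

/-- **The own jets at the rounded position.** -/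
theorem smp_own (D : ℕ) : ∃ C₀ : ℕ, ∀ {m J : ℕ} {F : Fam m J} {c : ℕ → Fin m} {A B : F.Ω → Prop}
    {w e k n P1 P2 gm : ℕ} {g : ℕ → ℕ} {G : PtT F → ℕ → MvPolynomial (Option (Fin m)) ℝ}
    {H : LnT F → ℕ → MvPolynomial (Option (Fin m)) ℝ}
    {U V U3 V2 : PtT F → MvPolynomial (Option (Fin m)) ℝ}
    {U' V' : LnT F → MvPolynomial (Option (Fin m)) ℝ} {ω : F.Ω},
    Clsd F 4 w A G H → AfP F c 1 w P1 A U U' → AfP F c 2 w P2 A V V' → Sub B A →
    OnP F c D w P1 P2 k n g G U V U3 V2 U' V' B → B ω →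
    NatP c D w P1 P2 k g (G (ptr F J ω)) (U (ptr F J ω)) (V (ptr F J ω)) (bt F ω) →
    LipG c w e g (G (ptr F J ω)) (bt F ω) → (∀ l ≤ 3, g l ≤ gm) → e + gm + n ≤ J →
    C₀ * (k + 1) ≤ n → ∀ (τ : ℝ) (j : ℕ), 2 ≤ j → j ≤ D →
    |eval (nco c w P1 P2 τ (U (ptr F J ω)) (V (ptr F J ω)) (bP (ptr F J ω)))
      ((dv (vec 1 (F.d ω (c 0)) (DLn c w P1 P2 U' V' (slam F w ω))))^[j]
        (qn c w P1 P2 g τ (U (ptr F J ω)) (V (ptr F J ω)) (G (ptr F J ω) 3)))| ≤ 2 ^ (k + 1) := by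
  obtain ⟨C₁, hC₁, hshift⟩ := jet_shift D
  obtain ⟨C₂, hbd⟩ := qn_bd D
  obtain ⟨c₁, hc₁⟩ := pow_unbounded_of_one_lt C₁ (one_lt_two (α := ℝ))
  refine ⟨C₂ + (c₁ + 1) * (D + 1) + 4, ?_⟩
  intro m J F c A B w e k n P1 P2 gm g G H U V U3 V2 U' V' ω hcl hU hV hBA O hω N hL hgm hJ hn τ j
    hj hjD
  obtain ⟨r1, r2⟩ := smp_rnd F c ω
  have hnear := N.near hL hgm τ (b := bP (ptr F J ω)) (b' := bt F ω) r1 r2
  have hk4 : k + 4 ≤ n := by
    have h1 : C₂ + (c₁ + 1) * (D + 1) + 4 = C₂ + c₁ * (D + 1) + D + 5 := by ring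
    have h2 : k + 4 ≤ (C₂ + (c₁ + 1) * (D + 1) + 4) * (k + 1) := by
      rw [h1]
      nlinarith [Nat.zero_le (C₂ * k), Nat.zero_le (c₁ * (D + 1) * k), Nat.zero_le (D * k)]
    omega
  have hnear1 : ∀ o, |nco c w P1 P2 τ (U (ptr F J ω)) (V (ptr F J ω)) (bP (ptr F J ω)) o -
      nco c w P1 P2 τ (U (ptr F J ω)) (V (ptr F J ω)) (bt F ω) o| ≤ 1 := by
    intro o
    refine (hnear o).trans ?_
    rw [mul_one_div, div_le_one (by positivity)]
    exact pow_le_pow_right₀ (by norm_num) (by omega)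
  have hκ : ∀ o, |vec 1 (F.d ω (c 0)) (DLn c w P1 P2 U' V' (slam F w ω)) o| ≤ 2 ^ k := by
    have h1 : (1 : ℝ) ≤ 2 ^ k := one_le_pow₀ (by norm_num)
    exact vec_bd (by rw [abs_one]; exact h1) ((F.dir ω (c 0)).trans h1) (O.dd ω hω)
  have hs := hshift (qn c w P1 P2 g τ (U (ptr F J ω)) (V (ptr F J ω)) (G (ptr F J ω) 3))
    (nco c w P1 P2 τ (U (ptr F J ω)) (V (ptr F J ω)) (bt F ω))
    (nco c w P1 P2 τ (U (ptr F J ω)) (V (ptr F J ω)) (bP (ptr F J ω)))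
    (vec 1 (F.d ω (c 0)) (DLn c w P1 P2 U' V' (slam F w ω))) (2 ^ k)
    (2 ^ (C₂ * (k + 1) + (e + gm)) * (1 / 2 ^ J)) (deg_psh N.dU N.dV (q3_deg (N.deg 3)))
    (one_le_pow₀ (by norm_num)) (by positivity) hκ (by
      show 2 ^ w * bP (ptr F J ω) none - τ = 2 ^ w * bt F ω none - τ
      rw [r1]) hnear1 (fun ξ h0 h1 => ((hbd N hL hgm r1 (by positivity) r2 τ ξ h0 h1).2)) j
      (by omega)
  have hjet := smp_jet hcl hU hV hBA O hω N τ hj hjD
  have hsm : (C₁ * 2 ^ k) ^ j * (C₁ * (2 ^ (C₂ * (k + 1) + (e + gm)) * (1 / 2 ^ J))) ≤ 1 := by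
    have h1 : (C₁ * 2 ^ k) ^ j ≤ 2 ^ ((c₁ + k) * j) := by
      rw [pow_mul]
      refine pow_le_pow_left₀ (by positivity) ?_ j
      rw [pow_add]
      exact mul_le_mul_of_nonneg_right hc₁.le (by positivity)
    have h2 : C₁ * (2 ^ (C₂ * (k + 1) + (e + gm)) * (1 / 2 ^ J)) ≤
        2 ^ (c₁ + (C₂ * (k + 1) + (e + gm))) / 2 ^ J := by
      rw [mul_one_div, mul_div_assoc', pow_add 2 c₁]
      exact div_le_div_of_nonneg_right (mul_le_mul_of_nonneg_right hc₁.le (by positivity))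
        (by positivity)
    refine (mul_le_mul h1 h2 (by positivity) (by positivity)).trans ?_
    rw [mul_div_assoc', ← pow_add, div_le_one (by positivity)]
    refine pow_le_pow_right₀ (by norm_num) ?_
    have h3 : (c₁ + k) * j ≤ (c₁ + k) * D := Nat.mul_le_mul_left _ hjD
    have h4 : (c₁ + k) * D + c₁ + C₂ * (k + 1) ≤ (C₂ + (c₁ + 1) * (D + 1) + 4) * (k + 1) := by
      nlinarith [Nat.zero_le (c₁ * D * k), Nat.zero_le (c₁ * k), Nat.zero_le (D * k)]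
    omega
  have h5 := hs.trans hsm
  have h1k : (1 : ℝ) ≤ 2 ^ k := one_le_pow₀ (by norm_num)
  rw [pow_succ]
  have a1 := abs_le.1 h5
  have a2 := abs_le.1 hjet
  rw [abs_le]
  constructor <;> linarith [a1.1, a1.2, a2.1, a2.2]

/-- **The rough bound** of the vertical second derivatives. -/
theorem smp_apr (D : ℕ) : ∃ C₀ : ℕ, ∀ {m : ℕ} {c : ℕ → Fin m} {w g1 g2 k : ℕ} {g : ℕ → ℕ}
    {G : ℕ → MvPolynomial (Option (Fin m)) ℝ} {U V : MvPolynomial (Option (Fin m)) ℝ}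
    {a : Option (Fin m) → ℝ} {e gm : ℕ}, NatP c D w g1 g2 k g G U V a →
    LipG c w e g G a → (∀ l ≤ 3, g l ≤ gm) → ∀ (τ : ℝ) (x : V4),
    x none = nco c w g1 g2 τ U V a none → (∀ o, |x o - nco c w g1 g2 τ U V a o| ≤ 1) →
    ∀ b : V4, (∀ o, |b o - x o| ≤ 1) → ∀ o j,
      |eval b (pderiv o (pderiv (vt j) (qn c w g1 g2 g τ U V (G 3))))| ≤
        2 ^ (C₀ * (k + 1) + 2 * (e + gm)) := by
  obtain ⟨C₁, hC₁, hpd⟩ := bx_pd D
  obtain ⟨C₂, hbd⟩ := qn_bd D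
  obtain ⟨c₁, hc₁⟩ := pow_unbounded_of_one_lt C₁ (one_lt_two (α := ℝ))
  refine ⟨C₂ + c₁, ?_⟩
  intro m c w g1 g2 k g G U V a e gm N hL hgm τ x hx0 hx b hb o j
  have hdeg : (qn c w g1 g2 g τ U V (G 3)).totalDegree ≤ D := deg_psh N.dU N.dV (q3_deg (N.deg 3))
  have h1 := hpd (pderiv (vt j) (qn c w g1 g2 g τ U V (G 3))) x
    (2 ^ (C₂ * (k + 1) + 2 * (e + gm))) (pd_deg _ hdeg) (fun ξ hξ =>
      (hbd (a' := a) (δ := 0) N hL hgm rfl le_rfl (fun l _ => by rw [sub_self, abs_zero]) τ ξ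
        (by rw [← hx0]; exact hξ none) (fun o => by
          have a1 := abs_le.1 (hξ o)
          have a2 := abs_le.1 (hx o)
          rw [abs_le]
          constructor <;> linarith [a1.1, a1.2, a2.1, a2.2])).1 j) b hb o
  refine h1.trans ?_
  calc C₁ * 2 ^ (C₂ * (k + 1) + 2 * (e + gm)) ≤ 2 ^ c₁ * 2 ^ (C₂ * (k + 1) + 2 * (e + gm)) :=
        mul_le_mul_of_nonneg_right hc₁.le (by positivity)
    _ = 2 ^ (c₁ + (C₂ * (k + 1) + 2 * (e + gm))) := by rw [← pow_add]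
    _ ≤ _ := by
        refine pow_le_pow_right₀ (by norm_num) ?_
        nlinarith [Nat.zero_le (c₁ * k)]

end Pool.NV24
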